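import Pool.Agent.Lib.MP_5c318e_ag.RD.RDefs
import Pool.Agent.Lib.MP_9ff3e7_ag.F.HCalc
import Pool.Agent.Lib.MP_9ff3e7_ag.F.LeviC

/-! Germs and pointwise calculus on a Riemann domain. -/

set_option autoImplicit false
set_option linter.unusedSectionVars false

namespace Pool.Agent.Lib.MP_5c318e_ag

open MeasureTheory Set Filter Topology Complex
open scoped ContDiff ComplexConjugate
open Pool.Agent.Lib.MP_9ff3e7_ag

noncomputable section

namespace RD

variable {ι : Type} [Fintype ι] {S : Type} [TopologicalSpace S] [MeasurableSpace S] (D : RD ι S)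

theorem mem_src (x : S) : x ∈ (D.ch x).source := (D.loc x).choose_spec.1

theorem ch_coe (x : S) : ⇑(D.ch x) = D.π := (D.loc x).choose_spec.2.symm

theorem cont_π : Continuous D.π := D.loc.continuous

variable {D}

theorem π_mem {x y : S} (hy : y ∈ (D.ch x).source) : D.π y ∈ (D.ch x).target := by
  rw [← D.ch_coe x]; exact (D.ch x).map_source hy

theorem sec_π {x y : S} (hy : y ∈ (D.ch x).source) : D.sec x (D.π y) = y := by
  rw [← D.ch_coe x]; exact (D.ch x).left_inv hy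

theorem π_sec {x : S} {z : ι → ℂ} (hz : z ∈ (D.ch x).target) : D.π (D.sec x z) = z := by
  rw [← D.ch_coe x]; exact (D.ch x).right_inv hz

theorem sec_mem {x : S} {z : ι → ℂ} (hz : z ∈ (D.ch x).target) : D.sec x z ∈ (D.ch x).source :=
  (D.ch x).map_target hz

theorem sec_contAt {x : S} {z : ι → ℂ} (hz : z ∈ (D.ch x).target) : ContinuousAt (D.sec x) z :=
  (D.ch x).continuousAt_symm hz

theorem tgt_nhds {x : S} {z : ι → ℂ} (hz : z ∈ (D.ch x).target) : (D.ch x).target ∈ 𝓝 z :=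
  (D.ch x).open_target.mem_nhds hz

variable (D)

theorem sec_contOn (x : S) : ContinuousOn (D.sec x) (D.ch x).target := (D.ch x).continuousOn_symm

theorem mem_tgt (x : S) : D.π x ∈ (D.ch x).target := π_mem (D.mem_src x)

theorem sec_self (x : S) : D.sec x (D.π x) = x := sec_π (D.mem_src x)

theorem injOn_src (x : S) : InjOn D.π (D.ch x).source := by
  rw [← D.ch_coe x]; exact (D.ch x).injOn

theorem tendsto_sec (x : S) : Tendsto (D.sec x) (𝓝 (D.π x)) (𝓝 x) := by
  have := sec_contAt (D.mem_tgt x)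
  rwa [ContinuousAt, D.sec_self] at this

theorem π_sec_ev (x : S) : ∀ᶠ z in 𝓝 (D.π x), D.π (D.sec x z) = z :=
  Filter.mem_of_superset (tgt_nhds (D.mem_tgt x)) fun _ hz => π_sec hz

/-- any continuous local section has the germ of `sec` -/
theorem sec_unique {x : S} {σ : (ι → ℂ) → S} (h0 : σ (D.π x) = x)
    (hc : ContinuousAt σ (D.π x)) (h : ∀ᶠ z in 𝓝 (D.π x), D.π (σ z) = z) :
    σ =ᶠ[𝓝 (D.π x)] D.sec x := by
  have h1 : ∀ᶠ z in 𝓝 (D.π x), σ z ∈ (D.ch x).source :=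
    hc.eventually ((D.ch x).open_source.mem_nhds (by rw [h0]; exact D.mem_src x))
  filter_upwards [h, h1] with z e1 e2
  rw [← sec_π e2, e1]

variable {D}

theorem germ {x : S} {z : ι → ℂ} (hz : z ∈ (D.ch x).target) :
    D.sec x =ᶠ[𝓝 z] D.sec (D.sec x z) := by
  have := D.sec_unique (x := D.sec x z) (σ := D.sec x) (by rw [π_sec hz])
    (by rw [π_sec hz]; exact sec_contAt hz)
    (by rw [π_sec hz]; exact Filter.mem_of_superset (tgt_nhds hz) fun _ hw => π_sec hw)
  rwa [π_sec hz] at this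

theorem germ_f {E : Type} (f : S → E) {x : S} {z : ι → ℂ} (hz : z ∈ (D.ch x).target) :
    (fun w => f (D.sec x w)) =ᶠ[𝓝 z] fun w => f (D.sec (D.sec x z) w) :=
  (germ hz).mono fun _ h => congrArg f h

theorem ev_sec {E : Type} {f g : S → E} {x : S} (h : f =ᶠ[𝓝 x] g) :
    (fun w => f (D.sec x w)) =ᶠ[𝓝 (D.π x)] fun w => g (D.sec x w) :=
  (D.tendsto_sec x).eventually h

section Sm

variable {E G : Type} [NormedAddCommGroup E] [NormedSpace ℝ E] [NormedAddCommGroup G]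
  [NormedSpace ℝ G]

theorem Sm.at {f : S → E} (hf : D.Sm f) {x : S} {z : ι → ℂ} (hz : z ∈ (D.ch x).target) :
    ContDiffAt ℝ ∞ (fun w => f (D.sec x w)) z := by
  have := hf (D.sec x z)
  rw [π_sec hz] at this
  exact this.congr_of_eventuallyEq (germ_f f hz)

theorem Sm.diff {f : S → E} (hf : D.Sm f) (x : S) :
    DifferentiableAt ℝ (fun w => f (D.sec x w)) (D.π x) := (hf x).differentiableAt (by simp)

theorem Sm.two {f : S → E} (hf : D.Sm f) (x : S) :
    ContDiffAt ℝ 2 (fun w => f (D.sec x w)) (D.π x) := (hf x).of_le (by norm_cast)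

theorem cont_of_sec {T : Type} [TopologicalSpace T] {f : S → T}
    (hf : ∀ x, ContinuousAt (fun w => f (D.sec x w)) (D.π x)) : Continuous f := by
  refine continuous_iff_continuousAt.2 fun x => ?_
  refine ((hf x).comp D.cont_π.continuousAt).congr ?_
  filter_upwards [(D.ch x).open_source.mem_nhds (D.mem_src x)] with y hy
  simp only [Function.comp, sec_π hy]

theorem Sm.cont {f : S → E} (hf : D.Sm f) : Continuous f :=
  cont_of_sec fun x => (hf x).continuousAt

theorem Sm.comp {f : S → E} (hf : D.Sm f) {g : E → G} (hg : ContDiff ℝ ∞ g) :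
    D.Sm fun y => g (f y) := fun x => hg.contDiffAt.comp _ (hf x)

theorem Sm.comp_at {f : S → E} (hf : D.Sm f) {g : E → G} (hg : ∀ x, ContDiffAt ℝ ∞ g (f x)) :
    D.Sm fun y => g (f y) := fun x =>
  ContDiffAt.comp (g := g) _ (by rw [D.sec_self]; exact hg x) (hf x)

theorem sm_const (c : E) : D.Sm fun _ => c := fun _ => contDiffAt_const

theorem sm_π : D.Sm D.π := fun x => contDiffAt_id.congr_of_eventuallyEq (D.π_sec_ev x)

theorem Sm.add {f g : S → E} (hf : D.Sm f) (hg : D.Sm g) : D.Sm fun y => f y + g y :=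
  fun x => (hf x).add (hg x)

theorem Sm.sub {f g : S → E} (hf : D.Sm f) (hg : D.Sm g) : D.Sm fun y => f y - g y :=
  fun x => (hf x).sub (hg x)

theorem Sm.neg {f : S → E} (hf : D.Sm f) : D.Sm fun y => -f y := fun x => (hf x).neg

theorem Sm.smul {c : S → ℝ} {f : S → E} (hc : D.Sm c) (hf : D.Sm f) : D.Sm fun y => c y • f y :=
  fun x => (hc x).smul (hf x)

theorem Sm.mul {A : Type} [NormedRing A] [NormedAlgebra ℝ A] {f g : S → A} (hf : D.Sm f)
    (hg : D.Sm g) : D.Sm fun y => f y * g y := fun x => (hf x).mul (hg x)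

theorem sm_sum {α : Type*} (s : Finset α) {f : α → S → E} (hf : ∀ a ∈ s, D.Sm (f a)) :
    D.Sm fun y => ∑ a ∈ s, f a y := fun x => ContDiffAt.sum fun a ha => hf a ha x

theorem Sm.ofReal {φ : S → ℝ} (hφ : D.Sm φ) : D.Sm fun y => (φ y : ℂ) :=
  hφ.comp (g := fun r : ℝ => (r : ℂ)) ofRealCLM.contDiff

theorem Sm.conj {f : S → ℂ} (hf : D.Sm f) : D.Sm fun y => conj (f y) :=
  hf.comp (g := fun r : ℂ => conj r) (conjCLE : ℂ →L[ℝ] ℂ).contDiff

theorem Sm.rexp {φ : S → ℝ} (hφ : D.Sm φ) : D.Sm fun y => Real.exp (φ y) :=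
  hφ.comp Real.contDiff_exp

theorem Sm.cexp {f : S → ℂ} (hf : D.Sm f) : D.Sm fun y => cexp (f y) :=
  hf.comp Complex.contDiff_exp

theorem Sm.wt {φ : S → ℝ} (hφ : D.Sm φ) : D.Sm fun y => (Real.exp (-φ y) : ℂ) :=
  hφ.neg.rexp.ofReal

theorem Sm.normSq {f : S → ℂ} (hf : D.Sm f) : D.Sm fun y => ‖f y‖ ^ 2 :=
  hf.comp (contDiff_norm_sq ℝ)

/-- smoothness is local -/
theorem sm_of_ev {f : S → E} (h : ∀ x, ∃ g : S → E, D.Sm g ∧ f =ᶠ[𝓝 x] g) : D.Sm f := fun x => by
  obtain ⟨g, hg, e⟩ := h x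
  exact (hg x).congr_of_eventuallyEq (ev_sec e)

end Sm

theorem Hol.at {f : S → ℂ} (hf : D.Hol f) {x : S} {z : ι → ℂ} (hz : z ∈ (D.ch x).target) :
    DifferentiableAt ℂ (fun w => f (D.sec x w)) z := by
  have := hf (D.sec x z)
  rw [π_sec hz] at this
  exact this.congr_of_eventuallyEq (germ_f f hz)

theorem Hol.cont {f : S → ℂ} (hf : D.Hol f) : Continuous f :=
  cont_of_sec fun x => (hf x).continuousAt

theorem dbar_congr {f g : S → ℂ} {x : S} (h : f =ᶠ[𝓝 x] g) (ξ : ι → ℂ) :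
    D.dbar f x ξ = D.dbar g x ξ := F.dbar_congr (ev_sec h) ξ

theorem levi_congr {f g : S → ℝ} {x : S} (h : f =ᶠ[𝓝 x] g) (ξ : ι → ℂ) :
    D.levi f x ξ = D.levi g x ξ := F.levi_congr (ev_sec h) ξ

variable [DecidableEq ι]

variable (D) in
/-- `dz` is `op (-I)`, `dzb` is `op I` -/
def op (c : ℂ) (j : ι) (f : S → ℂ) (x : S) : ℂ := F.HC.op c j (fun z => f (D.sec x z)) (D.π x)

theorem dz_eq (j : ι) (f : S → ℂ) : D.dz j f = D.op (-I) j f := by
  funext x; rw [dz, op, F.HC.dz_eq]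

theorem dzb_eq (j : ι) (f : S → ℂ) : D.dzb j f = D.op I j f := rfl

theorem hop_congr (c : ℂ) (j : ι) {g h : (ι → ℂ) → ℂ} {z : ι → ℂ} (e : g =ᶠ[𝓝 z] h) :
    F.HC.op c j g z = F.HC.op c j h z := by
  simp only [F.HC.op, e.fderiv_eq]

theorem hop_at (c : ℂ) (j : ι) {g : (ι → ℂ) → ℂ} {z : ι → ℂ} (hg : ContDiffAt ℝ ∞ g z) :
    ContDiffAt ℝ ∞ (F.HC.op c j g) z := by
  have h : ∀ w, ContDiffAt ℝ ∞ (fun y => fderiv ℝ g y w) z := fun w =>
    (hg.fderiv_right (m := ∞) (by norm_cast)).clm_apply contDiffAt_const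
  exact ((h _).add (contDiffAt_const.mul (h _))).div_const 2

theorem op_congr (c : ℂ) (j : ι) {f g : S → ℂ} {x : S} (h : f =ᶠ[𝓝 x] g) :
    D.op c j f x = D.op c j g x := hop_congr c j (ev_sec h)

theorem op_sec (c : ℂ) (j : ι) (f : S → ℂ) {x : S} {z : ι → ℂ} (hz : z ∈ (D.ch x).target) :
    D.op c j f (D.sec x z) = F.HC.op c j (fun w => f (D.sec x w)) z := by
  rw [op, π_sec hz, hop_congr c j (germ_f f hz)]

theorem op_ev (c : ℂ) (j : ι) (f : S → ℂ) {x : S} {z : ι → ℂ} (hz : z ∈ (D.ch x).target) :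
    (fun w => D.op c j f (D.sec x w)) =ᶠ[𝓝 z] F.HC.op c j (fun w => f (D.sec x w)) :=
  Filter.mem_of_superset (tgt_nhds hz) fun _ hw => op_sec c j f hw

theorem Sm.op {f : S → ℂ} (hf : D.Sm f) (c : ℂ) (j : ι) : D.Sm (D.op c j f) := fun x =>
  (hop_at c j (hf x)).congr_of_eventuallyEq (op_ev c j f (D.mem_tgt x))

theorem op_const (c : ℂ) (j : ι) (a : ℂ) (x : S) : D.op c j (fun _ => a) x = 0 :=
  F.HC.op_const c j a _

theorem op_zero (c : ℂ) (j : ι) {f : S → ℂ} {x : S} (hx : x ∉ tsupport f) : D.op c j f x = 0 := by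
  rw [op_congr c j (notMem_tsupport_iff_eventuallyEq.1 hx)]
  exact op_const c j 0 x

theorem op_tsupp (c : ℂ) (j : ι) (f : S → ℂ) : tsupport (D.op c j f) ⊆ tsupport f :=
  closure_minimal (fun x hx => by
    by_contra h
    exact hx (op_zero c j h)) (isClosed_tsupport f)

theorem op_supp (c : ℂ) (j : ι) {f : S → ℂ} (hc : HasCompactSupport f) :
    HasCompactSupport (D.op c j f) :=
  hc.isCompact.of_isClosed_subset (isClosed_tsupport _) (op_tsupp c j f)

section rules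

variable (c : ℂ) (j : ι) {f g : S → ℂ}

theorem op_add (hf : D.Sm f) (hg : D.Sm g) (x : S) :
    D.op c j (fun y => f y + g y) x = D.op c j f x + D.op c j g x :=
  F.HC.op_add c j (hf.diff x) (hg.diff x)

theorem op_sub (hf : D.Sm f) (hg : D.Sm g) (x : S) :
    D.op c j (fun y => f y - g y) x = D.op c j f x - D.op c j g x :=
  F.HC.op_sub c j (hf.diff x) (hg.diff x)

theorem op_mul (hf : D.Sm f) (hg : D.Sm g) (x : S) :
    D.op c j (fun y => f y * g y) x = D.op c j f x * g x + f x * D.op c j g x := by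
  have := F.HC.op_mul c j (hf.diff x) (hg.diff x)
  simp only [D.sec_self] at this
  exact this

theorem op_sum {α : Type*} (s : Finset α) {u : α → S → ℂ} (hu : ∀ a ∈ s, D.Sm (u a)) (x : S) :
    D.op c j (fun y => ∑ a ∈ s, u a y) x = ∑ a ∈ s, D.op c j (u a) x :=
  F.HC.op_sum c j s (f := fun a z => u a (D.sec x z)) fun a ha => (hu a ha).diff x

theorem op_conj (hf : D.Sm f) (x : S) :
    D.op c j (fun y => conj (f y)) x = conj (D.op (conj c) j f x) :=
  F.HC.op_conj c j (hf.diff x)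

theorem op_wt {φ : S → ℝ} (hφ : D.Sm φ) (x : S) :
    D.op c j (fun y => (Real.exp (-φ y) : ℂ)) x =
      -(D.op c j (fun y => (φ y : ℂ)) x * (Real.exp (-φ x) : ℂ)) := by
  have := F.HC.op_wt c j (hφ.diff x)
  simp only [D.sec_self] at this
  exact this

theorem op_exp (hf : D.Sm f) (x : S) :
    D.op c j (fun y => cexp (f y)) x = cexp (f x) * D.op c j f x := by
  have := ((hf.diff x).hasFDerivAt.cexp).fderiv
  simp only [op, F.HC.op, this, smul_apply, smul_eq_mul, D.sec_self]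
  ring

theorem op_comm (d : ℂ) (k : ι) (hf : D.Sm f) (x : S) :
    D.op c j (D.op d k f) x = D.op d k (D.op c j f) x := by
  rw [op, op, hop_congr c j (op_ev d k f (D.mem_tgt x)), hop_congr d k (op_ev c j f (D.mem_tgt x))]
  exact F.HC.op_comm c d j k (hf.two x)

theorem op_real {χ : ℝ → ℝ} (hχ : ContDiff ℝ ∞ χ) {φ : S → ℝ} (hφ : D.Sm φ) (x : S) :
    D.op c j (fun y => (χ (φ y) : ℂ)) x =
      (deriv χ (φ x) : ℝ) * D.op c j (fun y => (φ y : ℂ)) x := by
  have h1 : HasDerivAt χ (deriv χ (φ x)) (φ (D.sec x (D.π x))) := by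
    rw [D.sec_self]; exact (hχ.differentiable (by simp) _).hasDerivAt
  have h2 := h1.comp_hasFDerivAt (D.π x) (hφ.diff x).hasFDerivAt
  simp only [op, F.HC.op]
  rw [F.HC.pd_ofReal (φ := fun z => χ (φ (D.sec x z))) h2.differentiableAt,
    F.HC.pd_ofReal (φ := fun z => χ (φ (D.sec x z))) h2.differentiableAt,
    F.HC.pd_ofReal (hφ.diff x), F.HC.pd_ofReal (hφ.diff x),
    show (fun z => χ (φ (D.sec x z))) = χ ∘ fun z => φ (D.sec x z) from rfl, h2.fderiv]
  simp only [smul_apply, smul_eq_mul, ofReal_mul]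
  ring

end rules

theorem dbar_coord (f : S → ℂ) (x : S) (ξ : ι → ℂ) :
    D.dbar f x ξ = ∑ j, D.op I j f x * conj (ξ j) := F.dbar_coord _ _ ξ

theorem levi_coord {φ : S → ℝ} (hφ : D.Sm φ) (x : S) (ξ : ι → ℂ) :
    D.levi φ x ξ =
      ∑ j, ∑ k, (D.op (-I) j (D.op I k fun y => (φ y : ℂ)) x * ξ j * conj (ξ k)).re := by
  rw [levi, F.levi_coord (hφ.two x)]
  refine Finset.sum_congr rfl fun j _ => Finset.sum_congr rfl fun k _ => ?_
  rw [op, hop_congr (-I) j (op_ev I k _ (D.mem_tgt x)), F.HC.dz_eq, F.HC.dzb_eq]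

end RD

end

end Pool.Agent.Lib.MP_5c318e_ag
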