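import Pool.Agent.Lib.MP_5c318e_ag.RD.RMeas

/-! Existence of the lifted measure; integrals as integrals of sheet sums. -/

set_option autoImplicit false
set_option linter.unusedSectionVars false

namespace Pool.Agent.Lib.MP_5c318e_ag

open MeasureTheory Set Filter Topology Function

noncomputable section

namespace RD

variable {ι : Type} [Fintype ι] {S : Type} [TopologicalSpace S] [MeasurableSpace S] [BorelSpace S]
  [SigmaCompactSpace S]

theorem exists_part [Nonempty S] {U : S → Set S} (hU : ∀ x, IsOpen (U x)) (h : ∀ x, x ∈ U x) :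
    ∃ (f : ℕ → S) (P : ℕ → Set S), (∀ n, MeasurableSet (P n)) ∧ Pairwise (Disjoint on P) ∧
      (∀ n, P n ⊆ U (f n)) ∧ ⋃ n, P n = univ := by
  obtain ⟨T, hT, hc⟩ := countable_cover_nhds_of_sigmaCompact fun x => (hU x).mem_nhds (h x)
  have ne : T.Nonempty := by
    obtain ⟨x, hx, -⟩ := mem_iUnion₂.1 (hc ▸ mem_univ (Classical.arbitrary S))
    exact ⟨x, hx⟩
  obtain ⟨f, rfl⟩ := hT.exists_eq_range ne
  refine ⟨f, disjointed fun n => U (f n), MeasurableSet.disjointed fun n => (hU _).measurableSet,
    disjoint_disjointed _, disjointed_subset _, ?_⟩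
  rw [iUnion_disjointed, ← hc, biUnion_range]

/-- the measure exists -/
theorem exists_of (π : S → (ι → ℂ)) (h : IsLocalHomeomorph π) : ∃ D : RD ι S, D.π = π := by
  rcases isEmpty_or_nonempty S with hS | hS
  · exact ⟨⟨π, h, 0, fun A _ _ => by simp [eq_empty_of_isEmpty A]⟩, rfl⟩
  choose e e1 e2 using h
  obtain ⟨f, P, P1, P2, P3, P4⟩ := exists_part (fun x => (e x).open_source) e1
  have im : ∀ x A, A ⊆ (e x).source → π '' A = (e x).symm ⁻¹' A ∩ (e x).target := fun x A hA => by
    rw [e2 x, (e x).image_eq_target_inter_inv_preimage hA, inter_comm]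
  have am : ∀ x, AEMeasurable (e x).symm (volume.restrict (e x).target) := fun x =>
    (e x).continuousOn_symm.aemeasurable (e x).open_target.measurableSet
  refine ⟨⟨π, fun x => ⟨e x, e1 x, e2 x⟩, Measure.sum fun n =>
    (Measure.map (e (f n)).symm (volume.restrict (e (f n)).target)).restrict (P n),
    fun A hA hi => ?_⟩, rfl⟩
  have sb : ∀ n, A ∩ P n ⊆ (e (f n)).source := fun n => inter_subset_right.trans (P3 n)
  have u : π '' A = ⋃ n, π '' (A ∩ P n) := by rw [← image_iUnion, ← inter_iUnion, P4, inter_univ]
  rw [Measure.sum_apply _ hA, u, measure_iUnion₀]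
  · refine tsum_congr fun n => ?_
    rw [Measure.restrict_apply hA, Measure.map_apply_of_aemeasurable (am _) (hA.inter (P1 n)),
      Measure.restrict_apply' (e _).open_target.measurableSet, im _ _ (sb n)]
  · intro n m hnm
    refine Disjoint.aedisjoint (disjoint_image_image fun a ha b hb hab => ?_)
    exact disjoint_left.1 (P2 hnm) ha.2 (hi ha.1 hb.1 hab ▸ hb.2)
  · intro n
    rw [im _ _ (sb n)]
    exact (nullMeasurableSet_restrict (e _).open_target.measurableSet.nullMeasurableSet).1
      ((am _).nullMeasurable (hA.inter (P1 n)))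

/-- integrals are integrals of sheet sums -/
theorem lintegral_eq (D : RD ι S) {F : S → ENNReal} (hF : Measurable F) :
    ∫⁻ x, F x ∂D.μ = ∫⁻ z, ∑' y : D.π ⁻¹' {z}, F y := by
  rcases isEmpty_or_nonempty S with hS | hS
  · simp
  obtain ⟨f, P, P1, P2, P3, P4⟩ := exists_part (fun x => (D.ch x).open_source) D.mem_src
  have e : ∀ y, F y = ∑' n, indicator (P n) F y := fun y => by
    obtain ⟨n, hn⟩ := mem_iUnion.1 (P4 ▸ mem_univ y)
    rw [tsum_eq_single n fun m hm => indicator_of_notMem (disjoint_right.1 (P2 hm) hn) _,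
      indicator_of_mem hn]
  have m : ∀ n, Measurable (indicator (P n) F) := fun n => hF.indicator (P1 n)
  have am : ∀ n, AEMeasurable (indicator (D.ch (f n)).target fun z =>
      indicator (P n) F (D.sec (f n) z)) volume := fun n =>
    (aemeasurable_indicator_iff (D.ch _).open_target.measurableSet).2
      ((m n).comp_aemeasurable (D.sec_aem _))
  calc _ = ∑' n, ∫⁻ x, indicator (P n) F x ∂D.μ := by
        rw [← lintegral_tsum fun n => (m n).aemeasurable]
        exact lintegral_congr e
    _ = ∑' n, ∫⁻ z, indicator (D.ch (f n)).target (fun z => indicator (P n) F (D.sec (f n) z)) z := by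
        refine tsum_congr fun n => ?_
        rw [lintegral_indicator (D.ch _).open_target.measurableSet,
          ← lintegral_map' (by rw [← D.restrict_src]; exact (m n).aemeasurable) (D.sec_aem _),
          ← D.restrict_src, ← lintegral_indicator (D.ch _).open_source.measurableSet,
          indicator_indicator, inter_eq_right.2 (P3 n)]
    _ = _ := by
        rw [← lintegral_tsum am]
        refine lintegral_congr fun z => ?_
        rw [tsum_congr fun y : D.π ⁻¹' {z} => e y, ENNReal.tsum_comm]
        refine tsum_congr fun n => ?_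
        by_cases hz : z ∈ (D.ch (f n)).target
        · rw [indicator_of_mem hz, tsum_eq_single ⟨D.sec (f n) z, π_sec hz⟩]
          rintro ⟨y, rfl⟩ hy
          exact indicator_of_notMem (fun h => hy (Subtype.ext (sec_π (P3 n h)).symm)) _
        · rw [indicator_of_notMem hz, eq_comm, ENNReal.tsum_eq_zero]
          rintro ⟨y, rfl⟩
          exact indicator_of_notMem (fun h => hz (π_mem (P3 n h))) _

end RD

end

end Pool.Agent.Lib.MP_5c318e_ag
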