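import Pool.Agent.Lib.MP_5c318e_ag.RD.RCalc

/-! The measure on a Riemann domain, passage to charts, partitions of unity, integration by
parts. -/

set_option autoImplicit false
set_option linter.unusedSectionVars false

namespace Pool.Agent.Lib.MP_5c318e_ag

open MeasureTheory Set Filter Topology Complex Metric
open scoped ContDiff ComplexConjugate
open Pool.Agent.Lib.MP_9ff3e7_ag

noncomputable section

namespace RD

variable {ι : Type} [Fintype ι] {S : Type} [TopologicalSpace S] [MeasurableSpace S] [BorelSpace S]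
  (D : RD ι S)

theorem img_src (x : S) (A : Set S) :
    D.π '' (A ∩ (D.ch x).source) = D.sec x ⁻¹' A ∩ (D.ch x).target := by
  ext z
  constructor
  · rintro ⟨y, ⟨h1, h2⟩, rfl⟩
    exact ⟨by rw [mem_preimage, sec_π h2]; exact h1, π_mem h2⟩
  · rintro ⟨h1, h2⟩
    exact ⟨D.sec x z, ⟨h1, sec_mem h2⟩, π_sec h2⟩

theorem sec_aem (x : S) : AEMeasurable (D.sec x) (volume.restrict (D.ch x).target) :=
  (D.sec_contOn x).aemeasurable (D.ch x).open_target.measurableSet

theorem restrict_src (x : S) :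
    D.μ.restrict (D.ch x).source = Measure.map (D.sec x) (volume.restrict (D.ch x).target) := by
  ext A hA
  rw [Measure.restrict_apply hA, Measure.map_apply_of_aemeasurable (D.sec_aem x) hA,
    Measure.restrict_apply' (D.ch x).open_target.measurableSet,
    D.vol _ (hA.inter (D.ch x).open_source.measurableSet) ((D.injOn_src x).mono inter_subset_right),
    img_src]

instance : IsLocallyFiniteMeasure D.μ := ⟨fun x => by
  have ho : IsOpen ((D.ch x).source ∩ D.π ⁻¹' ball (D.π x) 1) :=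
    (D.ch x).open_source.inter (isOpen_ball.preimage D.cont_π)
  refine ⟨_, ho.mem_nhds ⟨D.mem_src x, mem_ball_self one_pos⟩, ?_⟩
  rw [D.vol _ ho.measurableSet ((D.injOn_src x).mono inter_subset_left)]
  refine (measure_mono ?_).trans_lt (measure_ball_lt_top (x := D.π x) (r := 1))
  rintro _ ⟨y, hy, rfl⟩
  exact hy.2⟩

theorem exists_rad (x : S) {W : Set S} (hW : W ∈ 𝓝 x) :
    ∃ r > 0, closedBall (D.π x) r ⊆ (D.ch x).target ∩ D.sec x ⁻¹' W :=
  nhds_basis_closedBall.mem_iff.1 (inter_mem (tgt_nhds (D.mem_tgt x)) (D.tendsto_sec x hW))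

theorem sec_img_nhds (x : S) {U : Set (ι → ℂ)} (hU : U ∈ 𝓝 (D.π x)) : D.sec x '' U ∈ 𝓝 x := by
  filter_upwards [(D.ch x).open_source.mem_nhds (D.mem_src x),
    D.cont_π.continuousAt.eventually hU] with y h1 h2
  exact ⟨D.π y, h2, sec_π h1⟩

include D in
theorem wlc : WeaklyLocallyCompactSpace S := ⟨fun x => by
  obtain ⟨r, r0, hr⟩ := D.exists_rad x univ_mem
  exact ⟨_, (isCompact_closedBall _ r).image_of_continuousOn
    ((D.sec_contOn x).mono fun z hz => (hr hz).1), D.sec_img_nhds x (closedBall_mem_nhds _ r0)⟩⟩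

section updown

variable {E : Type} [NormedAddCommGroup E]

/-- a function read in the chart at `x`, extended by zero -/
def down (x : S) (u : S → E) : (ι → ℂ) → E := indicator (D.ch x).target fun z => u (D.sec x z)

/-- a function on `ℂ^ι` lifted to the chart at `x`, extended by zero -/
def up (x : S) (g : (ι → ℂ) → E) : S → E := indicator (D.ch x).source fun y => g (D.π y)

variable {D}

theorem down_of {x : S} (u : S → E) {z : ι → ℂ} (hz : z ∈ (D.ch x).target) :
    D.down x u z = u (D.sec x z) := indicator_of_mem hz _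

theorem down_ev {x : S} (u : S → E) {z : ι → ℂ} (hz : z ∈ (D.ch x).target) :
    D.down x u =ᶠ[𝓝 z] fun w => u (D.sec x w) :=
  Filter.mem_of_superset (tgt_nhds hz) fun _ hw => down_of u hw

theorem down_zero {x : S} {u : S → E} {K : Set S} (hu : ∀ y, y ∉ K → u y = 0) {z : ι → ℂ}
    (hz : z ∉ D.π '' K) : D.down x u z = 0 := by
  by_cases h : z ∈ (D.ch x).target
  · rw [down_of u h]
    exact hu _ fun h1 => hz ⟨_, h1, π_sec h⟩
  · exact indicator_of_notMem h _

theorem down_ev0 {x : S} {u : S → E} {K : Set S} (hK : IsCompact K) (hu : ∀ y, y ∉ K → u y = 0)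
    {z : ι → ℂ} (hz : z ∉ D.π '' K) : D.down x u =ᶠ[𝓝 z] fun _ => 0 :=
  Filter.mem_of_superset ((hK.image D.cont_π).isClosed.isOpen_compl.mem_nhds hz)
    fun _ hw => down_zero hu hw

theorem down_supp {x : S} {u : S → E} {K : Set S} (hK : IsCompact K) (hu : ∀ y, y ∉ K → u y = 0) :
    HasCompactSupport (D.down x u) :=
  HasCompactSupport.intro (hK.image D.cont_π) fun _ hz => down_zero hu hz

theorem not_img {x : S} {K : Set S} (hs : K ⊆ (D.ch x).source) {z : ι → ℂ}
    (hz : z ∉ (D.ch x).target) : z ∉ D.π '' K := by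
  rintro ⟨y, hy, rfl⟩
  exact hz (π_mem (hs hy))

theorem down_cont {x : S} {u : S → E} (hc : Continuous u) {K : Set S} (hK : IsCompact K)
    (hs : K ⊆ (D.ch x).source) (hu : ∀ y, y ∉ K → u y = 0) : Continuous (D.down x u) := by
  refine continuous_iff_continuousAt.2 fun z => ?_
  by_cases h : z ∈ (D.ch x).target
  · exact (hc.continuousAt.comp (sec_contAt h)).congr (down_ev u h).symm
  · exact continuousAt_const.congr (down_ev0 hK hu (not_img hs h)).symm

theorem up_of {x : S} (g : (ι → ℂ) → E) {y : S} (hy : y ∈ (D.ch x).source) :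
    D.up x g y = g (D.π y) := indicator_of_mem hy _

theorem up_zero {x : S} {g : (ι → ℂ) → E} {C : Set (ι → ℂ)} (hg : ∀ z, z ∉ C → g z = 0) {y : S}
    (hy : y ∉ D.sec x '' C) : D.up x g y = 0 := by
  by_cases h : y ∈ (D.ch x).source
  · rw [up_of g h]
    exact hg _ fun h1 => hy ⟨_, h1, sec_π h⟩
  · exact indicator_of_notMem h _

theorem up_sec {x : S} (g : (ι → ℂ) → E) {z : ι → ℂ} (hz : z ∈ (D.ch x).target) :
    (fun w => D.up x g (D.sec x w)) =ᶠ[𝓝 z] g :=
  Filter.mem_of_superset (tgt_nhds hz) fun w hw => by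
    show D.up x g (D.sec x w) = g w
    rw [up_of g (sec_mem hw), π_sec hw]

theorem sec_cpt {x : S} {C : Set (ι → ℂ)} (hC : IsCompact C) (hs : C ⊆ (D.ch x).target) :
    IsCompact (D.sec x '' C) := hC.image_of_continuousOn ((D.sec_contOn x).mono hs)

theorem sec_sub {x : S} {C : Set (ι → ℂ)} (hs : C ⊆ (D.ch x).target) :
    D.sec x '' C ⊆ (D.ch x).source := by
  rintro _ ⟨z, hz, rfl⟩
  exact sec_mem (hs hz)

theorem aesm_sec {T : Type} [TopologicalSpace T] (x : S) {u : S → T}
    (hu : AEStronglyMeasurable u D.μ) :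
    AEStronglyMeasurable (fun z => u (D.sec x z)) (volume.restrict (D.ch x).target) := by
  have h := hu.restrict (s := (D.ch x).source)
  rw [D.restrict_src x] at h
  exact h.comp_aemeasurable (D.sec_aem x)

theorem intOn_sec {x : S} {u : S → E} {C : Set (ι → ℂ)} (hC : IsCompact C)
    (hs : C ⊆ (D.ch x).target) [T2Space S] (hu : IntegrableOn u (D.sec x '' C) D.μ) :
    IntegrableOn (fun z => u (D.sec x z)) C := by
  have hm := (sec_cpt hC hs).measurableSet
  have h1 : IntegrableOn u (D.sec x '' C) (D.μ.restrict (D.ch x).source) := hu.restrict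
  rw [D.restrict_src x, ← integrable_indicator_iff hm] at h1
  have h2 : IntegrableOn _ (D.ch x).target := h1.comp_aemeasurable (D.sec_aem x)
  refine (h2.mono_set hs).congr_fun (fun z hz => ?_) hC.measurableSet
  exact indicator_of_mem (mem_image_of_mem _ hz) _

variable [NormedSpace ℝ E]

theorem down_sm {x : S} {u : S → E} (hc : D.Sm u) {K : Set S} (hK : IsCompact K)
    (hs : K ⊆ (D.ch x).source) (hu : ∀ y, y ∉ K → u y = 0) : ContDiff ℝ ∞ (D.down x u) := by
  refine contDiff_iff_contDiffAt.2 fun z => ?_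
  by_cases h : z ∈ (D.ch x).target
  · exact (hc.at h).congr_of_eventuallyEq (down_ev u h)
  · exact contDiffAt_const.congr_of_eventuallyEq (down_ev0 hK hu (not_img hs h))

theorem up_sm [T2Space S] {x : S} {g : (ι → ℂ) → E} (hg : ContDiff ℝ ∞ g) {C : Set (ι → ℂ)}
    (hC : IsCompact C) (hs : C ⊆ (D.ch x).target) (h0 : ∀ z, z ∉ C → g z = 0) :
    D.Sm (D.up x g) := by
  refine sm_of_ev fun y => ?_
  by_cases h : y ∈ (D.ch x).source
  · exact ⟨_, sm_π.comp hg, Filter.mem_of_superset ((D.ch x).open_source.mem_nhds h)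
      fun _ hw => up_of g hw⟩
  · exact ⟨_, sm_const 0, Filter.mem_of_superset
      ((sec_cpt hC hs).isClosed.isOpen_compl.mem_nhds fun h1 => h (sec_sub hs h1))
      fun _ hw => up_zero h0 hw⟩

theorem int_down {x : S} {u : S → E} (hm : AEStronglyMeasurable u D.μ)
    (hu : ∀ y, y ∉ (D.ch x).source → u y = 0) : ∫ y, u y ∂D.μ = ∫ z, D.down x u z := by
  have h := hm.restrict (s := (D.ch x).source)
  rw [← setIntegral_eq_integral_of_forall_compl_eq_zero hu, down,
    integral_indicator (D.ch x).open_target.measurableSet]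
  rw [D.restrict_src x] at h ⊢
  exact integral_map (D.sec_aem x) h

end updown

variable {D} [T2Space S]

theorem exists_bump (x : S) {W : Set S} (hW : W ∈ 𝓝 x) :
    ∃ b : S → ℝ, D.Sm b ∧ (∀ y, 0 ≤ b y ∧ b y ≤ 1) ∧ (∀ᶠ y in 𝓝 x, b y = 1) ∧
      ∃ K, IsCompact K ∧ K ⊆ W ∩ (D.ch x).source ∧ ∀ y, y ∉ K → b y = 0 := by
  obtain ⟨r, r0, hr⟩ := D.exists_rad x hW
  let χ : ContDiffBump (D.π x) := ⟨r / 2, r, half_pos r0, half_lt_self r0⟩
  have hs : closedBall (D.π x) r ⊆ (D.ch x).target := fun z hz => (hr hz).1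
  have h0 : ∀ z, z ∉ closedBall (D.π x) r → χ z = 0 := fun z hz =>
    χ.zero_of_le_dist (not_le.1 hz).le
  refine ⟨D.up x χ, up_sm χ.contDiff (isCompact_closedBall _ _) hs h0, fun y => ?_, ?_, _,
    sec_cpt (isCompact_closedBall _ _) hs, ?_, fun y hy => up_zero h0 hy⟩
  · by_cases h : y ∈ (D.ch x).source
    · rw [up_of _ h]; exact ⟨χ.nonneg, χ.le_one⟩
    · rw [up, indicator_of_notMem h]; exact ⟨le_rfl, zero_le_one⟩
  · filter_upwards [(D.ch x).open_source.mem_nhds (D.mem_src x),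
      D.cont_π.continuousAt.eventually (closedBall_mem_nhds (D.π x) (half_pos r0))] with y h1 h2
    rw [up_of _ h1]
    exact χ.one_of_mem_closedBall h2
  · rintro _ ⟨z, hz, rfl⟩
    exact ⟨(hr hz).2, sec_mem (hs hz)⟩

/-- a finite partition of unity on a neighbourhood of a compact set -/
theorem exists_pou {K : Set S} (hK : IsCompact K) (W : S → Set S) (hW : ∀ x, W x ∈ 𝓝 x) :
    ∃ (T : Finset S) (c : S → S → ℝ) (L : S → Set S), (∀ x, D.Sm (c x)) ∧
      (∀ x y, 0 ≤ c x y ∧ c x y ≤ 1) ∧ (∀ x, IsCompact (L x)) ∧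
      (∀ x, L x ⊆ W x ∩ (D.ch x).source) ∧ (∀ x y, y ∉ L x → c x y = 0) ∧
      (∀ y, ∑ x ∈ T, c x y ≤ 1) ∧ ∀ y ∈ K, ∀ᶠ w in 𝓝 y, ∑ x ∈ T, c x w = 1 := by
  classical
  choose b b1 b2 b3 L L1 L2 L3 using fun x => exists_bump (D := D) x (hW x)
  have key : ∀ T : Finset S, ∃ c : S → S → ℝ, (∀ x, D.Sm (c x)) ∧ (∀ x y, 0 ≤ c x y ∧ c x y ≤ 1) ∧
      (∀ x y, y ∉ L x → c x y = 0) ∧ ∀ y, ∑ x ∈ T, c x y = 1 - ∏ x ∈ T, (1 - b x y) := by
    intro T
    induction T using Finset.induction_on with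
    | empty => exact ⟨b, b1, b2, L3, fun y => by simp⟩
    | insert a T ha ih =>
      obtain ⟨c, c1, c2, c3, c4⟩ := ih
      have p0 : ∀ y, 0 ≤ ∏ x ∈ T, (1 - b x y) := fun y =>
        Finset.prod_nonneg fun x _ => sub_nonneg.2 (b2 x y).2
      have p1 : ∀ y, ∏ x ∈ T, (1 - b x y) ≤ 1 := fun y =>
        Finset.prod_le_one (fun x _ => sub_nonneg.2 (b2 x y).2) fun x _ => by linarith [(b2 x y).1]
      refine ⟨Function.update c a fun y => b a y * (1 - ∑ x ∈ T, c x y), fun x => ?_, fun x y => ?_,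
        fun x y hy => ?_, fun y => ?_⟩
      · rcases eq_or_ne x a with rfl | h
        · rw [Function.update_self]
          exact (b1 _).mul ((sm_const 1).sub (sm_sum T fun x _ => c1 x))
        · rw [Function.update_of_ne h]; exact c1 x
      · rcases eq_or_ne x a with rfl | h
        · rw [Function.update_self, c4, sub_sub_cancel]
          exact ⟨mul_nonneg (b2 _ y).1 (p0 y), mul_le_one₀ (b2 _ y).2 (p0 y) (p1 y)⟩
        · rw [Function.update_of_ne h]; exact c2 x y
      · rcases eq_or_ne x a with rfl | h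
        · rw [Function.update_self, L3 _ _ hy, zero_mul]
        · rw [Function.update_of_ne h]; exact c3 x y hy
      · have e : ∀ u : S → ℝ, ∑ x ∈ T, Function.update c a u x y = ∑ x ∈ T, c x y := fun u =>
          Finset.sum_congr rfl fun x hx => by
            rw [Function.update_of_ne (ne_of_mem_of_not_mem hx ha)]
        rw [Finset.sum_insert ha, Finset.prod_insert ha, Function.update_self, e, c4]
        ring
  obtain ⟨T, -, hT⟩ := hK.elim_nhds_subcover (fun x => interior {y | b x y = 1})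
    fun x _ => interior_mem_nhds.2 (b3 x)
  obtain ⟨c, c1, c2, c3, c4⟩ := key T
  refine ⟨T, c, L, c1, c2, L1, L2, c3, fun y => ?_, fun y hy => ?_⟩
  · rw [c4]
    linarith [Finset.prod_nonneg (s := T) fun x _ => sub_nonneg.2 (b2 x y).2]
  · obtain ⟨x, hx, h⟩ := mem_iUnion₂.1 (hT hy)
    filter_upwards [mem_interior_iff_mem_nhds.1 h] with w hw
    rw [c4, Finset.prod_eq_zero hx (by rw [hw, sub_self]), sub_zero]

/-- a cutoff function -/
theorem exists_cut {K W : Set S} (hK : IsCompact K) (hW : IsOpen W) (h : K ⊆ W) :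
    ∃ b : S → ℝ, D.Sm b ∧ (∀ y, 0 ≤ b y ∧ b y ≤ 1) ∧ (∀ y ∈ K, ∀ᶠ w in 𝓝 y, b w = 1) ∧
      ∃ L, IsCompact L ∧ L ⊆ W ∧ ∀ y, y ∉ L → b y = 0 := by
  classical
  obtain ⟨T, c, L, c1, c2, L1, L2, c3, c4, c5⟩ := exists_pou (D := D) hK
    (fun x => if x ∈ W then W else Kᶜ) fun x => by
      split_ifs with hx
      exacts [hW.mem_nhds hx, hK.isClosed.isOpen_compl.mem_nhds fun h1 => hx (h h1)]
  refine ⟨fun y => ∑ x ∈ T.filter (· ∈ W), c x y, sm_sum _ fun x _ => c1 x, fun y =>
    ⟨Finset.sum_nonneg fun x _ => (c2 x y).1, le_trans (Finset.sum_le_sum_of_subset_of_nonneg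
      (Finset.filter_subset _ _) fun x _ _ => (c2 x y).1) (c4 y)⟩, fun y hy => ?_,
    ⋃ x ∈ T.filter (· ∈ W), L x, (T.filter (· ∈ W)).isCompact_biUnion fun x _ => L1 x,
    iUnion₂_subset fun x hx w hw => ?_, fun y hy => Finset.sum_eq_zero fun x hx =>
      c3 x y fun h1 => hy (mem_iUnion₂.2 ⟨x, hx, h1⟩)⟩
  · have : ∀ᶠ w in 𝓝 y, ∀ x ∈ T, x ∉ W → c x w = 0 := by
      refine (Filter.eventually_all_finset T).2 fun x _ => ?_
      by_cases hx : x ∈ W
      · exact .of_forall fun _ h1 => absurd hx h1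
      · have : y ∉ L x := fun h1 => by
          have := (L2 x h1).1
          rw [if_neg hx] at this
          exact this hy
        filter_upwards [(L1 x).isClosed.isOpen_compl.mem_nhds this] with w hw _ using c3 x w hw
    filter_upwards [this, c5 y hy] with w h1 h2
    rw [← h2, Finset.sum_filter_of_ne fun x hx h3 => by_contra fun h4 => h3 (h1 x hx h4)]
  · have := (L2 x hw).1
    rwa [if_pos (Finset.mem_filter.1 hx).2] at this

theorem Sm.int {E : Type} [NormedAddCommGroup E] [NormedSpace ℝ E] {u : S → E} (hu : D.Sm u)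
    (hc : HasCompactSupport u) : Integrable u D.μ := hu.cont.integrable_of_hasCompactSupport hc

variable [DecidableEq ι]

theorem down_op (c : ℂ) (j : ι) {x : S} {u : S → ℂ} {K : Set S} (hK : IsCompact K)
    (hs : K ⊆ (D.ch x).source) (hu : ∀ y, y ∉ K → u y = 0) :
    D.down x (D.op c j u) = F.HC.op c j (D.down x u) := by
  funext z
  by_cases h : z ∈ (D.ch x).target
  · rw [down_of _ h, op_sec c j u h, hop_congr c j (down_ev u h)]
  · rw [down, indicator_of_notMem h, hop_congr c j (down_ev0 hK hu (not_img hs h)), F.HC.op_const]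

theorem op_zero' (c : ℂ) (j : ι) {u : S → ℂ} {K : Set S} (hK : IsCompact K)
    (hu : ∀ y, y ∉ K → u y = 0) {y : S} (hy : y ∉ K) : D.op c j u y = 0 :=
  op_zero c j fun h => hy (closure_minimal (s := Function.support u)
    (fun w hw => by_contra fun h1 => hw (hu w h1)) hK.isClosed h)

/-- integration by parts -/
theorem op_int (c : ℂ) (j : ι) {u : S → ℂ} (hu : D.Sm u) (hc : HasCompactSupport u) :
    ∫ y, D.op c j u y ∂D.μ = 0 := by
  obtain ⟨T, b, L, b1, -, L1, L2, b3, -, b5⟩ := exists_pou (D := D) hc.isCompact (fun _ => univ)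
    fun _ => univ_mem
  have s : ∀ x, D.Sm fun y => (b x y : ℂ) * u y := fun x => (b1 x).ofReal.mul hu
  have z : ∀ x y, y ∉ L x → (b x y : ℂ) * u y = 0 := fun x y hy => by simp [b3 x y hy]
  have e : u = fun y => ∑ x ∈ T, (b x y : ℂ) * u y := by
    funext y
    by_cases hy : y ∈ tsupport u
    · rw [← Finset.sum_mul, ← ofReal_sum, (b5 y hy).self_of_nhds, ofReal_one, one_mul]
    · simp [image_eq_zero_of_notMem_tsupport hy]
  rw [e]
  simp only [op_sum c j T fun x _ => s x]
  rw [integral_finsetSum _ fun x _ => ((s x).op c j).int (op_supp c j hc.mul_left)]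
  refine Finset.sum_eq_zero fun x _ => ?_
  have hs : L x ⊆ (D.ch x).source := fun y hy => (L2 x hy).2
  rw [int_down (x := x) ((s x).op c j).cont.aestronglyMeasurable
    fun y hy => op_zero' c j (L1 x) (z x) fun h => hy (hs h), down_op c j (L1 x) hs (z x)]
  exact F.HC.op_int c j ((down_sm (s x) (L1 x) hs (z x)).of_le (by simp)) (down_supp (L1 x) (z x))

theorem op_int_mul (c : ℂ) (j : ι) {f g : S → ℂ} (hf : D.Sm f) (hg : D.Sm g)
    (hc : HasCompactSupport g) :
    ∫ y, D.op c j f y * g y ∂D.μ = -∫ y, f y * D.op c j g y ∂D.μ := by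
  have h := op_int c j (hf.mul hg) hc.mul_left
  simp only [op_mul c j hf hg] at h
  rw [integral_add (((hf.op c j).mul hg).int hc.mul_left)
    ((hf.mul (hg.op c j)).int (op_supp c j hc).mul_left)] at h
  exact eq_neg_of_add_eq_zero_left h

end RD

end

end Pool.Agent.Lib.MP_5c318e_ag
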