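import Pool.Agent.Lib.MP_5c318e_ag.RD.HBoch

/-! The harmonic part of a closed form. -/

set_option autoImplicit false
set_option linter.unusedSectionVars false

namespace Pool.Agent.Lib.MP_5c318e_ag

open MeasureTheory Set Complex Filter Topology Matrix
open scoped ComplexConjugate ComplexOrder

noncomputable section

namespace RD

variable {ι : Type} [Fintype ι] [DecidableEq ι] {S : Type} [TopologicalSpace S]
  [MeasurableSpace S] [BorelSpace S] [T2Space S] [SigmaCompactSpace S] {D : RD ι S}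
  {Φ φ : S → ℝ}

section Root

open scoped MatrixOrder Matrix.Norms.L2Operator

theorem pj_root : ∃ R : Matrix ι ι ℂ → Matrix ι ι ℂ,
    ContinuousOn R {H | H.PosSemidef} ∧ ∀ H, H.PosSemidef → (R H)ᴴ * R H = H := by
  refine ⟨CFC.sqrt, ?_, fun H h => ?_⟩
  · exact (CFC.continuousOn_sqrt (A := Matrix ι ι ℂ)).mono fun H h => h.nonneg
  · rw [(CFC.sqrt_nonneg H).posSemidef.isHermitian.eq, CFC.sqrt_mul_sqrt_self H h.nonneg]

end Root

theorem pj_gp (x : S) (ξ ζ : ι → ℂ) :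
    D.gp Φ x ξ ζ = star ζ ⬝ᵥ (Matrix.of fun k j => D.gm Φ x j k) *ᵥ ξ :=
  Finset.sum_congr rfl fun _ _ => mul_comm _ _

/-- a continuous unitary frame -/
structure Uni (D : RD ι S) (Φ φ : S → ℝ) (A : S → Matrix ι ι ℂ) : Prop where
  cont : Continuous A
  det : ∀ x, (A x).det ≠ 0
  ip : ∀ x ξ ζ, inner ℂ (WithLp.toLp 2 (A x *ᵥ ζ)) (WithLp.toLp 2 (A x *ᵥ ξ)) =
    D.gp Φ x ξ ζ * (Real.exp (-φ x) : ℂ)
  nrm : ∀ x ξ, ‖WithLp.toLp 2 (A x *ᵥ ξ)‖ ^ 2 = D.levi Φ x ξ * Real.exp (-φ x)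

theorem exists_uni (hΦ : D.Pos Φ) (hφ : D.Sm φ) : ∃ A, D.Uni Φ φ A := by
  obtain ⟨R, Rc, Rs⟩ := pj_root (ι := ι)
  let H : S → Matrix ι ι ℂ := fun x => (Real.exp (-φ x) : ℂ) • Matrix.of fun k j => D.gm Φ x j k
  have e : ∀ x ξ ζ, star ζ ⬝ᵥ H x *ᵥ ξ = D.gp Φ x ξ ζ * (Real.exp (-φ x) : ℂ) := fun x ξ ζ => by
    rw [pj_gp, smul_mulVec, dotProduct_smul, smul_eq_mul, mul_comm]
  have Hp : ∀ x, (H x).PosDef := fun x => by
    refine PosDef.of_dotProduct_mulVec_pos (IsHermitian.ext fun i j => ?_) fun ξ h => ?_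
    · have := gp_conj hΦ.1 x (Pi.single i 1) (Pi.single j 1)
      simp only [pj_gp, Pi.star_single, star_one, mulVec_single_one, single_one_dotProduct,
        col_apply, of_apply] at this
      simp only [H, Matrix.smul_apply, of_apply, smul_eq_mul, star_mul', RCLike.star_def,
        conj_ofReal, this]
    · rw [e, gp_self hΦ.1, ← ofReal_mul]
      exact_mod_cast mul_pos (hΦ.2 x ξ h) (Real.exp_pos _)
  have Hc : Continuous H := hφ.wt.cont.smul (continuous_matrix fun k j =>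
    ((hΦ.1.ofReal.op I k).op (-I) j).cont)
  have ip : ∀ x ξ ζ, inner ℂ (WithLp.toLp 2 (R (H x) *ᵥ ζ)) (WithLp.toLp 2 (R (H x) *ᵥ ξ)) =
      D.gp Φ x ξ ζ * (Real.exp (-φ x) : ℂ) := fun x ξ ζ => by
    rw [← e, EuclideanSpace.inner_toLp_toLp, dotProduct_comm, star_mulVec, ← dotProduct_mulVec,
      mulVec_mulVec, Rs _ (Hp x).posSemidef]
  refine ⟨fun x => R (H x), Rc.comp_continuous Hc fun x => (Hp x).posSemidef, fun x h => ?_, ip,
    fun x ξ => ?_⟩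
  · refine (Hp x).det_pos.ne' ?_
    rw [← Rs _ (Hp x).posSemidef, det_mul, h, mul_zero]
  · rw [@norm_sq_eq_re_inner ℂ, ip, gp_self hΦ.1, ← ofReal_mul]
    rfl

theorem pj_meas {A : S → Matrix ι ι ℂ} (hA : Continuous A) {w : S → ι → ℂ}
    (h : AEStronglyMeasurable w D.μ) : AEStronglyMeasurable (fun x => A x *ᵥ w x) D.μ := by
  have : (fun x => A x *ᵥ w x) = fun x => ∑ j, w x j • fun i => A x i j := by
    funext x i
    simp [mulVec, dotProduct, mul_comm]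
  rw [this]
  exact Finset.aestronglyMeasurable_fun_sum _ fun j _ =>
    ((continuous_apply j).comp_aestronglyMeasurable h).smul
      (continuous_pi fun i => hA.matrix_elem i j).aestronglyMeasurable

/-- a field in the frame `A` -/
def tru (A : S → Matrix ι ι ℂ) (w : S → ι → ℂ) (x : S) : EuclideanSpace ℂ ι :=
  WithLp.toLp 2 (A x *ᵥ w x)

namespace Uni

variable {A : S → Matrix ι ι ℂ} (U : D.Uni Φ φ A)

include U

theorem meas {w : S → ι → ℂ} (h : AEStronglyMeasurable w D.μ) :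
    AEStronglyMeasurable (tru A w) D.μ :=
  (PiLp.continuous_toLp 2 _).comp_aestronglyMeasurable (pj_meas U.cont h)

theorem l2_iff {w : S → ι → ℂ} (h : AEStronglyMeasurable w D.μ) :
    D.L2 Φ φ w ↔ MemLp (tru A w) 2 D.μ := by
  rw [memLp_two_iff_integrable_sq_norm (U.meas h)]
  simp only [tru, U.nrm]
  exact ⟨fun h => h.2, fun h' => ⟨h, h'⟩⟩

theorem mem {w : S → ι → ℂ} (h : D.L2 Φ φ w) : MemLp (tru A w) 2 D.μ := (U.l2_iff h.1).1 h

theorem surj (F : Lp (EuclideanSpace ℂ ι) 2 D.μ) : ∃ w, D.L2 Φ φ w ∧ ∀ x, tru A w x = F x := by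
  have c : Continuous fun x => (A x)⁻¹ := continuous_iff_continuousAt.2 fun x =>
    (continuousAt_matrix_inv (A x) (by
      rw [Ring.inverse_eq_inv']; exact continuousAt_inv₀ (U.det x))).comp U.cont.continuousAt
  have e : ∀ x, tru A (fun x => (A x)⁻¹ *ᵥ (F x).ofLp) x = F x := fun x => by
    rw [tru, mulVec_mulVec, mul_nonsing_inv _ (U.det x).isUnit, one_mulVec]
  refine ⟨_, (U.l2_iff ?_).2 (by rw [funext e]; exact Lp.memLp F), e⟩
  exact pj_meas c ((PiLp.continuous_ofLp 2 _).comp_aestronglyMeasurable (Lp.aestronglyMeasurable F))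

theorem inner_eq {F G : Lp (EuclideanSpace ℂ ι) 2 D.μ} {u w : S → ι → ℂ}
    (hF : F =ᵐ[D.μ] tru A w) (hG : G =ᵐ[D.μ] tru A u) :
    inner ℂ F G = ∫ x, D.gp Φ x (u x) (w x) * (Real.exp (-φ x) : ℂ) ∂D.μ := by
  rw [L2.inner_def]
  refine integral_congr_ae ?_
  filter_upwards [hF, hG] with x h1 h2
  rw [h1, h2, tru, tru, U.ip]

theorem norm_eq {F : Lp (EuclideanSpace ℂ ι) 2 D.μ} {w : S → ι → ℂ} (hF : F =ᵐ[D.μ] tru A w) :
    ‖F‖ ^ 2 = ∫ x, D.levi Φ x (w x) * Real.exp (-φ x) ∂D.μ := by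
  rw [@norm_sq_eq_re_inner ℂ, L2.inner_def, ← integral_re (L2.integrable_inner F F)]
  refine integral_congr_ae ?_
  filter_upwards [hF] with x h1
  rw [← norm_sq_eq_re_inner, h1, tru, U.nrm]

/-- continuous fields whose norm has compact support -/
theorem l2_cpt {w : S → ι → ℂ} (h : Continuous w) {K : Set S} (hK : IsCompact K)
    (h0 : ∀ x, x ∉ K → D.gp Φ x (w x) (w x) = 0) : D.L2 Φ φ w := by
  refine (U.l2_iff h.aestronglyMeasurable).2 (Continuous.memLp_of_hasCompactSupport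
    ((PiLp.continuous_toLp 2 _).comp (U.cont.matrix_mulVec h)) (HasCompactSupport.intro hK
      fun x hx => (inner_self_eq_zero (𝕜 := ℂ)).1 ?_))
  rw [tru, U.ip, h0 x hx, zero_mul]

end Uni

theorem tru_add (A : S → Matrix ι ι ℂ) (u w : S → ι → ℂ) : tru A (u + w) = tru A u + tru A w := by
  funext x; simp [tru, mulVec_add]

theorem tru_sub (A : S → Matrix ι ι ℂ) (u w : S → ι → ℂ) : tru A (u - w) = tru A u - tru A w := by
  funext x; simp [tru, mulVec_sub]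

theorem tru_smul (A : S → Matrix ι ι ℂ) (c : ℂ) (w : S → ι → ℂ) :
    tru A (c • w) = c • tru A w := by
  funext x; simp [tru, mulVec_smul]

theorem L2.add (hΦ : D.Pos Φ) (hφ : D.Sm φ) {u w : S → ι → ℂ} (hu : D.L2 Φ φ u)
    (hw : D.L2 Φ φ w) : D.L2 Φ φ (u + w) := by
  obtain ⟨A, U⟩ := exists_uni hΦ hφ
  exact (U.l2_iff (hu.1.add hw.1)).2 (tru_add A u w ▸ (U.mem hu).add (U.mem hw))

theorem L2.smul (hΦ : D.Pos Φ) (hφ : D.Sm φ) (c : ℂ) {w : S → ι → ℂ} (hw : D.L2 Φ φ w) :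
    D.L2 Φ φ (c • w) := by
  obtain ⟨A, U⟩ := exists_uni hΦ hφ
  exact (U.l2_iff (hw.1.const_smul c)).2 (tru_smul A c w ▸ (U.mem hw).const_smul c)

theorem L2.of_cpt (hΦ : D.Pos Φ) (hφ : D.Sm φ) {w : S → ι → ℂ} (h : Continuous w) {K : Set S}
    (hK : IsCompact K) (h0 : ∀ x, x ∉ K → D.gp Φ x (w x) (w x) = 0) : D.L2 Φ φ w := by
  obtain ⟨A, U⟩ := exists_uni hΦ hφ
  exact U.l2_cpt h hK h0

/-- `v` is the field of `∂̄ b` for a test function `b` -/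
def Tst (D : RD ι S) (Φ : S → ℝ) (b : S → ℂ) (v : S → ι → ℂ) : Prop :=
  D.Sm b ∧ HasCompactSupport b ∧ D.Sm v ∧ ∀ x ξ, D.gp Φ x (v x) ξ = D.dbar b x ξ

theorem exists_tst (hΦ : D.Pos Φ) {b : S → ℂ} (hb : D.Sm b) (hc : HasCompactSupport b) :
    ∃ v, D.Tst Φ b v := by
  obtain ⟨v, h1, h2, -⟩ := exists_sharp hΦ (r := fun x k => D.op I k b x) fun x =>
    contDiffAt_pi.2 fun k => hb.op I k x
  exact ⟨v, hb, hc, h1, fun x ξ => by rw [h2, dbar_coord]⟩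

theorem Tst.l2 (hΦ : D.Pos Φ) (hφ : D.Sm φ) {b : S → ℂ} {v : S → ι → ℂ} (h : D.Tst Φ b v) :
    D.L2 Φ φ v := L2.of_cpt hΦ hφ h.2.2.1.cont h.2.1.isCompact fun x hx => by
  simp [h.2.2.2, dbar_coord, op_zero _ _ hx]

theorem Tst.conj_vd {b : S → ℂ} {v : S → ι → ℂ} (h : D.Tst Φ b v) (w : S → ι → ℂ) (x : S) :
    D.gp Φ x (v x) (w x) * (Real.exp (-φ x) : ℂ) =
      conj (D.vd w (fun y => conj (b y)) x * (Real.exp (-φ x) : ℂ)) := by
  simp only [h.2.2.2, dbar_coord, vd, op_conj _ _ h.1, map_mul, map_sum, conj_ofReal, map_neg,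
    conj_I, neg_neg, conj_conj, mul_comm (conj (w x _))]

theorem DivF.tst {w : S → ι → ℂ} (hw : D.DivF φ w) {b : S → ℂ} {v : S → ι → ℂ}
    (h : D.Tst Φ b v) : ∫ x, D.gp Φ x (v x) (w x) * (Real.exp (-φ x) : ℂ) ∂D.μ = 0 := by
  simp only [h.conj_vd, integral_conj]
  rw [hw _ h.1.conj (h.2.1.comp_left (g := conj) (map_zero _)), map_zero]

theorem divF_of_tst (hΦ : D.Pos Φ) {w : S → ι → ℂ} (h : ∀ b v, D.Tst Φ b v →
    ∫ x, D.gp Φ x (v x) (w x) * (Real.exp (-φ x) : ℂ) ∂D.μ = 0) : D.DivF φ w := fun a ha hc => by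
  obtain ⟨v, hv⟩ := exists_tst hΦ ha.conj (hc.comp_left (g := conj) (map_zero _))
  have := h _ v hv
  simp only [hv.conj_vd, integral_conj, conj_conj] at this
  exact (map_eq_zero _).1 this

/-- closedness is orthogonality to a family of fields -/
theorem exists_cl (hΦ : D.Pos Φ) (hφ : D.Sm φ) {a : S → ℂ} (ha : D.Sm a)
    (hc : HasCompactSupport a) (k l : ι) : ∃ ζ, D.L2 Φ φ ζ ∧ ∀ (w : S → ι → ℂ) x,
      D.gp Φ x (w x) (ζ x) * (Real.exp (-φ x) : ℂ) =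
        D.fl Φ w x k * D.op I l a x - D.fl Φ w x l * D.op I k a x := by
  refine ⟨fun x => (Real.exp (φ x) : ℂ) •
    (Pi.single k (conj (D.op I l a x)) - Pi.single l (conj (D.op I k a x))),
    L2.of_cpt hΦ hφ (hφ.rexp.ofReal.cont.smul (Continuous.sub ?_ ?_)) hc.isCompact fun x hx => ?_,
    fun w x => ?_⟩
  · exact (continuous_single k).comp (ha.op I l).conj.cont
  · exact (continuous_single l).comp (ha.op I k).conj.cont
  · simp [gp, op_zero _ _ hx]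
  · have e : (Real.exp (φ x) : ℂ) * (Real.exp (-φ x) : ℂ) = 1 := by
      rw [← ofReal_mul, ← Real.exp_add, add_neg_cancel, Real.exp_zero, ofReal_one]
    simp only [gp, fl, Pi.smul_apply, Pi.sub_apply, smul_eq_mul, map_mul, map_sub, conj_ofReal,
      Pi.single_apply, apply_ite conj, conj_conj, map_zero, mul_sub, mul_ite, mul_zero,
      Finset.sum_sub_distrib, Finset.sum_ite_eq', Finset.mem_univ, if_true]
    linear_combination ((∑ j, D.gm Φ x j k * w x j) * D.op I l a x -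
      (∑ j, D.gm Φ x j l * w x j) * D.op I k a x) * e

theorem gp_add_left (x : S) (ξ ξ' ζ : ι → ℂ) :
    D.gp Φ x (ξ + ξ') ζ = D.gp Φ x ξ ζ + D.gp Φ x ξ' ζ := by
  simp only [pj_gp, mulVec_add, dotProduct_add]

theorem gp_smul_left (x : S) (c : ℂ) (ξ ζ : ι → ℂ) :
    D.gp Φ x (c • ξ) ζ = c * D.gp Φ x ξ ζ := by
  simp only [pj_gp, mulVec_smul, dotProduct_smul, smul_eq_mul]

theorem Tst.zero : D.Tst Φ (fun _ => 0) 0 :=
  ⟨sm_const _, HasCompactSupport.zero, sm_const _, fun x ξ => by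
    simp [gp, dbar_coord, op_const]⟩

theorem Tst.add {b b' : S → ℂ} {v v' : S → ι → ℂ} (h : D.Tst Φ b v) (h' : D.Tst Φ b' v') :
    D.Tst Φ (fun x => b x + b' x) (v + v') :=
  ⟨h.1.add h'.1, h.2.1.add h'.2.1, h.2.2.1.add h'.2.2.1, fun x ξ => by
    simp only [Pi.add_apply, gp_add_left, h.2.2.2, h'.2.2.2, dbar_coord, op_add _ _ h.1 h'.1,
      add_mul, Finset.sum_add_distrib]⟩

theorem Tst.smul (c : ℂ) {b : S → ℂ} {v : S → ι → ℂ} (h : D.Tst Φ b v) :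
    D.Tst Φ (fun x => c * b x) (c • v) :=
  ⟨(sm_const c).mul h.1, h.2.1.mul_left, fun x => (h.2.2.1 x).const_smul c, fun x ξ => by
    simp only [Pi.smul_apply, gp_smul_left, h.2.2.2, dbar_coord, op_mul _ _ (sm_const c) h.1,
      op_const, zero_mul, zero_add, Finset.mul_sum, mul_assoc]⟩

theorem HH.zero (hΦ : D.Pos Φ) (hφ : D.Sm φ) : D.HH Φ φ 0 :=
  ⟨fun _ => differentiableAt_const _, Tst.zero.l2 hΦ hφ, fun x => by simp [dv, vd, op_const],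
    fun x => levi_zero hφ x⟩

theorem HH.smul (hΦ : D.Pos Φ) (hφ : D.Sm φ) (c : ℂ) {W : S → ι → ℂ} (h : D.HH Φ φ W) :
    D.HH Φ φ (c • W) := by
  refine ⟨fun x => (h.hol x).const_smul c, h.l2.smul hΦ hφ c, fun x => ?_, fun x => ?_⟩
  · have e : ∀ j, D.op (-I) j (fun y => c * W y j) x = c * D.op (-I) j (fun y => W y j) x :=
      fun j => by rw [op_mul _ _ (sm_const c) (h.hol.coord j).sm, op_const]; ring
    have := h.div x
    simp only [dv, vd, Pi.smul_apply, smul_eq_mul, e, mul_assoc, ← Finset.mul_sum] at this ⊢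
    rw [this]
  · rw [Pi.smul_apply, levi_smul hφ, h.ker, mul_zero]

theorem HH.add (hΦ : D.Pos Φ) (hφ : D.Psh φ) {W X : S → ι → ℂ} (h : D.HH Φ φ W)
    (h' : D.HH Φ φ X) : D.HH Φ φ (W + X) := by
  refine ⟨fun x => (h.hol x).add (h'.hol x), h.l2.add hΦ hφ.1 h'.l2, fun x => ?_, fun x => ?_⟩
  · have e1 := h.div x
    have e2 := h'.div x
    simp only [dv, vd, Pi.add_apply, add_mul, Finset.sum_add_distrib,
      fun j => op_add (-I) j (h.hol.coord j).sm (h'.hol.coord j).sm x] at e1 e2 ⊢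
    rw [e1, e2]
  · have z : ∀ V : S → ι → ℂ, D.levi φ x (V x) = 0 → D.gp φ x (V x) (W x + X x) = 0 := fun V k => by
      have := gp_sq_le hφ x (V x) (W x + X x)
      rw [k, zero_mul] at this
      exact norm_eq_zero.1 (pow_eq_zero_iff two_ne_zero |>.1 (this.antisymm (sq_nonneg _)))
    rw [Pi.add_apply, ← gp_re hφ.1, gp_add, z W (h.ker x), z X (h'.ker x), add_zero, zero_re]

/-- the projection, modulo a space `R` of closed fields -/
theorem proj_gen (hΦ : D.Pos Φ) (hc : D.Cut Φ) (hφ : D.Psh φ) (R : Submodule ℂ (S → ι → ℂ))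
    (hR : ∀ ρ ∈ R, D.L2 Φ φ ρ ∧ D.Cl (D.fl Φ ρ)) {u : S → ι → ℂ}
    (hu : D.L2 Φ φ u) (hl : D.Cl (D.fl Φ u)) :
    ∃ W, D.HH Φ φ W ∧
      (∀ ρ ∈ R, ∫ x, D.gp Φ x (ρ x) (W x) * (Real.exp (-φ x) : ℂ) ∂D.μ = 0) ∧
      (∀ w, D.L2 Φ φ w → D.DivF φ w →
        (∀ ρ ∈ R, ∫ x, D.gp Φ x (ρ x) (w x) * (Real.exp (-φ x) : ℂ) ∂D.μ = 0) →
        ∫ x, D.gp Φ x (u x) (w x) * (Real.exp (-φ x) : ℂ) ∂D.μ =
          ∫ x, D.gp Φ x (W x) (w x) * (Real.exp (-φ x) : ℂ) ∂D.μ) ∧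
      ∀ δ : ℝ, 0 < δ → ∃ (b : S → ℂ) (v ρ : S → ι → ℂ), D.Tst Φ b v ∧ ρ ∈ R ∧
        D.L2 Φ φ (fun x => u x - W x - v x - ρ x) ∧
        ∫ x, D.levi Φ x (u x - W x - v x - ρ x) * Real.exp (-φ x) ∂D.μ ≤ δ := by
  obtain ⟨A, U⟩ := exists_uni hΦ hφ.1
  let B : Submodule ℂ (Lp (EuclideanSpace ℂ ι) 2 D.μ) :=
    { carrier := {F | ∃ b v ρ, D.Tst Φ b v ∧ ρ ∈ R ∧ F =ᵐ[D.μ] tru A (v + ρ)}
      zero_mem' := ⟨_, _, 0, Tst.zero, R.zero_mem, (Lp.coeFn_zero _ _ _).trans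
        (.of_forall fun x => by simp [tru])⟩
      add_mem' := by
        rintro F G ⟨b, v, ρ, h1, h2, h3⟩ ⟨b', v', ρ', k1, k2, k3⟩
        refine ⟨_, _, _, h1.add k1, R.add_mem h2 k2, (Lp.coeFn_add F G).trans ?_⟩
        rw [add_add_add_comm, tru_add]
        exact h3.add k3
      smul_mem' := by
        rintro c F ⟨b, v, ρ, h1, h2, h3⟩
        refine ⟨_, _, _, h1.smul c, R.smul_mem c h2, (Lp.coeFn_smul c F).trans ?_⟩
        rw [← smul_add, tru_smul]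
        exact h3.const_smul c }
  have : CompleteSpace B.topologicalClosure := B.isClosed_topologicalClosure.completeSpace_coe
  obtain ⟨n, hn, z, hz, e⟩ := Submodule.exists_add_mem_mem_orthogonal
    (K := B.topologicalClosure) ((U.mem hu).toLp _)
  have eu := (U.mem hu).coeFn_toLp
  obtain ⟨w, hw, ew⟩ := U.surj z
  have ez : z =ᵐ[D.μ] tru A w := .of_forall fun x => (ew x).symm
  have oz : ∀ b v ρ, D.Tst Φ b v → ρ ∈ R →
      ∫ x, D.gp Φ x ((v + ρ) x) (w x) * (Real.exp (-φ x) : ℂ) ∂D.μ = 0 := fun b v ρ h1 h2 => by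
    have m := U.mem ((h1.l2 hΦ hφ.1).add hΦ hφ.1 (hR ρ h2).1)
    rw [← U.inner_eq ez m.coeFn_toLp]
    exact (Submodule.mem_orthogonal' _ _).1 hz _
      (B.le_topologicalClosure ⟨b, v, ρ, h1, h2, m.coeFn_toLp⟩)
  have on : ∀ ζ (h : D.L2 Φ φ ζ), (∀ b v, D.Tst Φ b v →
      ∫ x, D.gp Φ x (v x) (ζ x) * (Real.exp (-φ x) : ℂ) ∂D.μ = 0) →
      (∀ ρ ∈ R, ∫ x, D.gp Φ x (ρ x) (ζ x) * (Real.exp (-φ x) : ℂ) ∂D.μ = 0) →
      ∫ x, D.gp Φ x (u x) (ζ x) * (Real.exp (-φ x) : ℂ) ∂D.μ =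
        ∫ x, D.gp Φ x (w x) (ζ x) * (Real.exp (-φ x) : ℂ) ∂D.μ := fun ζ h h1 h2 => by
    have eζ := (U.mem h).coeFn_toLp
    have : inner ℂ ((U.mem h).toLp _) n = 0 := by
      refine closure_minimal (t := {c | inner ℂ ((U.mem h).toLp _) c = 0}) ?_
        (isClosed_eq (by fun_prop) continuous_const) (show n ∈ closure (B : Set _) from hn)
      rintro F ⟨b, v, ρ, k1, k2, k3⟩
      have m1 := U.mem (k1.l2 hΦ hφ.1)
      have m2 := U.mem (hR ρ k2).1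
      have : F = m1.toLp _ + m2.toLp _ := Lp.ext (k3.trans (by
        rw [tru_add]
        exact ((Lp.coeFn_add _ _).trans (m1.coeFn_toLp.add m2.coeFn_toLp)).symm))
      rw [mem_ofPred_eq, this, inner_add_right, U.inner_eq eζ m1.coeFn_toLp,
        U.inner_eq eζ m2.coeFn_toLp, h1 b v k1, h2 ρ k2, add_zero]
    rw [← U.inner_eq eζ eu, ← U.inner_eq eζ ez, e, inner_add_right, this, zero_add]
  obtain ⟨W, hW, eW⟩ := hol_of_harm hΦ hc hφ hw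
    (divF_of_tst hΦ fun b v h => by simpa only [add_zero] using oz b v 0 h R.zero_mem)
    (fun a ha ac k l => by
      obtain ⟨ζ, h1, h2⟩ := exists_cl hΦ hφ.1 ha ac k l
      simp only [← h2]
      rw [← on ζ h1 (fun b v h => by
        simp only [h2]; exact cl_of_dbar h.1 h.2.2.2 a ha ac k l) fun ρ h => by
          simp only [h2]; exact (hR ρ h).2 a ha ac k l]
      simp only [h2]
      exact hl a ha ac k l)
  refine ⟨W, hW, fun ρ h => ?_, fun ζ h1 h2 h3 => ?_, fun δ hδ => ?_⟩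
  · rw [← oz _ _ ρ Tst.zero h]
    refine integral_congr_ae ?_
    filter_upwards [eW] with x hx
    rw [hx, zero_add]
  · rw [on ζ h1 (fun b v h => h2.tst h) h3]
    refine integral_congr_ae ?_
    filter_upwards [eW] with x hx
    rw [hx]
  · obtain ⟨F, ⟨b, v, ρ, k1, k2, k3⟩, hF⟩ :=
      Metric.mem_closure_iff.1 (show n ∈ closure (B : Set _) from hn) _ (Real.sqrt_pos.2 hδ)
    refine ⟨b, v, ρ, k1, k2, ((hu.sub hΦ.psh hφ.1 hW.l2).sub hΦ.psh hφ.1 (k1.l2 hΦ hφ.1)).sub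
      hΦ.psh hφ.1 (hR ρ k2).1, ?_⟩
    have e1 : (n - F : Lp _ 2 D.μ) =ᵐ[D.μ] tru A fun x => u x - W x - v x - ρ x := by
      rw [eq_sub_of_add_eq e.symm]
      filter_upwards [Lp.coeFn_sub ((U.mem hu).toLp _ - z) F, Lp.coeFn_sub ((U.mem hu).toLp _) z,
        eu, k3, eW] with x q1 q2 q3 q4 q5
      rw [q1, Pi.sub_apply, q2, Pi.sub_apply, q3, q4, ← ew]
      simp only [tru, q5, Pi.add_apply, mulVec_sub, mulVec_add, WithLp.toLp_sub, WithLp.toLp_add,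
        sub_sub, add_assoc]
    rw [← U.norm_eq e1, ← dist_eq_norm, ← Real.sq_sqrt hδ.le]
    exact pow_le_pow_left₀ dist_nonneg hF.le 2

theorem proj_sub (hΦ : D.Pos Φ) (hc : D.Cut Φ) (hφ : D.Psh φ) (R : Submodule ℂ (S → ι → ℂ))
    (hR : ∀ ρ ∈ R, D.L2 Φ φ ρ ∧ D.Cl (D.fl Φ ρ)) {u : S → ι → ℂ}
    (hu : D.L2 Φ φ u) (hl : D.Cl (D.fl Φ u)) :
    ∃ W, D.HH Φ φ W ∧
      (∀ ρ ∈ R, ∫ x, D.gp Φ x (ρ x) (W x) * (Real.exp (-φ x) : ℂ) ∂D.μ = 0) ∧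
      ∀ δ : ℝ, 0 < δ → ∃ (b : S → ℂ) (v ρ : S → ι → ℂ), D.Sm b ∧ HasCompactSupport b ∧ D.Sm v ∧
        (∀ x ξ, D.gp Φ x (v x) ξ = D.dbar b x ξ) ∧ ρ ∈ R ∧
        D.L2 Φ φ (fun x => u x - W x - v x - ρ x) ∧
        ∫ x, D.levi Φ x (u x - W x - v x - ρ x) * Real.exp (-φ x) ∂D.μ ≤ δ := by
  obtain ⟨W, h1, h2, -, h3⟩ := proj_gen hΦ hc hφ R hR hu hl
  refine ⟨W, h1, h2, fun δ hδ => ?_⟩
  obtain ⟨b, v, ρ, ⟨k1, k2, k3, k4⟩, k5⟩ := h3 δ hδ
  exact ⟨b, v, ρ, k1, k2, k3, k4, k5⟩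

/-- the harmonic part `W` of a closed form `g (u, ·)`; `g (u - W, ·)` is a limit of `∂̄ b` -/
theorem proj (hΦ : D.Pos Φ) (hc : D.Cut Φ) (hφ : D.Psh φ) {u : S → ι → ℂ}
    (hu : D.L2 Φ φ u) (hl : D.Cl (D.fl Φ u)) :
    ∃ W, D.HH Φ φ W ∧ (∀ w, D.L2 Φ φ w → D.DivF φ w →
      ∫ x, D.gp Φ x (u x) (w x) * (Real.exp (-φ x) : ℂ) ∂D.μ =
        ∫ x, D.gp Φ x (W x) (w x) * (Real.exp (-φ x) : ℂ) ∂D.μ) ∧
      ∀ δ : ℝ, 0 < δ → ∃ (b : S → ℂ) (v : S → ι → ℂ), D.Sm b ∧ HasCompactSupport b ∧ D.Sm v ∧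
        (∀ x ξ, D.gp Φ x (v x) ξ = D.dbar b x ξ) ∧ D.L2 Φ φ (fun x => u x - W x - v x) ∧
        ∫ x, D.levi Φ x (u x - W x - v x) * Real.exp (-φ x) ∂D.μ ≤ δ := by
  obtain ⟨W, h1, -, h2, h3⟩ := proj_gen hΦ hc hφ ⊥ (fun ρ h => by
    rw [(Submodule.mem_bot ℂ).1 h]
    exact ⟨Tst.zero.l2 hΦ hφ.1, cl_of_dbar (sm_const 0) Tst.zero.2.2.2⟩) hu hl
  refine ⟨W, h1, fun w k1 k2 => h2 w k1 k2 fun ρ h => ?_, fun δ hδ => ?_⟩
  · rw [(Submodule.mem_bot ℂ).1 h]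
    exact k2.tst Tst.zero
  · obtain ⟨b, v, ρ, ⟨k1, k2, k3, k4⟩, k5, k6⟩ := h3 δ hδ
    rw [(Submodule.mem_bot ℂ).1 k5] at k6
    exact ⟨b, v, k1, k2, k3, k4, by simpa only [Pi.zero_apply, sub_zero] using k6⟩

end RD

end

end Pool.Agent.Lib.MP_5c318e_ag
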