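import Pool.Agent.Lib.MP_5c318e_ag.RD.HDefs

/-! Cutoff functions for a complete Kaehler metric; Stokes formula. -/

set_option autoImplicit false
set_option linter.unusedSectionVars false

namespace Pool.Agent.Lib.MP_5c318e_ag

open MeasureTheory Set Complex Filter Topology
open scoped ComplexConjugate ContDiff
open Pool.Agent.Lib.MP_9ff3e7_ag Pool.Agent.Lib.MP_9ff3e7_ag.F

namespace RD

variable {ι : Type} [Fintype ι] [DecidableEq ι] {S : Type} [TopologicalSpace S]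
  [MeasurableSpace S] [BorelSpace S] [T2Space S] [SigmaCompactSpace S] {D : RD ι S}
  {Φ φ : S → ℝ}

theorem hc_dbar_comp {χ : ℝ → ℝ} {t : S → ℝ} (ht : D.Sm t) (x : S)
    (hχ : DifferentiableAt ℝ χ (t x)) (ξ : ι → ℂ) :
    D.dbar (fun y => (χ (t y) : ℂ)) x ξ =
      (deriv χ (t x) : ℝ) * D.dbar (fun y => (t y : ℂ)) x ξ := by
  have := F.dbar_comp_real (χ := χ) (φ := fun z => t (D.sec x z)) (x := D.π x)
    (by rwa [D.sec_self]) (ht.diff x) ξ
  rwa [D.sec_self] at this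

theorem hc_norm_vd {η : S → ℝ} (hη : D.Sm η) (w : S → ι → ℂ) (x : S) :
    ‖D.vd w (fun y => (η y : ℂ)) x‖ = ‖D.dbar (fun y => (η y : ℂ)) x (w x)‖ := by
  rw [← Complex.norm_conj, vd, dbar_coord, map_sum]
  refine congrArg _ (Finset.sum_congr rfl fun j _ => ?_)
  rw [map_mul, conj_op hη, map_neg, conj_I, neg_neg, mul_comm]

theorem hc_vd_mul (w : S → ι → ℂ) {a b : S → ℂ} (ha : D.Sm a) (hb : D.Sm b) (x : S) :
    D.vd w (fun y => a y * b y) x = D.vd w a x * b x + a x * D.vd w b x := by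
  simp only [vd, op_mul _ _ ha hb, Finset.sum_mul, Finset.mul_sum, ← Finset.sum_add_distrib]
  exact Finset.sum_congr rfl fun j _ => by ring

theorem Pos.hc_nn (h : D.Pos Φ) (x : S) (ξ : ι → ℂ) : 0 ≤ D.levi Φ x ξ := by
  by_cases h0 : ξ = 0
  · simp [h0, levi_coord h.1]
  · exact (h.2 x ξ h0).le

/-- a proper function with bounded gradient gives cutoff functions -/
theorem cut_of_grad {t : S → ℝ} (ht : D.Sm t) (hp : ∀ c, IsCompact {x | t x ≤ c})
    (h0 : ∀ x ξ, 0 ≤ D.levi Φ x ξ) {C : ℝ}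
    (h : ∀ x ξ, ‖D.dbar (fun y => (t y : ℂ)) x ξ‖ ^ 2 ≤ C * D.levi Φ x ξ) : D.Cut Φ := by
  intro K hK θ θ0
  obtain ⟨σ, σs, -, σ0, σ1, -, σn, σl, -, M, σM⟩ := exists_step (a := 0) (b := 1) one_pos
  obtain ⟨k, hk⟩ := hK.bddAbove_image ht.cont.continuousOn
  obtain ⟨e, e0, he⟩ : ∃ e : ℝ, 0 < e ∧ (M * e) ^ 2 * |C| ≤ θ := by
    have lim : Tendsto (fun e : ℝ => (M * e) ^ 2 * |C|) (𝓝[>] 0) (𝓝 0) :=
      (Continuous.tendsto' (by fun_prop) _ _ (by simp)).mono_left nhdsWithin_le_nhds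
    obtain ⟨e, h1, h2⟩ := ((lim.eventually (ge_mem_nhds θ0)).and self_mem_nhdsWithin).exists
    exact ⟨e, h2, h1⟩
  have cs : ContDiff ℝ ∞ fun r : ℝ => 1 - σ (e * (r - k)) :=
    contDiff_const.sub (σs.comp (contDiff_const.mul (contDiff_id.sub contDiff_const)))
  refine ⟨fun y => 1 - σ (e * (t y - k)), ht.comp cs,
    HasCompactSupport.intro (hp (k + e⁻¹)) fun y hy => ?_,
    fun y => ⟨sub_nonneg.2 (σl _), sub_le_self _ (σn _)⟩, fun y hy => ?_, fun x ξ => ?_⟩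
  · have h1 : k + e⁻¹ < t y := not_le.1 hy
    rw [σ1 _ (by rw [← inv_mul_le_iff₀ e0]; linarith), sub_self]
  · have h1 : t y ≤ k := hk (mem_image_of_mem _ hy)
    show 1 - σ (e * (t y - k)) = 1
    rw [σ0 _ (mul_nonpos_of_nonneg_of_nonpos e0.le (sub_nonpos.2 h1)), sub_zero]
  · have d : HasDerivAt (fun r : ℝ => 1 - σ (e * (r - k)))
        (-(deriv σ (e * (t x - k)) * e)) (t x) := by
      have a : HasDerivAt (fun r : ℝ => e * (r - k)) e (t x) := by
        simpa using ((hasDerivAt_id (t x)).sub_const k).const_mul e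
      exact ((σs.differentiable (by simp) _).hasDerivAt.comp (t x) a).const_sub 1
    rw [hc_dbar_comp (χ := fun r : ℝ => 1 - σ (e * (r - k))) ht x d.differentiableAt, d.deriv,
      norm_mul, mul_pow, norm_real, norm_neg, norm_mul, Real.norm_of_nonneg e0.le]
    have a1 : (‖deriv σ (e * (t x - k))‖ * e) ^ 2 ≤ (M * e) ^ 2 :=
      pow_le_pow_left₀ (by positivity) (mul_le_mul_of_nonneg_right (σM _) e0.le) 2
    have a2 := (h x ξ).trans (mul_le_mul_of_nonneg_right (le_abs_self C) (h0 x ξ))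
    refine (mul_le_mul a1 a2 (sq_nonneg _) (sq_nonneg _)).trans ?_
    rw [← mul_assoc]
    exact mul_le_mul_of_nonneg_right he (h0 x ξ)

theorem cut_of_grad' {t : S → ℝ} (ht : D.Sm t) (hp : ∀ c, IsCompact {x | t x ≤ c})
    {C : ℝ} (hC : 0 < C)
    (h : ∀ x ξ, ‖D.dbar (fun y => (t y : ℂ)) x ξ‖ ^ 2 ≤ C * D.levi Φ x ξ) : D.Cut Φ :=
  cut_of_grad ht hp (fun x ξ => nonneg_of_mul_nonneg_right ((sq_nonneg _).trans (h x ξ)) hC) h

theorem Cut.of_le {Ψ : S → ℝ} (h : D.Cut Φ) {C : ℝ} (hC : 0 < C)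
    (hl : ∀ x ξ, D.levi Φ x ξ ≤ C * D.levi Ψ x ξ) : D.Cut Ψ := by
  intro K hK θ θ0
  obtain ⟨η, h1, h2, h3, h4, h5⟩ := h K hK (θ / C) (div_pos θ0 hC)
  refine ⟨η, h1, h2, h3, h4, fun x ξ => (h5 x ξ).trans ?_⟩
  refine (mul_le_mul_of_nonneg_left (hl x ξ) (div_pos θ0 hC).le).trans_eq ?_
  field_simp

theorem levi_cpl {s : S → ℝ} (hs : D.Sm s) (h1 : ∀ x, 0 < s x) (x : S) (ξ : ι → ℂ) :
    D.levi (fun x => 2 * s x - Real.log (s x)) x ξ = (2 - (s x)⁻¹) * D.levi s x ξ +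
      ‖D.dbar (fun y => (Real.log (s y) : ℂ)) x ξ‖ ^ 2 := by
  have c : ContDiffAt ℝ 2 (fun r : ℝ => 2 * r - Real.log r) (s x) :=
    (contDiffAt_const.mul contDiffAt_id).sub (Real.contDiffAt_log.2 (h1 x).ne')
  have d : ∀ r : ℝ, 0 < r → deriv (fun r : ℝ => 2 * r - Real.log r) r = 2 - r⁻¹ := fun r hr => by
    simpa using (((hasDerivAt_id r).const_mul 2).fun_sub (Real.hasDerivAt_log hr.ne')).deriv
  have e : deriv (fun r : ℝ => 2 * r - Real.log r) =ᶠ[𝓝 (s x)] fun r => 2 - r⁻¹ :=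
    Filter.mem_of_superset (Ioi_mem_nhds (h1 x)) d
  have d2 : deriv (fun r : ℝ => 2 - r⁻¹) (s x) = ((s x)⁻¹) ^ 2 := by
    simp
  rw [levi_comp (χ := fun r : ℝ => 2 * r - Real.log r) hs x c, d _ (h1 x), e.deriv_eq, d2,
    hc_dbar_comp hs x (Real.differentiableAt_log (h1 x).ne'), Real.deriv_log, norm_mul, mul_pow,
    norm_real, Real.norm_eq_abs, sq_abs]

/-- `2 s - log s` is a complete Kaehler potential above `s` -/
theorem cut_of_exh {s : S → ℝ} (hs : D.Pos s) (hp : ∀ c, IsCompact {x | s x ≤ c})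
    (h1 : ∀ x, 1 ≤ s x) : D.Pos (fun x => 2 * s x - Real.log (s x)) ∧
      D.Cut (fun x => 2 * s x - Real.log (s x)) ∧
      ∀ x ξ, D.levi s x ξ ≤ D.levi (fun x => 2 * s x - Real.log (s x)) x ξ := by
  have p : ∀ x, 0 < s x := fun x => one_pos.trans_le (h1 x)
  have sl : D.Sm fun x => Real.log (s x) := hs.1.comp_at fun x => Real.contDiffAt_log.2 (p x).ne'
  have a : ∀ x ξ, D.levi s x ξ ≤ (2 - (s x)⁻¹) * D.levi s x ξ := fun x ξ =>
    le_mul_of_one_le_left (hs.hc_nn x ξ) (by linarith [inv_le_one_of_one_le₀ (h1 x)])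
  have b : ∀ x ξ, D.levi s x ξ ≤ D.levi (fun x => 2 * s x - Real.log (s x)) x ξ := fun x ξ => by
    rw [levi_cpl hs.1 p]
    exact (a x ξ).trans (le_add_of_nonneg_right (sq_nonneg _))
  refine ⟨⟨((sm_const 2).mul hs.1).sub sl, fun x ξ h => (hs.2 x ξ h).trans_le (b x ξ)⟩,
    cut_of_grad' sl (fun c => ?_) one_pos fun x ξ => ?_, b⟩
  · convert hp (Real.exp c) using 1
    exact Set.ext fun x => Real.log_le_iff_le_exp (p x)
  · rw [one_mul, levi_cpl hs.1 p]
    exact le_add_of_nonneg_left ((hs.hc_nn x ξ).trans (a x ξ))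

/-- small tails of integrable functions -/
theorem hc_tail {E : Type} [NormedAddCommGroup E] {f : S → E} (hf : Integrable f D.μ) {ε : ℝ}
    (ε0 : 0 < ε) : ∃ K, IsCompact K ∧ ∫ x in Kᶜ, ‖f x‖ ∂D.μ ≤ ε := by
  have ms : ∀ n : ℕ, MeasurableSet (compactCovering S n)ᶜ := fun n =>
    (isCompact_compactCovering S n).isClosed.measurableSet.compl
  have lim := tendsto_setIntegral_of_antitone (f := fun x => ‖f x‖) (μ := D.μ) ms
    (fun n m h => compl_subset_compl.2 (compactCovering_subset S h)) ⟨0, hf.norm.integrableOn⟩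
  rw [← compl_iUnion, iUnion_compactCovering, compl_univ, setIntegral_empty] at lim
  obtain ⟨n, hn⟩ := (lim.eventually (ge_mem_nhds ε0)).exists
  exact ⟨_, isCompact_compactCovering S n, hn⟩

theorem hc_aesm_vd {w : S → ι → ℂ} (hw : AEStronglyMeasurable w D.μ) {a : S → ℂ} (ha : D.Sm a) :
    AEStronglyMeasurable (D.vd w a) D.μ :=
  Finset.aestronglyMeasurable_fun_sum _ fun j _ =>
    ((continuous_apply j).comp_aestronglyMeasurable hw).mul (ha.op _ j).cont.aestronglyMeasurable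

/-- Stokes on a complete manifold: `∫ conj (∂̄ b) (w) = 0` -/
theorem DivF.stokes (_hΦ : D.Pos Φ) (hc : D.Cut Φ) (hφ : D.Sm φ) {w : S → ι → ℂ} (hw : D.L2 Φ φ w)
    (hd : D.DivF φ w) {a : S → ℂ} (ha : D.Sm a)
    (h2 : Integrable (fun x => ‖a x‖ ^ 2 * Real.exp (-φ x)) D.μ)
    (h1 : Integrable (fun x => D.vd w a x * (Real.exp (-φ x) : ℂ)) D.μ) :
    ∫ x, D.vd w a x * (Real.exp (-φ x) : ℂ) ∂D.μ = 0 := by
  set B := ∫ x, (‖a x‖ ^ 2 * Real.exp (-φ x) + D.levi Φ x (w x) * Real.exp (-φ x)) ∂D.μ with hB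
  have key : ∀ ε : ℝ, 0 < ε →
      ‖∫ x, D.vd w a x * (Real.exp (-φ x) : ℂ) ∂D.μ‖ ≤ ε + ε * B := fun ε ε0 => by
    obtain ⟨K, hK, tl⟩ := hc_tail h1 ε0
    obtain ⟨η, s, c, b, o, g⟩ := hc K hK (ε ^ 2) (by positivity)
    have z := hd _ (s.ofReal.mul ha) (c.comp_left (g := fun r : ℝ => (r : ℂ)) (by simp)).mul_right
    have bd : ∀ x, ‖D.vd w (fun y => (η y : ℂ)) x * a x * (Real.exp (-φ x) : ℂ)‖ ≤
        ε * (‖a x‖ ^ 2 * Real.exp (-φ x) + D.levi Φ x (w x) * Real.exp (-φ x)) := fun x => by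
      rw [norm_mul, norm_mul, norm_real, Real.norm_of_nonneg (Real.exp_pos _).le, ← add_mul,
        ← mul_assoc, hc_norm_vd s]
      refine mul_le_mul_of_nonneg_right (le_of_mul_le_mul_left ?_ ε0) (Real.exp_pos _).le
      nlinarith [g x (w x), sq_nonneg (‖D.dbar (fun y => (η y : ℂ)) x (w x)‖ - ε * ‖a x‖),
        mul_nonneg (sq_nonneg ε) (sq_nonneg ‖a x‖)]
    have iB := (h2.add hw.2).const_mul ε
    have i1 : Integrable (fun x => D.vd w (fun y => (η y : ℂ)) x * a x * (Real.exp (-φ x) : ℂ))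
        D.μ := iB.mono' (((hc_aesm_vd hw.1 s.ofReal).mul ha.cont.aestronglyMeasurable).mul
          hφ.wt.cont.aestronglyMeasurable) (.of_forall bd)
    have i2 : Integrable (fun x => ((1 - η x : ℝ) : ℂ) * (D.vd w a x * (Real.exp (-φ x) : ℂ)))
        D.μ := h1.bdd_mul (c := 1) ((sm_const 1).sub s).ofReal.cont.aestronglyMeasurable
          (.of_forall fun x => by
            rw [norm_real, Real.norm_of_nonneg (sub_nonneg.2 (b x).2)]
            linarith [(b x).1])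
    have e : ∫ x, D.vd w a x * (Real.exp (-φ x) : ℂ) ∂D.μ =
        ∫ x, ((1 - η x : ℝ) : ℂ) * (D.vd w a x * (Real.exp (-φ x) : ℂ)) ∂D.μ -
        ∫ x, D.vd w (fun y => (η y : ℂ)) x * a x * (Real.exp (-φ x) : ℂ) ∂D.μ := by
      rw [← integral_sub i2 i1, ← sub_eq_zero]
      refine (integral_sub h1 (i2.sub i1)).symm.trans (Eq.trans ?_ z)
      refine integral_congr_ae (.of_forall fun x => ?_)
      simp only [hc_vd_mul w s.ofReal ha, Pi.sub_apply]
      push_cast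
      ring
    rw [e]
    refine (norm_sub_le _ _).trans (add_le_add (le_trans ?_ tl) ?_)
    · rw [← integral_indicator hK.isClosed.measurableSet.compl]
      refine norm_integral_le_of_norm_le
        (h1.norm.indicator hK.isClosed.measurableSet.compl) (.of_forall fun x => ?_)
      by_cases hx : x ∈ K
      · rw [indicator_of_notMem (by simpa using hx), o x hx]
        simp
      · rw [indicator_of_mem (show x ∈ Kᶜ from hx), norm_mul, norm_real,
          Real.norm_of_nonneg (sub_nonneg.2 (b x).2)]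
        exact mul_le_of_le_one_left (norm_nonneg _) (by linarith [(b x).1])
    · rw [hB, ← integral_const_mul]
      exact norm_integral_le_of_norm_le iB (.of_forall bd)
  have lim : Tendsto (fun ε : ℝ => ε + ε * B) (𝓝[>] 0) (𝓝 0) :=
    (Continuous.tendsto' (by fun_prop) _ _ (by simp)).mono_left nhdsWithin_le_nhds
  exact norm_le_zero_iff.1 (ge_of_tendsto lim (eventually_nhdsWithin_of_forall key))

end RD

end Pool.Agent.Lib.MP_5c318e_ag
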