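import Pool.Agent.Lib.MP_5c318e_ag.RD.RCore
import Pool.Agent.Lib.MP_5c318e_ag.RD.RInt
import Pool.Agent.Lib.MP_9ff3e7_ag.F.LeviGlue

/-! Hoermander's `L²` estimate on a Riemann domain with a plurisubharmonic exhaustion. -/

set_option autoImplicit false
set_option linter.unusedSectionVars false

namespace Pool.Agent.Lib.MP_5c318e_ag

open MeasureTheory Set Filter Topology Complex
open scoped ContDiff ComplexConjugate
open Pool.Agent.Lib.MP_9ff3e7_ag Pool.Agent.Lib.MP_9ff3e7_ag.F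

noncomputable section

namespace RD

variable {ι : Type} [Fintype ι] {S : Type} [TopologicalSpace S] [MeasurableSpace S] {D : RD ι S}

theorem levi_add {φ ψ : S → ℝ} (hφ : D.Sm φ) (hψ : D.Sm ψ) (x : S) (ξ : ι → ℂ) :
    D.levi (fun y => φ y + ψ y) x ξ = D.levi φ x ξ + D.levi ψ x ξ :=
  F.levi_add (hφ.two x) (hψ.two x) ξ

theorem levi_cmul (c : ℝ) {φ : S → ℝ} (hφ : D.Sm φ) (x : S) (ξ : ι → ℂ) :
    D.levi (fun y => c * φ y) x ξ = c * D.levi φ x ξ := F.levi_const_mul c (hφ.two x) ξ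

theorem levi_sum {α : Type*} (T : Finset α) {φ : α → S → ℝ} (hφ : ∀ a ∈ T, D.Sm (φ a)) (x : S)
    (ξ : ι → ℂ) : D.levi (fun y => ∑ a ∈ T, φ a y) x ξ = ∑ a ∈ T, D.levi (φ a) x ξ :=
  F.levi_sum T (φ := fun a z => φ a (D.sec x z)) (fun a ha => (hφ a ha).two x) ξ

theorem levi_comp {χ : ℝ → ℝ} {φ : S → ℝ} (hφ : D.Sm φ) (x : S) (hχ : ContDiffAt ℝ 2 χ (φ x))
    (ξ : ι → ℂ) : D.levi (fun y => χ (φ y)) x ξ = deriv χ (φ x) * D.levi φ x ξ +
      deriv (deriv χ) (φ x) * ‖D.dbar (fun y => (φ y : ℂ)) x ξ‖ ^ 2 := by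
  have := F.levi_comp_real (χ := χ) (by rwa [D.sec_self]) (hφ.two x) ξ
  rwa [D.sec_self] at this

theorem levi_sub_const {φ : S → ℝ} (hφ : D.Sm φ) (c : ℝ) (x : S) (ξ : ι → ℂ) :
    D.levi (fun y => φ y - c) x ξ = D.levi φ x ξ := F.levi_add_const (hφ.two x) (-c) ξ

theorem levi_π (g : (ι → ℂ) → ℝ) (x : S) (ξ : ι → ℂ) :
    D.levi (fun y => g (D.π y)) x ξ = F.levi g (D.π x) ξ :=
  F.levi_congr ((D.π_sec_ev x).mono fun _ h => congrArg g h) ξ

theorem Exh.strong {s : S → ℝ} (hs : D.Exh s) : ∃ s : S → ℝ, D.Sm s ∧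
    (∀ c, IsCompact {x | s x ≤ c}) ∧ ∀ x ξ, ∑ i, ‖ξ i‖ ^ 2 ≤ D.levi s x ξ := by
  have h : D.Sm fun y => ∑ i, ‖D.π y i - (0 : ι → ℂ) i‖ ^ 2 := sm_π.comp (contDiff_euclid 0)
  refine ⟨_, hs.1.1.add h, fun c => (hs.2 c).of_isClosed_subset
    (isClosed_le (hs.1.1.add h).cont continuous_const) fun x hx => ?_, fun x ξ => ?_⟩
  · exact (le_add_of_nonneg_right (a := s x) (Finset.sum_nonneg fun _ _ => sq_nonneg _)).trans
      (mem_ofPred_eq ▸ hx)
  · rw [levi_add hs.1.1 h, levi_π fun z => ∑ i, ‖z i - (0 : ι → ℂ) i‖ ^ 2, levi_euclid]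
    exact le_add_of_nonneg_left (hs.1.2 x ξ)

/-- a weight that vanishes up to level `t - 1` and has a large Levi form from level `t` on -/
theorem exists_weight {s : S → ℝ} (hs : D.Sm s) (hc : ∀ c, IsCompact {x | s x ≤ c})
    (h0 : ∀ x ξ, 0 ≤ D.levi s x ξ) {G : S → ℝ} (hG : Continuous G) (t : ℝ) :
    ∃ X : S → ℝ, D.Sm X ∧ (∀ x, 0 ≤ X x) ∧ (∀ x, s x ≤ t - 1 → X x = 0) ∧
      (∀ x ξ, 0 ≤ D.levi X x ξ) ∧ ∀ x ξ, t ≤ s x → G x * D.levi s x ξ ≤ D.levi X x ξ := by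
  obtain ⟨g, g1, g2, g3, g4, -, -, g5, g6, -⟩ := exists_ramp (a := -1) (b := 0) (by norm_num)
  choose M hM using fun n : ℕ => (hc (t + n + 1)).exists_bound_of_continuousOn hG.continuousOn
  have sm : ∀ n : ℕ, D.Sm fun y => g (s y - (t + n)) := fun n => (hs.sub (sm_const _)).comp g1
  have sm' : ∀ n : ℕ, D.Sm fun y => |M n| * g (s y - (t + n)) := fun n => (sm_const _).mul (sm n)
  have ev : ∀ x, ∃ N : ℕ, s x < t + N - 1 ∧ (fun y => ∑' n : ℕ, |M n| * g (s y - (t + n))) =ᶠ[𝓝 x]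
      fun y => ∑ n ∈ Finset.range N, |M n| * g (s y - (t + n)) := fun x => by
    obtain ⟨N, hN⟩ := exists_nat_gt (s x - t + 1)
    have h1 : s x < t + N - 1 := by linarith
    refine ⟨N, h1, ?_⟩
    filter_upwards [hs.cont.continuousAt.eventually (gt_mem_nhds h1)] with y hy
    refine tsum_eq_sum fun n hn => ?_
    have : (N : ℝ) ≤ n := by exact_mod_cast not_lt.1 (mt Finset.mem_range.2 hn)
    rw [g2 _ (by linarith), mul_zero]
  have lv : ∀ (n : ℕ) x ξ, |M n| * (deriv g (s x - (t + n)) * D.levi s x ξ) ≤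
      D.levi (fun y => |M n| * g (s y - (t + n))) x ξ := fun n x ξ => by
    rw [levi_cmul _ (sm n), levi_comp (hs.sub (sm_const _)) x (g1.contDiffAt.of_le (by norm_cast)),
      levi_sub_const hs]
    exact mul_le_mul_of_nonneg_left (le_add_of_nonneg_right (mul_nonneg (g6 _) (sq_nonneg _)))
      (abs_nonneg _)
  have l0 : ∀ (n : ℕ) x ξ, 0 ≤ D.levi (fun y => |M n| * g (s y - (t + n))) x ξ := fun n x ξ =>
    (mul_nonneg (abs_nonneg _) (mul_nonneg (g4 _) (h0 x ξ))).trans (lv n x ξ)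
  refine ⟨fun y => ∑' n : ℕ, |M n| * g (s y - (t + n)), sm_of_ev fun x => ?_,
    fun x => tsum_nonneg fun n => mul_nonneg (abs_nonneg _) (g3 _), fun x hx => ?_,
    fun x ξ => ?_, fun x ξ hx => ?_⟩
  · obtain ⟨N, -, h⟩ := ev x
    exact ⟨_, sm_sum _ fun n _ => sm' n, h⟩
  · have : ∀ n : ℕ, |M n| * g (s x - (t + n)) = 0 := fun n => by
      rw [g2 _ (by linarith [n.cast_nonneg (α := ℝ)]), mul_zero]
    simp only [this, tsum_zero]
  · obtain ⟨N, -, h⟩ := ev x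
    rw [levi_congr h, levi_sum _ fun n _ => sm' n]
    exact Finset.sum_nonneg fun n _ => l0 n x ξ
  · obtain ⟨N, hN, h⟩ := ev x
    have a := Nat.floor_le (sub_nonneg.2 hx)
    have b := Nat.lt_floor_add_one (s x - t)
    have m : ⌊s x - t⌋₊ ∈ Finset.range N :=
      Finset.mem_range.2 (by exact_mod_cast (by linarith : (⌊s x - t⌋₊ : ℝ) < N))
    rw [levi_congr h, levi_sum _ fun n _ => sm' n]
    refine le_trans ?_ ((lv _ x ξ).trans (Finset.single_le_sum (fun n _ => l0 n x ξ) m))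
    rw [g5 _ (by linarith), one_mul]
    exact mul_le_mul_of_nonneg_right ((le_abs_self _).trans ((hM _ x (by
      show s x ≤ _
      linarith)).trans (le_abs_self _))) (h0 x ξ)

variable [BorelSpace S] [T2Space S]

/-- the a priori inequality -/
theorem apriori [DecidableEq ι] {s : S → ℝ} (hs : D.Exh s) {φ : S → ℝ} (hφ : D.Psh φ) {f : S → ℂ}
    (hf : D.Sm f) {h : S → ℝ} (h0 : ∀ x, 0 ≤ h x)
    (hb : ∀ x ξ, ‖D.dbar f x ξ‖ ^ 2 ≤ h x * D.levi φ x ξ)
    (hi : Integrable (fun x => h x * Real.exp (-φ x)) D.μ) {b : S → ℂ} (hA : b ∈ D.Ann) :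
    ‖∫ y, f y * b y ∂D.μ‖ ^ 2 ≤ (∫ x, h x * Real.exp (-φ x) ∂D.μ) *
      ∫ y, ‖b y‖ ^ 2 * Real.exp (φ y) ∂D.μ := by
  obtain ⟨s, hs, hc, sl⟩ := hs.strong
  have s0 : ∀ x ξ, 0 ≤ D.levi s x ξ := fun x ξ =>
    (Finset.sum_nonneg fun _ _ => sq_nonneg _).trans (sl x ξ)
  obtain ⟨t0, ht0⟩ := hA.2.1.isCompact.bddAbove_image hs.cont.continuousOn
  obtain ⟨t, ht⟩ : ∃ t, ∀ y, b y ≠ 0 → s y ≤ t - 1 :=
    ⟨t0 + 1, fun y hy => by linarith [ht0 (mem_image_of_mem _ (subset_tsupport _ hy))]⟩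
  obtain ⟨σ, σs, -, σ0, σ1, -, σn, σl, σd, M, σM⟩ := exists_step (a := 0) (b := 1) one_pos
  have cs : ∀ c, D.Sm fun y => 1 - σ (s y - c) := fun c =>
    (sm_const _).sub ((hs.sub (sm_const _)).comp σs)
  have c1 : ∀ c y, s y ≤ c → 1 - σ (s y - c) = 1 := fun c y hy => by
    rw [σ0 _ (by linarith), sub_zero]
  have c0 : ∀ c y, c + 1 < s y → 1 - σ (s y - c) = 0 := fun c y hy => by
    rw [σ1 _ (by linarith), sub_self]
  have cc : ∀ c, HasCompactSupport fun y => 1 - σ (s y - c) := fun c =>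
    HasCompactSupport.intro (hc (c + 1)) fun y hy => c0 c y (not_le.1 hy)
  have cd : ∀ (c : ℝ) i y, D.op (-I) i (fun y => ((1 - σ (s y - c) : ℝ) : ℂ)) y =
      -((deriv σ (s y - c) : ℝ) * D.op (-I) i (fun y => (s y : ℂ)) y) := fun c i y => by
    rw [op_real (-I) i (χ := fun r => 1 - σ (r - c))
      (contDiff_const.sub (σs.comp (contDiff_id.sub contDiff_const))) hs, deriv_const_sub,
      deriv_comp_sub_const, ofReal_neg, neg_mul]
  set q : S → ℝ := fun y => 4 * M ^ 2 * ∑ i, ‖D.op (-I) i (fun y => (s y : ℂ)) y‖ ^ 2 with hq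
  have q0 : ∀ y, 0 < 1 + q y := fun y => by positivity
  set ψ : S → ℝ := fun y => σ (s y - (t + 1)) * Real.log (1 + q y) with hψ0
  have hψ : D.Sm ψ := ((hs.sub (sm_const _)).comp σs).mul (((sm_const 1).add ((sm_const _).mul
    (sm_sum _ fun i _ => (hs.ofReal.op _ i).normSq))).comp_at fun y =>
      Real.contDiffAt_log.2 (q0 y).ne')
  have ψ0 : ∀ y, s y ≤ t + 1 → ψ y = 0 := fun y hy => by
    simp only [hψ0]
    rw [σ0 _ (by linarith), zero_mul]
  have hcut : ∀ N : S → ℝ, Integrable N D.μ → (∀ y, 0 ≤ N y) → ∀ K, IsCompact K → ∀ θ : ℝ, 0 < θ →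
      ∃ η : S → ℝ, D.Sm η ∧ HasCompactSupport η ∧ (∀ y ∈ K, η y = 1) ∧ ∀ i,
        ∫ y, ‖2 * D.op (-I) i (fun y => (η y : ℂ)) y‖ ^ 2 * Real.exp (-ψ y) * N y ∂D.μ ≤ θ := by
    intro N hN N0 K hK θ θ0
    have ms : ∀ n : ℕ, MeasurableSet {y | (n : ℝ) ≤ s y} := fun n =>
      (isClosed_le continuous_const hs.cont).measurableSet
    have lim := tendsto_setIntegral_of_antitone (f := N) (μ := D.μ) ms
      (fun n m hnm y (hy : (m : ℝ) ≤ s y) => ((Nat.cast_le.2 hnm).trans hy : (n : ℝ) ≤ s y)) ⟨0, hN.integrableOn⟩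
    have e : ⋂ n : ℕ, {y | (n : ℝ) ≤ s y} = ∅ := eq_empty_of_forall_notMem fun y hy => by
      obtain ⟨n, hn⟩ := exists_nat_gt (s y)
      exact hn.not_ge (mem_iInter.1 hy n)
    rw [e, setIntegral_empty] at lim
    obtain ⟨k, hk⟩ := hK.bddAbove_image hs.cont.continuousOn
    obtain ⟨n, n1, n2, n3⟩ := ((lim.eventually (ge_mem_nhds θ0)).and
      ((tendsto_natCast_atTop_atTop.eventually_ge_atTop k).and
        (tendsto_natCast_atTop_atTop.eventually_ge_atTop (t + 2)))).exists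
    refine ⟨_, cs n, cc n, fun y hy => c1 _ y ((hk (mem_image_of_mem _ hy)).trans n2),
      fun i => le_trans ?_ n1⟩
    rw [← integral_indicator (ms n)]
    refine integral_mono_of_nonneg (.of_forall fun y => mul_nonneg (by positivity) (N0 y))
      (hN.indicator (ms n)) (.of_forall fun y => ?_)
    simp only [cd]
    by_cases hy : (n : ℝ) ≤ s y
    · rw [indicator_of_mem (show y ∈ {y | (n : ℝ) ≤ s y} from hy)]
      refine mul_le_of_le_one_left (N0 y) ?_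
      have e1 : Real.exp (ψ y) = 1 + q y := by
        simp only [hψ0]
        rw [σ1 _ (by linarith), one_mul, Real.exp_log (q0 y)]
      rw [Real.exp_neg, e1, mul_inv_le_iff₀ (q0 y), one_mul, norm_mul, norm_neg, norm_mul, norm_real,
        mul_pow, mul_pow, Complex.norm_two]
      have a1 : ‖deriv σ (s y - n)‖ ^ 2 ≤ M ^ 2 := pow_le_pow_left₀ (norm_nonneg _) (σM _) 2
      have a2 := Finset.single_le_sum (f := fun i => ‖D.op (-I) i (fun y => (s y : ℂ)) y‖ ^ 2)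
        (fun _ _ => sq_nonneg _) (Finset.mem_univ i)
      have := mul_le_mul a1 a2 (sq_nonneg _) (sq_nonneg _)
      simp only [hq]
      linarith
    · rw [indicator_of_notMem (show y ∉ {y | (n : ℝ) ≤ s y} from hy), σd _ (.inl (by linarith))]
      simp
  set f1 : S → ℂ := fun y => ((1 - σ (s y - t) : ℝ) : ℂ) * f y with hf1
  have f1s : D.Sm f1 := (cs t).ofReal.mul hf
  have f1c : HasCompactSupport f1 :=
    HasCompactSupport.intro (hc (t + 1)) fun y hy => by simp only [hf1, c0 t y (not_le.1 hy)]; simp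
  have ki : Integrable (fun y => (1 - σ (s y - (t + 1))) * Real.exp (-φ y)) D.μ :=
    ((cs _).mul hφ.1.neg.rexp).int (cc _).mul_right
  have k0 : ∀ y, 0 ≤ 1 - σ (s y - (t + 1)) := fun y => sub_nonneg.2 (σl _)
  set A := ∫ y, (1 - σ (s y - (t + 1))) * Real.exp (-φ y) ∂D.μ with hA0
  have A0 : 0 ≤ A := integral_nonneg fun y => mul_nonneg (k0 y) (Real.exp_pos _).le
  set C := ∫ x, h x * Real.exp (-φ x) ∂D.μ with hC
  set B := ∫ y, ‖b y‖ ^ 2 * Real.exp (φ y) ∂D.μ with hB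
  have B0 : 0 ≤ B := integral_nonneg fun y => by positivity
  have key : ∀ ε : ℝ, 0 < ε → ‖∫ y, f y * b y ∂D.μ‖ ^ 2 ≤ (1 + ε) * (C + ε * A) * B := by
    intro ε ε0
    obtain ⟨X, X1, X2, X3, X4, X5⟩ := exists_weight hs hc s0 (((sm_const (1 + ε⁻¹)).mul
      (sm_sum Finset.univ fun j _ => (hψ.ofReal.op (-I) j).normSq)).add ((sm_const ε⁻¹).mul
      (sm_sum Finset.univ fun j _ => (f1s.op I j).normSq))).cont t
    have hΦ := hφ.1.add X1
    have i0 := hi.add (ki.const_mul ε)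
    have le0 : ∀ x, (h x + ε * (1 - σ (s x - (t + 1)))) * Real.exp (-(φ x + X x)) ≤
        h x * Real.exp (-φ x) + ε * ((1 - σ (s x - (t + 1))) * Real.exp (-φ x)) := fun x => by
      rw [← mul_assoc, ← add_mul]
      exact mul_le_mul_of_nonneg_left (Real.exp_le_exp.2 (by linarith [X2 x]))
        (add_nonneg (h0 x) (mul_nonneg ε0.le (k0 x)))
    have p0 : ∀ x, 0 ≤ h x + ε * (1 - σ (s x - (t + 1))) := fun x =>
      add_nonneg (h0 x) (mul_nonneg ε0.le (k0 x))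
    have i1 : Integrable (fun x => (h x + ε * (1 - σ (s x - (t + 1)))) *
        Real.exp (-(φ x + X x))) D.μ := by
      refine (i0.mul_bdd (c := 1) X1.neg.rexp.cont.aestronglyMeasurable
        (.of_forall fun x => ?_)).congr (.of_forall fun x => ?_)
      · rw [Real.norm_of_nonneg (Real.exp_pos _).le]
        exact Real.exp_le_one_iff.2 (by linarith [X2 x])
      · simp only [Pi.add_apply, neg_add, Real.exp_add]
        ring
    have lo : ∀ x ξ, s x < t → D.levi φ x ξ ≤ D.levi (fun y => φ y + X y) x ξ - (1 + ε⁻¹) *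
        ((∑ j, ‖D.op (-I) j (fun y => (ψ y : ℂ)) x‖ ^ 2) * ∑ j, ‖ξ j‖ ^ 2) := fun x ξ hx => by
      have : ∀ j, D.op (-I) j (fun y => (ψ y : ℂ)) x = 0 := fun j => by
        rw [op_congr _ j (g := fun _ => 0), op_const]
        filter_upwards [hs.cont.continuousAt.eventually (gt_mem_nhds hx)] with y hy
        rw [ψ0 y (by linarith), ofReal_zero]
      simp only [this, levi_add hφ.1 X1]
      simpa using X4 x ξ
    have up : ∀ x ξ, t ≤ s x → ε⁻¹ * ((∑ j, ‖D.op I j f1 x‖ ^ 2) * ∑ j, ‖ξ j‖ ^ 2) ≤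
        D.levi (fun y => φ y + X y) x ξ - (1 + ε⁻¹) *
        ((∑ j, ‖D.op (-I) j (fun y => (ψ y : ℂ)) x‖ ^ 2) * ∑ j, ‖ξ j‖ ^ 2) := fun x ξ hx => by
      have := (mul_le_mul_of_nonneg_left (sl x ξ) (by positivity)).trans (X5 x ξ hx)
      rw [levi_add hφ.1 X1]
      linarith [hφ.2 x ξ]
    have L0 : ∀ x ξ, 0 ≤ D.levi (fun y => φ y + X y) x ξ - (1 + ε⁻¹) *
        ((∑ j, ‖D.op (-I) j (fun y => (ψ y : ℂ)) x‖ ^ 2) * ∑ j, ‖ξ j‖ ^ 2) := fun x ξ => by
      rcases lt_or_ge (s x) t with hx | hx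
      · exact (hφ.2 x ξ).trans (lo x ξ hx)
      · exact le_trans (by positivity) (up x ξ hx)
    have := core hΦ hψ ε0 f1s f1c p0 i1 L0 (fun x ξ => ?_) hcut hA
    · have e1 : ∫ y, f1 y * b y ∂D.μ = ∫ y, f y * b y ∂D.μ := by
        congr 1
        funext y
        by_cases hy : b y = 0
        · simp [hy]
        · simp only [hf1, c1 t y (by linarith [ht y hy]), ofReal_one, one_mul]
      have e2 : ∫ y, ‖b y‖ ^ 2 * Real.exp (φ y + X y - 2 * ψ y) ∂D.μ = B := by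
        congr 1
        funext y
        by_cases hy : b y = 0
        · simp [hy]
        · rw [X3 y (ht y hy), ψ0 y (by linarith [ht y hy])]
          simp
      rw [e1, e2] at this
      refine this.trans (mul_le_mul_of_nonneg_right
        (mul_le_mul_of_nonneg_left ?_ (by positivity)) B0)
      rw [hC, hA0, ← integral_const_mul, ← integral_add hi (ki.const_mul ε)]
      exact integral_mono i1 i0 le0
    rcases lt_or_ge (s x) t with hx | hx
    · have e : f1 =ᶠ[𝓝 x] f := by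
        filter_upwards [hs.cont.continuousAt.eventually (gt_mem_nhds hx)] with y hy
        simp only [hf1, c1 t y hy.le, ofReal_one, one_mul]
      rw [ψ0 x (by linarith), Real.exp_zero, mul_one, dbar_congr e]
      exact (hb x ξ).trans (mul_le_mul (le_add_of_nonneg_right (mul_nonneg ε0.le (k0 x)))
        (lo x ξ hx) (hφ.2 x ξ) (p0 x))
    rcases le_or_gt (s x) (t + 1) with hx' | hx'
    · rw [ψ0 x hx', Real.exp_zero, mul_one, c1 _ x hx', mul_one, dbar_coord]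
      refine (norm_sum_mul_conj_sq_le _ _ _).trans (le_trans (le_of_eq ?_)
        (mul_le_mul (le_add_of_nonneg_left (h0 x)) (up x ξ hx) (by positivity)
          (add_nonneg (h0 x) ε0.le)))
      field_simp
    · have e : f1 =ᶠ[𝓝 x] fun _ => 0 := by
        filter_upwards [hs.cont.continuousAt.eventually (lt_mem_nhds hx')] with y hy
        simp only [hf1, c0 t y hy, ofReal_zero, zero_mul]
      rw [dbar_congr e, dbar, F.dbar_const, norm_zero, zero_mul, zero_pow two_ne_zero]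
      exact mul_nonneg (p0 x) (L0 x ξ)
  have lim : Tendsto (fun ε : ℝ => (1 + ε) * (C + ε * A) * B) (𝓝[>] 0) (𝓝 (C * B)) :=
    (Continuous.tendsto' (by fun_prop) _ _ (by simp)).mono_left nhdsWithin_le_nhds
  exact ge_of_tendsto lim (eventually_nhdsWithin_of_forall key)

variable [SigmaCompactSpace S]

/-- singular weights: `exp (φ k) → w` pointwise, `φ k ≤ φ 0`; the weight is `1 / w`, infinite where
`w = 0` -/
theorem hormander_lim (D : RD ι S) {s : S → ℝ} (hs : D.Exh s) {φ : ℕ → S → ℝ}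
    (hφ : ∀ k, D.Psh (φ k)) (hle : ∀ k x, φ k x ≤ φ 0 x) {w : S → ℝ}
    (hw : ∀ x, Tendsto (fun k => Real.exp (φ k x)) atTop (𝓝 (w x)))
    {f : S → ℂ} (hf : D.Sm f) {h : ℕ → S → ℝ} (hm : ∀ k, Measurable (h k)) (h0 : ∀ k x, 0 ≤ h k x)
    (hb : ∀ k x ξ, ‖D.dbar f x ξ‖ ^ 2 ≤ h k x * D.levi (φ k) x ξ) {C : ENNReal}
    (hC : ∀ k, ∫⁻ x, ENNReal.ofReal (h k x * Real.exp (-φ k x)) ∂D.μ ≤ C) (hT : C ≠ ⊤) :
    ∃ F : S → ℂ, D.Hol F ∧
      ∫⁻ x, ENNReal.ofReal (‖F x - f x‖ ^ 2) * (ENNReal.ofReal (w x))⁻¹ ∂D.μ ≤ C := by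
  classical
  have ec : ∀ k, Continuous fun x => Real.exp (φ k x) := fun k => (hφ k).1.rexp.cont
  have el : ∀ k x, Real.exp (φ k x) ≤ Real.exp (φ 0 x) := fun k x => Real.exp_le_exp.2 (hle k x)
  rw [← ENNReal.ofReal_toReal hT]
  refine riesz hf.cont (measurable_of_tendsto_metrizable (fun k => (ec k).measurable)
    (tendsto_pi_nhds.2 hw)) (fun y => ge_of_tendsto' (hw y) fun k => (Real.exp_pos _).le) (ec 0)
    (fun y => le_of_tendsto' (hw y) fun k => el k y) ENNReal.toReal_nonneg fun b hA => ?_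
  have bc : Continuous fun y => ‖b y‖ ^ 2 := hA.1.norm.pow 2
  have lim : Tendsto (fun k => ∫ y, ‖b y‖ ^ 2 * Real.exp (φ k y) ∂D.μ) atTop
      (𝓝 (∫ y, ‖b y‖ ^ 2 * w y ∂D.μ)) := by
    refine tendsto_integral_of_dominated_convergence (fun y => ‖b y‖ ^ 2 * Real.exp (φ 0 y))
      (fun k => (bc.mul (ec k)).aestronglyMeasurable)
      ((bc.mul (ec 0)).integrable_of_hasCompactSupport
        (hA.2.1.mono fun y hy h => hy (by simp [h])))
      (fun k => .of_forall fun y => ?_) (.of_forall fun y => (hw y).const_mul _)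
    rw [Real.norm_of_nonneg (by positivity)]
    exact mul_le_mul_of_nonneg_left (el k y) (sq_nonneg _)
  refine ge_of_tendsto' (lim.const_mul _) fun k => ?_
  have hw0 : ∀ x, 0 ≤ h k x * Real.exp (-φ k x) := fun x => mul_nonneg (h0 k x) (Real.exp_pos _).le
  have hi : Integrable (fun x => h k x * Real.exp (-φ k x)) D.μ :=
    (lintegral_ofReal_ne_top_iff_integrable ((hm k).mul
      (hφ k).1.neg.rexp.cont.measurable).aestronglyMeasurable (.of_forall hw0)).1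
      (ne_top_of_le_ne_top hT (hC k))
  refine (apriori hs (hφ k) hf (h0 k) (hb k) hi hA).trans (mul_le_mul_of_nonneg_right ?_
    (integral_nonneg fun y => by positivity))
  rw [← ENNReal.ofReal_le_iff_le_toReal hT, ofReal_integral_eq_lintegral_ofReal hi (.of_forall hw0)]
  exact hC k

/-- Hoermander: no support or growth condition on `f`, `φ` -/
theorem hormander (D : RD ι S) {s : S → ℝ} (hs : D.Exh s) {φ : S → ℝ} (hφ : D.Psh φ)
    {f : S → ℂ} (hf : D.Sm f) {h : S → ℝ} (hm : Measurable h) (h0 : ∀ x, 0 ≤ h x)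
    (hb : ∀ x ξ, ‖D.dbar f x ξ‖ ^ 2 ≤ h x * D.levi φ x ξ) :
    ∃ F : S → ℂ, D.Hol F ∧ ∫⁻ x, ENNReal.ofReal (‖F x - f x‖ ^ 2 * Real.exp (-φ x)) ∂D.μ ≤
      ∫⁻ x, ENNReal.ofReal (h x * Real.exp (-φ x)) ∂D.μ := by
  by_cases hT : ∫⁻ x, ENNReal.ofReal (h x * Real.exp (-φ x)) ∂D.μ = ⊤
  · exact ⟨fun _ => 0, fun _ => differentiableAt_const _, hT ▸ le_top⟩
  obtain ⟨G, hG, h1⟩ := D.hormander_lim hs (φ := fun _ => φ) (fun _ => hφ) (fun _ _ => le_rfl)
    (fun x => tendsto_const_nhds) hf (h := fun _ => h) (fun _ => hm) (fun _ => h0) (fun _ => hb)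
    (fun _ => le_rfl) hT
  refine ⟨G, hG, le_trans (le_of_eq (lintegral_congr fun x => ?_)) h1⟩
  rw [ENNReal.ofReal_mul (sq_nonneg _), Real.exp_neg, ENNReal.ofReal_inv_of_pos (Real.exp_pos _)]

/-- an exhaustion function makes the space `σ`-compact -/
theorem Exh.sigma {S : Type} [TopologicalSpace S] [MeasurableSpace S] {D : RD ι S} {s : S → ℝ}
    (hs : D.Exh s) : SigmaCompactSpace S :=
  ⟨⟨fun n : ℕ => {x | s x ≤ n}, fun n => hs.2 n, eq_univ_of_forall fun x =>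
    mem_iUnion.2 (exists_nat_ge (s x))⟩⟩

end RD

end

end Pool.Agent.Lib.MP_5c318e_ag
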