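import Pool.Agent.Lib.MP_5c318e_ag.RD.HLin

/-! Pointwise facts on the Hessian form, square integrable fields, divergence free fields. -/

set_option autoImplicit false
set_option linter.unusedSectionVars false

namespace Pool.Agent.Lib.MP_5c318e_ag

open MeasureTheory Set Complex Filter Topology Matrix
open scoped ComplexConjugate ComplexOrder ContDiff

noncomputable section

namespace RD

open Lin

variable {ι : Type} [Fintype ι] [DecidableEq ι] {S : Type} [TopologicalSpace S]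
  [MeasurableSpace S] [BorelSpace S] [T2Space S] [SigmaCompactSpace S] {D : RD ι S} {Φ φ : S → ℝ}

theorem gm_sm (hΦ : D.Sm Φ) (j k : ι) : D.Sm fun x => D.gm Φ x j k := (hΦ.ofReal.op I k).op _ j

theorem gm_conj (hΦ : D.Sm Φ) (x : S) (j k : ι) : conj (D.gm Φ x j k) = D.gm Φ x k j := by
  rw [gm, ← conj_hess hΦ, conj_conj, op_comm _ _ _ _ hΦ.ofReal, gm]

theorem gm_symm (hΦ : D.Sm Φ) (x : S) (j k l : ι) :
    D.op I l (fun y => D.gm Φ y j k) x = D.op I k (fun y => D.gm Φ y j l) x := by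
  have h := hΦ.ofReal
  have e : D.op I l (D.op I k fun y => (Φ y : ℂ)) = D.op I k (D.op I l fun y => (Φ y : ℂ)) :=
    funext (op_comm _ _ _ _ h)
  show D.op I l (D.op (-I) j _) x = D.op I k (D.op (-I) j _) x
  rw [op_comm _ _ _ _ (h.op I k), op_comm _ _ _ _ (h.op I l), e]

variable (D Φ) in
/-- the matrix of the Hessian form -/
def mat (x : S) : Matrix ι ι ℂ := Matrix.of fun k j => D.gm Φ x j k

theorem gp_mat (x : S) (ξ ζ : ι → ℂ) : D.gp Φ x ξ ζ = star ζ ⬝ᵥ (D.mat Φ x *ᵥ ξ) := by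
  simp [gp, mat, dotProduct, mulVec, mul_comm]

theorem fl_mat (w : S → ι → ℂ) (x : S) : D.fl Φ w x = D.mat Φ x *ᵥ w x := rfl

theorem gp_fl (w : S → ι → ℂ) (x : S) (ζ : ι → ℂ) :
    D.gp Φ x (w x) ζ = ∑ k, D.fl Φ w x k * conj (ζ k) := rfl

theorem mat_herm (hΦ : D.Sm Φ) (x : S) : (D.mat Φ x).IsHermitian := by
  ext j k
  exact gm_conj hΦ x j k

theorem mat_cont (hΦ : D.Sm Φ) : Continuous (D.mat Φ) :=
  continuous_pi fun k => continuous_pi fun j => (gm_sm hΦ j k).cont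

theorem gp_conj (hΦ : D.Sm Φ) (x : S) (ξ ζ : ι → ℂ) : conj (D.gp Φ x ξ ζ) = D.gp Φ x ζ ξ := by
  simp only [gp, map_sum, map_mul, conj_conj, gm_conj hΦ, Finset.sum_mul]
  rw [Finset.sum_comm]
  exact Finset.sum_congr rfl fun _ _ => Finset.sum_congr rfl fun _ _ => by ring

theorem gp_re (hΦ : D.Sm Φ) (x : S) (ξ : ι → ℂ) : (D.gp Φ x ξ ξ).re = D.levi Φ x ξ := by
  rw [levi_coord hΦ, gp, re_sum, Finset.sum_comm]
  simp only [Finset.sum_mul, re_sum, gm]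

theorem gp_self (hΦ : D.Sm Φ) (x : S) (ξ : ι → ℂ) : D.gp Φ x ξ ξ = D.levi Φ x ξ := by
  rw [← gp_re hΦ]
  exact (conj_eq_iff_re.1 (gp_conj hΦ x ξ ξ)).symm

theorem levi_zero (hΦ : D.Sm Φ) (x : S) : D.levi Φ x 0 = 0 := by simp [levi_coord hΦ]

theorem Pos.psh (h : D.Pos Φ) : D.Psh Φ := ⟨h.1, fun x ξ => by
  rcases eq_or_ne ξ 0 with rfl | h0
  · exact (levi_zero h.1 x).ge
  · exact (h.2 x ξ h0).le⟩

theorem mat_psd (hΦ : D.Psh Φ) (x : S) : (D.mat Φ x).PosSemidef :=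
  .of_dotProduct_mulVec_nonneg (mat_herm hΦ.1 x) fun ξ => by
    rw [← gp_mat, gp_self hΦ.1]
    exact_mod_cast hΦ.2 x ξ

theorem gp_add (x : S) (ξ ξ' ζ : ι → ℂ) : D.gp Φ x (ξ + ξ') ζ = D.gp Φ x ξ ζ + D.gp Φ x ξ' ζ := by
  simp only [gp_mat, mulVec_add, dotProduct_add]

theorem gp_sub (x : S) (ξ ξ' ζ : ι → ℂ) : D.gp Φ x (ξ - ξ') ζ = D.gp Φ x ξ ζ - D.gp Φ x ξ' ζ := by
  simp only [gp_mat, mulVec_sub, dotProduct_sub]

theorem gp_smul (x : S) (c : ℂ) (ξ ζ : ι → ℂ) : D.gp Φ x (c • ξ) ζ = c * D.gp Φ x ξ ζ := by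
  simp only [gp_mat, mulVec_smul, dotProduct_smul, smul_eq_mul]

/-- a continuous orthonormal coframe -/
theorem exists_root (hΦ : D.Psh Φ) : ∃ R : S → Matrix ι ι ℂ, Continuous R ∧
    (∀ x, (R x).IsHermitian ∧ R x * R x = D.mat Φ x) ∧
    (∀ x ξ ζ, D.gp Φ x ξ ζ = star (R x *ᵥ ζ) ⬝ᵥ (R x *ᵥ ξ)) ∧
    ∀ x ξ, D.levi Φ x ξ = nq (R x *ᵥ ξ) := by
  obtain ⟨R, h1, h2⟩ := Lin.exists_root (mat_cont hΦ.1) (mat_psd hΦ)
  have e : ∀ x ξ ζ, D.gp Φ x ξ ζ = star (R x *ᵥ ζ) ⬝ᵥ (R x *ᵥ ξ) := fun x ξ ζ => by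
    rw [gp_mat, ← (h2 x).2, star_mulVec, (h2 x).1.eq, ← dotProduct_mulVec, mulVec_mulVec]
  refine ⟨R, h1, h2, e, fun x ξ => ?_⟩
  have := (gp_self hΦ.1 x ξ).symm.trans (e x ξ ξ)
  rw [dotProduct_comm, dot_star] at this
  exact_mod_cast this

theorem gp_sq_le (hΦ : D.Psh Φ) (x : S) (ξ ζ : ι → ℂ) :
    ‖D.gp Φ x ξ ζ‖ ^ 2 ≤ D.levi Φ x ξ * D.levi Φ x ζ := by
  obtain ⟨R, -, -, h1, h2⟩ := exists_root hΦ
  rw [h1, h2, h2, mul_comm, ← nq_star (R x *ᵥ ζ)]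
  exact dot_le _ _

theorem Pos.unit (hΦ : D.Pos Φ) (x : S) : IsUnit (D.mat Φ x).det := by
  refine isUnit_iff_ne_zero.2 fun h => ?_
  obtain ⟨v, v0, hv⟩ := exists_mulVec_eq_zero_iff.2 h
  have := hΦ.2 x v v0
  rw [← gp_re hΦ.1, gp_mat, hv, dotProduct_zero] at this
  exact this.false

theorem levi_cont (hΦ : D.Sm Φ) : Continuous fun p : S × (ι → ℂ) => D.levi Φ p.1 p.2 := by
  simp only [levi_coord hΦ]
  refine continuous_finsetSum _ fun j _ => continuous_finsetSum _ fun k _ => continuous_re.comp ?_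
  exact (((gm_sm hΦ j k).cont.comp continuous_fst).mul (by fun_prop)).mul (by fun_prop)

theorem levi_smul (hΦ : D.Sm Φ) (x : S) (c : ℂ) (ξ : ι → ℂ) :
    D.levi Φ x (c • ξ) = ‖c‖ ^ 2 * D.levi Φ x ξ := by
  have := gp_self hΦ x (c • ξ)
  rw [gp_smul, ← gp_conj hΦ, gp_smul, gp_self hΦ, map_mul, conj_ofReal, ← mul_assoc, mul_conj,
    normSq_eq_norm_sq] at this
  exact_mod_cast this.symm

/-- uniform positivity on compact sets -/
theorem Pos.lower (hΦ : D.Pos Φ) {K : Set S} (hK : IsCompact K) :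
    ∃ m : ℝ, 0 < m ∧ ∀ x ∈ K, ∀ ξ, nq ξ ≤ m * D.levi Φ x ξ := by
  have c : ContinuousOn (fun p : S × (ι → ℂ) => nq p.2 / D.levi Φ p.1 p.2)
      (K ×ˢ Metric.sphere 0 1) := by
    refine ContinuousOn.div (by unfold nq; fun_prop) (levi_cont hΦ.1).continuousOn fun p hp => ?_
    exact (hΦ.2 _ _ (Metric.ne_of_mem_sphere hp.2 one_ne_zero)).ne'
  obtain ⟨C, hC⟩ := (hK.prod (isCompact_sphere 0 1)).exists_bound_of_continuousOn c
  refine ⟨|C| + 1, by positivity, fun x hx ξ => ?_⟩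
  rcases eq_or_ne ξ 0 with rfl | h0
  · simp [nq, levi_zero hΦ.1]
  have n0 := norm_pos_iff.2 h0
  obtain ⟨ζ, c, h1, rfl⟩ : ∃ (ζ : ι → ℂ) (c : ℂ), ‖ζ‖ = 1 ∧ ξ = c • ζ :=
    ⟨(‖ξ‖ : ℂ)⁻¹ • ξ, ‖ξ‖, by simp [norm_smul, n0.ne'], by
      rw [smul_smul, mul_inv_cancel₀ (by simpa using h0), one_smul]⟩
  have z0 : ζ ≠ 0 := fun h => by simp [h] at h1
  have p := hΦ.2 x ζ z0
  have h2 := (le_abs_self _).trans (hC (x, ζ) ⟨hx, by simpa using h1⟩)
  rw [div_le_iff₀ p] at h2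
  have e : nq (c • ζ) = ‖c‖ ^ 2 * nq ζ := by simp [nq, mul_pow, Finset.mul_sum]
  rw [e, levi_smul hΦ.1, mul_left_comm]
  refine mul_le_mul_of_nonneg_left (h2.trans ?_) (sq_nonneg _)
  exact mul_le_mul_of_nonneg_right (by linarith [le_abs_self C]) p.le

theorem dbar_real {η : S → ℝ} (hη : D.Sm η) (w : S → ι → ℂ) (x : S) :
    D.dbar (fun y => (η y : ℂ)) x (w x) = conj (D.vd w (fun y => (η y : ℂ)) x) := by
  simp only [dbar_coord, vd, map_sum, map_mul, conj_op hη, map_neg, conj_I, neg_neg, mul_comm]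

theorem Hol.coord {W : S → ι → ℂ} (hW : D.Hol W) (j : ι) : D.Hol fun y => W y j :=
  fun x => differentiableAt_pi.1 (hW x) j

theorem Sm.coord {W : S → ι → ℂ} (hW : D.Sm W) (j : ι) : D.Sm fun y => W y j :=
  fun x => contDiffAt_pi.1 (hW x) j

theorem sm_pi {W : S → ι → ℂ} (hW : ∀ j, D.Sm fun y => W y j) : D.Sm W :=
  fun x => contDiffAt_pi.2 fun j => hW j x

theorem Hol.smv {W : S → ι → ℂ} (hW : D.Hol W) : D.Sm W := sm_pi fun j => (hW.coord j).sm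

theorem Hol.op_zero {f : S → ℂ} (hf : D.Hol f) (j : ι) (x : S) : D.op I j f x = 0 := by
  rw [op_dbar]
  exact MP_9ff3e7_ag.F.dbar_holo (hf x) _

theorem vd_sm {w : S → ι → ℂ} {a : S → ℂ} (hw : D.Sm w) (ha : D.Sm a) : D.Sm (D.vd w a) :=
  sm_sum _ fun j _ => (hw.coord j).mul (ha.op _ j)

theorem dv_sm {w : S → ι → ℂ} (hw : D.Sm w) : D.Sm (D.dv w) :=
  sm_sum _ fun j _ => (hw.coord j).op _ j

theorem fl_sm (hΦ : D.Sm Φ) {w : S → ι → ℂ} (hw : D.Sm w) : D.Sm (D.fl Φ w) :=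
  sm_pi fun k => sm_sum _ fun j _ => (gm_sm hΦ j k).mul (hw.coord j)

/-- `levi Y (W, ·) = ∂̄ (W Y)` for holomorphic `W` -/
theorem gp_hol {Y : S → ℝ} (hY : D.Sm Y) {W : S → ι → ℂ} (hW : D.Hol W) (x : S) (ξ : ι → ℂ) :
    D.gp Y x (W x) ξ = D.dbar (D.vd W fun y => (Y y : ℂ)) x ξ := by
  rw [dbar_coord, gp]
  refine Finset.sum_congr rfl fun k _ => congrArg (· * _) ?_
  refine Eq.trans (Finset.sum_congr rfl fun j _ => ?_) (op_sum I k Finset.univ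
    (fun j _ => (hW.coord j).sm.mul (hY.ofReal.op (-I) j)) x).symm
  rw [op_mul I k (hW.coord j).sm (hY.ofReal.op _ j), (hW.coord j).op_zero, zero_mul, zero_add,
    op_comm _ _ _ _ hY.ofReal, mul_comm, gm]

theorem fl_of_dbar {b : S → ℂ} {u : S → ι → ℂ} (h : ∀ x ξ, D.gp Φ x (u x) ξ = D.dbar b x ξ) (x : S)
    (k : ι) : D.fl Φ u x k = D.op I k b x := by
  rw [op_dbar, ← h, gp_fl]
  simp [Pi.single_apply]

theorem cl_of_dbar {b : S → ℂ} (hb : D.Sm b) {u : S → ι → ℂ}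
    (h : ∀ x ξ, D.gp Φ x (u x) ξ = D.dbar b x ξ) : D.Cl (D.fl Φ u) := fun a ha hc k l => by
  simp only [fl_of_dbar h]
  rw [integral_sub (((hb.op I k).mul (ha.op I l)).int (op_supp I l hc).mul_left)
    (((hb.op I l).mul (ha.op I k)).int (op_supp I k hc).mul_left),
    op_int_mul I k hb (ha.op I l) (op_supp I l hc), op_int_mul I l hb (ha.op I k) (op_supp I k hc)]
  simp only [op_comm I k I l ha, sub_self]

theorem Pos.inv_sm (hΦ : D.Pos Φ) (j k : ι) : D.Sm fun x => (D.mat Φ x)⁻¹ j k := by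
  have e : D.Sm fun x => fun k j => D.gm Φ x j k := fun x =>
    contDiffAt_pi.2 fun k => contDiffAt_pi.2 fun j => gm_sm hΦ.1 j k x
  have d : ContDiff ℝ ∞ fun A : ι → ι → ℂ => (Matrix.of A).det := by
    simp only [det_apply', of_apply]
    fun_prop
  have a : ContDiff ℝ ∞ fun A : ι → ι → ℂ => (Matrix.of A).adjugate j k := by
    simp only [adjugate_apply]
    refine d.comp (f := fun A : ι → ι → ℂ => Function.update A k (Pi.single j 1)) ?_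
    refine contDiff_pi.2 fun i => ?_
    by_cases h : i = k
    · simp only [h, Function.update_self]; exact contDiff_const
    · simp only [Function.update_of_ne h]; fun_prop
  have i : ∀ x, (D.mat Φ x)⁻¹ j k = (D.mat Φ x).det⁻¹ * (D.mat Φ x).adjugate j k := fun x => by
    rw [Matrix.inv_def, Ring.inverse_eq_inv', Matrix.smul_apply, smul_eq_mul]
  simp only [i]
  exact ((e.comp d).comp_at (g := fun z : ℂ => z⁻¹) fun x =>
    contDiffAt_inv ℝ (hΦ.unit x).ne_zero).mul (e.comp a)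

/-- raising the index -/
theorem exists_sharp (hΦ : D.Pos Φ) {r : S → ι → ℂ} (hr : D.Sm r) :
    ∃ u : S → ι → ℂ, D.Sm u ∧ (∀ x ξ, D.gp Φ x (u x) ξ = ∑ k, r x k * conj (ξ k)) ∧
      ∀ x (h : ℝ), 0 ≤ h → (∀ ξ, ‖∑ k, r x k * conj (ξ k)‖ ^ 2 ≤ h * D.levi Φ x ξ) →
        D.levi Φ x (u x) ≤ h := by
  have e : ∀ x ξ, D.gp Φ x ((D.mat Φ x)⁻¹ *ᵥ r x) ξ = ∑ k, r x k * conj (ξ k) := fun x ξ => by
    rw [gp_mat, mulVec_mulVec, mul_nonsing_inv _ (hΦ.unit x), one_mulVec, dotProduct_comm]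
    rfl
  refine ⟨fun x => (D.mat Φ x)⁻¹ *ᵥ r x,
    sm_pi fun j => sm_sum _ fun k _ => (hΦ.inv_sm j k).mul (hr.coord k), e, fun x h h0 hh => ?_⟩
  have := hh ((D.mat Φ x)⁻¹ *ᵥ r x)
  have p := hΦ.psh.2 x ((D.mat Φ x)⁻¹ *ᵥ r x)
  rw [← e, gp_self hΦ.1, norm_real, Real.norm_of_nonneg p, sq] at this
  rcases p.eq_or_lt with h1 | h1
  · rwa [← h1]
  · exact le_of_mul_le_mul_right this h1

theorem aesm_coord {w : S → ι → ℂ} (hw : AEStronglyMeasurable w D.μ) (j : ι) :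
    AEStronglyMeasurable (fun x => w x j) D.μ := (continuous_apply j).comp_aestronglyMeasurable hw

theorem aesm_gp (hΦ : D.Sm Φ) {u w : S → ι → ℂ} (hu : AEStronglyMeasurable u D.μ)
    (hw : AEStronglyMeasurable w D.μ) :
    AEStronglyMeasurable (fun x => D.gp Φ x (u x) (w x)) D.μ :=
  Finset.aestronglyMeasurable_fun_sum _ fun k _ => (Finset.aestronglyMeasurable_fun_sum _ fun j _ =>
    (gm_sm hΦ j k).cont.aestronglyMeasurable.mul (aesm_coord hu j)).mul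
      (continuous_conj.comp_aestronglyMeasurable (aesm_coord hw k))

theorem aesm_levi (hΦ : D.Sm Φ) {u : S → ι → ℂ} (hu : AEStronglyMeasurable u D.μ) :
    AEStronglyMeasurable (fun x => D.levi Φ x (u x)) D.μ := by
  simp only [← gp_re hΦ]
  exact continuous_re.comp_aestronglyMeasurable (aesm_gp hΦ hu hu)

theorem gp_le (hΦ : D.Psh Φ) (x : S) (ξ ζ : ι → ℂ) :
    2 * ‖D.gp Φ x ξ ζ‖ ≤ D.levi Φ x ξ + D.levi Φ x ζ := by
  have h := gp_sq_le hΦ x ξ ζ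
  refine abs_le_of_sq_le_sq' ?_ (add_nonneg (hΦ.2 _ _) (hΦ.2 _ _)) |>.2
  nlinarith [sq_nonneg (D.levi Φ x ξ - D.levi Φ x ζ)]

theorem L2.int_gp (hΦ : D.Psh Φ) (hφ : D.Sm φ) {u w : S → ι → ℂ} (hu : D.L2 Φ φ u)
    (hw : D.L2 Φ φ w) :
    Integrable (fun x => D.gp Φ x (u x) (w x) * (Real.exp (-φ x) : ℂ)) D.μ := by
  refine (hu.2.add hw.2).mono' ((aesm_gp hΦ.1 hu.1 hw.1).mul hφ.wt.cont.aestronglyMeasurable)
    (.of_forall fun x => ?_)
  rw [norm_mul, norm_real, Real.norm_of_nonneg (Real.exp_pos _).le, Pi.add_apply, ← add_mul]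
  exact mul_le_mul_of_nonneg_right (by linarith [gp_le hΦ x (u x) (w x), norm_nonneg (D.gp Φ x (u x) (w x))])
    (Real.exp_pos _).le

theorem levi_sub_le (hΦ : D.Psh Φ) (x : S) (ξ ζ : ι → ℂ) :
    D.levi Φ x (ξ - ζ) ≤ 2 * (D.levi Φ x ξ + D.levi Φ x ζ) := by
  obtain ⟨R, -, -, -, h2⟩ := exists_root hΦ
  simp only [h2, nq, mulVec_sub, ← Finset.sum_add_distrib, Finset.mul_sum, Pi.sub_apply]
  refine Finset.sum_le_sum fun j _ => ?_
  have := pow_le_pow_left₀ (norm_nonneg _) (norm_sub_le ((R x *ᵥ ξ) j) ((R x *ᵥ ζ) j)) 2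
  nlinarith [sq_nonneg (‖(R x *ᵥ ξ) j‖ - ‖(R x *ᵥ ζ) j‖)]

theorem L2.sub (hΦ : D.Psh Φ) (hφ : D.Sm φ) {u w : S → ι → ℂ} (hu : D.L2 Φ φ u) (hw : D.L2 Φ φ w) :
    D.L2 Φ φ fun x => u x - w x := by
  refine ⟨hu.1.sub hw.1, ((hu.2.add hw.2).const_mul 2).mono' ((aesm_levi hΦ.1 (hu.1.sub hw.1)).mul
    hφ.neg.rexp.cont.aestronglyMeasurable) (.of_forall fun x => ?_)⟩
  rw [Real.norm_of_nonneg (mul_nonneg (hΦ.2 _ _) (Real.exp_pos _).le), Pi.add_apply, ← add_mul,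
    ← mul_assoc]
  exact mul_le_mul_of_nonneg_right (levi_sub_le hΦ x _ _) (Real.exp_pos _).le

/-- the coefficients of a square integrable field are locally square integrable -/
theorem L2.loc (hΦ : D.Pos Φ) (hφ : D.Sm φ) {w : S → ι → ℂ} (hw : D.L2 Φ φ w) (j : ι) :
    LocallyIntegrable (fun x => ‖w x j‖ ^ 2) D.μ := by
  have := D.wlc
  have i := hw.2.locallyIntegrable.mul_continuous hφ.rexp.cont
  intro x
  obtain ⟨K, hK, hx⟩ := exists_compact_mem_nhds x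
  obtain ⟨m, -, hm⟩ := hΦ.lower hK
  refine ⟨K, hx, ((i.integrableOn_isCompact hK).const_mul m).mono'
    ((aesm_coord hw.1 j).norm.pow 2).restrict ?_⟩
  filter_upwards [ae_restrict_mem hK.measurableSet] with y hy
  rw [Real.norm_of_nonneg (sq_nonneg _), mul_assoc, ← Real.exp_add, neg_add_cancel, Real.exp_zero,
    mul_one]
  exact (Finset.single_le_sum (f := fun j => ‖w y j‖ ^ 2) (fun _ _ => sq_nonneg _)
    (Finset.mem_univ j)).trans (hm y hy _)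

/-- integration by parts along a smooth field -/
theorem int_vd (hφ : D.Sm φ) {W : S → ι → ℂ} (hW : D.Sm W) {a : S → ℂ} (ha : D.Sm a)
    (hc : HasCompactSupport a) : ∫ x, D.vd W a x * (Real.exp (-φ x) : ℂ) ∂D.μ =
      -∫ x, (D.dv W x - D.vd W (fun y => (φ y : ℂ)) x) * a x * (Real.exp (-φ x) : ℂ) ∂D.μ := by
  have h := fun j => op_int (-I) j (((hW.coord j).mul ha).mul hφ.wt) hc.mul_left.mul_right
  have s := Finset.sum_eq_zero (s := Finset.univ) fun j _ => h j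
  rw [← integral_finsetSum _ fun j _ => ((((hW.coord j).mul ha).mul hφ.wt).op _ j).int
    (op_supp _ j hc.mul_left.mul_right)] at s
  have c : HasCompactSupport (D.vd W a) := HasCompactSupport.intro hc fun x hx => by
    simp [vd, op_zero _ _ hx]
  rw [eq_neg_iff_add_eq_zero, ← integral_add (((vd_sm hW ha).mul hφ.wt).int c.mul_right)
    (((((dv_sm hW).sub (vd_sm hW hφ.ofReal)).mul ha).mul hφ.wt).int hc.mul_left.mul_right), ← s]
  congr 1
  funext x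
  simp only [vd, dv, ← Finset.sum_sub_distrib, Finset.sum_mul, ← Finset.sum_add_distrib]
  refine Finset.sum_congr rfl fun j _ => ?_
  rw [op_mul _ j ((hW.coord j).mul ha) hφ.wt, op_mul _ j (hW.coord j) ha, op_wt _ j hφ]
  ring

theorem divF_of_sm (hφ : D.Sm φ) {W : S → ι → ℂ} (hW : D.Sm W)
    (h : ∀ x, D.dv W x = D.vd W (fun y => (φ y : ℂ)) x) : D.DivF φ W := fun a ha hc => by
  rw [int_vd hφ hW ha hc]
  simp [h]

theorem HH.divF (hφ : D.Sm φ) {W : S → ι → ℂ} (h : D.HH Φ φ W) : D.DivF φ W :=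
  divF_of_sm hφ h.hol.smv h.div

end RD

end

end Pool.Agent.Lib.MP_5c318e_ag
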