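import Pool.Agent.Lib.MP_5c318e_ag.RD.RMain
import Pool.Agent.Lib.MP_9ff3e7_ag.F.CauchyEst

/-! Holomorphic functions on a Riemann domain: analyticity, null zero sets, identity theorem,
mean value inequality, extension of locally square integrable functions across a zero set. -/

set_option autoImplicit false
set_option linter.unusedSectionVars false

namespace Pool.Agent.Lib.MP_5c318e_ag

open MeasureTheory Set Filter Topology Complex Metric
open scoped ContDiff ComplexConjugate
open Pool.Agent.Lib.MP_9ff3e7_ag Pool.Agent.Lib.MP_9ff3e7_ag.F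

noncomputable section

namespace RD

variable {ι : Type} [Fintype ι]

/-- the zero set of an analytic germ is null -/
theorem null_ana {f : (ι → ℂ) → ℂ} {p : ι → ℂ} (hf : AnalyticAt ℂ f p)
    (h : ¬ ∀ᶠ z in 𝓝 p, f z = 0) : ∃ δ > 0, ∀ᵐ z, z ∈ ball p δ → f z ≠ 0 := by
  obtain ⟨R, R0, hR⟩ := Metric.eventually_nhds_iff_ball.1 hf.eventually_analyticAt
  obtain ⟨q, hq0, hq⟩ := ((not_eventually.1 h).and_eventually
    (ball_mem_nhds p (by positivity : 0 < R / 4))).exists
  rw [dist_eq_norm] at hq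
  have cq : ContinuousAt (fun x => f (x + (q - p))) p :=
    ContinuousAt.comp (by
      rw [add_sub_cancel]
      exact (hR q (by rw [mem_ball, dist_eq_norm]; linarith)).continuousAt) (by fun_prop)
  obtain ⟨e, e0, he⟩ := Metric.eventually_nhds_iff_ball.1
    ((cq.eventually_ne (by rwa [add_sub_cancel])).and (ball_mem_nhds p (by positivity : 0 < R / 4)))
  obtain ⟨ε, ε0, ε1, hε⟩ : ∃ ε : ℝ, 0 < ε ∧ ε ≤ 2 ∧ ε * ‖q - p‖ ≤ e / 2 := by
    refine ⟨min 2 (e / 2 / (‖q - p‖ + 1)), by positivity, min_le_left _ _, ?_⟩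
    refine (mul_le_mul_of_nonneg_right (min_le_right _ _) (norm_nonneg _)).trans ?_
    rw [div_mul_eq_mul_div, div_le_iff₀ (by positivity)]
    nlinarith
  refine ⟨e / 2, half_pos e0, ?_⟩
  set A := ball p (e / 2) ∩ f ⁻¹' {0} with hA
  have sub : ball p (e / 2) ⊆ ball p R := fun z hz =>
    ball_subset_ball (by linarith) (he z (ball_subset_ball (by linarith) hz)).2
  have Am : MeasurableSet A := by
    have c : ContinuousOn f (ball p (e / 2)) := fun z hz =>
      (hR z (sub hz)).continuousAt.continuousWithinAt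
    have := (c.isOpen_inter_preimage isOpen_ball isOpen_compl_singleton (t := {0}ᶜ)).measurableSet
    convert isOpen_ball.measurableSet.diff this using 1
    ext z
    simp only [hA, mem_inter_iff, mem_preimage, mem_singleton_iff, Set.mem_sdiff, mem_compl_iff]
    tauto
  have key : ∀ x, ∫⁻ t in ball (0 : ℂ) ε, A.indicator 1 (x + t • (q - p)) = (0 : ENNReal) := by
    intro x
    by_cases hx : x ∈ ball p e
    · have an : AnalyticOnNhd ℂ (fun t : ℂ => f (x + t • (q - p))) (ball 0 2) := fun t ht => by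
        refine AnalyticAt.comp (g := f) (f := fun t : ℂ => x + t • (q - p)) (hR _ ?_) (by fun_prop)
        have h1 := (he x hx).2
        rw [dist_eq_norm] at h1
        rw [mem_ball_iff_norm, add_sub_right_comm]
        refine (norm_add_le _ _).trans_lt ?_
        rw [norm_smul]
        nlinarith [mem_ball_zero_iff.1 ht, norm_nonneg (q - p), norm_nonneg t]
      have cd := an.eqOn_zero_or_eventually_ne_zero_of_preconnected (convex_ball _ _).isPreconnected
      rcases cd with h1 | h1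
      · exact absurd (by simpa using h1 (show (1 : ℂ) ∈ ball 0 2 by simp)) (he x hx).1
      have := ae_restrict_le_codiscreteWithin (μ := volume) isOpen_ball.measurableSet h1
      refine lintegral_eq_zero_of_ae_eq_zero ?_
      filter_upwards [ae_mono (Measure.restrict_mono (ball_subset_ball ε1) le_rfl) this] with t ht
      exact indicator_of_notMem (fun h2 => ht h2.2) _
    · refine setLIntegral_eq_zero measurableSet_ball fun t ht => ?_
      refine indicator_of_notMem (fun h2 => hx ?_) _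
      have h3 := mem_ball_iff_norm.1 h2.1
      rw [mem_ball_iff_norm, show x - p = x + t • (q - p) - p - t • (q - p) by abel]
      refine (norm_sub_le _ _).trans_lt ?_
      rw [norm_smul]
      nlinarith [mem_ball_zero_iff.1 ht, norm_nonneg (q - p), norm_nonneg t]
  have m : Measurable fun z : (ι → ℂ) × ℂ => (A.indicator 1 (z.1 + z.2 • (q - p)) : ENNReal) :=
    (measurable_one.indicator Am).comp (by fun_prop)
  have sw := lintegral_lintegral_swap (μ := volume) (ν := volume.restrict (ball (0 : ℂ) ε))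
    (f := fun x t => (A.indicator 1 (x + t • (q - p)) : ENNReal)) m.aemeasurable
  simp only [key, lintegral_zero, lintegral_add_right_eq_self (A.indicator (1 : (ι → ℂ) → ENNReal)),
    lintegral_indicator_one Am, lintegral_const, Measure.restrict_apply_univ] at sw
  have z := (mul_eq_zero.1 sw.symm).resolve_right (measure_ball_pos _ _ ε0).ne'
  exact measure_mono_null (fun z hz => by simpa [hA] using hz) z

variable {S : Type} [TopologicalSpace S] [MeasurableSpace S] {D : RD ι S}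

theorem ana_of_ev {f : S → ℂ} {x : S}
    (hf : ∀ᶠ y in 𝓝 x, DifferentiableAt ℂ (fun z => f (D.sec y z)) (D.π y)) :
    AnalyticAt ℂ (fun z => f (D.sec x z)) (D.π x) := by
  obtain ⟨r, r0, hr⟩ := Metric.eventually_nhds_iff_ball.1
    (((D.tendsto_sec x).eventually hf).and (tgt_nhds (D.mem_tgt x)))
  refine osgood isOpen_ball (fun z hz => ?_) _ (mem_ball_self r0)
  have := (hr z hz).1
  rw [π_sec (hr z hz).2] at this
  exact (this.congr_of_eventuallyEq (germ_f f (hr z hz).2)).differentiableWithinAt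

theorem Hol.ana {f : S → ℂ} (hf : D.Hol f) (x : S) :
    AnalyticAt ℂ (fun z => f (D.sec x z)) (D.π x) := ana_of_ev (.of_forall hf)

theorem Hol.sm {f : S → ℂ} (hf : D.Hol f) : D.Sm f := fun x =>
  ((hf.ana x).contDiffAt (n := ∞)).restrict_scalars ℝ

theorem hol_const (c : ℂ) : D.Hol fun _ => c := fun _ => differentiableAt_const c

theorem Hol.add {f g : S → ℂ} (hf : D.Hol f) (hg : D.Hol g) : D.Hol fun y => f y + g y :=
  fun x => (hf x).add (hg x)

theorem Hol.sub {f g : S → ℂ} (hf : D.Hol f) (hg : D.Hol g) : D.Hol fun y => f y - g y :=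
  fun x => (hf x).sub (hg x)

theorem Hol.mul {f g : S → ℂ} (hf : D.Hol f) (hg : D.Hol g) : D.Hol fun y => f y * g y :=
  fun x => (hf x).mul (hg x)

theorem Hol.pow {f : S → ℂ} (hf : D.Hol f) (n : ℕ) : D.Hol fun y => f y ^ n :=
  fun x => (hf x).pow n

theorem hol_sum {α : Type*} (T : Finset α) {f : α → S → ℂ} (hf : ∀ a ∈ T, D.Hol (f a)) :
    D.Hol fun y => ∑ a ∈ T, f a y := fun x => DifferentiableAt.fun_sum fun a ha => hf a ha x

theorem hol_π {g : (ι → ℂ) → ℂ} (hg : Differentiable ℂ g) : D.Hol fun y => g (D.π y) := fun x =>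
  (hg _).congr_of_eventuallyEq ((D.π_sec_ev x).mono fun _ h => congrArg g h)

theorem ev_of_sec {P : S → Prop} {x : S} (h : ∀ᶠ z in 𝓝 (D.π x), P (D.sec x z)) :
    ∀ᶠ y in 𝓝 x, P y := by
  filter_upwards [(D.ch x).open_source.mem_nhds (D.mem_src x),
    D.cont_π.continuousAt.eventually h] with y h1 h2
  rwa [sec_π h1] at h2

/-- the identity theorem -/
theorem Hol.eq_zero [PreconnectedSpace S] {f : S → ℂ} (hf : D.Hol f) {x : S}
    (h : ∀ᶠ y in 𝓝 x, f y = 0) (y : S) : f y = 0 := by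
  have hc : IsClopen {x | ∀ᶠ y in 𝓝 x, f y = 0} := by
    refine ⟨?_, isOpen_setOfPred_eventually_nhds⟩
    rw [← closure_subset_iff_isClosed]
    intro x hx
    obtain ⟨r, r0, hr⟩ := Metric.eventually_nhds_iff_ball.1
      ((hf.ana x).eventually_analyticAt.and (tgt_nhds (D.mem_tgt x)))
    obtain ⟨x', ⟨h1, h2⟩, h3⟩ := mem_closure_iff_nhds.1 hx _
      (inter_mem ((D.ch x).open_source.mem_nhds (D.mem_src x))
        (D.cont_π.continuousAt.preimage_mem_nhds (ball_mem_nhds _ r0)))
    have t : Tendsto (D.sec x) (𝓝 (D.π x')) (𝓝 x') := by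
      have := (sec_contAt (π_mem h1)).tendsto
      rwa [sec_π h1] at this
    have z := AnalyticOnNhd.eqOn_zero_of_preconnected_of_eventuallyEq_zero (fun z hz => (hr z hz).1)
      (convex_ball _ _).isPreconnected h2 (t.eventually h3)
    exact ev_of_sec (D := D) (Filter.mem_of_superset (ball_mem_nhds _ r0) z)
  exact (show y ∈ {x | ∀ᶠ y in 𝓝 x, f y = 0} from
    hc.eq_univ ⟨x, h⟩ ▸ mem_univ y).self_of_nhds

theorem psh_log {g : S → ℂ} (hg : D.Hol g) {e : ℝ} (he : 0 < e) :
    D.Psh fun x => Real.log (‖g x‖ ^ 2 + e) := by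
  refine ⟨(hg.sm.normSq.add (sm_const e)).comp_at fun x =>
    Real.contDiffAt_log.2 (by positivity), fun x ξ => ?_⟩
  simpa [levi] using levi_log_sos_nonneg (Finset.univ : Finset Unit)
    (f := fun _ z => g (D.sec x z)) (fun _ _ => hg.ana x) he.le (by positivity) ξ

variable [BorelSpace S]

/-- a continuous section over an open set carries Lebesgue measure to `μ` -/
theorem lintegral_sec_le {σ : (ι → ℂ) → S} {U : Set (ι → ℂ)} (hU : IsOpen U)
    (hc : ContinuousOn σ U) (hπ : ∀ z ∈ U, D.π (σ z) = z) {G : S → ENNReal} (hG : Measurable G) :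
    ∫⁻ z in U, G (σ z) ≤ ∫⁻ y, G y ∂D.μ := by
  have am : AEMeasurable σ (volume.restrict U) := hc.aemeasurable hU.measurableSet
  have op : IsOpen (σ '' U) := by
    refine isOpen_iff_mem_nhds.2 ?_
    rintro _ ⟨z, hz, rfl⟩
    have e := D.sec_unique (x := σ z) (σ := σ) (by rw [hπ z hz])
      (by rw [hπ z hz]; exact hc.continuousAt (hU.mem_nhds hz))
      (by rw [hπ z hz]; exact Filter.mem_of_superset (hU.mem_nhds hz) hπ)
    refine ev_of_sec (D := D) ?_
    filter_upwards [e, show U ∈ 𝓝 (D.π (σ z)) by rw [hπ z hz]; exact hU.mem_nhds hz] with w h1 h2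
    exact ⟨w, h2, h1⟩
  rw [← lintegral_map' hG.aemeasurable am]
  refine lintegral_mono' (Measure.le_iff.2 fun A hA => ?_) le_rfl
  rw [Measure.map_apply_of_aemeasurable am hA, Measure.restrict_apply' hU.measurableSet]
  refine le_trans (le_of_eq ?_) (measure_mono (inter_subset_left (t := σ '' U)))
  rw [D.vol _ (hA.inter op.measurableSet)]
  · congr 1
    ext z
    constructor
    · exact fun hz => ⟨σ z, ⟨hz.1, z, hz.2, rfl⟩, hπ z hz.2⟩
    · rintro ⟨_, ⟨h1, w, hw, rfl⟩, rfl⟩
      rw [hπ w hw]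
      exact ⟨h1, hw⟩
  · rintro _ ⟨-, w, hw, rfl⟩ _ ⟨-, w', hw', rfl⟩ h
    rw [hπ w hw, hπ w' hw'] at h
    rw [h]

theorem Hol.on_sec {f : S → ℂ} (hf : D.Hol f) {σ : (ι → ℂ) → S} {U : Set (ι → ℂ)} (hU : IsOpen U)
    (hc : ContinuousOn σ U) (hπ : ∀ z ∈ U, D.π (σ z) = z) :
    DifferentiableOn ℂ (fun z => f (σ z)) U := fun z hz => by
  have e := D.sec_unique (x := σ z) (σ := σ) (by rw [hπ z hz])
    (by rw [hπ z hz]; exact hc.continuousAt (hU.mem_nhds hz))
    (by rw [hπ z hz]; exact Filter.mem_of_superset (hU.mem_nhds hz) hπ)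
  have := (hf (σ z)).congr_of_eventuallyEq (e.mono fun _ h => congrArg f h)
  rw [hπ z hz] at this
  exact this.differentiableWithinAt

/-- the mean value inequality on a lifted polydisc, with a weight -/
theorem Hol.submean {f : S → ℂ} (hf : D.Hol f) {σ : (ι → ℂ) → S} {p : ι → ℂ} {r : ℝ} (r0 : 0 < r)
    (hc : ContinuousOn σ (ball p r)) (hπ : ∀ z ∈ ball p r, D.π (σ z) = z) {w : S → ENNReal}
    (hw : Measurable w) {c : ENNReal} (hcw : ∀ z ∈ ball p r, c ≤ w (σ z)) :
    ENNReal.ofReal (‖f (σ p)‖ ^ 2 * (Real.pi * r ^ 2) ^ Fintype.card ι) * c ≤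
      ∫⁻ y, ENNReal.ofReal (‖f y‖ ^ 2) * w y ∂D.μ := by
  have m : Measurable fun y => ENNReal.ofReal (‖f y‖ ^ 2) :=
    (hf.cont.norm.pow 2).measurable.ennreal_ofReal
  refine le_trans ?_ (lintegral_sec_le isOpen_ball hc hπ (m.mul hw))
  refine (mul_le_mul_left (submean_pi r0 (hf.on_sec isOpen_ball hc hπ)) c).trans ?_
  refine (lintegral_mul_const_le _ _).trans (setLIntegral_mono' measurableSet_ball fun z hz => ?_)
  exact mul_le_mul_right (hcw z hz) _

variable [SigmaCompactSpace S]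

/-- zero sets of holomorphic functions are null -/
theorem Hol.ae_ne {f : S → ℂ} (hf : D.Hol f) (h : ∀ x, ¬ ∀ᶠ y in 𝓝 x, f y = 0) :
    ∀ᵐ x ∂D.μ, f x ≠ 0 := by
  classical
  choose δ δ0 hδ using fun x => null_ana (hf.ana x) fun h1 => h x (ev_of_sec (D := D) h1)
  obtain ⟨T, hT, hc⟩ := countable_cover_nhds_of_sigmaCompact
    (f := fun x => (D.ch x).source ∩ D.π ⁻¹' ball (D.π x) (δ x)) fun x =>
      inter_mem ((D.ch x).open_source.mem_nhds (D.mem_src x))
        (D.cont_π.continuousAt.preimage_mem_nhds (ball_mem_nhds _ (δ0 x)))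
  filter_upwards [(ae_ball_iff hT).2 fun x _ => ae_up (D := D) x (hδ x)] with y hy
  obtain ⟨x, hx, h1⟩ := mem_iUnion₂.1 (hc ▸ mem_univ y)
  have := hy x hx h1.1 h1.2
  rwa [sec_π h1.1] at this

theorem Hol.ae_ne' [PreconnectedSpace S] {f : S → ℂ} (hf : D.Hol f) {x : S} (h : f x ≠ 0) :
    ∀ᵐ x ∂D.μ, f x ≠ 0 := hf.ae_ne fun _ h1 => h (hf.eq_zero h1 x)

variable [T2Space S] [DecidableEq ι]

theorem op_dbar (j : ι) (f : S → ℂ) (x : S) : D.op I j f x = D.dbar f x (Pi.single j 1) := by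
  simp [dbar_coord, Pi.single_apply]

theorem levi_single {φ : S → ℝ} (hφ : D.Sm φ) (j : ι) (x : S) : D.levi φ x (Pi.single j 1) =
    (D.op (-I) j (D.op I j fun y => (φ y : ℂ)) x).re := by
  simp [levi_coord hφ, Pi.single_apply, apply_ite]

/-- the energy of a nonnegative plurisubharmonic function -/
theorem energy_psh {u β : S → ℝ} (hu : D.Psh u) (u0 : ∀ x, 0 ≤ u x) (hβ : D.Sm β)
    (hc : HasCompactSupport β) (β0 : ∀ x, 0 ≤ β x) (c : ℝ) (j : ι) :
    ∫ x, β x * ‖D.op I j (fun y => (u y : ℂ)) x‖ ^ 2 ∂D.μ ≤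
      ∫ x, ‖D.op I j (D.op (-I) j fun y => (β y : ℂ)) x‖ * |u x ^ 2 - c| ∂D.μ := by
  have sw : D.Sm fun y => u y ^ 2 - c := hu.1.comp (g := fun r => r ^ 2 - c) (by fun_prop)
  have bc : HasCompactSupport fun y => (β y : ℂ) := hc.comp_left (g := fun r : ℝ => (r : ℂ)) (by simp)
  have i1 : Integrable (fun x => D.op (-I) j (D.op I j fun y => ((u y ^ 2 - c : ℝ) : ℂ)) x *
      (β x : ℂ)) D.μ := (((sw.ofReal.op I j).op _ j).mul hβ.ofReal).int bc.mul_left
  have e : ∫ x, D.op (-I) j (D.op I j fun y => ((u y ^ 2 - c : ℝ) : ℂ)) x * (β x : ℂ) ∂D.μ =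
      ∫ x, ((u x ^ 2 - c : ℝ) : ℂ) * D.op I j (D.op (-I) j fun y => (β y : ℂ)) x ∂D.μ := by
    rw [op_int_mul _ j (sw.ofReal.op I j) hβ.ofReal bc,
      op_int_mul _ j sw.ofReal (hβ.ofReal.op _ j) (op_supp _ j bc), neg_neg]
  calc _ ≤ ∫ x, (D.op (-I) j (D.op I j fun y => ((u y ^ 2 - c : ℝ) : ℂ)) x * (β x : ℂ)).re ∂D.μ := by
        refine integral_mono_of_nonneg (.of_forall fun x => mul_nonneg (β0 x) (sq_nonneg _)) i1.re
          (.of_forall fun x => ?_)
        have d1 : deriv (fun r : ℝ => r ^ 2 - c) = fun r => 2 * r := by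
          funext r; simp
        have d2 : deriv (fun r : ℝ => 2 * r) = fun _ => 2 := by
          funext r; simp
        simp only [re_mul_ofReal]
        rw [← levi_single sw, levi_comp (χ := fun r => r ^ 2 - c) hu.1 x (by fun_prop), d1, d2,
          op_dbar, mul_comm]
        refine mul_le_mul_of_nonneg_right ?_ (β0 x)
        nlinarith [mul_nonneg (u0 x) (hu.2 x (Pi.single j 1)),
          sq_nonneg ‖D.dbar (fun y => (u y : ℂ)) x (Pi.single j 1)‖]
    _ ≤ _ := by
        refine (integral_re i1).trans_le ((re_le_norm _).trans ?_)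
        rw [e]
        refine (norm_integral_le_integral_norm _).trans_eq ?_
        simp only [norm_mul, norm_real, Real.norm_eq_abs, mul_comm]

/-- extension across the zero set of a holomorphic function -/
theorem extend_l2 {g f : S → ℂ} (hg : D.Hol g) (h0 : ∀ᵐ x ∂D.μ, g x ≠ 0)
    (hf : ∀ x, g x ≠ 0 → DifferentiableAt ℂ (fun z => f (D.sec x z)) (D.π x))
    (hi : ∀ x, g x = 0 → ∃ U ∈ 𝓝 x, ∫⁻ y in U, ENNReal.ofReal (‖f y‖ ^ 2) ∂D.μ < ⊤) :
    ∃ G : S → ℂ, D.Hol G ∧ ∀ x, g x ≠ 0 → G x = f x := by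
  have ho : IsOpen {x | g x ≠ 0} := isOpen_ne_fun hg.cont continuous_const
  have an : ∀ x, g x ≠ 0 → AnalyticAt ℂ (fun z => f (D.sec x z)) (D.π x) := fun x hx =>
    ana_of_ev (Filter.mem_of_superset (ho.mem_nhds hx) hf)
  have fc : ∀ x, g x ≠ 0 → ContinuousAt f x := fun x hx => by
    refine ((hf x hx).continuousAt.comp D.cont_π.continuousAt).congr ?_
    filter_upwards [(D.ch x).open_source.mem_nhds (D.mem_src x)] with y hy
    simp only [Function.comp, sec_π hy]
  have fo : ContinuousOn f {x | g x ≠ 0} := fun x hx => (fc x hx).continuousWithinAt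
  have fm : AEStronglyMeasurable f D.μ := by
    rw [← Measure.restrict_eq_self_of_ae_mem (s := {x | g x ≠ 0}) h0]
    exact fo.aestronglyMeasurable ho.measurableSet
  have f2 : LocallyIntegrable (fun y => ‖f y‖ ^ 2) D.μ := fun x => by
    by_cases hx : g x = 0
    · obtain ⟨U, hU, h1⟩ := hi x hx
      exact ⟨U, hU, (lintegral_ofReal_ne_top_iff_integrable (fm.norm.pow 2).restrict
        (.of_forall fun _ => sq_nonneg _)).1 h1.ne⟩
    · exact ContinuousOn.integrableAt_nhdsWithin (fo.norm.pow 2) ho.measurableSet hx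
        |>.filter_mono (by rw [ho.nhdsWithin_eq hx])
  have f1 := locInt_of_sq fm f2
  suffices h : ∃ G : S → ℂ, D.Hol G ∧ G =ᵐ[D.μ] f by
    obtain ⟨G, hG, e⟩ := h
    exact ⟨G, hG, Measure.eqOn_open_of_ae_eq (ae_restrict_of_ae e) ho hG.cont.continuousOn fo⟩
  refine weyl f1 fun a ha hc j => ?_
  obtain ⟨ρ, ρ1, ρ2, ρ3, ρ4, -, ρ5, -, ρ6, -⟩ := exists_ramp (a := 0) (b := 1) one_pos
  have ρm : Monotone ρ := monotone_of_deriv_nonneg (ρ1.differentiable (by simp)) ρ4
  have c0 : 0 < ρ 1 := by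
    obtain ⟨t, ht, e⟩ := exists_deriv_eq_slope ρ one_pos ρ1.continuous.continuousOn
      (ρ1.differentiable (by simp)).differentiableOn
    have := ρ5 t ht.1
    rwa [e, ρ2 0 le_rfl, sub_zero, sub_zero, div_one] at this
  obtain ⟨l, hl⟩ : ∃ l : ℕ → S → ℝ, ∀ k, l k = fun x =>
    1 / (k + 1 : ℝ) * Real.log (‖g x‖ ^ 2 + Real.exp (-(2 * (k + 1)))) - -1 := ⟨_, fun _ => rfl⟩
  have p := fun k : ℕ => psh_log hg (Real.exp_pos (-(2 * (k + 1 : ℝ))))
  have ls : ∀ k, D.Sm (l k) := fun k => hl k ▸ ((sm_const _).mul (p k).1).sub (sm_const _)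
  have us : ∀ k, D.Psh fun x => ρ (l k x) := fun k => ⟨(ls k).comp ρ1, fun x ξ => by
    rw [levi_comp (ls k) x (ρ1.contDiffAt.of_le (by norm_cast))]
    refine add_nonneg (mul_nonneg (ρ4 _) ?_) (mul_nonneg (ρ6 _) (sq_nonneg _))
    rw [hl, levi_sub_const ((sm_const _).mul (p k).1), levi_cmul _ (p k).1]
    exact mul_nonneg (by positivity) ((p k).2 x ξ)⟩
  have uz : ∀ k x, g x = 0 → ∀ᶠ y in 𝓝 x, ρ (l k y) = 0 := fun k x hx => by
    have : l k x < 0 := by
      simp only [hl, hx, norm_zero, zero_pow two_ne_zero, zero_add, Real.log_exp]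
      field_simp
      linarith
    exact ((ls k).cont.continuousAt.eventually (gt_mem_nhds this)).mono fun y hy => ρ2 _ hy.le
  have ub : ∀ k x, ρ (l k x) ≤ ρ (Real.log (‖g x‖ ^ 2 + 1) + 1) := fun k x => by
    refine ρm ?_
    have a1 : Real.log (‖g x‖ ^ 2 + Real.exp (-(2 * (k + 1)))) ≤ Real.log (‖g x‖ ^ 2 + 1) :=
      Real.log_le_log (by positivity) (add_le_add le_rfl (Real.exp_le_one_iff.2 (by
        have : (0 : ℝ) ≤ k := k.cast_nonneg
        linarith)))
    have a2 : 0 ≤ Real.log (‖g x‖ ^ 2 + 1) := Real.log_nonneg (by linarith [sq_nonneg ‖g x‖])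
    have a3 : 1 / (k + 1 : ℝ) ≤ 1 := (div_le_one (by positivity)).2 (by
      linarith [k.cast_nonneg (α := ℝ)])
    have a4 := mul_le_mul_of_nonneg_left a1 (by positivity : 0 ≤ 1 / (k + 1 : ℝ))
    have a5 := mul_le_of_le_one_left a2 a3
    simp only [hl]
    linarith
  have Uc : Continuous fun x => ρ (Real.log (‖g x‖ ^ 2 + 1) + 1) :=
    ρ1.continuous.comp ((psh_log hg one_pos).1.cont.add continuous_const)
  have ul : ∀ x, g x ≠ 0 → Tendsto (fun k => ρ (l k x)) atTop (𝓝 (ρ 1)) := fun x hx => by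
    refine (ρ1.continuous.tendsto _).comp ?_
    have t0 : Tendsto (fun k : ℕ => Real.exp (-(2 * (k + 1 : ℝ)))) atTop (𝓝 0) :=
      Real.tendsto_exp_neg_atTop_nhds_zero.comp ((tendsto_atTop_add_const_right _ 1
        tendsto_natCast_atTop_atTop).const_mul_atTop two_pos)
    have t1 := ((t0.const_add (‖g x‖ ^ 2)).log (by simpa using hx))
    simpa [hl] using (tendsto_one_div_add_atTop_nhds_zero_nat.mul t1).sub_const (-1)
  have st : ∀ k, ∫ y, f y * D.op I j a y * (ρ (l k y) : ℂ) ∂D.μ =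
      -∫ y, f y * (a y * D.op I j (fun y => (ρ (l k y) : ℂ)) y) ∂D.μ := fun k => by
    have sw := ha.mul (us k).1.ofReal
    have z : ∀ x, g x = 0 → (fun y => f y * (a y * (ρ (l k y) : ℂ))) =ᶠ[𝓝 x] fun _ => 0 :=
      fun x hx => (uz k x hx).mono fun y hy => by simp [hy]
    have s : D.Sm fun y => f y * (a y * (ρ (l k y) : ℂ)) := fun x => by
      by_cases hx : g x = 0
      · exact contDiffAt_const.congr_of_eventuallyEq (ev_sec (z x hx))
      · exact (((an x hx).contDiffAt (n := ∞)).restrict_scalars ℝ).mul (sw x)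
    have h1 := op_int I j s hc.mul_right.mul_left
    have e : ∀ x, D.op I j (fun y => f y * (a y * (ρ (l k y) : ℂ))) x =
        f x * (D.op I j a x * (ρ (l k x) : ℂ)) +
          f x * (a x * D.op I j (fun y => (ρ (l k y) : ℂ)) x) := fun x => by
      by_cases hx : g x = 0
      · have e1 : (fun y => (ρ (l k y) : ℂ)) =ᶠ[𝓝 x] fun _ => 0 :=
          (uz k x hx).mono fun y hy => by simp [hy]
        rw [op_congr I j (z x hx), op_const, (uz k x hx).self_of_nhds, op_congr I j e1, op_const]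
        simp
      · have := F.HC.op_mul I j ((hf x hx).restrictScalars ℝ) (sw.diff x)
        simp only [D.sec_self] at this
        have e0 : D.op I j f x = 0 := (op_dbar j f x).trans (dbar_holo (hf x hx) _)
        refine this.trans ?_
        show D.op I j f x * _ + f x * D.op I j (fun y => a y * (ρ (l k y) : ℂ)) x = _
        rw [e0, op_mul I j ha (us k).1.ofReal]
        ring
    simp only [e] at h1
    have i1 := f1.integrable_smul_right_of_hasCompactSupport
      ((ha.op I j).mul (us k).1.ofReal).cont (op_supp I j hc).mul_right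
    have i2 := f1.integrable_smul_right_of_hasCompactSupport
      (ha.mul ((us k).1.ofReal.op I j)).cont hc.mul_right
    simp only [mul_assoc]
    exact eq_neg_of_add_eq_zero_left ((integral_add i1 i2).symm.trans h1)
  have fa : Integrable (fun y => f y * D.op I j a y) D.μ :=
    f1.integrable_smul_right_of_hasCompactSupport (ha.op I j).cont (op_supp I j hc)
  have lim1 : Tendsto (fun k => ∫ y, f y * D.op I j a y * (ρ (l k y) : ℂ) ∂D.μ) atTop
      (𝓝 (∫ y, f y * D.op I j a y * (ρ 1 : ℂ) ∂D.μ)) := by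
    refine tendsto_integral_of_dominated_convergence
      (fun y => ‖f y * (D.op I j a y * (ρ (Real.log (‖g y‖ ^ 2 + 1) + 1) : ℂ))‖)
      (fun k => fa.aestronglyMeasurable.mul (us k).1.ofReal.cont.aestronglyMeasurable)
      (f1.integrable_smul_right_of_hasCompactSupport ((ha.op I j).cont.mul
        (continuous_ofReal.comp Uc)) (op_supp I j hc).mul_right).norm
      (fun k => .of_forall fun y => ?_) (h0.mono fun y hy => (ul y hy).ofReal.const_mul _)
    simp only [norm_mul, norm_real, Real.norm_of_nonneg (ρ3 _), mul_assoc]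
    gcongr
    exact ub k y
  have ac : HasCompactSupport fun y => ‖a y‖ ^ 2 := hc.mono fun y hy h => hy (by simp [h])
  have bc : HasCompactSupport fun y => ((‖a y‖ ^ 2 : ℝ) : ℂ) := hc.mono fun y hy h => hy (by simp [h])
  have bs := (ha.normSq.ofReal.op (-I) j).op I j
  have lim2 : Tendsto (fun k => ∫ x, ‖D.op I j (D.op (-I) j fun y => ((‖a y‖ ^ 2 : ℝ) : ℂ)) x‖ *
      |ρ (l k x) ^ 2 - ρ 1 ^ 2| ∂D.μ) atTop (𝓝 0) := by
    rw [← integral_zero S ℝ (μ := D.μ)]
    refine tendsto_integral_of_dominated_convergence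
      (fun x => ‖D.op I j (D.op (-I) j fun y => ((‖a y‖ ^ 2 : ℝ) : ℂ)) x‖ *
        (ρ (Real.log (‖g x‖ ^ 2 + 1) + 1) ^ 2 + ρ 1 ^ 2))
      (fun k => (bs.cont.norm.mul (((us k).1.cont.pow 2).sub continuous_const).abs).aestronglyMeasurable)
      ((bs.cont.norm.mul ((Uc.pow 2).add continuous_const)).integrable_of_hasCompactSupport
        (op_supp I j (op_supp _ j bc)).norm.mul_right)
      (fun k => .of_forall fun y => ?_) (h0.mono fun y hy => ?_)
    · rw [Real.norm_of_nonneg (by positivity)]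
      refine mul_le_mul_of_nonneg_left (abs_le.2 ⟨?_, ?_⟩) (norm_nonneg _)
      · nlinarith [sq_nonneg (ρ (l k y)), sq_nonneg (ρ (Real.log (‖g y‖ ^ 2 + 1) + 1))]
      · nlinarith [pow_le_pow_left₀ (ρ3 _) (ub k y) 2, sq_nonneg (ρ 1)]
    · have := (((ul y hy).pow 2).sub_const (ρ 1 ^ 2)).abs.const_mul
        ‖D.op I j (D.op (-I) j fun y => ((‖a y‖ ^ 2 : ℝ) : ℂ)) y‖
      rwa [sub_self, abs_zero, mul_zero] at this
  have fi : Integrable (indicator (tsupport a) fun y => ‖f y‖ ^ 2) D.μ :=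
    (f2.integrableOn_isCompact hc.isCompact).integrable_indicator
      (isClosed_tsupport a).measurableSet
  set N := ∫ y, indicator (tsupport a) (fun y => ‖f y‖ ^ 2) y ∂D.μ with hN
  have key : ∀ θ : ℝ, 0 < θ → ‖∫ y, f y * D.op I j a y * (ρ 1 : ℂ) ∂D.μ‖ ≤ θ * N := fun θ θ0 => by
    have lim3 := (lim2.const_mul θ⁻¹).const_add (θ * N)
    rw [mul_zero, add_zero] at lim3
    refine le_of_tendsto_of_tendsto' lim1.norm lim3 fun k => ?_
    have i2 : Integrable (fun x => ‖a x‖ ^ 2 * ‖D.op I j (fun y => (ρ (l k y) : ℂ)) x‖ ^ 2) D.μ :=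
      (ha.normSq.mul ((us k).1.ofReal.op I j).normSq).int ac.mul_right
    refine le_trans ?_ (add_le_add le_rfl (mul_le_mul_of_nonneg_left
      (energy_psh (us k) (fun _ => ρ3 _) ha.normSq ac (fun _ => sq_nonneg _) (ρ 1 ^ 2) j)
      (inv_pos.2 θ0).le))
    rw [st, norm_neg, hN, ← integral_const_mul, ← integral_const_mul,
      ← integral_add (fi.const_mul _) (i2.const_mul _)]
    refine norm_integral_le_of_norm_le ((fi.const_mul _).add (i2.const_mul _))
      (.of_forall fun y => ?_)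
    by_cases hy : y ∈ tsupport a
    · rw [indicator_of_mem hy, norm_mul, norm_mul, ← mul_pow]
      generalize ‖a y‖ * ‖D.op I j (fun y => (ρ (l k y) : ℂ)) y‖ = q
      rw [inv_mul_eq_div, add_div' _ _ _ θ0.ne', le_div_iff₀ θ0]
      nlinarith [sq_nonneg (θ * ‖f y‖ - q), sq_nonneg q, sq_nonneg (θ * ‖f y‖)]
    · simp [indicator_of_notMem hy, image_eq_zero_of_notMem_tsupport hy]
  have t : Tendsto (fun θ : ℝ => θ * N) (𝓝[>] 0) (𝓝 0) :=
    (Continuous.tendsto' (by fun_prop) _ _ (by simp)).mono_left nhdsWithin_le_nhds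
  have := norm_le_zero_iff.1 (ge_of_tendsto t (eventually_nhdsWithin_of_forall key))
  rw [integral_mul_const] at this
  exact (mul_eq_zero.1 this).resolve_right (ofReal_ne_zero.2 c0.ne')

end RD

end

end Pool.Agent.Lib.MP_5c318e_ag
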