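import Pool.Agent.Lib.MP_5c318e_ag.RD.HFr
import Pool.Agent.Lib.MP_5c318e_ag.RD.HAlg

/-! The Bochner formula for vector fields: harmonic fields are holomorphic. -/

set_option autoImplicit false
set_option linter.unusedSectionVars false

namespace Pool.Agent.Lib.MP_5c318e_ag

open MeasureTheory Set Complex Filter Topology Matrix
open scoped ComplexConjugate ContDiff

noncomputable section

namespace RD

open Lin Fr

variable {ι : Type} [Fintype ι] [DecidableEq ι] {S : Type} [TopologicalSpace S]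
  [MeasurableSpace S] [BorelSpace S] [T2Space S] [SigmaCompactSpace S] {D : RD ι S} {Φ φ : S → ℝ}

variable (D) in
/-- the matrix `∂̄_k W^j` -/
def db (W : S → ι → ℂ) (x : S) : Matrix ι ι ℂ := Matrix.of fun j k => D.op I k (fun y => W y j) x

variable (D) in
/-- the weighted divergence -/
def wd (φ : S → ℝ) (W : S → ι → ℂ) (x : S) : ℂ := D.dv W x - D.vd W (fun y => (φ y : ℂ)) x

variable (D) in
/-- the integrand of the Bochner formula -/
def bo (φ η : S → ℝ) (W : S → ι → ℂ) (x : S) : ℂ := (Real.exp (-φ x) : ℂ) * η x *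
  (η x * ((D.db W x * (D.db W x).map conj).trace + D.gp φ x (W x) (W x) -
      D.wd φ W x * conj (D.wd φ W x)) +
    2 * ((fun j => D.op (-I) j (fun y => (η y : ℂ)) x) ⬝ᵥ (D.db W x *ᵥ star (W x)) -
      D.wd φ W x * D.dbar (fun y => (η y : ℂ)) x (W x)))

theorem wd_sm (hφ : D.Sm φ) {W : S → ι → ℂ} (hW : D.Sm W) : D.Sm (D.wd φ W) :=
  (dv_sm hW).sub (vd_sm hW hφ.ofReal)

theorem ident (hφ : D.Sm φ) {η : S → ℝ} (hη : D.Sm η) (hc : HasCompactSupport η) {W : S → ι → ℂ}
    (hW : D.Sm W) : Integrable (D.bo φ η W) D.μ ∧ ∫ x, D.bo φ η W x ∂D.μ = 0 := by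
  have w := hW.coord
  have ψ := hφ.ofReal
  have s : D.Sm fun x => (η x : ℂ) * η x * (Real.exp (-φ x) : ℂ) := (hη.ofReal.mul hη.ofReal).mul hφ.wt
  have c : HasCompactSupport fun x => (η x : ℂ) * η x * (Real.exp (-φ x) : ℂ) :=
    (hc.comp_left (g := fun r : ℝ => (r : ℂ)) ofReal_zero).mul_right.mul_right
  have sX := fun j k => s.mul (((w j).op I k).mul (w k).conj)
  have sY := fun k => s.mul ((wd_sm hφ hW).mul (w k).conj)
  have iX := fun j k => ((sX j k).op (-I) j).int (op_supp _ j c.mul_right)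
  have iY := fun k => ((sY k).op I k).int (op_supp _ k c.mul_right)
  have e : D.bo φ η W = fun x => ∑ k, (∑ j, D.op (-I) j (fun y => (η y : ℂ) * η y *
      (Real.exp (-φ y) : ℂ) * (D.op I k (fun y => W y j) y * conj (W y k))) x -
      D.op I k (fun y => (η y : ℂ) * η y * (Real.exp (-φ y) : ℂ) *
        (D.wd φ W y * conj (W y k))) x) := by
    funext x
    have d1 : ∀ k, D.op I k (D.wd φ W) x = ∑ j, (D.op (-I) j (D.op I k fun y => W y j) x -
        (D.op I k (fun y => W y j) x * D.op (-I) j (fun y => (φ y : ℂ)) x +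
          W x j * D.gm φ x j k)) := fun k => by
      rw [show D.wd φ W = fun y => ∑ j, (D.op (-I) j (fun y => W y j) y -
        W y j * D.op (-I) j (fun y => (φ y : ℂ)) y) from funext fun y =>
          (Finset.sum_sub_distrib _ _).symm,
        op_sum _ _ _ fun j _ => ((w j).op _ j).sub ((w j).mul (ψ.op _ j))]
      refine Finset.sum_congr rfl fun j _ => ?_
      rw [op_sub _ _ ((w j).op _ j) ((w j).mul (ψ.op _ j)), op_mul _ _ (w j) (ψ.op _ j),
        op_comm _ _ _ _ (w j), op_comm _ _ _ _ ψ, gm]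
    have d2 : conj (D.wd φ W x) = ∑ k, (conj (D.op (-I) k (fun y => W y k) x) -
        conj (W x k) * D.op I k (fun y => (φ y : ℂ)) x) := by
      simp only [wd, dv, vd, map_sub, map_sum, map_mul, conj_op hφ, map_neg, conj_I, neg_neg,
        Finset.sum_sub_distrib]
    simp only [op_mul _ _ s (((w _).op I _).mul (w _).conj), op_mul _ _ s ((wd_sm hφ hW).mul (w _).conj),
      op_mul _ _ ((w _).op I _) (w _).conj, op_mul _ _ (wd_sm hφ hW) (w _).conj,
      op_mul _ _ (hη.ofReal.mul hη.ofReal) hφ.wt, op_mul _ _ hη.ofReal hη.ofReal, op_wt _ _ hφ,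
      op_conj _ _ (w _), map_neg, conj_I, neg_neg, d1]
    rw [bo, d2, trace_mul_comm, dotProduct_mulVec]
    simp only [trace, diag, mul_apply, map_apply, db, of_apply, gp, dbar_coord, dotProduct, vecMul,
      Pi.star_apply, RCLike.star_def, Finset.mul_sum, Finset.sum_mul, ← Finset.sum_add_distrib,
      ← Finset.sum_sub_distrib]
    refine Finset.sum_congr rfl fun k _ => ?_
    simp only [mul_add, mul_sub, Finset.mul_sum]
    have : ∀ (a c d e : ι → ℂ) (u w z z' : ℂ), (∀ j, a j + c j = d j - e j) → u + w = z + z' →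
        ∑ j, a j - u + (∑ j, c j - w) = ∑ j, d j - (z + (∑ j, e j + z')) := by
      intro a c d e u w z z' h1 h2
      have h := Finset.sum_congr (s₁ := Finset.univ) rfl fun j _ => h1 j
      rw [Finset.sum_add_distrib, Finset.sum_sub_distrib] at h
      linear_combination h - h2
    exact this _ _ _ _ _ _ _ _ (fun j => by ring) (by ring)
  rw [e]
  refine ⟨integrable_finsetSum _ fun k _ => isub (integrable_finsetSum _ fun j _ => iX j k) (iY k), ?_⟩
  rw [integral_finsetSum _ fun k _ => isub (integrable_finsetSum _ fun j _ => iX j k) (iY k)]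
  refine Finset.sum_eq_zero fun k _ => ?_
  rw [integral_sub (integrable_finsetSum _ fun j _ => iX j k) (iY k),
    integral_finsetSum _ fun j _ => iX j k, op_int _ _ (sY k) c.mul_right, sub_zero]
  exact Finset.sum_eq_zero fun j _ => op_int _ _ (sX j k) c.mul_right

variable (D) in
/-- the coefficients of `∂̄ g (W, ·)` -/
def cu (Φ : S → ℝ) (W : S → ι → ℂ) (x : S) (k l : ι) : ℂ :=
  D.op I l (fun y => D.fl Φ W y k) x - D.op I k (fun y => D.fl Φ W y l) x

theorem cu_eq (hΦ : D.Sm Φ) {W : S → ι → ℂ} (hW : D.Sm W) (x : S) (k l : ι) :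
    D.cu Φ W x k l = (D.mat Φ x * D.db W x - (D.mat Φ x * D.db W x)ᵀ) k l := by
  simp only [cu, fl, op_sum _ _ _ fun j _ => (gm_sm hΦ j _).mul (hW.coord j),
    op_mul _ _ (gm_sm hΦ _ _) (hW.coord _), Matrix.sub_apply, transpose_apply, mul_apply, mat, db,
    of_apply, ← Finset.sum_sub_distrib]
  exact Finset.sum_congr rfl fun j _ => by rw [gm_symm hΦ x j k l]; ring

theorem two_mul_le {x a b : ℝ} (a0 : 0 ≤ a) (b0 : 0 ≤ b) (h : x ^ 2 ≤ a * b) : 2 * x ≤ a + b :=
  (abs_le_of_sq_le_sq' (by nlinarith [sq_nonneg (a - b)]) (add_nonneg a0 b0)).2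

/-- the pointwise estimate -/
theorem bo_le (hΦ : D.Pos Φ) (hφ : D.Psh φ) {η : S → ℝ} (hη : D.Sm η) {W : S → ι → ℂ} (hW : D.Sm W)
    {x : S} {θ m h t : ℝ} (θ0 : 0 ≤ θ) (m0 : 0 ≤ m) (h0 : 0 ≤ h) (t0 : 0 < t)
    (hθ : ∀ ξ, ‖D.dbar (fun y => (η y : ℂ)) x ξ‖ ^ 2 ≤ θ * D.levi Φ x ξ)
    (hm : ∀ ξ, nq ξ ≤ m * D.levi Φ x ξ) {a : ℂ}
    (ha : a ≠ 0 → η x = 1 ∧ ∀ ξ, nq ξ ≤ h * D.levi Φ x ξ) (j k : ι) :
    ‖D.db W x j k * a‖ ≤ t⁻¹ * ((D.bo φ η W x).re + Real.exp (-φ x) * (η x ^ 2 *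
      (2 * ‖D.wd φ W x‖ ^ 2 + m ^ 2 * ∑ k, ∑ l, ‖D.cu Φ W x k l‖ ^ 2) + 3 * θ * D.levi Φ x (W x))) +
      t * (h * D.levi Φ x (Pi.single k 1) * Real.exp (φ x) * ‖a‖ ^ 2) := by
  obtain ⟨R, -, hR, -, hq⟩ := exists_root hΦ.psh
  have hu : IsUnit (R x).det := by
    have := hΦ.unit x
    rw [← (hR x).2, det_mul] at this
    exact isUnit_of_mul_isUnit_left this
  have la := fun {h : ℝ} (h0 : 0 ≤ h) => Lin.la (hR x).1 hu m0 h0 (by simpa only [hq] using hm)
    (D.db W x)
  simp only [(hR x).2, fq, ← cu_eq hΦ.1 hW, ← hq] at la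
  set T := (D.db W x * (D.db W x).map conj).trace
  set Q := m ^ 2 * ∑ k, ∑ l, ‖D.cu Φ W x k l‖ ^ 2
  have N0 := (la h0).1
  have q0 := hΦ.psh.2 x (W x)
  have k0 := hΦ.psh.2 x (Pi.single k 1)
  have c1 := (la θ0).2 (fun j => D.op (-I) j (fun y => (η y : ℂ)) x) (W x) fun ξ => by
    rw [← norm_conj, dotProduct_comm]
    exact (congrArg (fun z => ‖z‖ ^ 2) (dbar_real hη (fun _ => ξ) x)).ge.trans (hθ ξ)
  have c2 := hθ (W x)
  have e0 := Real.exp_pos (-φ x)
  have b : (D.bo φ η W x).re = Real.exp (-φ x) * η x * (η x * (T.re + D.levi φ x (W x) -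
      ‖D.wd φ W x‖ ^ 2) + 2 * (((fun j => D.op (-I) j (fun y => (η y : ℂ)) x) ⬝ᵥ
        (D.db W x *ᵥ star (W x))).re - (D.wd φ W x * D.dbar (fun y => (η y : ℂ)) x (W x)).re)) := by
    rw [bo, ← ofReal_mul, re_ofReal_mul, add_re, re_ofReal_mul, sub_re, add_re, gp_re hφ.1, mul_conj,
      ofReal_re, normSq_eq_norm_sq, show (2 : ℂ) = (2 : ℝ) from rfl, re_ofReal_mul, sub_re]
  rw [b]
  set X := (fun j => D.op (-I) j (fun y => (η y : ℂ)) x) ⬝ᵥ (D.db W x *ᵥ star (W x))
  set Y := D.dbar (fun y => (η y : ℂ)) x (W x)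
  set d := D.wd φ W x
  have x1 : 2 * -(η x * X.re) ≤ η x ^ 2 * (T.re + Q) / 2 + 2 * θ * D.levi Φ x (W x) := by
    refine two_mul_le (by positivity) (by positivity) ?_
    have := (sq_le_sq' (neg_le_of_abs_le (abs_re_le_norm X)) (re_le_norm X)).trans c1
    nlinarith [mul_le_mul_of_nonneg_left this (sq_nonneg (η x))]
  have x2 : 2 * (η x * (d * Y).re) ≤ η x ^ 2 * ‖d‖ ^ 2 + θ * D.levi Φ x (W x) := by
    refine two_mul_le (by positivity) (by positivity) ?_
    have := sq_le_sq' (neg_le_of_abs_le (abs_re_le_norm (d * Y))) (re_le_norm _)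
    rw [norm_mul, mul_pow] at this
    nlinarith [mul_le_mul_of_nonneg_left (this.trans (mul_le_mul_of_nonneg_left c2 (sq_nonneg _)))
      (sq_nonneg (η x))]
  have Q0 : 0 ≤ Q := by positivity
  have x3 : Real.exp (-φ x) * (η x ^ 2 * (T.re + Q) / 2) ≤ Real.exp (-φ x) * η x *
      (η x * (T.re + D.levi φ x (W x) - ‖d‖ ^ 2) + 2 * (X.re - (d * Y).re)) + Real.exp (-φ x) *
        (η x ^ 2 * (2 * ‖d‖ ^ 2 + Q) + 3 * θ * D.levi Φ x (W x)) := by
    rw [mul_assoc, ← mul_add]
    refine mul_le_mul_of_nonneg_left ?_ e0.le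
    nlinarith [mul_nonneg (sq_nonneg (η x)) (hφ.2 x (W x)), mul_nonneg (sq_nonneg (η x)) Q0]
  refine le_trans ?_ (add_le_add (mul_le_mul_of_nonneg_left x3 (inv_pos.2 t0).le) le_rfl)
  rcases eq_or_ne a 0 with rfl | a0
  · rw [mul_zero, norm_zero]; positivity
  have c3 := (la h0).2 (Pi.single j 1) (Pi.single k 1) fun ξ => by
    rw [single_dotProduct, one_mul]
    exact (Finset.single_le_sum (f := fun j => ‖ξ j‖ ^ 2) (fun _ _ => sq_nonneg _)
      (Finset.mem_univ j)).trans ((ha a0).2 ξ)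
  rw [single_dotProduct, one_mul, ← Pi.single_star, star_one, mulVec_single_one] at c3
  have x4 : 2 * ‖D.db W x j k * a‖ ≤ t⁻¹ * (Real.exp (-φ x) * (T.re + Q)) +
      t * (h * D.levi Φ x (Pi.single k 1) * Real.exp (φ x) * ‖a‖ ^ 2) := by
    refine two_mul_le (by positivity) (by positivity) ?_
    rw [norm_mul, mul_pow, Real.exp_neg]
    refine (mul_le_mul_of_nonneg_right c3 (sq_nonneg _)).trans_eq ?_
    field_simp
  have : 0 ≤ t * (h * D.levi Φ x (Pi.single k 1) * Real.exp (φ x) * ‖a‖ ^ 2) := by positivity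
  rw [(ha a0).1]
  nlinarith

theorem eq_zero_of_test {f : S → ℝ} (hf : Continuous f) (f0 : ∀ x, 0 ≤ f x)
    (h : ∀ β : S → ℝ, D.Sm β → HasCompactSupport β → ∫ x, β x ^ 2 * f x ∂D.μ = 0) (x : S) :
    f x = 0 := by
  obtain ⟨β, b1, -, b3, K, K1, -, K3⟩ := exists_bump (D := D) x univ_mem
  have c := HasCompactSupport.intro K1 K3
  have s : Continuous fun x => β x ^ 2 * f x := (b1.cont.pow 2).mul hf
  have := (integral_eq_zero_iff_of_nonneg (fun y => mul_nonneg (sq_nonneg _) (f0 y))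
    (s.integrable_of_hasCompactSupport (HasCompactSupport.intro K1 fun y hy => by
      simp [K3 y hy]))).1 (h β b1 c)
  have h2 := congrFun ((s.ae_eq_iff_eq D.μ continuous_const).1 this) x
  simp only [b3.self_of_nhds, one_pow, one_mul] at h2
  exact h2

theorem weak_hol (hΦ : D.Pos Φ) (hc : D.Cut Φ) (hφ : D.Psh φ) {w : S → ι → ℂ}
    (hw : D.L2 Φ φ w) (hd : D.DivF φ w) (hl : D.Cl (D.fl Φ w)) {a : S → ℂ} (ha : D.Sm a)
    (ac : HasCompactSupport a) (j k : ι) : ∫ y, w y j * D.op I k a y ∂D.μ = 0 := by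
  have := D.wlc
  have w2 : ∀ j, D.L2l fun y => w y j := fun j => ⟨aesm_coord hw.1 j, hw.loc hΦ hφ.1 j⟩
  obtain ⟨h, h0, hh⟩ := hΦ.lower ac.isCompact
  obtain ⟨R, Rc, -, -, hq⟩ := exists_root hΦ.psh
  have ec := hφ.1.neg.rexp.cont
  have e0 := fun x => (Real.exp_pos (-φ x)).le
  have sk := ha.op I k
  have ck := op_supp (D := D) I k ac
  have i1 : Integrable (fun x => h * D.levi Φ x (Pi.single k 1) * Real.exp (φ x) * ‖a x‖ ^ 2) D.μ :=
    (((continuous_const.mul ((levi_cont hΦ.1).comp (continuous_id.prodMk continuous_const))).mul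
      hφ.1.rexp.cont).mul ha.normSq.cont).integrable_of_hasCompactSupport
      (HasCompactSupport.intro ac fun x hx => by simp [image_eq_zero_of_notMem_tsupport hx])
  have i2 : Integrable (fun x => ‖D.op I k a x‖ ^ 2) D.μ :=
    sk.normSq.int (HasCompactSupport.intro ac fun x hx => by simp [op_zero _ _ hx])
  set C := 6 * (∫ x, D.levi Φ x (w x) * Real.exp (-φ x) ∂D.μ) + ((∫ x, h * D.levi Φ x (Pi.single k 1) *
    Real.exp (φ x) * ‖a x‖ ^ 2 ∂D.μ) + ∫ x, ‖D.op I k a x‖ ^ 2 ∂D.μ) with hC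
  have key : ∀ t : ℝ, 0 < t → ‖∫ y, w y j * D.op I k a y ∂D.μ‖ ≤ t * C := fun t t0 => by
    obtain ⟨η, hη, ηc, -, η1, ηd⟩ := hc _ ac.isCompact (t ^ 2) (by positivity)
    obtain ⟨b, b1, b2, b3, K, hK, -, b4⟩ := exists_cut (D := D) ηc.isCompact isOpen_univ
      (subset_univ _)
    have b5 : ∀ y ∈ tsupport η, b y = 1 := fun y hy => (b3 y hy).self_of_nhds
    have bc := HasCompactSupport.intro hK b4
    have ηK : ∀ y, y ∉ K → η y = 0 := fun y hy => image_eq_zero_of_notMem_tsupport fun h1 =>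
      one_ne_zero ((b5 y h1).symm.trans (b4 y hy))
    obtain ⟨m, m0, hm⟩ := hΦ.lower ηc.isCompact
    obtain ⟨mo, ms, ml⟩ := friedrichs (D := D) hK
    set W : ℕ → S → ι → ℂ := fun n y j => mo n (fun y => w y j) y with hW
    have sj := fun n j => ms n _ (w2 j)
    have sW : ∀ n, D.Sm (W n) := fun n => sm_pi (sj n)
    have l1 := (ml b b1.cont (fun y => (b2 y).1) b4).1 _ (w2 j)
    have l2 := tendsto_finsetSum Finset.univ fun j _ => (ml (fun y => b y * Real.exp (-φ y) * fq (R y))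
      ((b1.cont.mul ec).mul (by unfold fq; fun_prop))
      (fun y => mul_nonneg (mul_nonneg (b2 y).1 (e0 y)) (fq_nonneg _))
      fun y hy => by simp [b4 y hy]).1 _ (w2 j)
    have l3 := (ml (fun y => η y ^ 2 * Real.exp (φ y)) ((hη.cont.pow 2).mul hφ.1.rexp.cont)
      (fun y => by positivity) fun y hy => by simp [ηK y hy]).2 ι (fun j y => w y j)
      (fun _ y => (Real.exp (-φ y) : ℂ)) (fun _ => -I) id w2 (fun _ => hφ.1.wt) fun a ha ac => by
        rw [← hd a ha ac]
        congr 1; funext y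
        rw [vd, Finset.sum_mul]
        exact Finset.sum_congr rfl fun _ _ => by rw [id]; ring
    have l4 := tendsto_finsetSum Finset.univ fun k _ => tendsto_finsetSum Finset.univ fun l _ =>
      (ml (fun y => η y ^ 2 * Real.exp (-φ y)) ((hη.cont.pow 2).mul ec)
      (fun y => by positivity) fun y hy => by simp [ηK y hy]).2 (ι ⊕ ι)
      (fun g y => w y (g.elim id id))
      (Sum.elim (fun j y => D.gm Φ y j k) fun j y => -D.gm Φ y j l) (fun _ => I)
      (Sum.elim (fun _ => l) fun _ => k) (fun _ => w2 _)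
      (by rintro (j | j); exacts [gm_sm hΦ.1 j k, (gm_sm hΦ.1 j l).neg]) fun a ha ac => by
        rw [← hl a ha ac k l]
        congr 1; funext y
        simp [fl, Finset.sum_mul, sub_eq_add_neg]
    simp only [Finset.sum_const_zero] at l2 l4
    have lim := ((l1.add ((l3.const_mul 2).add ((l4.const_mul (m ^ 2)).add
      (l2.const_mul (6 * t ^ 2))))).const_mul t⁻¹).add_const (t * C)
    simp only [mul_zero, add_zero, zero_add] at lim
    refine ge_of_tendsto' lim fun n => ?_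
    have s := sW n
    have r2 := fun j => (L2l.of_cont (sj n j).cont).sub (w2 j)
    have j1 : Integrable (fun y => b y * ‖W n y j - w y j‖ ^ 2) D.μ :=
      (r2 j).2.integrable_smul_left_of_hasCompactSupport b1.cont bc
    have j2 : ∀ j, Integrable (fun y => b y * Real.exp (-φ y) * fq (R y) * ‖W n y j - w y j‖ ^ 2) D.μ :=
      fun j => (r2 j).2.integrable_smul_left_of_hasCompactSupport
        ((b1.cont.mul ec).mul (by unfold fq; fun_prop)) bc.mul_right.mul_right
    have η2 : HasCompactSupport fun y => η y ^ 2 :=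
      HasCompactSupport.intro hK fun y hy => by simp [ηK y hy]
    have e3 : ∀ y, η y ^ 2 * Real.exp (φ y) * ‖∑ g, D.op (-I) (id g) (fun y => (Real.exp (-φ y) : ℂ) *
        mo n (fun y => w y g) y) y‖ ^ 2 = η y ^ 2 * Real.exp (-φ y) * ‖D.wd φ (W n) y‖ ^ 2 := fun y => by
      have : ∑ g, D.op (-I) (id g) (fun y => (Real.exp (-φ y) : ℂ) * mo n (fun y => w y g) y) y =
          (Real.exp (-φ y) : ℂ) * D.wd φ (W n) y := by
        simp only [wd, dv, vd, ← Finset.sum_sub_distrib, Finset.mul_sum, op_mul _ _ hφ.1.wt (sj n _),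
          op_wt _ _ hφ.1, hW, id]
        exact Finset.sum_congr rfl fun _ _ => by ring
      rw [this, norm_mul, norm_real, Real.norm_of_nonneg (e0 y), Real.exp_neg]
      field_simp
    have e4 : ∀ k l y, ∑ g : ι ⊕ ι, D.op I (Sum.elim (fun _ => l) (fun _ => k) g) (fun y =>
        Sum.elim (fun j y => D.gm Φ y j k) (fun j y => -D.gm Φ y j l) g y *
          mo n (fun y => w y (g.elim id id)) y) y = D.cu Φ (W n) y k l := fun k l y => by
      simp only [Fintype.sum_sum_type, Sum.elim_inl, Sum.elim_inr, id, cu, fl, hW,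
        op_sum _ _ _ fun j _ => (gm_sm hΦ.1 j _).mul (sj n j), sub_eq_add_neg,
        ← Finset.sum_neg_distrib]
      congr 1
      refine Finset.sum_congr rfl fun j _ => ?_
      have := op_mul I k (sm_const (D := D) (-1 : ℂ)) ((gm_sm hΦ.1 j l).mul (sj n j)) y
      simpa [op_const] using this
    simp only [e3, e4]
    have j3 : Integrable (fun y => η y ^ 2 * Real.exp (-φ y) * ‖D.wd φ (W n) y‖ ^ 2) D.μ :=
      (((hη.cont.pow 2).mul ec).mul (wd_sm hφ.1 s).normSq.cont).integrable_of_hasCompactSupport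
        η2.mul_right.mul_right
    have j4 : ∀ k l, Integrable (fun y => η y ^ 2 * Real.exp (-φ y) * ‖D.cu Φ (W n) y k l‖ ^ 2) D.μ :=
      fun k l => (((hη.cont.pow 2).mul ec).mul ((((fl_sm hΦ.1 s).coord k).op I l).sub
        (((fl_sm hΦ.1 s).coord l).op I k)).normSq.cont).integrable_of_hasCompactSupport
        η2.mul_right.mul_right
    obtain ⟨j5, e5⟩ := ident hφ.1 hη ηc s
    have e6 : ∫ x, (D.bo φ η (W n) x).re ∂D.μ = 0 := by
      rw [← zero_re, ← e5]; exact integral_re j5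
    have k1 : Integrable (fun y => w y j * D.op I k a y) D.μ :=
      (w2 j).loc.integrable_smul_right_of_hasCompactSupport sk.cont ck
    have k2 := ((sj n j).mul sk).int ck.mul_left
    have k3 := (((sj n j).op I k).mul ha).int ac.mul_left
    have e7 : ∫ y, w y j * D.op I k a y ∂D.μ =
        -∫ y, (W n y j - w y j) * D.op I k a y + D.db (W n) y j k * a y ∂D.μ := by
      simp only [sub_mul, db, of_apply, hW]
      rw [integral_add (isub k2 k1) k3, integral_sub k2 k1, op_int_mul I k (sj n j) ha ac]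
      ring
    have j6 := integrable_finsetSum Finset.univ fun j _ => j2 j
    have j7 := fun k => integrable_finsetSum Finset.univ fun l _ => j4 k l
    have j8 := integrable_finsetSum Finset.univ fun k _ => j7 k
    have j9 := iadd (j8.const_mul (m ^ 2)) (j6.const_mul (6 * t ^ 2))
    have j10 := iadd j1 (iadd (j3.const_mul 2) j9)
    have j11 := iadd (hw.2.const_mul 6) (iadd i1 i2)
    have j12 := iadd (j10.const_mul t⁻¹) (j11.const_mul t)
    simp only [← integral_finsetSum _ fun l _ => j4 _ l]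
    rw [e7, norm_neg, hC, ← integral_finsetSum _ fun j _ => j2 j, ← integral_finsetSum _ fun k _ => j7 k,
      ← integral_const_mul, ← integral_const_mul, ← integral_const_mul, ← integral_const_mul,
      ← integral_add (j8.const_mul _) (j6.const_mul _), ← integral_add (j3.const_mul _) j9,
      ← integral_add j1 (iadd (j3.const_mul 2) j9), ← integral_add i1 i2,
      ← integral_add (hw.2.const_mul 6) (iadd i1 i2), ← integral_const_mul, ← integral_const_mul,
      ← integral_add (j10.const_mul _) (j11.const_mul _)]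
    refine le_trans (norm_integral_le_of_norm_le (iadd j12 (j5.re.const_mul t⁻¹))
      (.of_forall fun y => ?_)) (le_of_eq (by
        rw [integral_add j12 (j5.re.const_mul _), integral_const_mul,
          (show ∫ x, RCLike.re (D.bo φ η (W n) x) ∂D.μ = 0 from e6), mul_zero, add_zero]))
    have q0 := mul_nonneg (hΦ.psh.2 y (w y)) (e0 y)
    have f0 := fq_nonneg (R y)
    have := (b2 y).1
    by_cases hy : y ∈ tsupport η
    swap
    · have a0 : y ∉ tsupport a := fun h1 => hy (subset_tsupport _ (by simp [η1 y h1]))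
      have := hΦ.psh.2 y (Pi.single k 1)
      rw [op_zero _ _ a0, image_eq_zero_of_notMem_tsupport a0, bo,
        image_eq_zero_of_notMem_tsupport hy]
      simp only [mul_zero, add_zero, norm_zero, ofReal_zero, zero_mul, map_zero]
      positivity
    have p1 := bo_le hΦ hφ hη s (sq_nonneg t) m0.le h0.le t0 (ηd y) (hm y hy) (a := a y)
      (fun h1 => ⟨η1 y (subset_tsupport _ h1), hh y (subset_tsupport _ h1)⟩) j k
    have p2 : 2 * ‖(W n y j - w y j) * D.op I k a y‖ ≤
        t⁻¹ * ‖W n y j - w y j‖ ^ 2 + t * ‖D.op I k a y‖ ^ 2 :=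
      two_mul_le (by positivity) (by positivity) (le_of_eq (by rw [norm_mul]; field_simp))
    have p3 := levi_sub_le hΦ.psh y (w y) (-(W n y - w y))
    have p4 : D.levi Φ y (-(W n y - w y)) ≤ fq (R y) * ∑ j, ‖W n y j - w y j‖ ^ 2 := by
      rw [hq]
      refine (mv_le _ _).trans_eq ?_
      simp only [nq, Pi.neg_apply, norm_neg, Pi.sub_apply]
    rw [sub_neg_eq_add, add_sub_cancel] at p3
    have p5 := mul_le_mul_of_nonneg_left (p3.trans (mul_le_mul_of_nonneg_left
      (add_le_add le_rfl p4) zero_le_two)) (mul_nonneg (e0 y) (by positivity : 0 ≤ 3 * t))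
    refine (norm_add_le _ _).trans ?_
    simp only [← Finset.mul_sum, b5 y hy, RCLike.re_to_complex] at p1 p2 p5 ⊢
    have tt : t⁻¹ * t ^ 2 = t := by field_simp
    linear_combination p1 + p2 + p5 + norm_nonneg ((W n y j - w y j) * D.op I k a y) +
      (3 * Real.exp (-φ y) * D.levi Φ y (W n y) -
        6 * Real.exp (-φ y) * fq (R y) * ∑ j, ‖W n y j - w y j‖ ^ 2) * tt
  have t : Tendsto (fun t : ℝ => t * C) (𝓝[>] 0) (𝓝 0) :=
    (Continuous.tendsto' (by fun_prop) _ _ (by simp)).mono_left nhdsWithin_le_nhds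
  exact norm_le_zero_iff.1 (ge_of_tendsto t (eventually_nhdsWithin_of_forall key))

theorem L2.congr {u w : S → ι → ℂ} (hw : D.L2 Φ φ w) (h : u =ᵐ[D.μ] w) : D.L2 Φ φ u :=
  ⟨hw.1.congr h.symm, hw.2.congr (h.mono fun x hx => by simp only [hx])⟩

theorem DivF.congr {u w : S → ι → ℂ} (hw : D.DivF φ w) (h : u =ᵐ[D.μ] w) : D.DivF φ u :=
  fun a ha ac => (integral_congr_ae (h.mono fun x hx => by simp only [vd, hx])).trans (hw a ha ac)

theorem DivF.wd_eq (hφ : D.Sm φ) {W : S → ι → ℂ} (hW : D.Sm W) (h : D.DivF φ W) (x : S) :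
    D.wd φ W x = 0 := by
  have s := wd_sm hφ hW
  have := eq_zero_of_test (D := D) (s.normSq.mul hφ.neg.rexp).cont (fun y => by positivity)
    (fun β hβ hc => ?_) x
  · simpa using this
  have c : HasCompactSupport fun y => (β y : ℂ) := hc.comp_left (g := fun r : ℝ => (r : ℂ)) ofReal_zero
  have h1 := h _ ((hβ.ofReal.mul hβ.ofReal).mul s.conj) c.mul_right.mul_right
  rw [int_vd hφ hW ((hβ.ofReal.mul hβ.ofReal).mul s.conj) c.mul_right.mul_right, neg_eq_zero] at h1
  rw [← ofReal_eq_zero, ← integral_complex_ofReal, ← h1]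
  congr 1; funext y
  rw [ofReal_mul, ofReal_mul, ← normSq_eq_norm_sq, ← mul_conj, ofReal_pow, wd]
  ring

theorem hh_of_hol (hφ : D.Psh φ) {W : S → ι → ℂ} (hW : D.Hol W) (h2 : D.L2 Φ φ W)
    (hd : D.DivF φ W) : D.HH Φ φ W := by
  have d0 := hd.wd_eq hφ.1 hW.smv
  refine ⟨hW, h2, fun x => sub_eq_zero.1 (d0 x), fun x => ?_⟩
  have := eq_zero_of_test (D := D) (f := fun y => D.levi φ y (W y) * Real.exp (-φ y))
    (((levi_cont hφ.1).comp (continuous_id.prodMk hW.smv.cont)).mul hφ.1.neg.rexp.cont)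
    (fun y => mul_nonneg (hφ.2 _ _) (Real.exp_pos _).le) (fun β hβ hc => ?_) x
  · simpa using this
  rw [← ofReal_eq_zero, ← integral_complex_ofReal, ← (ident hφ.1 hβ hc hW.smv).2]
  congr 1; funext y
  have : D.db W y = 0 := by ext j k; exact (hW.coord j).op_zero k y
  simp only [bo, d0, this, gp_self hφ.1]
  simp
  ring

/-- harmonic fields are holomorphic -/
theorem hol_of_harm (hΦ : D.Pos Φ) (hc : D.Cut Φ) (hφ : D.Psh φ) {w : S → ι → ℂ}
    (hw : D.L2 Φ φ w) (hd : D.DivF φ w) (hl : D.Cl (D.fl Φ w)) :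
    ∃ W, D.HH Φ φ W ∧ W =ᵐ[D.μ] w := by
  choose G h1 h2 using fun j => weyl (locInt_of_sq (aesm_coord hw.1 j) (hw.loc hΦ hφ.1 j))
    fun a ha ac k => weak_hol hΦ hc hφ hw hd hl ha ac j k
  have e : (fun x j => G j x) =ᵐ[D.μ] w := (ae_all_iff.2 h2).mono fun x hx => funext hx
  exact ⟨_, hh_of_hol hφ (fun x => differentiableAt_pi.2 fun j => h1 j x) (hw.congr e)
    (hd.congr e), e⟩

end RD

end

end Pool.Agent.Lib.MP_5c318e_ag
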