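import Pool.Agent.Lib.MP_5c318e_ag.RD.RExt
import Pool.Agent.Lib.MP_5c318e_ag.RD.RMain

/-! Vector fields on a Riemann domain with a Kaehler metric `levi Φ` and a weight `φ`. -/

set_option autoImplicit false

namespace Pool.Agent.Lib.MP_5c318e_ag

open MeasureTheory Set Complex
open scoped ComplexConjugate

noncomputable section

namespace RD

variable {ι : Type} [Fintype ι] [DecidableEq ι] {S : Type} [TopologicalSpace S]
  [MeasurableSpace S] (D : RD ι S)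

/-- the complex Hessian `∂_j ∂̄_k Φ` -/
def gm (Φ : S → ℝ) (x : S) (j k : ι) : ℂ := D.op (-I) j (D.op I k fun y => (Φ y : ℂ)) x

/-- the coefficients of the `(0,1)`-form `g (w, ·)` -/
def fl (Φ : S → ℝ) (w : S → ι → ℂ) (x : S) (k : ι) : ℂ := ∑ j, D.gm Φ x j k * w x j

/-- the sesquilinear form of the Hessian -/
def gp (Φ : S → ℝ) (x : S) (ξ ζ : ι → ℂ) : ℂ := ∑ k, (∑ j, D.gm Φ x j k * ξ j) * conj (ζ k)

/-- the derivative `w (a)` of `a` along the field `w` of type `(1,0)` -/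
def vd (w : S → ι → ℂ) (a : S → ℂ) (x : S) : ℂ := ∑ j, w x j * D.op (-I) j a x

/-- the divergence -/
def dv (w : S → ι → ℂ) (x : S) : ℂ := ∑ j, D.op (-I) j (fun y => w y j) x

/-- a Kaehler potential -/
def Pos (Φ : S → ℝ) : Prop := D.Sm Φ ∧ ∀ x ξ, ξ ≠ 0 → 0 < D.levi Φ x ξ

/-- cutoff functions with small gradient: the metric is complete -/
def Cut (Φ : S → ℝ) : Prop :=
  ∀ K, IsCompact K → ∀ θ : ℝ, 0 < θ → ∃ η : S → ℝ, D.Sm η ∧ HasCompactSupport η ∧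
    (∀ y, 0 ≤ η y ∧ η y ≤ 1) ∧ (∀ y ∈ K, η y = 1) ∧
    ∀ x ξ, ‖D.dbar (fun y => (η y : ℂ)) x ξ‖ ^ 2 ≤ θ * D.levi Φ x ξ

/-- square integrable fields -/
def L2 (Φ φ : S → ℝ) (w : S → ι → ℂ) : Prop :=
  AEStronglyMeasurable w D.μ ∧ Integrable (fun x => D.levi Φ x (w x) * Real.exp (-φ x)) D.μ

/-- `w exp (-φ)` is weakly divergence free -/
def DivF (φ : S → ℝ) (w : S → ι → ℂ) : Prop :=
  ∀ a : S → ℂ, D.Sm a → HasCompactSupport a →
    ∫ x, D.vd w a x * (Real.exp (-φ x) : ℂ) ∂D.μ = 0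

/-- weakly `∂̄`-closed `(0,1)`-forms -/
def Cl (r : S → ι → ℂ) : Prop :=
  ∀ a : S → ℂ, D.Sm a → HasCompactSupport a → ∀ k l,
    ∫ x, r x k * D.op I l a x - r x l * D.op I k a x ∂D.μ = 0

/-- harmonic fields -/
structure HH (Φ φ : S → ℝ) (W : S → ι → ℂ) : Prop where
  hol : D.Hol W
  l2 : D.L2 Φ φ W
  div : ∀ x, D.dv W x = D.vd W (fun y => (φ y : ℂ)) x
  ker : ∀ x, D.levi φ x (W x) = 0

end RD

end

end Pool.Agent.Lib.MP_5c318e_ag
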