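import Pool.Agent.Lib.MP_5c318e_ag.RD.HFrA

/-! Weak solutions of first order systems on a Riemann domain are strong solutions. -/

set_option autoImplicit false
set_option linter.unusedSectionVars false

namespace Pool.Agent.Lib.MP_5c318e_ag

open MeasureTheory Set Filter Topology Complex Metric
open scoped ContDiff
open Pool.Agent.Lib.MP_9ff3e7_ag Pool.Agent.Lib.MP_9ff3e7_ag.F

noncomputable section

namespace RD

variable {ι : Type} [Fintype ι] [DecidableEq ι] {S : Type} [TopologicalSpace S] [MeasurableSpace S]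
  [BorelSpace S] [T2Space S] {D : RD ι S}

theorem exists_ext' {p : S → ℂ} (hp : D.Sm p) (x : S) {C : Set (ι → ℂ)} (hC : IsCompact C)
    (h : C ⊆ (D.ch x).target) : ∃ ψ : (ι → ℂ) → ℂ, ContDiff ℝ ∞ ψ ∧
      ∀ z ∈ C, ψ z = p (D.sec x z) := by
  obtain ⟨a, a1, a2⟩ := exists_ext (hp.comp reCLM.contDiff) x hC h
  obtain ⟨b, b1, b2⟩ := exists_ext (hp.comp imCLM.contDiff) x hC h
  refine ⟨fun z => a z + b z * I, (ofRealCLM.contDiff.comp a1).add
    ((ofRealCLM.contDiff.comp b1).mul contDiff_const), fun z hz => ?_⟩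
  simp only [(a2 z hz).self_of_nhds, (b2 z hz).self_of_nhds]
  exact re_add_im _

/-- a tested integral read in a chart -/
theorem test_loc {G : S → ℂ} (hGm : AEStronglyMeasurable G D.μ) {x : S} {ρ : ℝ}
    (h : closedBall (D.π x) ρ ⊆ (D.ch x).target) {v : (ι → ℂ) → ℂ} (hv : ContDiff ℝ ∞ v)
    (v0 : ∀ z, z ∉ closedBall (D.π x) ρ → v z = 0) (c : ℂ) (j : ι) :
    ∫ t, D.lc x ρ G t * Cacc.dd c j v t = ∫ y, G y * D.op c j (D.up x v) y ∂D.μ := by
  have hC := isCompact_closedBall (D.π x) ρ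
  have z2 : ∀ y, y ∉ D.sec x '' closedBall (D.π x) ρ → G y * D.op c j (D.up x v) y = 0 :=
    fun y hy => by rw [op_zero' c j (sec_cpt hC h) (fun y hy => up_zero v0 hy) hy, mul_zero]
  refine Eq.trans ?_ (int_down (x := x) (hGm.mul ((up_sm hv hC h v0).op c j).cont.aestronglyMeasurable)
    fun y hy => z2 y fun h1 => hy (sec_sub h h1)).symm
  congr 1
  funext t
  by_cases ht : t ∈ closedBall (D.π x) ρ
  · rw [lc, indicator_of_mem ht, down_of _ (h ht), Pi.mul_apply, op_sec _ j _ (h ht)]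
    exact congrArg _ (hop_congr _ j (up_sec v (h ht))).symm
  · rw [lc, indicator_of_notMem ht, zero_mul]
    refine (down_zero z2 ?_).symm
    rintro ⟨_, ⟨w, hw, rfl⟩, rfl⟩
    exact ht (by rwa [π_sec (h hw)])

variable (D) in
/-- locally square integrable functions -/
def L2l (u : S → ℂ) : Prop :=
  AEStronglyMeasurable u D.μ ∧ LocallyIntegrable (fun y => ‖u y‖ ^ 2) D.μ

theorem L2l.loc {u : S → ℂ} (h : D.L2l u) : LocallyIntegrable u D.μ := locInt_of_sq h.1 h.2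

theorem L2l.of_cont {u : S → ℂ} (h : Continuous u) : D.L2l u :=
  ⟨h.aestronglyMeasurable, (h.norm.pow 2).locallyIntegrable⟩

theorem L2l.sub {u v : S → ℂ} (hu : D.L2l u) (hv : D.L2l v) : D.L2l fun y => u y - v y := by
  refine ⟨hu.1.sub hv.1, ((hu.2.add hv.2).smul (2 : ℝ)).mono ((hu.1.sub hv.1).norm.pow 2)
    (.of_forall fun y => ?_)⟩
  have := pow_le_pow_left₀ (norm_nonneg _) (norm_sub_le (u y) (v y)) 2
  rw [Real.norm_of_nonneg (sq_nonneg _)]
  refine le_trans ?_ (le_abs_self _)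
  simp only [Pi.smul_apply, Pi.add_apply, smul_eq_mul]
  nlinarith [sq_nonneg (‖u y‖ - ‖v y‖)]

theorem L2l.mul {p u : S → ℂ} (hu : D.L2l u) (hp : Continuous p) : D.L2l fun y => p y * u y := by
  have := D.wlc
  refine ⟨hp.aestronglyMeasurable.mul hu.1, ?_⟩
  simp only [norm_mul, mul_pow]
  exact hu.2.continuous_mul (hp.norm.pow 2)

theorem L2l.lc {u : S → ℂ} (hu : D.L2l u) {x : S} {ρ : ℝ}
    (h : closedBall (D.π x) ρ ⊆ (D.ch x).target) : Integrable fun t => ‖D.lc x ρ u t‖ ^ 2 := by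
  refine (lc_int h hu.2).congr (.of_forall fun t => ?_)
  by_cases ht : t ∈ closedBall (D.π x) ρ
  · simp only [RD.lc, indicator_of_mem ht]
  · simp [RD.lc, indicator_of_notMem ht]

/-- mollifiers near a compact set -/
theorem exists_mo {K : Set S} (hK : IsCompact K) : ∃ mo : ℕ → (S → ℂ) → S → ℂ,
    (∀ n u, D.L2l u → D.Sm (mo n u)) ∧
    (∀ (γ : Type) [Fintype γ] (u : γ → S → ℂ) (c : γ → ℂ) (j : γ → ι), (∀ g, D.L2l (u g)) →
      (∀ a, D.Sm a → HasCompactSupport a → ∫ y, ∑ g, u g y * D.op (c g) (j g) a y ∂D.μ = 0) →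
      ∀ᶠ n in atTop, ∀ y ∈ K, ∑ g, D.op (c g) (j g) (mo n (u g)) y = 0) ∧
    ∀ b : S → ℝ, Continuous b → (∀ y, 0 ≤ b y) → (∀ y, y ∉ K → b y = 0) → ∀ u, D.L2l u →
      Tendsto (fun n => ∫ y, b y * ‖mo n u y - u y‖ ^ 2 ∂D.μ) atTop (𝓝 0) ∧
      ∀ c j p, D.Sm p → Tendsto (fun n => ∫ y, b y *
        ‖D.op c j (fun w => p w * mo n u w - mo n (fun y => p y * u y) w) y‖ ^ 2 ∂D.μ)
        atTop (𝓝 0) := by
  have := D.wlc
  choose R R0 hR using fun x => D.exists_rad x univ_mem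
  obtain ⟨ρ, ρ0, hρ⟩ : ∃ ρ : S → ℝ, (∀ x, 0 < ρ x) ∧
      ∀ x, closedBall (D.π x) (2 * ρ x) ⊆ (D.ch x).target :=
    ⟨fun x => R x / 2, fun x => half_pos (R0 x), fun x z hz =>
      (hR x (by rwa [mul_div_cancel₀ _ two_ne_zero] at hz)).1⟩
  set W : S → Set S := fun x => (D.ch x).source ∩ D.π ⁻¹' ball (D.π x) (ρ x) with hW
  have Wo : ∀ x, IsOpen (W x) := fun x =>
    (D.ch x).open_source.inter (isOpen_ball.preimage D.cont_π)
  obtain ⟨T, c, L, c1, c2, L1, L2, c3, -, c5⟩ := exists_pou (D := D) hK W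
    fun x => (Wo x).mem_nhds ⟨D.mem_src x, mem_ball_self (ρ0 x)⟩
  have L3 : ∀ x, L x ⊆ (D.ch x).source := fun x y hy => (L2 x hy).2
  have c6 : ∀ y ∈ K, ∑ x ∈ T, c x y = 1 := fun y hy => (c5 y hy).self_of_nhds
  have Wc : ∀ x, ∀ y ∈ W x, D.π y ∈ closedBall (D.π x) (2 * ρ x) := fun x y hy =>
    ball_sub hy.2 le_rfl (mem_closedBall_self (ρ0 x).le)
  obtain ⟨k, hk, kc, ke, kl⟩ := Fr.exists_moll (ι := ι)
  set cv : ℕ → S → (S → ℂ) → (ι → ℂ) → ℂ := fun n x u z =>
    ∫ t, D.lc x (2 * ρ x) u t * (k n (z - t) : ℂ) with hcv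
  set mo : ℕ → (S → ℂ) → S → ℂ := fun n u y => ∑ x ∈ T, (c x y : ℂ) * cv n x u (D.π y) with hmo
  have ms : ∀ n u, D.L2l u → D.Sm (mo n u) := fun n u hu =>
    sm_sum _ fun x _ => (c1 x).ofReal.mul
      (sm_π.comp (Cacc.cv_smooth (lc_int (hρ x) hu.loc).locallyIntegrable (hk n) (kc n)))
  obtain ⟨e, e0, he⟩ : ∃ e > 0, ∀ x ∈ T, e ≤ ρ x :=
    (((eventually_all_finset T).2 fun x _ => nhdsWithin_le_nhds (ge_mem_nhds (ρ0 x))).and
      (self_mem_nhdsWithin (a := (0 : ℝ)) (s := Ioi 0))).exists.imp fun _ h => ⟨h.2, h.1⟩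
  have me : ∀ n, Moll.Ker (k n) e → ∀ u, ∀ x ∈ T, ∀ y ∈ W x, ∑ x ∈ T, c x y = 1 →
      mo n u y = cv n x u (D.π y) := fun n hn u x hx y hy h1 => by
    rw [← one_mul (cv n x u (D.π y)), ← ofReal_one, ← h1, ofReal_sum, Finset.sum_mul]
    refine Finset.sum_congr rfl fun x' hx' => ?_
    by_cases h0 : y ∈ L x'
    · congr 1
      exact cv_agree (hρ x') (hρ x) (L2 x' h0).1 hy hn (he x' hx') (he x hx) u
    · simp [c3 x' y h0]
  have ev : ∀ n, Moll.Ker (k n) e → ∀ u, ∀ x ∈ T, ∀ y ∈ W x, y ∈ K →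
      mo n u =ᶠ[𝓝 y] fun w => cv n x u (D.π w) := fun n hn u x hx y hy yK => by
    filter_upwards [(Wo x).mem_nhds hy, c5 y yK] with w h1 h2 using me n hn u x hx w h1 h2
  refine ⟨mo, ms, fun γ _ u a j hu ho => ?_, fun b hb b0 bK u hu => ?_⟩
  · filter_upwards [ke e e0] with n hn y yK
    obtain ⟨x, hx, h0⟩ := Finset.exists_ne_zero_of_sum_ne_zero ((c6 y yK).trans_ne one_ne_zero)
    have yW : y ∈ W x := (L2 x (by_contra fun h => h0 (c3 x y h))).1
    have hv : ContDiff ℝ ∞ fun t => (k n (D.π y - t) : ℂ) :=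
      (hk n).comp (contDiff_const.sub contDiff_id)
    have v0 : ∀ z, z ∉ closedBall (D.π x) (2 * ρ x) → (k n (D.π y - z) : ℂ) = 0 := fun z hz => by
      by_contra h
      refine hz (ball_sub yW.2 (he x hx) ?_)
      rw [mem_closedBall, dist_comm, dist_eq_norm]
      exact (hn.supp _ (ofReal_ne_zero.1 h)).le
    have hC := isCompact_closedBall (D.π x) (2 * ρ x)
    have s := up_sm hv hC (hρ x) v0
    have cs : HasCompactSupport (D.up x fun t => (k n (D.π y - t) : ℂ)) :=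
      HasCompactSupport.intro (sec_cpt hC (hρ x)) fun y hy => up_zero v0 hy
    have i : ∀ g, Integrable (fun w => u g w * D.op (a g) (j g)
        (D.up x fun t => (k n (D.π y - t) : ℂ)) w) D.μ := fun g =>
      (hu g).loc.integrable_smul_right_of_hasCompactSupport (s.op _ _).cont (op_supp _ _ cs)
    rw [← neg_eq_zero, ← ho _ s cs, integral_finsetSum _ fun g _ => i g, ← Finset.sum_neg_distrib]
    refine Finset.sum_congr rfl fun g _ => ?_
    rw [op_congr _ _ (ev n hn _ x hx y yW yK), op_π,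
      Cacc.dd_cv _ _ (lc_int (hρ x) (hu g).loc).locallyIntegrable (hk n) (kc n), ← integral_neg]
    refine Eq.trans ?_ (test_loc (hu g).1 (hρ x) hv v0 _ _)
    simp only [Cacc.dd_refl _ _ (hk n), mul_neg]
  have z : ∀ x y, y ∉ L x → c x y • b y = 0 := fun x y hy => by rw [c3 x y hy, zero_smul]
  have kx := fun x => kl (down_cont (x := x) ((c1 x).cont.smul hb) (L1 x) (L3 x) (z x))
    (fun t => indicator_nonneg (fun _ _ => mul_nonneg (c2 x _).1 (b0 _)) t)
    (down_supp (L1 x) (z x)) (lc_aesm (hρ x) hu.1) (hu.lc (hρ x))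
  have bs := HasCompactSupport.intro hK bK
  refine ⟨?_, fun a j p hp => ?_⟩
  · have := tendsto_finsetSum T fun x _ => (kx x).1
    rw [Finset.sum_const_zero] at this
    refine this.congr' ?_
    filter_upwards [ke e e0] with n hn
    refine (split c1 c2 L3 c3 c6 (((L2l.of_cont (ms n u hu).cont).sub
      hu).2.integrable_smul_left_of_hasCompactSupport hb bs) bK fun x hx y h1 hy => ?_).symm
    simp only [me n hn u x hx y (L2 x hy).1 (c6 y h1), hcv, lc_π u (L3 x hy) (Wc x y (L2 x hy).1)]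
  choose P P1 P2 using fun x => exists_ext' hp x (isCompact_closedBall _ _) (hρ x)
  have := tendsto_finsetSum T fun x _ => (kx x).2 a j (P1 x)
  rw [Finset.sum_const_zero] at this
  refine this.congr' ?_
  filter_upwards [ke e e0] with n hn
  have s := ((hp.mul (ms n u hu)).sub (ms n _ (hu.mul hp.cont))).op a j
  refine (split c1 c2 L3 c3 c6 ((hb.mul s.normSq.cont).integrable_of_hasCompactSupport bs.mul_right)
    bK fun x hx y h1 hy => ?_).symm
  rw [← op_π]
  congr 2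
  refine op_congr _ _ ?_
  filter_upwards [ev n hn u x hx y (L2 x hy).1 h1, ev n hn (fun y => p y * u y) x hx y (L2 x hy).1 h1,
    (Wo x).mem_nhds (L2 x hy).1] with w h2 h3 h4
  rw [h2, h3, P2 x _ (Wc x w h4), sec_π h4.1]
  refine congrArg _ (congrArg (integral volume) (funext fun t => ?_))
  by_cases ht : t ∈ closedBall (D.π x) (2 * ρ x)
  · rw [lc, lc, indicator_of_mem ht, indicator_of_mem ht, P2 x t ht]
  · rw [lc, lc, indicator_of_notMem ht, indicator_of_notMem ht, mul_zero]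

theorem norm_sum_sq_le {γ : Type} [Fintype γ] (f : γ → ℂ) :
    ‖∑ g, f g‖ ^ 2 ≤ Fintype.card γ * ∑ g, ‖f g‖ ^ 2 :=
  (pow_le_pow_left₀ (norm_nonneg _) (norm_sum_le _ _) 2).trans sq_sum_le_card_mul_sum_sq

/-- Friedrichs: weak solutions are limits of smooth approximate solutions -/
theorem friedrichs {K : Set S} (hK : IsCompact K) : ∃ mo : ℕ → (S → ℂ) → S → ℂ,
    (∀ n u, D.L2l u → D.Sm (mo n u)) ∧
    ∀ b : S → ℝ, Continuous b → (∀ y, 0 ≤ b y) → (∀ y, y ∉ K → b y = 0) →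
      (∀ u, D.L2l u → Tendsto (fun n => ∫ y, b y * ‖mo n u y - u y‖ ^ 2 ∂D.μ) atTop (𝓝 0)) ∧
      ∀ (γ : Type) [Fintype γ] (u p : γ → S → ℂ) (c : γ → ℂ) (j : γ → ι), (∀ g, D.L2l (u g)) →
        (∀ g, D.Sm (p g)) → (∀ a, D.Sm a → HasCompactSupport a →
          ∫ y, ∑ g, p g y * u g y * D.op (c g) (j g) a y ∂D.μ = 0) →
        Tendsto (fun n => ∫ y, b y *
          ‖∑ g, D.op (c g) (j g) (fun w => p g w * mo n (u g) w) y‖ ^ 2 ∂D.μ) atTop (𝓝 0) := by
  obtain ⟨mo, h1, h2, h3⟩ := exists_mo (D := D) hK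
  refine ⟨mo, h1, fun b hb b0 bK => ⟨fun u hu => (h3 b hb b0 bK u hu).1,
    fun γ _ u p c j hu hp ho => ?_⟩⟩
  have pu := fun g => (hu g).mul (hp g).cont
  have t := (tendsto_finsetSum Finset.univ fun g _ =>
    (h3 b hb b0 bK (u g) (hu g)).2 (c g) (j g) (p g) (hp g)).const_mul (Fintype.card γ : ℝ)
  rw [Finset.sum_const_zero, mul_zero] at t
  refine squeeze_zero' (.of_forall fun n => integral_nonneg fun y => mul_nonneg (b0 y) (sq_nonneg _))
    ?_ t
  filter_upwards [h2 γ _ c j pu ho] with n hn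
  have s1 := fun g => (hp g).mul (h1 n _ (hu g))
  have s2 := fun g => h1 n _ (pu g)
  have i : ∀ g, Integrable (fun y => b y * ‖D.op (c g) (j g) (fun w => p g w * mo n (u g) w -
      mo n (fun y => p g y * u g y) w) y‖ ^ 2) D.μ := fun g =>
    (hb.mul (((s1 g).sub (s2 g)).op (c g) (j g)).normSq.cont).integrable_of_hasCompactSupport
      (HasCompactSupport.intro hK bK).mul_right
  rw [← integral_finsetSum _ fun g _ => i g, ← integral_const_mul]
  refine integral_mono_of_nonneg (.of_forall fun y => mul_nonneg (b0 y) (sq_nonneg _))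
    ((integrable_finsetSum _ fun g _ => i g).const_mul _) (.of_forall fun y => ?_)
  by_cases hy : y ∈ K
  · simp only [← Finset.mul_sum]
    rw [mul_left_comm, ← sub_zero (∑ g, _), ← hn y hy, ← Finset.sum_sub_distrib]
    simp only [op_sub _ _ (s1 _) (s2 _)]
    exact mul_le_mul_of_nonneg_left (norm_sum_sq_le _) (b0 y)
  · simp [bK y hy]

end RD

end

end Pool.Agent.Lib.MP_5c318e_ag
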