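import Pool.Agent.Lib.MP_5c318e_ag.RD.RCacc

/-! Strong convergence of mollifiers and the commutator lemma of Friedrichs on `ℂ^ι`. -/

set_option autoImplicit false
set_option linter.unusedSectionVars false

namespace Pool.Agent.Lib.MP_5c318e_ag

open MeasureTheory Set Filter Topology Complex Metric
open scoped ContDiff
open Pool.Agent.Lib.MP_9ff3e7_ag Pool.Agent.Lib.MP_9ff3e7_ag.F

noncomputable section

namespace RD.Fr

section
variable {X E : Type} [MeasurableSpace X] [NormedAddCommGroup E] {μ : Measure X} {f g : X → E}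

theorem iadd (hf : Integrable f μ) (hg : Integrable g μ) : Integrable (fun x => f x + g x) μ :=
  hf.add hg

theorem isub (hf : Integrable f μ) (hg : Integrable g μ) : Integrable (fun x => f x - g x) μ :=
  hf.sub hg

theorem ineg (hf : Integrable f μ) : Integrable (fun x => -f x) μ := hf.neg

end

variable {ι : Type} [Fintype ι] [DecidableEq ι]

/-- operators with kernels dominated by an approximate identity -/
theorem kern {σ : ℕ → (ι → ℂ) → ℝ} (hσ : ∀ e > 0, ∀ᶠ n in atTop, Moll.Ker (σ n) e)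
    {k : ℕ → (ι → ℂ) → (ι → ℂ) → ℂ} (kc : ∀ n x, Continuous (k n x)) {b : (ι → ℂ) → ℝ}
    (hb : Continuous b) (b0 : ∀ x, 0 ≤ b x) (bs : HasCompactSupport b) {C : ℝ} (C0 : 0 ≤ C)
    (hk : ∀ n x t, b x ≠ 0 → ‖k n x t‖ ≤ C * σ n (x - t)) {κ : ℂ}
    (hκ : ∀ δ > 0, ∀ᶠ n in atTop, ∀ x, b x ≠ 0 → ‖(∫ t, k n x t) - κ‖ ≤ δ)
    {G : (ι → ℂ) → ℂ} (hG : AEStronglyMeasurable G volume) (hi : Integrable fun x => ‖G x‖ ^ 2) :
    Tendsto (fun n => ∫ x, b x * ‖(∫ t, G t * k n x t) - κ * G x‖ ^ 2) atTop (𝓝 0) := by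
  obtain ⟨B, hB⟩ := bs.exists_bound_of_continuous hb
  have bB : ∀ x, b x ≤ B := fun x => (le_abs_self _).trans (hB x)
  have B0 : 0 ≤ B := (b0 0).trans (bB 0)
  have bi : Integrable b := hb.integrable_of_hasCompactSupport bs
  have i0 : 0 ≤ ∫ x, b x := integral_nonneg b0
  set T := 3 * (C ^ 2 * B + ‖κ‖ ^ 2 * B + ∫ x, b x) + 1 with hT
  have T0 : 0 < T := by positivity
  refine tendsto_order.2 ⟨fun a ha => .of_forall fun n => ha.trans_le (integral_nonneg fun x =>
    mul_nonneg (b0 x) (sq_nonneg _)), fun ε ε0 => ?_⟩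
  have d0 : 0 < ε / T := by positivity
  obtain ⟨g, gs, gr, gc, g2⟩ := MemLp.exists_hasCompactSupport_integral_rpow_sub_le (f := G)
    (μ := volume) two_pos (by
      rw [ENNReal.ofReal_ofNat]; exact (memLp_two_iff_integrable_sq_norm hG).2 hi) d0
  simp only [Real.rpow_two] at gr
  rw [ENNReal.ofReal_ofNat] at g2
  have r2 : Integrable fun x => ‖G x - g x‖ ^ 2 := (memLp_two_iff_integrable_sq_norm
    (hG.sub gc.aestronglyMeasurable)).1 (((memLp_two_iff_integrable_sq_norm hG).2 hi).sub g2)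
  have rl : LocallyIntegrable (fun x => G x - g x) volume := Moll.locInt (φ := fun _ => 0)
    continuous_const (hG.sub gc.aestronglyMeasurable) (by simpa using r2)
  have rn : LocallyIntegrable (fun x => ‖G x - g x‖) volume := fun x => (rl x).norm
  obtain ⟨M, hM⟩ := gs.exists_bound_of_continuous gc
  have M0 : 0 ≤ M := (norm_nonneg _).trans (hM 0)
  set η := √(ε / T) / (C + M + 1) with hη
  have η0 : 0 < η := by positivity
  obtain ⟨e, e0, he⟩ := Moll.uc gc bs.isCompact η0
  filter_upwards [hσ e e0, hκ η η0] with n s hn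
  set A : (ι → ℂ) → ℝ := fun x => ∫ t, ‖G t - g t‖ * σ n (x - t) with hA
  have A0 : ∀ x, 0 ≤ A x := fun x => integral_nonneg fun t => mul_nonneg (norm_nonneg _) (s.nn _)
  have Ac : Continuous A :=
    s.cs.continuous_convolution_right (ContinuousLinearMap.mul ℝ ℝ) rn s.cont
  have j := s.jensen (G := fun x => G x - g x) (A := fun x => (A x : ℂ)) (κ := 1)
    (c := fun _ => B) b0 (fun x _ _ => bB x) (r2.mul_const B) fun x _ => by
      rw [norm_real, Real.norm_of_nonneg (A0 x), one_mul]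
  simp only [norm_real, Real.norm_eq_abs, sq_abs, one_pow, one_mul, integral_mul_const] at j
  have pt : ∀ x, b x * ‖(∫ t, G t * k n x t) - κ * G x‖ ^ 2 ≤
      3 * (C ^ 2 * (A x ^ 2 * b x) + ‖κ‖ ^ 2 * B * ‖G x - g x‖ ^ 2 + ε / T * b x) := fun x => by
    by_cases h0 : b x = 0
    · rw [h0, zero_mul]; positivity
    have si : Integrable fun t => σ n (x - t) := s.int.comp_sub_left x
    have ki : Integrable (k n x) := (si.const_mul C).mono' (kc n x).aestronglyMeasurable
      (.of_forall fun t => hk n x t h0)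
    have b1 : ∀ t, ‖(G t - g t) * k n x t‖ ≤ C * (‖G t - g t‖ * σ n (x - t)) := fun t => by
      rw [norm_mul, mul_left_comm]
      exact mul_le_mul_of_nonneg_left (hk n x t h0) (norm_nonneg _)
    have b2 : ∀ t, ‖(g t - g x) * k n x t‖ ≤ η * C * σ n (x - t) := fun t => by
      by_cases h1 : σ n (x - t) = 0
      · have := hk n x t h0
        rw [h1, mul_zero, norm_le_zero_iff] at this
        simp [this, h1]
      · rw [norm_mul, mul_assoc, norm_sub_rev]
        exact mul_le_mul (he x (subset_tsupport _ h0) t (s.supp _ h1)) (hk n x t h0)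
          (norm_nonneg _) η0.le
    have i1 : Integrable fun t => (G t - g t) * k n x t := ((s.intR rn x).const_mul C).mono'
      ((hG.sub gc.aestronglyMeasurable).mul (kc n x).aestronglyMeasurable) (.of_forall b1)
    have i2 : Integrable fun t => (g t - g x) * k n x t := (si.const_mul _).mono'
      ((gc.sub continuous_const).mul (kc n x)).aestronglyMeasurable (.of_forall b2)
    have e1 : (∫ t, G t * k n x t) - κ * G x = (∫ t, (G t - g t) * k n x t) - κ * (G x - g x) +
        ((∫ t, (g t - g x) * k n x t) + g x * ((∫ t, k n x t) - κ)) := by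
      have : ∫ t, G t * k n x t = (∫ t, (G t - g t) * k n x t) + (∫ t, (g t - g x) * k n x t) +
          g x * ∫ t, k n x t := by
        rw [← integral_const_mul, ← integral_add i1 i2, ← integral_add (iadd i1 i2) (ki.const_mul _)]
        congr 1; funext t; ring
      rw [this]; ring
    have n1 : ‖∫ t, (G t - g t) * k n x t‖ ≤ C * A x := by
      rw [← integral_const_mul]
      exact norm_integral_le_of_norm_le ((s.intR rn x).const_mul C) (.of_forall b1)
    have n2 : ‖∫ t, (g t - g x) * k n x t‖ ≤ η * C := by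
      rw [← mul_one (η * C), ← s.one' x, ← integral_const_mul]
      exact norm_integral_le_of_norm_le (si.const_mul _) (.of_forall b2)
    have n3 : ‖(∫ t, (g t - g x) * k n x t) + g x * ((∫ t, k n x t) - κ)‖ ≤ √(ε / T) := by
      refine (norm_add_le _ _).trans ?_
      rw [norm_mul, ← div_mul_cancel₀ √(ε / T) (by positivity : C + M + 1 ≠ 0), ← hη]
      nlinarith [mul_le_mul (hM x) (hn x h0) (norm_nonneg _) M0]
    have n4 := ((norm_add_le _ _).trans (add_le_add ((norm_sub_le _ (κ * (G x - g x))).trans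
      (add_le_add n1 (norm_mul _ _).le)) n3))
    rw [← e1] at n4
    have n5 := pow_le_pow_left₀ (norm_nonneg _) n4 2
    have q := Real.sq_sqrt d0.le
    generalize √(ε / T) = w at n5 q
    rw [← q]
    have n6 : (C * A x + ‖κ‖ * ‖G x - g x‖ + w) ^ 2 ≤
        3 * ((C * A x) ^ 2 + (‖κ‖ * ‖G x - g x‖) ^ 2 + w ^ 2) := by
      nlinarith [sq_nonneg (C * A x - ‖κ‖ * ‖G x - g x‖), sq_nonneg (C * A x - w),
        sq_nonneg (‖κ‖ * ‖G x - g x‖ - w)]
    nlinarith [mul_le_mul_of_nonneg_left (n5.trans n6) (b0 x),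
      mul_le_mul_of_nonneg_right (bB x) (sq_nonneg (‖κ‖ * ‖G x - g x‖))]
  have i1 : Integrable fun x => C ^ 2 * (A x ^ 2 * b x) :=
    (((Ac.pow 2).mul hb).integrable_of_hasCompactSupport bs.mul_left).const_mul _
  have i2 := r2.const_mul (‖κ‖ ^ 2 * B)
  have i3 := bi.const_mul (ε / T)
  refine (integral_mono_of_nonneg (.of_forall fun x => mul_nonneg (b0 x) (sq_nonneg _))
    ((iadd (iadd i1 i2) i3).const_mul 3) (.of_forall pt)).trans_lt ?_
  rw [integral_const_mul, integral_add (iadd i1 i2) i3, integral_add i1 i2, integral_const_mul,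
    integral_const_mul, integral_const_mul]
  have h1 := mul_le_mul_of_nonneg_left (j.trans (mul_le_mul_of_nonneg_right gr B0)) (sq_nonneg C)
  have h2 := mul_le_mul_of_nonneg_left gr (by positivity : 0 ≤ ‖κ‖ ^ 2 * B)
  have h3 : ε / T * T = ε := div_mul_cancel₀ _ T0.ne'
  nlinarith

/-- rescaling of a kernel -/
def sc {E : Type} [SMul ℝ E] (e : ℝ) (ρ : (ι → ℂ) → E) (y : ι → ℂ) : E :=
  (e ^ Module.finrank ℝ (ι → ℂ))⁻¹ • ρ (e⁻¹ • y)

theorem ker_sc {ρ : (ι → ℂ) → ℝ} {r e : ℝ} (k : Moll.Ker ρ r) (e0 : 0 < e) :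
    Moll.Ker (sc e ρ) (e * r) := by
  refine ⟨(k.cont.comp (continuous_const_smul e⁻¹)).const_smul (_ : ℝ),
    fun y => mul_nonneg (by positivity) (k.nn _), ?_, fun y hy => ?_⟩
  · simp only [sc]
    rw [integral_smul, Measure.integral_comp_inv_smul_of_nonneg _ _ e0.le, k.one, smul_smul,
      inv_mul_cancel₀ (by positivity), one_smul]
  · have := k.supp _ (right_ne_zero_of_mul hy)
    rwa [norm_smul, Real.norm_of_nonneg (by positivity), inv_mul_lt_iff₀ e0] at this

theorem dd_sc (c : ℂ) (j : ι) {ρ : (ι → ℂ) → ℂ} (h : ContDiff ℝ ∞ ρ) (e : ℝ) (y : ι → ℂ) :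
    Cacc.dd c j (sc e ρ) y = e⁻¹ • sc e (Cacc.dd c j ρ) y := by
  have := (((h.differentiable (by simp) (e⁻¹ • y)).hasFDerivAt.comp y
    ((hasFDerivAt_id y).const_smul e⁻¹)).const_smul (e ^ Module.finrank ℝ (ι → ℂ))⁻¹).fderiv
  rw [Cacc.dd, show fderiv ℝ (sc e ρ) y = _ from this]
  simp only [sc, Cacc.dd, smul_apply, ContinuousLinearMap.comp_apply, map_smul,
    ContinuousLinearMap.id_apply, real_smul]
  ring

/-- a family of mollifiers -/
theorem exists_moll : ∃ ρ : ℕ → (ι → ℂ) → ℝ, (∀ n, ContDiff ℝ ∞ fun y => (ρ n y : ℂ)) ∧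
    (∀ n, HasCompactSupport fun y => (ρ n y : ℂ)) ∧
    (∀ e > 0, ∀ᶠ n in atTop, Moll.Ker (ρ n) e) ∧
    ∀ {b : (ι → ℂ) → ℝ}, Continuous b → (∀ x, 0 ≤ b x) → HasCompactSupport b →
    ∀ {G : (ι → ℂ) → ℂ}, AEStronglyMeasurable G volume → (Integrable fun x => ‖G x‖ ^ 2) →
      Tendsto (fun n => ∫ x, b x * ‖(∫ t, G t * (ρ n (x - t) : ℂ)) - G x‖ ^ 2) atTop (𝓝 0) ∧
      ∀ (c : ℂ) (j : ι) {p : (ι → ℂ) → ℂ}, ContDiff ℝ ∞ p → Tendsto (fun n => ∫ x, b x *
        ‖Cacc.dd c j (fun x => (p x * ∫ t, G t * (ρ n (x - t) : ℂ)) -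
          ∫ t, p t * G t * (ρ n (x - t) : ℂ)) x‖ ^ 2) atTop (𝓝 0) := by
  let β : ContDiffBump (0 : ι → ℂ) := ⟨1 / 2, 1, by norm_num, by norm_num⟩
  let γ : ContDiffBump (0 : ι → ℂ) := ⟨1, 2, by norm_num, by norm_num⟩
  have kβ : Moll.Ker (β.normed volume) 1 := Moll.ker_bump β
  have kγ : Moll.Ker (γ.normed volume) 2 := Moll.ker_bump γ
  have sβ : ContDiff ℝ ∞ fun y => (β.normed volume y : ℂ) :=
    ofRealCLM.contDiff.comp β.contDiff_normed
  let e : ℕ → ℝ := fun n => 1 / ((n : ℝ) + 1)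
  have e0 : ∀ n, 0 < e n := fun n => by positivity
  have e1 : ∀ n, e n ≤ 1 := fun n => (div_le_one (by positivity)).2 (by simp)
  have et : Tendsto e atTop (𝓝 0) := tendsto_one_div_add_atTop_nhds_zero_nat
  have ev : ∀ {ρ : (ι → ℂ) → ℝ} {r : ℝ}, Moll.Ker ρ r → ∀ a > 0, ∀ᶠ n in atTop,
      Moll.Ker (sc (e n) ρ) a := fun {ρ r} k a a0 =>
    ((et.mul_const r).eventually (ge_mem_nhds (by simpa using a0))).mono fun n hn =>
      (ker_sc k (e0 n)).mono hn
  have cs : ∀ n, (fun y => ((sc (e n) (β.normed volume) y : ℝ) : ℂ)) =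
      sc (e n) fun y => (β.normed volume y : ℂ) := fun n => by
    funext y; simp [sc]
  have sm : ∀ n, ContDiff ℝ ∞ fun y => ((sc (e n) (β.normed volume) y : ℝ) : ℂ) := fun n => by
    rw [cs]
    exact (sβ.comp (contDiff_const_smul _)).const_smul _
  have cp := fun n => (ker_sc kβ (e0 n)).csC
  refine ⟨fun n => sc (e n) (β.normed volume), sm, cp, ev kβ, fun {b} hb b0 bs G hG hi =>
    ⟨?_, fun c j p hp => ?_⟩⟩
  · simpa only [one_mul] using kern (ev kβ)
      (k := fun n x t => ((sc (e n) (β.normed volume) (x - t) : ℝ) : ℂ))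
      (fun n x => (sm n).continuous.comp (by fun_prop)) hb b0 bs zero_le_one
      (fun n x t _ => by rw [norm_real, Real.norm_of_nonneg ((ker_sc kβ (e0 n)).nn _), one_mul])
      (κ := 1) (fun δ δ0 => .of_forall fun n x _ => by
        rw [integral_complex_ofReal, (ker_sc kβ (e0 n)).one', ofReal_one, sub_self, norm_zero]
        exact δ0.le) hG hi
  have Gl : LocallyIntegrable G volume :=
    Moll.locInt (φ := fun _ => 0) continuous_const hG (by simpa using hi)
  have dom : ∀ {f : (ι → ℂ) → ℂ}, Continuous f → tsupport f ⊆ closedBall 0 1 →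
      ∃ C, 0 ≤ C ∧ ∀ y, ‖f y‖ ≤ C * γ.normed volume y := fun {f} fc fs => by
    obtain ⟨C, hC⟩ := (isCompact_closedBall (0 : ι → ℂ) 1).exists_bound_of_continuousOn
      fc.continuousOn
    have p := γ.integral_pos (μ := volume)
    have C0 := (norm_nonneg _).trans (hC 0 (by simp))
    refine ⟨C * ∫ x, γ x, by positivity, fun y => ?_⟩
    by_cases hy : y ∈ closedBall (0 : ι → ℂ) 1
    · rw [γ.normed_def, γ.one_of_mem_closedBall hy, mul_assoc, mul_one_div_cancel p.ne', mul_one]
      exact hC y hy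
    · rw [image_eq_zero_of_notMem_tsupport fun h => hy (fs h), norm_zero]
      exact mul_nonneg (by positivity) (kγ.nn _)
  have t1 : tsupport (fun y => (β.normed volume y : ℂ)) ⊆ closedBall 0 1 :=
    closure_minimal (fun y hy => mem_closedBall_zero_iff.2 (kβ.supp y (ofReal_ne_zero.1 hy)).le)
      isClosed_closedBall
  have t2 : tsupport (Cacc.dd c j fun y => (β.normed volume y : ℂ)) ⊆ closedBall 0 1 :=
    closure_minimal (fun y hy => t1 (by
      by_contra h
      exact hy (by simp [Cacc.dd, (notMem_tsupport_iff_eventuallyEq.1 h).fderiv_eq])))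
      isClosed_closedBall
  obtain ⟨C1, C10, h1⟩ := dom sβ.continuous t1
  obtain ⟨C2, C20, h2⟩ := dom (Cacc.dd_smooth c j sβ).continuous t2
  obtain ⟨R, hR⟩ := bs.isCompact.isBounded.subset_closedBall 0
  obtain ⟨L, hL⟩ := (hp.of_le (by norm_cast : (1 : WithTop ℕ∞) ≤ ∞)).locallyLipschitz.locallyLipschitzOn
    |>.exists_lipschitzOnWith_of_compact (isCompact_closedBall (0 : ι → ℂ) (R + 2))
  have dp := Cacc.dd_smooth c j hp
  obtain ⟨P, hP⟩ := bs.isCompact.exists_bound_of_continuousOn dp.continuous.continuousOn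
  have sn : ∀ n {f : (ι → ℂ) → ℂ} {C : ℝ}, (∀ y, ‖f y‖ ≤ C * γ.normed volume y) → ∀ y,
      ‖sc (e n) f y‖ ≤ C * sc (e n) (γ.normed volume) y := fun n f C h y => by
    rw [sc, sc, norm_smul, Real.norm_of_nonneg (by have := e0 n; positivity), smul_eq_mul,
      mul_left_comm]
    exact mul_le_mul_of_nonneg_left (h _) (by have := e0 n; positivity)
  have := kern (ev kγ) (k := fun n x t => Cacc.dd c j p x * ((sc (e n) (β.normed volume) (x - t) : ℝ) : ℂ) +
      (p x - p t) * Cacc.dd c j (fun y => ((sc (e n) (β.normed volume) y : ℝ) : ℂ)) (x - t))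
    (fun n x => (continuous_const.mul ((sm n).continuous.comp (by fun_prop))).add
      ((continuous_const.sub hp.continuous).mul
        ((Cacc.dd_smooth c j (sm n)).continuous.comp (by fun_prop)))) hb b0 bs
    (C := |P| * C1 + L * 2 * C2) (by positivity) (fun n x t hx => ?_) (κ := 0) (fun δ δ0 => ?_) hG hi
  · refine this.congr fun n => congrArg _ (funext fun x => ?_)
    have pG := Gl.continuous_mul hp.continuous
    have a1 := Cacc.cv_smooth Gl (sm n) (cp n)
    have a2 := Cacc.cv_smooth pG (sm n) (cp n)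
    have i1 := Cacc.cv_ex Gl (sm n) (cp n) x
    have i2 := Cacc.cv_ex Gl (Cacc.dd_smooth c j (sm n)) (Cacc.dd_supp c j (cp n)) x
    have i3 := Cacc.cv_ex pG (Cacc.dd_smooth c j (sm n)) (Cacc.dd_supp c j (cp n)) x
    rw [zero_mul, sub_zero]
    congr 3
    simp only [sub_eq_add_neg (p _ * _)]
    rw [Cacc.dd_add c j (hp.mul a1) a2.neg, Cacc.dd_neg, Cacc.dd_mul c j hp a1,
      Cacc.dd_cv c j Gl (sm n) (cp n), Cacc.dd_cv c j pG (sm n) (cp n), ← integral_const_mul,
      ← integral_const_mul, ← integral_neg, ← integral_add (i1.const_mul _) (i2.const_mul _),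
      ← integral_add (iadd (i1.const_mul _) (i2.const_mul _)) (ineg i3)]
    congr 1; funext t; ring
  · have k := ker_sc kγ (e0 n)
    have x1 : x ∈ tsupport b := subset_tsupport _ hx
    have a1 := sn n h1 (x - t)
    have a2 := sn n h2 (x - t)
    rw [← cs] at a1
    rw [cs, dd_sc c j sβ, add_mul]
    refine (norm_add_le _ _).trans (add_le_add ?_ ?_)
    · rw [norm_mul, mul_assoc]
      exact mul_le_mul ((hP x x1).trans (le_abs_self P)) a1 (norm_nonneg _) (abs_nonneg _)
    by_cases h0 : sc (e n) (γ.normed volume) (x - t) = 0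
    · rw [h0, mul_zero, norm_le_zero_iff] at a2
      simp [a2, h0]
    have a3 := k.supp _ h0
    have x2 := mem_closedBall_zero_iff.1 (hR x1)
    have a4 := hL.norm_sub_le (x := x) (y := t) (mem_closedBall_zero_iff.2 (by linarith))
      (mem_closedBall_zero_iff.2 (by
        have := norm_sub_norm_le t x
        rw [norm_sub_rev] at this
        linarith [e1 n]))
    have a5 : ‖p x - p t‖ * (e n)⁻¹ ≤ L * 2 := by
      rw [← div_eq_mul_inv, div_le_iff₀ (e0 n)]
      nlinarith [mul_le_mul_of_nonneg_left a3.le L.2]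
    rw [norm_mul, norm_smul, Real.norm_of_nonneg (inv_pos.2 (e0 n)).le, ← mul_assoc,
      mul_assoc (L * 2 : ℝ)]
    exact mul_le_mul a5 a2 (norm_nonneg _) (by positivity)
  · obtain ⟨a, a0, ha⟩ := Moll.uc dp.continuous bs.isCompact δ0
    filter_upwards [ev kβ a a0] with n k x hx
    have h3 := k.comm (G := fun _ => 1) (locallyIntegrable_const 1) dp.continuous
      (ha x (subset_tsupport _ hx))
    simp only [norm_one, one_mul, mul_one, k.one'] at h3
    have r1 : ContDiff ℝ ∞ fun t => ((sc (e n) (β.normed volume) (x - t) : ℝ) : ℂ) :=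
      (sm n).comp (contDiff_const.sub contDiff_id)
    have r2 : HasCompactSupport fun t => ((sc (e n) (β.normed volume) (x - t) : ℝ) : ℂ) :=
      (cp n).comp_homeomorph (Homeomorph.subLeft x)
    have q : ContDiff ℝ ∞ fun t => p x + -p t := contDiff_const.add hp.neg
    have h4 := Cacc.int_dd c j (q.mul r1) r2.mul_left
    have i1 := (r1.continuous.integrable_of_hasCompactSupport (μ := volume) r2).const_mul
      (Cacc.dd c j p x)
    have i2 := (dp.mul r1).continuous.integrable_of_hasCompactSupport (μ := volume) r2.mul_left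
    have i3 := (Cacc.dd_smooth c j (q.mul r1)).continuous.integrable_of_hasCompactSupport
      (μ := volume) (Cacc.dd_supp c j r2.mul_left)
    rw [← integral_const_mul, ← integral_sub i1 i2, ← sub_zero (integral _ _), ← h4,
      ← integral_sub (isub i1 i2) i3] at h3
    rw [sub_zero]
    convert h3 using 3
    funext t
    rw [Cacc.dd_mul c j q r1, Cacc.dd_add c j contDiff_const hp.neg, Cacc.dd_neg,
      Cacc.dd_refl c j (sm n)]
    simp only [Cacc.dd, fderiv_fun_const, Pi.zero_apply, zero_apply]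
    ring

end RD.Fr

end

end Pool.Agent.Lib.MP_5c318e_ag
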