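import Pool.Agent.Lib.MP_5c318e_ag.RD.HProj

/-! Primitives of an exact form that is orthogonal to the harmonic fields. -/

set_option autoImplicit false
set_option linter.unusedSectionVars false

namespace Pool.Agent.Lib.MP_5c318e_ag

open MeasureTheory Set Complex Filter Topology
open scoped ComplexConjugate

namespace RD

variable {ι : Type} [Fintype ι] [DecidableEq ι] {S : Type} [TopologicalSpace S]
  [MeasurableSpace S] [BorelSpace S] [T2Space S] [SigmaCompactSpace S] {D : RD ι S}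
  {Φ φ : S → ℝ}

namespace Hl

theorem psh (hΦ : D.Pos Φ) : D.Psh Φ :=
  ⟨hΦ.1, fun x ξ => by
    rcases eq_or_ne ξ 0 with rfl | h
    · rw [← ofReal_re (D.levi Φ x 0), ← gp_self hΦ.1]
      simp [gp]
    · exact (hΦ.2 x ξ h).le⟩

theorem gp_sub (x : S) (a b ξ : ι → ℂ) : D.gp Φ x (a - b) ξ = D.gp Φ x a ξ - D.gp Φ x b ξ := by
  simp [gp, mul_sub, Finset.sum_sub_distrib, sub_mul]

theorem eq_of_gp (hΦ : D.Pos Φ) {x : S} {a b : ι → ℂ} (h : ∀ ξ, D.gp Φ x a ξ = D.gp Φ x b ξ) :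
    a = b := by
  by_contra hne
  have := hΦ.2 x _ (sub_ne_zero.2 hne)
  rw [← ofReal_re (D.levi Φ x _), ← gp_self hΦ.1, gp_sub, h, sub_self] at this
  exact lt_irrefl _ this

theorem cont_levi (hΦ : D.Sm Φ) {u : S → ι → ℂ} (hu : Continuous u) :
    Continuous fun x => D.levi Φ x (u x) := by
  have e : (fun x => D.levi Φ x (u x)) = fun x => (D.gp Φ x (u x) (u x)).re :=
    funext fun x => by rw [gp_self hΦ, ofReal_re]
  rw [e]
  exact continuous_re.comp (continuous_finsetSum _ fun k _ => (continuous_finsetSum _ fun j _ =>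
    ((hΦ.ofReal.op I k).op (-I) j).cont.mul ((continuous_apply j).comp hu)).mul
      (continuous_conj.comp ((continuous_apply k).comp hu)))

/-- a harmonic field that is orthogonal to itself vanishes -/
theorem ae_zero (hΦ : D.Pos Φ) {W : S → ι → ℂ} (h : D.L2 Φ φ W)
    (h0 : ∫ x, D.gp Φ x (W x) (W x) * (Real.exp (-φ x) : ℂ) ∂D.μ = 0) : W =ᵐ[D.μ] 0 := by
  simp only [gp_self hΦ.1, ← ofReal_mul] at h0
  rw [integral_complex_ofReal, ofReal_eq_zero, integral_eq_zero_iff_of_nonneg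
    (fun x => mul_nonneg ((psh hΦ).2 x _) (Real.exp_pos _).le) h.2] at h0
  filter_upwards [h0] with x hx
  by_contra hne
  exact (mul_pos (hΦ.2 x _ hne) (Real.exp_pos _)).ne' hx

end Hl

/-- HL: an exact form orthogonal to the harmonic fields has primitives with `ε |β_ε|² → 0` -/
theorem hl2 {s : S → ℝ} (hs : D.Exh s) (hΦ : D.Pos Φ) (h0 : ∀ x, 0 ≤ Φ x) (hc : D.Cut Φ)
    (hφ : D.Psh φ) {b : S → ℂ} (hb : D.Sm b) {u : S → ι → ℂ} (hu : D.L2 Φ φ u)
    (h : ∀ x ξ, D.gp Φ x (u x) ξ = D.dbar b x ξ)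
    (ho : ∀ W, D.HH Φ φ W → ∫ x, D.gp Φ x (u x) (W x) * (Real.exp (-φ x) : ℂ) ∂D.μ = 0)
    {δ : ℝ} (hδ : 0 < δ) : ∀ᶠ ε in 𝓝[>] (0 : ℝ), ∃ F, D.Hol F ∧
      ∫⁻ x, ENNReal.ofReal (ε * ‖F x - b x‖ ^ 2 * Real.exp (-(φ x + ε * Φ x))) ∂D.μ ≤
        ENNReal.ofReal δ := by
  obtain ⟨W, hW, o1, o2⟩ := proj hΦ hc hφ hu (cl_of_dbar hb h)
  have w0 := Hl.ae_zero hΦ hW.l2 ((o1 W hW.l2 (hW.divF hφ.1)).symm.trans (ho W hW))
  obtain ⟨b1, v, s1, c1, sv, e1, l2, hv⟩ := o2 (δ / 4) (by positivity)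
  have sf := hb.sub s1
  obtain ⟨u1, su, eu, -⟩ := exists_sharp hΦ (r := fun x k => D.op I k (fun y => b y - b1 y) x)
    fun x => contDiffAt_pi.2 fun k => sf.op I k x
  have e2 : ∀ x, u1 x = u x - v x := fun x => Hl.eq_of_gp hΦ (x := x) fun ξ => by
    rw [eu, Hl.gp_sub, h, e1, dbar_coord, dbar_coord, ← Finset.sum_sub_distrib]
    exact Finset.sum_congr rfl fun k _ => by rw [op_sub _ _ hb s1, sub_mul]
  have p := Hl.psh hΦ
  have i1 : Integrable (fun x => ‖b1 x‖ ^ 2 * Real.exp (-φ x)) D.μ :=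
    (s1.normSq.mul hφ.1.neg.rexp).int (HasCompactSupport.intro c1 fun x hx => by
      simp [image_eq_zero_of_notMem_tsupport hx])
  set C := ∫ x, ‖b1 x‖ ^ 2 * Real.exp (-φ x) ∂D.μ with hC
  have C0 : 0 ≤ C := integral_nonneg fun x => by positivity
  have ae : (fun x => D.levi Φ x (u x - W x - v x) * Real.exp (-φ x)) =ᵐ[D.μ]
      fun x => D.levi Φ x (u1 x) * Real.exp (-φ x) := by
    filter_upwards [w0] with x hx
    rw [hx, e2, Pi.zero_apply, sub_zero]
  have i2 := l2.2.congr ae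
  rw [integral_congr_ae ae] at hv
  have n2 : ∀ x, 0 ≤ D.levi Φ x (u1 x) * Real.exp (-φ x) := fun x =>
    mul_nonneg (p.2 x _) (Real.exp_pos _).le
  filter_upwards [self_mem_nhdsWithin, mem_nhdsWithin_of_mem_nhds
    (Iio_mem_nhds (show 0 < δ / (4 * (C + 1)) by positivity))] with ε (ε0 : 0 < ε) ε1
  have sE := (sm_const (D := D) ε).mul hΦ.1
  have lv : ∀ x ξ, D.levi (fun y => φ y + ε * Φ y) x ξ = D.levi φ x ξ + ε * D.levi Φ x ξ :=
    fun x ξ => by rw [levi_add hφ.1 sE, levi_cmul ε hΦ.1]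
  have ex : ∀ x, Real.exp (-(φ x + ε * Φ x)) ≤ Real.exp (-φ x) := fun x =>
    Real.exp_le_exp.2 (neg_le_neg (le_add_of_nonneg_right (mul_nonneg ε0.le (h0 x))))
  obtain ⟨F, hF, hi⟩ := D.hormander hs (φ := fun y => φ y + ε * Φ y)
    ⟨hφ.1.add sE, fun x ξ => lv x ξ ▸ add_nonneg (hφ.2 x ξ) (mul_nonneg ε0.le (p.2 x ξ))⟩ sf
    (h := fun x => D.levi Φ x (u1 x) / ε) ((Hl.cont_levi hΦ.1 su.cont).div_const ε).measurable
    (fun x => div_nonneg (p.2 x _) ε0.le) fun x ξ => by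
      rw [dbar_coord, ← eu, lv]
      refine (gp_sq_le p x _ _).trans ?_
      rw [mul_add, ← mul_assoc, div_mul_cancel₀ _ ε0.ne']
      exact le_add_of_nonneg_left (mul_nonneg (div_nonneg (p.2 x _) ε0.le) (hφ.2 x ξ))
  refine ⟨F, hF, ?_⟩
  have m1 : Measurable fun x => ENNReal.ofReal (2 * ε * (‖b1 x‖ ^ 2 * Real.exp (-φ x))) :=
    (continuous_const.mul (s1.normSq.mul hφ.1.neg.rexp).cont).measurable.ennreal_ofReal
  calc _ ≤ ∫⁻ x, ENNReal.ofReal (2 * ε) * ENNReal.ofReal (‖F x - (b x - b1 x)‖ ^ 2 *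
          Real.exp (-(φ x + ε * Φ x))) +
          ENNReal.ofReal (2 * ε * (‖b1 x‖ ^ 2 * Real.exp (-φ x))) ∂D.μ := by
        refine lintegral_mono fun x => ?_
        rw [← ENNReal.ofReal_mul (by positivity), ← ENNReal.ofReal_add (by positivity)
          (by positivity)]
        refine ENNReal.ofReal_le_ofReal ?_
        have a : ‖F x - b x‖ ^ 2 ≤ 2 * ‖F x - (b x - b1 x)‖ ^ 2 + 2 * ‖b1 x‖ ^ 2 := by
          have := pow_le_pow_left₀ (norm_nonneg _) (norm_sub_le (F x - (b x - b1 x)) (b1 x)) 2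
          rw [show F x - (b x - b1 x) - b1 x = F x - b x by ring] at this
          nlinarith [sq_nonneg (‖F x - (b x - b1 x)‖ - ‖b1 x‖)]
        have a1 := mul_le_mul_of_nonneg_right a (Real.exp_pos (-(φ x + ε * Φ x))).le
        have a2 := mul_le_mul_of_nonneg_left (ex x) (sq_nonneg ‖b1 x‖)
        nlinarith
    _ ≤ ENNReal.ofReal (2 * ε) * ENNReal.ofReal (δ / 4 / ε) + ENNReal.ofReal (2 * ε * C) := by
        rw [lintegral_add_right _ m1, lintegral_const_mul' _ _ ENNReal.ofReal_ne_top,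
          ← ofReal_integral_eq_lintegral_ofReal (i1.const_mul _)
            (.of_forall fun x => by positivity), integral_const_mul]
        gcongr
        refine hi.trans ((lintegral_mono fun x => ENNReal.ofReal_le_ofReal (q :=
          D.levi Φ x (u1 x) * Real.exp (-φ x) / ε) ?_).trans ?_)
        · rw [mul_div_right_comm]
          exact mul_le_mul_of_nonneg_left (ex x) (div_nonneg (p.2 x _) ε0.le)
        · rw [← ofReal_integral_eq_lintegral_ofReal (i2.div_const _)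
            (.of_forall fun x => div_nonneg (n2 x) ε0.le), integral_div]
          exact ENNReal.ofReal_le_ofReal (div_le_div_of_nonneg_right hv ε0.le)
    _ ≤ _ := by
        rw [← ENNReal.ofReal_mul (by positivity), ← ENNReal.ofReal_add (by positivity)
          (by positivity)]
        refine ENNReal.ofReal_le_ofReal ?_
        have a := (lt_div_iff₀ (by positivity)).1 (mem_Iio.1 ε1)
        have b : 2 * ε * (δ / 4 / ε) = δ / 2 := by field_simp; ring
        nlinarith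

end RD

end Pool.Agent.Lib.MP_5c318e_ag
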