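import Pool.Agent.Lib.MP_5c318e_ag.RD.HDefs

/-! The pointwise inequality behind the Bochner formula for vector fields. -/

set_option autoImplicit false
set_option linter.unusedSectionVars false

namespace Pool.Agent.Lib.MP_5c318e_ag

open Complex Matrix
open scoped ComplexConjugate

noncomputable section

namespace RD.Lin

variable {ι : Type} [Fintype ι] [DecidableEq ι]

/-- the square of the Euclidean norm -/
def nq (ξ : ι → ℂ) : ℝ := ∑ j, ‖ξ j‖ ^ 2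

/-- the square of the Frobenius norm -/
def fq (A : Matrix ι ι ℂ) : ℝ := ∑ j, ∑ k, ‖A j k‖ ^ 2

theorem nq_nonneg (ξ : ι → ℂ) : 0 ≤ nq ξ := Finset.sum_nonneg fun _ _ => sq_nonneg _

theorem fq_nonneg (A : Matrix ι ι ℂ) : 0 ≤ fq A :=
  Finset.sum_nonneg fun _ _ => Finset.sum_nonneg fun _ _ => sq_nonneg _

theorem nq_star (ξ : ι → ℂ) : nq (star ξ) = nq ξ := by simp [nq]

theorem dot_star (ξ : ι → ℂ) : ξ ⬝ᵥ star ξ = (nq ξ : ℝ) := by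
  simp [nq, dotProduct, mul_conj, normSq_eq_norm_sq]

theorem dot_le (a b : ι → ℂ) : ‖a ⬝ᵥ b‖ ^ 2 ≤ nq a * nq b := sum_mul_sq_le a b

theorem mv_le (A : Matrix ι ι ℂ) (b : ι → ℂ) : nq (A *ᵥ b) ≤ fq A * nq b := by
  rw [fq, Finset.sum_mul]
  exact Finset.sum_le_sum fun j _ => dot_le (A j) b

theorem fq_tr (A : Matrix ι ι ℂ) : fq Aᵀ = fq A := Finset.sum_comm

theorem fq_mul {Q : Matrix ι ι ℂ} {m : ℝ} (h : ∀ ξ, nq (Q *ᵥ ξ) ≤ m * nq ξ) (X : Matrix ι ι ℂ) :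
    fq (Q * X) ≤ m * fq X := by
  rw [← fq_tr, ← fq_tr X, fq, fq, Finset.mul_sum]
  exact Finset.sum_le_sum fun k _ => h fun j => X j k

theorem fq_anti (A : Matrix ι ι ℂ) :
    2 * fq A = 2 * (A * A.map conj).trace.re + fq (A - Aᵀ) := by
  have e : ∀ a b : ℂ, ‖a - b‖ ^ 2 = ‖a‖ ^ 2 + ‖b‖ ^ 2 - 2 * (a * conj b).re := fun a b => by
    simp only [← normSq_eq_norm_sq, normSq_sub]
  have := fq_tr A
  simp only [fq, trace, diag, mul_apply, map_apply, re_sum, Matrix.sub_apply, transpose_apply, e,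
    Finset.sum_sub_distrib, Finset.sum_add_distrib, ← Finset.mul_sum] at this ⊢
  linarith

theorem dual_le {R : Matrix ι ι ℂ} (hu : IsUnit R.det) {h : ℝ} (h0 : 0 ≤ h) {l : ι → ℂ}
    (hl : ∀ ξ, ‖l ⬝ᵥ ξ‖ ^ 2 ≤ h * nq (R *ᵥ ξ)) : nq (l ᵥ* R⁻¹) ≤ h := by
  have := hl (R⁻¹ *ᵥ star (l ᵥ* R⁻¹))
  rw [dotProduct_mulVec, dot_star, mulVec_mulVec, mul_nonsing_inv _ hu, one_mulVec, nq_star,
    norm_real, Real.norm_of_nonneg (nq_nonneg _), sq] at this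
  rcases (nq_nonneg (l ᵥ* R⁻¹)).eq_or_lt with h1 | h1
  · rwa [← h1]
  · exact le_of_mul_le_mul_right this h1

theorem la {R : Matrix ι ι ℂ} (hR : R.IsHermitian) (hu : IsUnit R.det) {m h : ℝ} (m0 : 0 ≤ m)
    (h0 : 0 ≤ h) (hm : ∀ ξ, nq ξ ≤ m * nq (R *ᵥ ξ)) (A : Matrix ι ι ℂ) :
    0 ≤ (A * A.map conj).trace.re + m ^ 2 * fq (R * R * A - (R * R * A)ᵀ) ∧
    ∀ l ζ : ι → ℂ, (∀ ξ, ‖l ⬝ᵥ ξ‖ ^ 2 ≤ h * nq (R *ᵥ ξ)) →
      ‖l ⬝ᵥ (A *ᵥ star ζ)‖ ^ 2 ≤ h * nq (R *ᵥ ζ) *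
        ((A * A.map conj).trace.re + m ^ 2 * fq (R * R * A - (R * R * A)ᵀ)) := by
  have ht : IsUnit Rᵀ.det := by rwa [det_transpose]
  have c1 : R.map conj = Rᵀ := by
    ext j k
    simpa using congrFun (congrFun hR k) j
  have c2 : Rᵀ.map conj = R := by rw [← c1, map_map]; ext; simp
  have c3 : R⁻¹.map conj * Rᵀ = 1 := by
    rw [← c1, ← Matrix.map_mul, nonsing_inv_mul _ hu, Matrix.map_one _ (map_zero _) (map_one _)]
  obtain ⟨B, rfl⟩ : ∃ B, A = R⁻¹ * B * Rᵀ := ⟨R * A * Rᵀ⁻¹, by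
    rw [← mul_assoc, ← mul_assoc, nonsing_inv_mul _ hu, one_mul, mul_assoc, nonsing_inv_mul _ ht,
      mul_one]⟩
  have e1 : (R⁻¹ * B * Rᵀ * (R⁻¹ * B * Rᵀ).map conj).trace = (B * B.map conj).trace := by
    rw [Matrix.map_mul, Matrix.map_mul, c2, mul_assoc _ Rᵀ, ← mul_assoc Rᵀ, ← mul_assoc Rᵀ,
      mul_eq_one_comm.1 c3, one_mul, ← mul_assoc, trace_mul_comm, ← mul_assoc, ← mul_assoc,
      mul_nonsing_inv _ hu, one_mul]
  have e2 : B - Bᵀ = R⁻¹ * (R⁻¹ * (R * R * (R⁻¹ * B * Rᵀ) - (R * R * (R⁻¹ * B * Rᵀ))ᵀ)ᵀ)ᵀ := by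
    have : R * R * (R⁻¹ * B * Rᵀ) = R * B * Rᵀ := by
      rw [mul_assoc R R, ← mul_assoc R (R⁻¹ * B), ← mul_assoc R R⁻¹, mul_nonsing_inv _ hu, one_mul,
        mul_assoc]
    rw [this, transpose_mul, transpose_transpose, transpose_mul (R * B), transpose_transpose,
      transpose_mul, ← mul_assoc R, ← sub_mul, ← mul_sub, transpose_nonsing_inv, mul_assoc _ Rᵀ,
      mul_nonsing_inv _ ht, mul_one, ← mul_assoc, nonsing_inv_mul _ hu, one_mul]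
  have q : ∀ ξ, nq (R⁻¹ *ᵥ ξ) ≤ m * nq ξ := fun ξ => by
    simpa only [mulVec_mulVec, mul_nonsing_inv _ hu, one_mulVec] using hm (R⁻¹ *ᵥ ξ)
  set E := R * R * (R⁻¹ * B * Rᵀ) - (R * R * (R⁻¹ * B * Rᵀ))ᵀ
  have e3 : fq (B - Bᵀ) ≤ m ^ 2 * fq E := by
    rw [e2, sq, mul_assoc]
    refine (fq_mul q _).trans (mul_le_mul_of_nonneg_left ?_ m0)
    rw [fq_tr, ← fq_tr E]
    exact fq_mul q _
  have e4 : fq B ≤ (B * B.map conj).trace.re + m ^ 2 * fq E := by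
    linarith [fq_anti B, fq_nonneg (B - Bᵀ)]
  rw [e1]
  refine ⟨(fq_nonneg B).trans e4, fun l ζ hl => ?_⟩
  have e5 : Rᵀ *ᵥ star ζ = star (R *ᵥ ζ) := by
    rw [star_mulVec, hR.eq, ← mulVec_transpose]
  rw [← mulVec_mulVec, ← mulVec_mulVec, dotProduct_mulVec, e5]
  refine (dot_le _ _).trans ?_
  rw [mul_assoc]
  refine mul_le_mul (dual_le hu h0 hl) ((mv_le _ _).trans ?_) (nq_nonneg _) h0
  rw [nq_star, mul_comm]
  exact mul_le_mul_of_nonneg_left e4 (nq_nonneg _)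

open scoped MatrixOrder Matrix.Norms.L2Operator ComplexOrder in
/-- a continuous square root -/
theorem exists_root {S : Type} [TopologicalSpace S] {M : S → Matrix ι ι ℂ} (hc : Continuous M)
    (h : ∀ x, (M x).PosSemidef) :
    ∃ R : S → Matrix ι ι ℂ, Continuous R ∧ ∀ x, (R x).IsHermitian ∧ R x * R x = M x :=
  ⟨fun x => CFC.sqrt (M x), CFC.continuousOn_sqrt.comp_continuous hc fun x => (h x).nonneg,
    fun x => ⟨(CFC.sqrt_nonneg (M x)).posSemidef.1, CFC.sqrt_mul_sqrt_self _ (h x).nonneg⟩⟩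

end RD.Lin

end

end Pool.Agent.Lib.MP_5c318e_ag
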