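import Pool.Agent.Lib.MP_5c318e_ag.RD.RMeas
import Pool.Agent.Lib.MP_9ff3e7_ag.F.HCaccA

/-! The Bochner inequality, the pairing identity and the energy bound on a Riemann domain. -/

set_option autoImplicit false
set_option linter.unusedSectionVars false

namespace Pool.Agent.Lib.MP_5c318e_ag

open MeasureTheory Set Filter Topology Complex
open scoped ContDiff ComplexConjugate
open Pool.Agent.Lib.MP_9ff3e7_ag

noncomputable section

namespace RD

variable {ι : Type} [Fintype ι] [DecidableEq ι] {S : Type} [TopologicalSpace S] [MeasurableSpace S]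
  [BorelSpace S] [T2Space S] {D : RD ι S}

variable (D) in
/-- the weighted operator `∂_j - φ_j` -/
def dl (φ : S → ℝ) (j : ι) (a : S → ℂ) (x : S) : ℂ :=
  D.op (-I) j a x - D.op (-I) j (fun y => (φ y : ℂ)) x * a x

theorem box_eq (φ : S → ℝ) (v : S → ℂ) (x : S) :
    D.box φ v x = -∑ j, D.dl φ j (D.op I j v) x := by
  simp only [box, dl, ← Finset.sum_neg_distrib, neg_sub, dz_eq, dzb_eq]

theorem supp_conj {f : S → ℂ} (hc : HasCompactSupport f) : HasCompactSupport fun y => conj (f y) :=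
  hc.comp_left (g := fun z : ℂ => conj z) (map_zero _)

variable {φ : S → ℝ} {a b : S → ℂ}

theorem dl_sm (hφ : D.Sm φ) (j : ι) (ha : D.Sm a) : D.Sm (D.dl φ j a) :=
  (ha.op _ j).sub ((hφ.ofReal.op _ j).mul ha)

theorem dl_supp (φ : S → ℝ) (j : ι) (hc : HasCompactSupport a) : HasCompactSupport (D.dl φ j a) :=
  (op_supp _ j hc).sub hc.mul_left

theorem box_sm (hφ : D.Sm φ) (ha : D.Sm a) : D.Sm (D.box φ a) := by
  rw [show D.box φ a = fun x => -∑ j, D.dl φ j (D.op I j a) x from funext (box_eq φ a)]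
  exact (sm_sum _ fun j _ => dl_sm hφ j (ha.op _ j)).neg

theorem box_zero (φ : S → ℝ) {x : S} (hx : x ∉ tsupport a) : D.box φ a x = 0 := by
  rw [box_eq, neg_eq_zero]
  refine Finset.sum_eq_zero fun j _ => ?_
  rw [dl, op_zero I j hx, op_zero (-I) j fun h => hx (op_tsupp I j a h), mul_zero, sub_zero]

theorem box_supp (φ : S → ℝ) (hc : HasCompactSupport a) : HasCompactSupport (D.box φ a) :=
  HasCompactSupport.intro hc fun _ hx => box_zero φ hx

theorem box_add (φ : S → ℝ) (ha : D.Sm a) (hb : D.Sm b) (x : S) :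
    D.box φ (fun y => a y + b y) x = D.box φ a x + D.box φ b x := by
  simp only [box_eq, dl, ← neg_add, ← Finset.sum_add_distrib]
  congr 1
  refine Finset.sum_congr rfl fun j _ => ?_
  rw [show D.op I j (fun y => a y + b y) = fun y => D.op I j a y + D.op I j b y from
    funext (op_add I j ha hb), op_add _ j (ha.op I j) (hb.op I j)]
  ring

theorem box_smul (φ : S → ℝ) (c : ℂ) (ha : D.Sm a) (x : S) :
    D.box φ (fun y => c * a y) x = c * D.box φ a x := by
  simp only [box_eq, dl, mul_neg, Finset.mul_sum]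
  congr 1
  refine Finset.sum_congr rfl fun j _ => ?_
  have e : D.op I j (fun y => c * a y) = fun y => c * D.op I j a y := funext fun y => by
    rw [op_mul I j (sm_const c) ha, op_const]; ring
  rw [e, op_mul _ j (sm_const c) (ha.op I j), op_const]
  ring

theorem int3 (hφ : D.Sm φ) (ha : D.Sm a) (hb : D.Sm b) (hc : HasCompactSupport a) :
    Integrable (fun x => a x * conj (b x) * (Real.exp (-φ x) : ℂ)) D.μ :=
  ((ha.mul hb.conj).mul hφ.wt).int hc.mul_right.mul_right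

theorem int3' (hφ : D.Sm φ) (ha : D.Sm a) (hb : D.Sm b) (hc : HasCompactSupport b) :
    Integrable (fun x => a x * conj (b x) * (Real.exp (-φ x) : ℂ)) D.μ :=
  ((ha.mul hb.conj).mul hφ.wt).int (supp_conj hc).mul_left.mul_right

theorem adj (hφ : D.Sm φ) (j : ι) (ha : D.Sm a) (hb : D.Sm b) (hc : HasCompactSupport a) :
    ∫ x, D.dl φ j a x * conj (b x) * (Real.exp (-φ x) : ℂ) ∂D.μ =
      -∫ x, a x * conj (D.op I j b x) * (Real.exp (-φ x) : ℂ) ∂D.μ := by
  have hu : D.Sm fun x => a x * (Real.exp (-φ x) : ℂ) := ha.mul hφ.wt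
  have h := op_int_mul (-I) j hb.conj hu hc.mul_right
  have e1 : ∀ x, a x * conj (D.op I j b x) * (Real.exp (-φ x) : ℂ) =
      D.op (-I) j (fun y => conj (b y)) x * (a x * (Real.exp (-φ x) : ℂ)) := fun x => by
    rw [op_conj _ j hb, map_neg, conj_I, neg_neg]
    ring
  have e2 : ∀ x, D.dl φ j a x * conj (b x) * (Real.exp (-φ x) : ℂ) =
      conj (b x) * D.op (-I) j (fun x => a x * (Real.exp (-φ x) : ℂ)) x := fun x => by
    rw [op_mul _ j ha hφ.wt, op_wt _ j hφ, dl]
    ring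
  simp only [e1, e2]
  rw [h, neg_neg]

theorem adj' (hφ : D.Sm φ) (j : ι) (ha : D.Sm a) (hb : D.Sm b) (hc : HasCompactSupport a) :
    ∫ x, b x * conj (D.dl φ j a x) * (Real.exp (-φ x) : ℂ) ∂D.μ =
      -∫ x, D.op I j b x * conj (a x) * (Real.exp (-φ x) : ℂ) ∂D.μ := by
  have h := congrArg conj (adj hφ j ha hb hc)
  rw [map_neg, ← integral_conj, ← integral_conj] at h
  simp only [map_mul, conj_conj, conj_ofReal] at h
  simp only [mul_comm (b _), mul_comm (D.op I j b _)]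
  exact h

theorem op_dl (hφ : D.Sm φ) (j k : ι) (ha : D.Sm a) (x : S) :
    D.op I j (D.dl φ k a) x =
      D.dl φ k (D.op I j a) x - D.op I j (D.op (-I) k fun y => (φ y : ℂ)) x * a x := by
  have e : D.op I j (D.dl φ k a) x = D.op I j (D.op (-I) k a) x -
      D.op I j (fun y => D.op (-I) k (fun y => (φ y : ℂ)) y * a y) x :=
    op_sub I j (ha.op _ k) ((hφ.ofReal.op _ k).mul ha) x
  rw [e, op_mul I j (hφ.ofReal.op _ k) ha, dl, op_comm I j (-I) k ha]
  ring

theorem conj_op (hφ : D.Sm φ) (c : ℂ) (j : ι) (x : S) :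
    conj (D.op c j (fun y => (φ y : ℂ)) x) = D.op (conj c) j (fun y => (φ y : ℂ)) x := by
  have := op_conj (conj c) j hφ.ofReal x
  simpa using this.symm

theorem conj_hess (hφ : D.Sm φ) (j k : ι) (x : S) :
    conj (D.op I j (D.op (-I) k fun y => (φ y : ℂ)) x) =
      D.op (-I) j (D.op I k fun y => (φ y : ℂ)) x := by
  have e : (D.op I k fun y => (φ y : ℂ)) = fun y => conj (D.op (-I) k (fun y => (φ y : ℂ)) y) := by
    funext y
    rw [conj_op hφ, map_neg, conj_I, neg_neg]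
  rw [e, op_conj _ j (hφ.ofReal.op _ k), map_neg, conj_I, neg_neg]

theorem term (hφ : D.Sm φ) {v : S → ℂ} (hv : D.Sm v) (hc : HasCompactSupport v) (j k : ι) :
    ∫ x, D.dl φ j (D.op I j v) x * conj (D.dl φ k (D.op I k v) x) * (Real.exp (-φ x) : ℂ) ∂D.μ =
      (∫ x, D.op I k (D.op I j v) x * conj (D.op I k (D.op I j v) x) * (Real.exp (-φ x) : ℂ) ∂D.μ) +
      ∫ x, D.op (-I) j (D.op I k fun y => (φ y : ℂ)) x * D.op I j v x * conj (D.op I k v x) *
        (Real.exp (-φ x) : ℂ) ∂D.μ := by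
  have sj := hv.op I j
  have sk := hv.op I k
  have cj := op_supp (D := D) I j hc
  have ck := op_supp (D := D) I k hc
  have i1 := int3 hφ sj (dl_sm hφ k (sk.op I j)) cj
  have i2 : Integrable (fun x => D.op (-I) j (D.op I k fun y => (φ y : ℂ)) x * D.op I j v x *
      conj (D.op I k v x) * (Real.exp (-φ x) : ℂ)) D.μ :=
    int3' hφ (((hφ.ofReal.op I k).op _ j).mul sj) sk ck
  have e : ∀ x, D.op I j v x * conj (D.op I j (D.dl φ k (D.op I k v)) x) * (Real.exp (-φ x) : ℂ) =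
      D.op I j v x * conj (D.dl φ k (D.op I j (D.op I k v)) x) * (Real.exp (-φ x) : ℂ) -
      D.op (-I) j (D.op I k fun y => (φ y : ℂ)) x * D.op I j v x * conj (D.op I k v x) *
        (Real.exp (-φ x) : ℂ) := fun x => by
    rw [op_dl hφ j k sk, map_sub, map_mul, conj_hess hφ]
    ring
  have c : D.op I j (D.op I k v) = D.op I k (D.op I j v) := funext (op_comm I j I k hv)
  rw [adj hφ j sj (dl_sm hφ k sk) cj]
  simp only [e]
  rw [integral_sub i1 i2, adj' hφ k (sk.op I j) sj (op_supp I j ck), c]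
  ring

theorem levi_sm (hφ : D.Sm φ) {α : ι → S → ℂ} (hα : ∀ j, D.Sm (α j)) :
    D.Sm fun x => D.levi φ x fun j => α j x := by
  simp only [levi_coord hφ]
  exact sm_sum _ fun j _ => sm_sum _ fun k _ =>
    ((((hφ.ofReal.op I k).op _ j).mul (hα j)).mul (hα k).conj).comp reCLM.contDiff

theorem levi_int (hφ : D.Sm φ) {v : S → ℂ} (hv : D.Sm v) (hc : HasCompactSupport v) {w : S → ℝ}
    (hw : D.Sm w) : Integrable (fun x => D.levi φ x (fun j => D.op I j v x) * w x) D.μ := by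
  refine ((levi_sm hφ fun j => hv.op I j).mul hw).int (HasCompactSupport.intro hc fun x hx => ?_)
  simp [levi_coord hφ, op_zero I _ hx]

/-- Bochner inequality for `∂̄ v` -/
theorem bochner (hφ : D.Sm φ) {v : S → ℂ} (hv : D.Sm v) (hc : HasCompactSupport v) :
    ∫ x, D.levi φ x (fun j => D.op I j v x) * Real.exp (-φ x) ∂D.μ ≤
      ∫ x, ‖D.box φ v x‖ ^ 2 * Real.exp (-φ x) ∂D.μ := by
  have sd := fun j => dl_sm hφ j (hv.op I j)
  have cd := fun j => dl_supp (D := D) φ j (op_supp (D := D) I j hc)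
  have i1 := fun j k => int3 hφ (sd j) (sd k) (cd j)
  have i2 : ∀ j k, Integrable (fun x => D.op (-I) j (D.op I k fun y => (φ y : ℂ)) x *
      D.op I j v x * conj (D.op I k v x) * (Real.exp (-φ x) : ℂ)) D.μ := fun j k =>
    int3' hφ (((hφ.ofReal.op I k).op _ j).mul (hv.op I j)) (hv.op I k) (op_supp I k hc)
  have r : ∫ x, ‖D.box φ v x‖ ^ 2 * Real.exp (-φ x) ∂D.μ = ∑ j, ∑ k,
      (∫ x, D.dl φ j (D.op I j v) x * conj (D.dl φ k (D.op I k v) x) *
        (Real.exp (-φ x) : ℂ) ∂D.μ).re := by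
    have e : ∀ x, ((‖D.box φ v x‖ ^ 2 * Real.exp (-φ x) : ℝ) : ℂ) = ∑ j, ∑ k,
        D.dl φ j (D.op I j v) x * conj (D.dl φ k (D.op I k v) x) * (Real.exp (-φ x) : ℂ) :=
      fun x => by
        rw [ofReal_mul, ofReal_pow, ← mul_conj', box_eq, map_neg, neg_mul_neg, map_sum,
          Finset.sum_mul_sum, Finset.sum_mul]
        simp only [Finset.sum_mul]
    rw [← ofReal_re (∫ x, _ ∂D.μ), ← integral_complex_ofReal]
    simp only [e]
    rw [integral_finsetSum _ fun j _ => integrable_finsetSum _ fun k _ => i1 j k, re_sum]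
    refine Finset.sum_congr rfl fun j _ => ?_
    rw [integral_finsetSum _ fun k _ => i1 j k, re_sum]
  have l : ∫ x, D.levi φ x (fun j => D.op I j v x) * Real.exp (-φ x) ∂D.μ = ∑ j, ∑ k,
      (∫ x, D.op (-I) j (D.op I k fun y => (φ y : ℂ)) x * D.op I j v x * conj (D.op I k v x) *
        (Real.exp (-φ x) : ℂ) ∂D.μ).re := by
    have e : ∀ x, D.levi φ x (fun j => D.op I j v x) * Real.exp (-φ x) = ∑ j, ∑ k,
        (D.op (-I) j (D.op I k fun y => (φ y : ℂ)) x * D.op I j v x * conj (D.op I k v x) *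
          (Real.exp (-φ x) : ℂ)).re := fun x => by
      rw [levi_coord hφ, Finset.sum_mul]
      simp only [Finset.sum_mul, re_mul_ofReal]
    have i3 : ∀ j k, Integrable (fun x => (D.op (-I) j (D.op I k fun y => (φ y : ℂ)) x *
        D.op I j v x * conj (D.op I k v x) * (Real.exp (-φ x) : ℂ)).re) D.μ :=
      fun j k => (i2 j k).re
    simp only [e]
    rw [integral_finsetSum _ fun j _ => integrable_finsetSum _ fun k _ => i3 j k]
    refine Finset.sum_congr rfl fun j _ => ?_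
    rw [integral_finsetSum _ fun k _ => i3 j k]
    exact Finset.sum_congr rfl fun k _ => integral_re (i2 j k)
  rw [l, r]
  refine Finset.sum_le_sum fun j _ => Finset.sum_le_sum fun k _ => ?_
  rw [term hφ hv hc, add_re]
  refine le_add_of_nonneg_left ?_
  have e : ∀ x, D.op I k (D.op I j v) x * conj (D.op I k (D.op I j v) x) * (Real.exp (-φ x) : ℂ) =
      ((‖D.op I k (D.op I j v) x‖ ^ 2 * Real.exp (-φ x) : ℝ) : ℂ) := fun x => by
    rw [mul_conj', ofReal_mul, ofReal_pow]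
  simp only [e]
  rw [integral_complex_ofReal, ofReal_re]
  exact integral_nonneg fun x => by positivity

/-- pairing -/
theorem pair_box (hφ : D.Sm φ) {v : S → ℂ} (hv : D.Sm v) (hc : HasCompactSupport v) {f : S → ℂ}
    (hf : D.Sm f) :
    ∫ x, f x * conj (D.box φ v x) * (Real.exp (-φ x) : ℂ) ∂D.μ =
      ∫ x, D.dbar f x (fun j => D.op I j v x) * (Real.exp (-φ x) : ℂ) ∂D.μ := by
  have e1 : ∀ x, f x * conj (D.box φ v x) * (Real.exp (-φ x) : ℂ) =
      -∑ j, f x * conj (D.dl φ j (D.op I j v) x) * (Real.exp (-φ x) : ℂ) := fun x => by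
    rw [box_eq, map_neg, map_sum, mul_neg, neg_mul, Finset.mul_sum, Finset.sum_mul]
  have e2 : ∀ x, D.dbar f x (fun j => D.op I j v x) * (Real.exp (-φ x) : ℂ) =
      ∑ j, D.op I j f x * conj (D.op I j v x) * (Real.exp (-φ x) : ℂ) := fun x => by
    rw [dbar_coord, Finset.sum_mul]
  simp only [e1, e2]
  rw [integral_neg, integral_finsetSum _ fun j _ =>
      int3' hφ hf (dl_sm hφ j (hv.op I j)) (dl_supp φ j (op_supp I j hc)),
    integral_finsetSum _ fun j _ => int3' hφ (hf.op I j) (hv.op I j) (op_supp I j hc),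
    ← Finset.sum_neg_distrib]
  refine Finset.sum_congr rfl fun j _ => ?_
  rw [adj' hφ j (hv.op I j) hf (op_supp I j hc), neg_neg]

theorem mono3 {a b c d : S → ℝ} (ha : Integrable a D.μ) (hb : Integrable b D.μ)
    (hc : Integrable c D.μ) (hd : Integrable d D.μ) (h : ∀ x, a x ≤ 2 * b x + 3 * (c x + d x)) :
    ∫ x, a x ∂D.μ ≤ 2 * (∫ x, b x ∂D.μ) + 3 * ((∫ x, c x ∂D.μ) + ∫ x, d x ∂D.μ) := by
  have e : Integrable (fun x => 3 * (c x + d x)) D.μ := (hc.add hd).const_mul _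
  rw [← integral_add hc hd, ← integral_const_mul, ← integral_const_mul,
    ← integral_add (hb.const_mul _) e]
  exact integral_mono ha ((hb.const_mul _).add e) h

/-- the energy bound -/
theorem energy {η : S → ℝ} {A : S → ℂ} {B : ι → S → ℂ} (hφ : D.Sm φ) (hη : D.Sm η)
    (hc : HasCompactSupport η) (hA : D.Sm A) (hB : ∀ j, D.Sm (B j))
    (h : ∀ x, η x ≠ 0 → ∑ j, D.op (-I) j (fun y => D.op I j A y + B j y) x = 0) :
    ∑ j, ∫ x, η x ^ 2 * Real.exp (φ x) *
        ‖D.op I j A x + D.op I j (fun y => (φ y : ℂ)) x * A x‖ ^ 2 ∂D.μ ≤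
      3 * ∑ j, ((∫ x, η x ^ 2 * Real.exp (φ x) *
        ‖D.op I j (fun y => (φ y : ℂ)) x * A x - B j x‖ ^ 2 ∂D.μ) +
        ∫ x, ‖2 * D.op (-I) j (fun y => (η y : ℂ)) x‖ ^ 2 * Real.exp (φ x) * ‖A x‖ ^ 2 ∂D.μ) := by
  set ψ : S → ℂ := fun y => (φ y : ℂ) with hψ0
  set e : S → ℂ := fun y => (η y : ℂ) with he0
  have hψ : D.Sm ψ := hφ.ofReal
  have he : D.Sm e := hη.ofReal
  have hec : HasCompactSupport e := hc.comp_left (g := fun r : ℝ => (r : ℂ)) (by simp)
  have hAc : D.Sm fun y => conj (A y) := hA.conj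
  set W : ι → S → ℂ := fun j y => D.op I j A y + B j y with hW0
  have hW : ∀ j, D.Sm (W j) := fun j => (hA.op _ _).add (hB j)
  set u : S → ℂ := fun y => e y * e y * cexp (ψ y) * conj (A y) with hu0
  have hu : D.Sm u := ((he.mul he).mul hψ.cexp).mul hAc
  have huc : HasCompactSupport u := ((hec.mul_right).mul_right).mul_right
  have i1 : ∀ j, Integrable (fun x => W j x * D.op (-I) j u x) D.μ := fun j =>
    ((hW j).mul (hu.op _ _)).int (op_supp _ _ huc).mul_left
  have i2 : ∀ j, Integrable (fun x => D.op (-I) j (W j) x * u x) D.μ := fun j =>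
    (((hW j).op _ _).mul hu).int huc.mul_left
  have z : ∑ j, ∫ x, W j x * D.op (-I) j u x ∂D.μ = 0 := by
    have : ∀ j, ∫ x, W j x * D.op (-I) j u x ∂D.μ = -∫ x, D.op (-I) j (W j) x * u x ∂D.μ :=
      fun j => by rw [op_int_mul _ j (hW j) hu huc, neg_neg]
    simp only [this, Finset.sum_neg_distrib, neg_eq_zero]
    rw [← integral_finsetSum _ fun j _ => i2 j, ← integral_zero S ℂ (μ := D.μ)]
    congr 1
    funext x
    rw [← Finset.sum_mul]
    by_cases h0 : η x = 0
    · simp [hu0, he0, h0]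
    · rw [hW0, h x h0, zero_mul]
  have sw : D.Sm fun x => η x ^ 2 * Real.exp (φ x) :=
    (hη.comp (g := fun r : ℝ => r ^ 2) (contDiff_id.pow 2)).mul hφ.rexp
  have cw : HasCompactSupport fun x => η x ^ 2 * Real.exp (φ x) :=
    (hc.comp_left (g := fun r : ℝ => r ^ 2) (by simp)).mul_right
  have j1 : ∀ j, Integrable (fun x =>
      η x ^ 2 * Real.exp (φ x) * ‖D.op I j A x + D.op I j ψ x * A x‖ ^ 2) D.μ := fun j =>
    (sw.mul ((hA.op I j).add ((hψ.op I j).mul hA)).normSq).int cw.mul_right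
  have j2 : ∀ j, Integrable (fun x =>
      η x ^ 2 * Real.exp (φ x) * ‖D.op I j ψ x * A x - B j x‖ ^ 2) D.μ := fun j =>
    (sw.mul (((hψ.op I j).mul hA).sub (hB j)).normSq).int cw.mul_right
  have j3 : ∀ j, Integrable (fun x =>
      ‖2 * D.op (-I) j e x‖ ^ 2 * Real.exp (φ x) * ‖A x‖ ^ 2) D.μ := fun j => by
    have s1 : HasCompactSupport fun x => ‖2 * D.op (-I) j e x‖ ^ 2 :=
      (op_supp (D := D) (-I) j hec).mono fun x hx h => hx (by simp [h])
    exact ((((sm_const 2).mul (he.op _ j)).normSq.mul hφ.rexp).mul hA.normSq).int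
      s1.mul_right.mul_right
  have pt : ∀ j x, η x ^ 2 * Real.exp (φ x) * ‖D.op I j A x + D.op I j ψ x * A x‖ ^ 2 ≤
      2 * (W j x * D.op (-I) j u x).re +
      3 * (η x ^ 2 * Real.exp (φ x) * ‖D.op I j ψ x * A x - B j x‖ ^ 2 +
        ‖2 * D.op (-I) j e x‖ ^ 2 * Real.exp (φ x) * ‖A x‖ ^ 2) := fun j x => by
    have q := mul_le_mul_of_nonneg_left (F.Cacc.quad (e x * (D.op I j A x + D.op I j ψ x * A x))
      (e x * (D.op I j ψ x * A x - B j x)) (2 * D.op (-I) j e x * conj (A x)))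
      (Real.exp_pos (φ x)).le
    have cψ : D.op (-I) j ψ x = conj (D.op I j ψ x) := by rw [hψ0, conj_op hφ, conj_I]
    have du : W j x * D.op (-I) j u x = (Real.exp (φ x) : ℂ) *
        ((e x * (D.op I j A x + D.op I j ψ x * A x) - e x * (D.op I j ψ x * A x - B j x)) *
        (2 * D.op (-I) j e x * conj (A x) + conj (e x * (D.op I j A x + D.op I j ψ x * A x)))) := by
      rw [hu0, op_mul _ _ ((he.mul he).mul hψ.cexp) hAc, op_mul _ _ (he.mul he) hψ.cexp,
        op_mul _ _ he he, op_exp _ _ hψ, op_conj _ _ hA, cψ]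
      simp only [hW0, he0, hψ0, map_mul, map_add, conj_ofReal, map_neg, conj_I, neg_neg, ofReal_exp]
      ring
    rw [du, re_ofReal_mul]
    rw [norm_mul, norm_mul, norm_mul (2 * _), norm_conj, mul_pow, mul_pow, mul_pow] at q
    have : ‖e x‖ ^ 2 = η x ^ 2 := by simp [he0]
    rw [this] at q
    linarith
  have z' : ∑ j, ∫ x, (W j x * D.op (-I) j u x).re ∂D.μ = 0 := by
    have := congrArg re z
    rw [re_sum, zero_re] at this
    rw [← this]
    exact Finset.sum_congr rfl fun j _ => reCLM.integral_comp_comm (i1 j)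
  calc _ ≤ ∑ j, (2 * (∫ x, (W j x * D.op (-I) j u x).re ∂D.μ) +
        3 * ((∫ x, η x ^ 2 * Real.exp (φ x) * ‖D.op I j ψ x * A x - B j x‖ ^ 2 ∂D.μ) +
        ∫ x, ‖2 * D.op (-I) j e x‖ ^ 2 * Real.exp (φ x) * ‖A x‖ ^ 2 ∂D.μ)) := by
        refine Finset.sum_le_sum fun j _ => ?_
        exact mono3 (j1 j) (reCLM.integrable_comp (i1 j)) (j2 j) (j3 j) (pt j)
    _ = _ := by rw [Finset.sum_add_distrib, ← Finset.mul_sum, ← Finset.mul_sum, z']; simp

theorem test_le {η : S → ℝ} {A : S → ℂ} (hφ : D.Sm φ) (hη : D.Sm η) (hc : HasCompactSupport η)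
    (hA : D.Sm A) (ha : D.Sm a) (hac : HasCompactSupport a) (h1 : ∀ x ∈ tsupport a, η x = 1) (j : ι)
    {θ : ℝ} (θ0 : 0 < θ) :
    ‖∫ x, cexp (φ x) * D.op I j a x * A x ∂D.μ‖ ≤
      θ⁻¹ * (∫ x, η x ^ 2 * Real.exp (φ x) *
        ‖D.op I j A x + D.op I j (fun y => (φ y : ℂ)) x * A x‖ ^ 2 ∂D.μ) +
      θ * ∫ x, Real.exp (φ x) * ‖a x‖ ^ 2 ∂D.μ := by
  have hψ := hφ.ofReal
  have hE := hψ.cexp.mul hA
  have e : ∫ x, cexp (φ x) * D.op I j a x * A x ∂D.μ =
      -∫ x, D.op I j (fun y => cexp (φ y) * A y) x * a x ∂D.μ := by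
    rw [op_int_mul I j hE ha hac, neg_neg]
    simp only [mul_right_comm]
  have s1 : HasCompactSupport fun x => η x ^ 2 := hc.mono fun x hx h => hx (by simp [h])
  have s2 : HasCompactSupport fun x => ‖a x‖ ^ 2 := hac.mono fun x hx h => hx (by simp [h])
  have j1 := (((hη.comp (g := fun r : ℝ => r ^ 2) (contDiff_id.pow 2)).mul hφ.rexp).mul
    ((hA.op I j).add ((hψ.op I j).mul hA)).normSq).int s1.mul_right.mul_right
  have j2 := (hφ.rexp.mul ha.normSq).int s2.mul_left
  have k1 := j1.const_mul θ⁻¹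
  have k2 := j2.const_mul θ
  rw [e, norm_neg, ← integral_const_mul, ← integral_const_mul, ← integral_add k1 k2]
  refine norm_integral_le_of_norm_le (k1.add k2) (.of_forall fun x => ?_)
  have ep := Real.exp_pos (φ x)
  by_cases h0 : a x = 0
  · simp only [h0, mul_zero, norm_zero]
    positivity
  rw [h1 x (subset_tsupport _ h0), op_mul _ _ hψ.cexp hA, op_exp _ _ hψ,
    show cexp (φ x) * D.op I j (fun y => (φ y : ℂ)) x * A x + cexp (φ x) * D.op I j A x =
      cexp (φ x) * (D.op I j A x + D.op I j (fun y => (φ y : ℂ)) x * A x) by ring,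
    norm_mul, norm_mul, norm_exp_ofReal]
  generalize ‖D.op I j A x + D.op I j (fun y => (φ y : ℂ)) x * A x‖ = p
  generalize ‖a x‖ = q
  have : p * q ≤ θ⁻¹ * p ^ 2 + θ * q ^ 2 := by
    rw [inv_mul_eq_div, div_add' _ _ _ θ0.ne', le_div_iff₀ θ0]
    nlinarith [sq_nonneg (p - θ * q), sq_nonneg p, sq_nonneg (θ * q)]
  nlinarith [mul_le_mul_of_nonneg_left this ep.le]

end RD

end

end Pool.Agent.Lib.MP_5c318e_ag
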