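import Pool.Agent.Lib.MP_5c318e_ag.RD.RBoch
import Pool.Agent.Lib.MP_9ff3e7_ag.F.HMoll

/-! A function orthogonal to the range of `box` on a Riemann domain is weakly holomorphic, when
cutoff functions with small energy exist. -/

set_option autoImplicit false
set_option linter.unusedSectionVars false

namespace Pool.Agent.Lib.MP_5c318e_ag

open MeasureTheory Set Filter Topology Complex Metric
open scoped ContDiff ComplexConjugate
open Pool.Agent.Lib.MP_9ff3e7_ag Pool.Agent.Lib.MP_9ff3e7_ag.F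

noncomputable section

namespace RD

variable {ι : Type} [Fintype ι] [DecidableEq ι]

/-- the divergence identity from a single test function -/
theorem div_zero {ψ G k : (ι → ℂ) → ℂ} (hψ : ContDiff ℝ ∞ ψ) (hG : LocallyIntegrable G volume)
    (hk : ContDiff ℝ ∞ k) (hc : HasCompactSupport k) (x : ι → ℂ)
    (ho : ∫ t, G t * ∑ j, (Cacc.dd I j ψ t * Cacc.dd (-I) j (fun t => k (x - t)) t -
      Cacc.dd I j (Cacc.dd (-I) j fun t => k (x - t)) t) = 0) :
    ∑ j, Cacc.dd (-I) j (fun y => Cacc.dd I j (fun x => ∫ t, G t * k (x - t)) y +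
      ∫ t, Cacc.dd I j ψ t * G t * k (y - t)) x = 0 := by
  have hp : ∀ j, LocallyIntegrable (fun t => Cacc.dd I j ψ t * G t) volume := fun j =>
    hG.continuous_mul (Cacc.dd_smooth I j hψ).continuous
  rw [← neg_eq_zero, ← ho]
  have k1 := fun c j => Cacc.dd_smooth c j hk
  have c1 := fun c j => Cacc.dd_supp c j hc
  simp only [Finset.mul_sum]
  have e : ∀ j, (fun t => G t * (Cacc.dd I j ψ t * Cacc.dd (-I) j (fun t => k (x - t)) t -
      Cacc.dd I j (Cacc.dd (-I) j fun t => k (x - t)) t)) = fun t =>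
      -(G t * Cacc.dd (-I) j (Cacc.dd I j k) (x - t) +
        Cacc.dd I j ψ t * G t * Cacc.dd (-I) j k (x - t)) := fun j => by
    funext t
    rw [Cacc.dd_refl _ _ hk, Cacc.dd_neg, Cacc.dd_refl _ _ (k1 _ _), Cacc.dd_comm I (-I) j hk]
    ring
  have i1 := fun j => Cacc.cv_ex hG (Cacc.dd_smooth (-I) j (k1 I j)) (Cacc.dd_supp (-I) j (c1 I j)) x
  have i2 := fun j => Cacc.cv_ex (hp j) (k1 (-I) j) (c1 (-I) j) x
  rw [integral_finsetSum _ fun j _ => by rw [e j]; exact ((i1 j).add (i2 j)).neg,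
    ← Finset.sum_neg_distrib]
  refine Finset.sum_congr rfl fun j _ => ?_
  rw [e j, integral_neg, integral_add (i1 j) (i2 j),
    Cacc.dd_add _ _ (Cacc.dd_smooth _ _ (Cacc.cv_smooth hG hk hc)) (Cacc.cv_smooth (hp j) hk hc),
    Cacc.dd_cv I j hG hk hc, Cacc.dd_cv _ j hG (k1 _ _) (c1 _ _), Cacc.dd_cv _ j (hp j) hk hc]

/-- sharp bound for a mollified function -/
theorem m4 {r : ℕ → ContDiffBump (0 : ι → ℂ)} (hr : Tendsto (fun n => (r n).rOut) atTop (𝓝 0))
    {b : (ι → ℂ) → ℝ} (hb : Continuous b) (b0 : ∀ x, 0 ≤ b x) (bs : HasCompactSupport b)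
    {G : (ι → ℂ) → ℂ} (hi : Integrable fun x => ‖G x‖ ^ 2) {δ : ℝ} (δ0 : 0 < δ) :
    ∀ᶠ n in atTop, ∫ x, b x * ‖Moll.cv r n G x‖ ^ 2 ≤ (∫ x, b x * ‖G x‖ ^ 2) + δ := by
  set N := ∫ x, ‖G x‖ ^ 2 with hN
  have N0 : 0 ≤ N := integral_nonneg fun _ => by positivity
  have d0 : 0 < δ / (N + 1) := by positivity
  obtain ⟨e, e0, h⟩ := Moll.uc hb bs.isCompact d0
  have i1 : Integrable fun x => b x * ‖G x‖ ^ 2 :=
    hi.locallyIntegrable.integrable_smul_left_of_hasCompactSupport hb bs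
  have i2 := hi.const_mul (δ / (N + 1))
  filter_upwards [Moll.ev_ker hr e0] with n k
  have := k.jensen (G := G) (A := Moll.cv r n G) (κ := 1) (c := fun t => b t + δ / (N + 1)) b0
    (fun x t ht => by
      by_cases h0 : b x = 0
      · rw [h0]; exact add_nonneg (b0 t) d0.le
      · linarith [(le_abs_self _).trans (h x (subset_tsupport _ h0) t ht)])
    ((i1.add i2).congr (.of_forall fun x => by simp only [Pi.add_apply]; ring))
    fun x _ => k.norm_le G x
  simp only [mul_comm (b _)]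
  refine this.trans ?_
  simp only [one_pow, one_mul, mul_add]
  rw [integral_add (by simpa only [mul_comm] using i1) (by simpa only [mul_comm] using i2),
    integral_mul_const, ← hN]
  refine add_le_add le_rfl ?_
  rw [← mul_div_assoc, div_le_iff₀ (by positivity)]
  nlinarith

variable {S : Type} [TopologicalSpace S] [MeasurableSpace S] [BorelSpace S] [T2Space S]
  {D : RD ι S}

variable (D) in
/-- a function read on a closed ball of the chart at `x` -/
def lc {E : Type} [Zero E] (x : S) (ρ : ℝ) (u : S → E) : (ι → ℂ) → E :=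
  indicator (closedBall (D.π x) ρ) fun z => u (D.sec x z)

theorem lc_aesm {E : Type} [NormedAddCommGroup E] {x : S} {ρ : ℝ}
    (h : closedBall (D.π x) ρ ⊆ (D.ch x).target) {u : S → E} (hu : AEStronglyMeasurable u D.μ) :
    AEStronglyMeasurable (D.lc x ρ u) volume :=
  (aestronglyMeasurable_indicator_iff measurableSet_closedBall).2 ((aesm_sec x hu).mono_set h)

theorem lc_int {E : Type} [NormedAddCommGroup E] {x : S} {ρ : ℝ}
    (h : closedBall (D.π x) ρ ⊆ (D.ch x).target) {u : S → E} (hu : LocallyIntegrable u D.μ) :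
    Integrable (D.lc x ρ u) :=
  (integrable_indicator_iff measurableSet_closedBall).2 (intOn_sec (isCompact_closedBall _ _) h
    (hu.integrableOn_isCompact (sec_cpt (isCompact_closedBall _ _) h)))

theorem lc_π {E : Type} [Zero E] {x y : S} {ρ : ℝ} (u : S → E) (h1 : y ∈ (D.ch x).source)
    (h2 : D.π y ∈ closedBall (D.π x) ρ) : D.lc x ρ u (D.π y) = u y := by
  rw [lc, indicator_of_mem h2, sec_π h1]

theorem sec_agree {x x' y : S} {e : ℝ} (h1 : y ∈ (D.ch x).source) (h1' : y ∈ (D.ch x').source)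
    (h : ball (D.π y) e ⊆ (D.ch x).target) (h' : ball (D.π y) e ⊆ (D.ch x').target) {t : ι → ℂ}
    (ht : t ∈ ball (D.π y) e) : D.sec x t = D.sec x' t :=
  (T2Space.isSeparatedMap D.π).eqOn_of_comp_eqOn D.loc.isLocallyInjective
    (convex_ball _ _).isPreconnected ((D.sec_contOn x).mono h) ((D.sec_contOn x').mono h')
    (fun _ hz => (π_sec (h hz)).trans (π_sec (h' hz)).symm)
    (mem_ball_self (pos_of_mem_ball ht)) ((sec_π h1).trans (sec_π h1').symm) ht

theorem ball_sub {p q : ι → ℂ} {a e : ℝ} (h : q ∈ ball p a) (he : e ≤ a) :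
    closedBall q e ⊆ closedBall p (2 * a) :=
  closedBall_subset_closedBall' (by linarith [mem_ball.1 h])

theorem cv_agree {x x' y : S} {a a' e : ℝ} (h : closedBall (D.π x) (2 * a) ⊆ (D.ch x).target)
    (h' : closedBall (D.π x') (2 * a') ⊆ (D.ch x').target)
    (hy : y ∈ (D.ch x).source ∩ D.π ⁻¹' ball (D.π x) a)
    (hy' : y ∈ (D.ch x').source ∩ D.π ⁻¹' ball (D.π x') a') {ρ : (ι → ℂ) → ℝ} (k : Moll.Ker ρ e)
    (he : e ≤ a) (he' : e ≤ a') (u : S → ℂ) :
    ∫ t, D.lc x (2 * a) u t * (ρ (D.π y - t) : ℂ) =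
      ∫ t, D.lc x' (2 * a') u t * (ρ (D.π y - t) : ℂ) := by
  congr 1
  funext t
  by_cases h0 : ρ (D.π y - t) = 0
  · simp [h0]
  have ht : t ∈ ball (D.π y) e := by
    rw [mem_ball, dist_comm, dist_eq_norm]
    exact k.supp _ h0
  have b := ball_subset_closedBall.trans (ball_sub hy.2 he)
  have b' := ball_subset_closedBall.trans (ball_sub hy'.2 he')
  rw [lc, lc, indicator_of_mem (b ht), indicator_of_mem (b' ht),
    sec_agree hy.1 hy'.1 (b.trans h) (b'.trans h') ht]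

theorem op_π (c : ℂ) (j : ι) (g : (ι → ℂ) → ℂ) (y : S) :
    D.op c j (fun w => g (D.π w)) y = Cacc.dd c j g (D.π y) :=
  hop_congr c j ((D.π_sec_ev y).mono fun _ h => congrArg g h)

/-- an integral cut into chart integrals -/
theorem split {R : Type} [NormedRing R] [NormedAlgebra ℝ R] {K : Set S} {T : Finset S}
    {c : S → S → ℝ} {L : S → Set S} (c1 : ∀ x, D.Sm (c x)) (c2 : ∀ x y, 0 ≤ c x y ∧ c x y ≤ 1)
    (L2 : ∀ x, L x ⊆ (D.ch x).source) (c3 : ∀ x y, y ∉ L x → c x y = 0)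
    (c5 : ∀ y ∈ K, ∑ x ∈ T, c x y = 1) {w U : S → R} {H : S → (ι → ℂ) → R}
    (hi : Integrable (fun y => w y * U y) D.μ) (w0 : ∀ y, y ∉ K → w y = 0)
    (hH : ∀ x ∈ T, ∀ y ∈ K, y ∈ L x → U y = H x (D.π y)) :
    ∫ y, w y * U y ∂D.μ = ∑ x ∈ T, ∫ z, D.down x (fun y => c x y • w y) z * H x z := by
  have i : ∀ x, Integrable (fun y => c x y • (w y * U y)) D.μ := fun x =>
    hi.bdd_smul 1 (c1 x).cont.aestronglyMeasurable (.of_forall fun y => by
      rw [Real.norm_of_nonneg (c2 x y).1]; exact (c2 x y).2)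
  have e : ∀ y, w y * U y = ∑ x ∈ T, c x y • (w y * U y) := fun y => by
    by_cases hy : y ∈ K
    · rw [← Finset.sum_smul, c5 y hy, one_smul]
    · simp [w0 y hy]
  rw [integral_congr_ae (.of_forall e), integral_finsetSum _ fun x _ => i x]
  refine Finset.sum_congr rfl fun x hx => ?_
  rw [int_down (x := x) (i x).aestronglyMeasurable fun y hy => by
    rw [c3 x y fun h => hy (L2 x h), zero_smul]]
  congr 1
  funext z
  by_cases hz : z ∈ (D.ch x).target
  · rw [down_of _ hz, down_of _ hz, smul_mul_assoc]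
    by_cases h1 : D.sec x z ∈ K
    · by_cases h2 : D.sec x z ∈ L x
      · rw [hH x hx _ h1 h2, π_sec hz]
      · simp [c3 x _ h2]
    · simp [w0 _ h1]
  · simp [down, indicator_of_notMem hz]

/-- a smooth function on the chart that agrees with `φ` near a compact set -/
theorem exists_ext {φ : S → ℝ} (hφ : D.Sm φ) (x : S) {C : Set (ι → ℂ)} (hC : IsCompact C)
    (h : C ⊆ (D.ch x).target) : ∃ ψ : (ι → ℂ) → ℝ, ContDiff ℝ ∞ ψ ∧
      ∀ z ∈ C, ψ =ᶠ[𝓝 z] fun w => φ (D.sec x w) := by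
  obtain ⟨b, b1, -, b3, L, L1, L2, L3⟩ := exists_cut (D := D) (sec_cpt hC h) (D.ch x).open_source
    (sec_sub h)
  refine ⟨D.down x fun y => b y * φ y, down_sm (b1.mul hφ) L1 L2 fun y hy => by
    rw [L3 y hy, zero_mul], fun z hz => (down_ev _ (h hz)).trans ?_⟩
  filter_upwards [(sec_contAt (h hz)).eventually (b3 _ (mem_image_of_mem _ hz))] with w hw
  rw [hw, one_mul]

/-- the orthogonality relation read in a chart -/
theorem orth_loc {φ : S → ℝ} {G : S → ℂ} (hGm : AEStronglyMeasurable G D.μ) (hφ : D.Sm φ)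
    (ho : ∀ v : S → ℂ, D.Sm v → HasCompactSupport v → ∫ y, G y *
      ∑ j, (D.op I j (fun y => (φ y : ℂ)) y * D.op (-I) j v y - D.op I j (D.op (-I) j v) y) ∂D.μ = 0)
    {x : S} {ρ : ℝ} (h : closedBall (D.π x) ρ ⊆ (D.ch x).target) {ψ : (ι → ℂ) → ℝ}
    (hψ : ∀ z ∈ closedBall (D.π x) ρ, ψ =ᶠ[𝓝 z] fun w => φ (D.sec x w)) {v : (ι → ℂ) → ℂ}
    (hv : ContDiff ℝ ∞ v) (v0 : ∀ z, z ∉ closedBall (D.π x) ρ → v z = 0) :
    ∫ t, D.lc x ρ G t * ∑ j, (Cacc.dd I j (fun z => (ψ z : ℂ)) t * Cacc.dd (-I) j v t -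
      Cacc.dd I j (Cacc.dd (-I) j v) t) = 0 := by
  have hC := isCompact_closedBall (D.π x) ρ
  have s := up_sm hv hC h v0
  have kc := sec_cpt hC h
  have z0 : ∀ y, y ∉ D.sec x '' closedBall (D.π x) ρ → D.up x v y = 0 := fun y hy => up_zero v0 hy
  have z1 : ∀ j y, y ∉ D.sec x '' closedBall (D.π x) ρ → D.op (-I) j (D.up x v) y = 0 :=
    fun j y hy => op_zero' _ j kc z0 hy
  have z2 : ∀ y, y ∉ D.sec x '' closedBall (D.π x) ρ → G y * ∑ j, (D.op I j (fun y => (φ y : ℂ)) y *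
      D.op (-I) j (D.up x v) y - D.op I j (D.op (-I) j (D.up x v)) y) = 0 := fun y hy => by
    simp [z1 _ y hy, op_zero' I _ kc (z1 _) hy]
  refine Eq.trans ?_ ((int_down (x := x) (hGm.mul (sm_sum _ fun j _ =>
    ((hφ.ofReal.op I j).mul (s.op _ j)).sub ((s.op _ j).op I j)).cont.aestronglyMeasurable)
    fun y hy => z2 y fun h1 => hy (sec_sub h h1)).symm.trans
    (ho _ s (HasCompactSupport.intro kc z0)))
  congr 1
  funext t
  by_cases ht : t ∈ closedBall (D.π x) ρ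
  · have ht' := h ht
    rw [lc, indicator_of_mem ht, down_of _ ht']
    congr 1
    refine Finset.sum_congr rfl fun j _ => ?_
    have e1 : (fun w => D.op (-I) j (D.up x v) (D.sec x w)) =ᶠ[𝓝 t] Cacc.dd (-I) j v := by
      filter_upwards [tgt_nhds ht'] with w hw
      rw [op_sec _ j _ hw]
      exact hop_congr _ j (up_sec v hw)
    have e2 : D.op (-I) j (D.up x v) (D.sec x t) = Cacc.dd (-I) j v t := e1.self_of_nhds
    rw [e2, op_sec I j _ ht', op_sec I j _ ht', hop_congr I j e1]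
    congr 2
    exact hop_congr I j ((hψ t ht).mono fun w hw => congrArg ofReal hw)
  · rw [lc, indicator_of_notMem ht, zero_mul]
    refine (down_zero z2 ?_).symm
    rintro ⟨_, ⟨w, hw, rfl⟩, rfl⟩
    exact ht (by rwa [π_sec (h hw)])

/-- Caccioppoli, in terms of `G = g exp (-φ)` -/
theorem cacc0 {φ : S → ℝ} (hφ : D.Sm φ) {G : S → ℂ} (hGm : AEStronglyMeasurable G D.μ)
    (hG : LocallyIntegrable G D.μ) (hG2 : LocallyIntegrable (fun y => ‖G y‖ ^ 2) D.μ)
    (ho : ∀ v : S → ℂ, D.Sm v → HasCompactSupport v → ∫ y, G y *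
      ∑ j, (D.op I j (fun y => (φ y : ℂ)) y * D.op (-I) j v y - D.op I j (D.op (-I) j v) y) ∂D.μ = 0)
    {a : S → ℂ} (ha : D.Sm a) (hac : HasCompactSupport a) (j : ι) {θ : ℝ} (θ0 : 0 < θ) {η : S → ℝ}
    (hη : D.Sm η) (hc : HasCompactSupport η) (ηK : ∀ y ∈ tsupport a, η y = 1)
    (ηd : ∀ i, ∫ y, ‖2 * D.op (-I) i (fun y => (η y : ℂ)) y‖ ^ 2 * Real.exp (φ y) * ‖G y‖ ^ 2 ∂D.μ ≤
      θ ^ 2) :
    ‖∫ y, cexp (φ y) * D.op I j a y * G y ∂D.μ‖ ≤
      θ * (9 * Fintype.card ι + ∫ y, Real.exp (φ y) * ‖a y‖ ^ 2 ∂D.μ) := by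
  have := D.wlc
  have hψ := hφ.ofReal
  choose R R0 hR using fun x => D.exists_rad x univ_mem
  obtain ⟨ρ, ρ0, hρ⟩ : ∃ ρ : S → ℝ, (∀ x, 0 < ρ x) ∧
      ∀ x, closedBall (D.π x) (2 * ρ x) ⊆ (D.ch x).target :=
    ⟨fun x => R x / 2, fun x => half_pos (R0 x), fun x z hz =>
      (hR x (by rwa [mul_div_cancel₀ _ two_ne_zero] at hz)).1⟩
  set W : S → Set S := fun x => (D.ch x).source ∩ D.π ⁻¹' ball (D.π x) (ρ x) with hW
  have Wo : ∀ x, IsOpen (W x) := fun x =>
    (D.ch x).open_source.inter (isOpen_ball.preimage D.cont_π)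
  obtain ⟨T, c, L, c1, c2, L1, L2, c3, -, c5⟩ := exists_pou (D := D) hc.isCompact W
    fun x => (Wo x).mem_nhds ⟨D.mem_src x, mem_ball_self (ρ0 x)⟩
  have L3 : ∀ x, L x ⊆ (D.ch x).source := fun x y hy => (L2 x hy).2
  have c6 : ∀ y ∈ tsupport η, ∑ x ∈ T, c x y = 1 := fun y hy => (c5 y hy).self_of_nhds
  choose ψ ψ1 ψ2 using fun x => exists_ext hφ x (isCompact_closedBall _ _) (hρ x)
  have ψs : ∀ x, ContDiff ℝ ∞ fun z => (ψ x z : ℂ) := fun x => ofRealCLM.contDiff.comp (ψ1 x)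
  have Wc : ∀ x, ∀ y ∈ W x, D.π y ∈ closedBall (D.π x) (2 * ρ x) := fun x y hy =>
    ball_sub hy.2 le_rfl (mem_closedBall_self (ρ0 x).le)
  have pe : ∀ x i, ∀ z ∈ closedBall (D.π x) (2 * ρ x), Cacc.dd I i (fun z => (ψ x z : ℂ)) z =
      D.op I i (fun y => (φ y : ℂ)) (D.sec x z) := fun x i z hz => by
    rw [op_sec I i _ (hρ x hz)]
    exact hop_congr I i ((ψ2 x z hz).mono fun w hw => congrArg ofReal hw)
  have pl : ∀ x i, D.lc x (2 * ρ x) (fun y => D.op I i (fun y => (φ y : ℂ)) y * G y) =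
      fun t => Cacc.dd I i (fun z => (ψ x z : ℂ)) t * D.lc x (2 * ρ x) G t := fun x i => by
    funext t
    by_cases ht : t ∈ closedBall (D.π x) (2 * ρ x)
    · rw [lc, lc, indicator_of_mem ht, indicator_of_mem ht, pe x i t ht]
    · rw [lc, lc, indicator_of_notMem ht, indicator_of_notMem ht, mul_zero]
  have G2 : ∀ x, Integrable fun t => ‖D.lc x (2 * ρ x) G t‖ ^ 2 := fun x => by
    refine (lc_int (hρ x) hG2).congr (.of_forall fun t => ?_)
    by_cases ht : t ∈ closedBall (D.π x) (2 * ρ x)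
    · simp only [lc, indicator_of_mem ht]
    · simp [lc, indicator_of_notMem ht]
  obtain ⟨r, hr⟩ : ∃ r : ℕ → ContDiffBump (0 : ι → ℂ), Tendsto (fun n => (r n).rOut) atTop (𝓝 0) :=
    ⟨fun n => ⟨1 / ((n : ℝ) + 1) / 2, 1 / ((n : ℝ) + 1), by positivity, half_lt_self (by positivity)⟩,
      tendsto_one_div_add_atTop_nhds_zero_nat⟩
  have hk : ∀ n, ContDiff ℝ ∞ fun y => ((r n).normed volume y : ℂ) := fun n =>
    ofRealCLM.contDiff.comp (r n).contDiff_normed
  have kc : ∀ n, HasCompactSupport fun y => ((r n).normed volume y : ℂ) := fun n =>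
    ((r n).hasCompactSupport_normed (μ := volume)).mono fun x hx h => hx (by simp [h])
  set mo : ℕ → (S → ℂ) → S → ℂ := fun n u y =>
    ∑ x ∈ T, (c x y : ℂ) * Moll.cv r n (D.lc x (2 * ρ x) u) (D.π y) with hmo
  have ms : ∀ n u, LocallyIntegrable u D.μ → D.Sm (mo n u) := fun n u hu =>
    sm_sum _ fun x _ => (c1 x).ofReal.mul
      (sm_π.comp (Cacc.cv_smooth (lc_int (hρ x) hu).locallyIntegrable (hk n) (kc n)))
  have small : ∀ᶠ n in atTop, ∀ x ∈ T, (r n).rOut ≤ ρ x :=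
    (eventually_all_finset T).2 fun x _ => hr.eventually (ge_mem_nhds (ρ0 x))
  have me : ∀ n, (∀ x ∈ T, (r n).rOut ≤ ρ x) → ∀ u, ∀ x ∈ T, ∀ y ∈ W x, ∑ x ∈ T, c x y = 1 →
      mo n u y = Moll.cv r n (D.lc x (2 * ρ x) u) (D.π y) := fun n hn u x hx y hy h1 => by
    rw [← one_mul (Moll.cv r n (D.lc x (2 * ρ x) u) (D.π y)), ← ofReal_one, ← h1, ofReal_sum,
      Finset.sum_mul]
    refine Finset.sum_congr rfl fun x' hx' => ?_
    by_cases h0 : y ∈ L x'
    · congr 1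
      exact cv_agree (hρ x') (hρ x) (L2 x' h0).1 hy (Moll.ker_bump (r n)) (hn x' hx') (hn x hx) u
    · simp [c3 x' y h0]
  have dc : ∀ {R : Type} [NormedRing R] [NormedAlgebra ℝ R] {w : S → R}, Continuous w → ∀ x,
      Continuous (D.down x fun y => c x y • w y) ∧
        HasCompactSupport (D.down x fun y => c x y • w y) := fun {R} _ _ {w} hw x =>
    have z : ∀ y, y ∉ L x → c x y • w y = 0 := fun y hy => by rw [c3 x y hy, zero_smul]
    ⟨down_cont ((c1 x).cont.smul hw) (L1 x) (L3 x) z, down_supp (L1 x) z⟩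
  have d0 : ∀ {w : S → ℝ}, (∀ y, 0 ≤ w y) → ∀ x z, 0 ≤ D.down x (fun y => c x y • w y) z :=
    fun w0 x z => indicator_nonneg (fun _ _ => mul_nonneg (c2 x _).1 (w0 _)) z
  -- the limit of the tested integrals
  have sb : D.Sm fun y => cexp (φ y) * D.op I j a y := hψ.cexp.mul (ha.op I j)
  have cb : HasCompactSupport fun y => cexp (φ y) * D.op I j a y := (op_supp I j hac).mul_left
  have b0 : ∀ y, y ∉ tsupport η → cexp (φ y) * D.op I j a y = 0 := fun y hy => by
    rw [op_zero I j fun h => hy (subset_tsupport _ (by simp [ηK y h])), mul_zero]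
  have lim : Tendsto (fun n => ∫ y, cexp (φ y) * D.op I j a y * mo n G y ∂D.μ) atTop
      (𝓝 (∫ y, cexp (φ y) * D.op I j a y * G y ∂D.μ)) := by
    rw [split c1 c2 L3 c3 c6 (H := fun x => D.lc x (2 * ρ x) G)
      (hG.integrable_smul_left_of_hasCompactSupport sb.cont cb) b0
      fun x _ y _ hy => (lc_π G (L3 x hy) (Wc x y (L2 x hy).1)).symm]
    refine (tendsto_finsetSum T fun x _ => ?_).congr' (f₁ := fun n => ∑ x ∈ T,
      ∫ z, D.down x (fun y => c x y • (cexp (φ y) * D.op I j a y)) z *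
        Moll.cv r n (D.lc x (2 * ρ x) G) z) ?_
    · simpa only [mul_comm] using Moll.m3 hr (lc_int (hρ x) hG).locallyIntegrable
        (dc sb.cont x).1 (dc sb.cont x).2
    · filter_upwards [small] with n hn
      exact (split c1 c2 L3 c3 c6 ((sb.mul (ms n G hG)).int cb.mul_right) b0
        fun x hx y h1 hy => me n hn G x hx y (L2 x hy).1 (c6 y h1)).symm
  have δ0 : 0 < θ ^ 2 / (T.card + 1) := by positivity
  have δ1 : ∑ _x ∈ T, θ ^ 2 / (T.card + 1) ≤ θ ^ 2 := by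
    rw [Finset.sum_const, nsmul_eq_mul, ← mul_div_assoc, div_le_iff₀ (by positivity)]
    nlinarith [sq_nonneg θ]
  have s4 : ∀ i, D.Sm fun y => ‖2 * D.op (-I) i (fun y => (η y : ℂ)) y‖ ^ 2 * Real.exp (φ y) :=
    fun i => ((sm_const 2).mul (hη.ofReal.op _ i)).normSq.mul hφ.rexp
  have z4 : ∀ i y, y ∉ tsupport η →
      ‖2 * D.op (-I) i (fun y => (η y : ℂ)) y‖ ^ 2 * Real.exp (φ y) = 0 := fun i y hy => by
    rw [op_zero' (-I) i hc.isCompact (fun w hw => by
      rw [image_eq_zero_of_notMem_tsupport hw, ofReal_zero]) hy]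
    simp
  have k4 := fun i => HasCompactSupport.intro hc.isCompact (z4 i)
  have s5 : D.Sm fun y => η y ^ 2 * Real.exp (φ y) :=
    (hη.comp (g := fun r : ℝ => r ^ 2) (contDiff_id.pow 2)).mul hφ.rexp
  have z5 : ∀ y, y ∉ tsupport η → η y ^ 2 * Real.exp (φ y) = 0 := fun y hy => by
    simp [image_eq_zero_of_notMem_tsupport hy]
  have k5 := HasCompactSupport.intro hc.isCompact z5
  have e5 : ∀ i x, ∀ᶠ n in atTop, ∫ z, D.down x (fun y => c x y • (η y ^ 2 * Real.exp (φ y))) z *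
      ‖Cacc.dd I i (fun z => (ψ x z : ℂ)) z * Moll.cv r n (D.lc x (2 * ρ x) G) z -
        Moll.cv r n (fun t => Cacc.dd I i (fun z => (ψ x z : ℂ)) t * D.lc x (2 * ρ x) G t) z‖ ^ 2 ≤
      θ ^ 2 / (T.card + 1) := fun i x => by
    obtain ⟨C, hC⟩ := (dc s5.cont x).2.exists_bound_of_continuous (dc s5.cont x).1
    simpa only [Real.exp_zero, mul_one] using Moll.m5 hr (φ := fun _ => 0) continuous_const
      (lc_aesm (hρ x) hGm) (by simpa only [Real.exp_zero, mul_one] using G2 x)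
      (d0 (fun y => by positivity) x) (dc s5.cont x).2 (fun z => (le_abs_self _).trans (hC z))
      (Cacc.dd_smooth I i (ψs x)).continuous δ0
  refine le_of_tendsto lim.norm ?_
  filter_upwards [small, eventually_all.2 fun i => (eventually_all_finset T).2 fun x _ => e5 i x,
    eventually_all.2 fun i => (eventually_all_finset T).2 fun x _ =>
      m4 hr (dc (s4 i).cont x).1 (d0 (fun y => by positivity) x) (dc (s4 i).cont x).2 (G2 x) δ0]
    with n hn h5 h4
  have lp : ∀ i, LocallyIntegrable (fun y => D.op I i (fun y => (φ y : ℂ)) y * G y) D.μ :=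
    fun i => hG.continuous_mul (hψ.op I i).cont
  have hA := ms n G hG
  have hB := fun i => ms n _ (lp i)
  have dv : ∀ y, η y ≠ 0 → ∑ i, D.op (-I) i (fun w => D.op I i (mo n G) w +
      mo n (fun y => D.op I i (fun y => (φ y : ℂ)) y * G y) w) y = 0 := fun y hy => by
    have hy' : y ∈ tsupport η := subset_tsupport _ hy
    obtain ⟨x, hx, h0⟩ := Finset.exists_ne_zero_of_sum_ne_zero ((c6 y hy').trans_ne one_ne_zero)
    have yW : y ∈ W x := (L2 x (by_contra fun h => h0 (c3 x y h))).1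
    have ev : ∀ u, mo n u =ᶠ[𝓝 y] fun w => Moll.cv r n (D.lc x (2 * ρ x) u) (D.π w) := fun u => by
      filter_upwards [(Wo x).mem_nhds yW, c5 y hy'] with w h1 h2 using me n hn u x hx w h1 h2
    refine Eq.trans (Finset.sum_congr rfl fun i _ => ?_) (div_zero (ψs x)
      (lc_int (hρ x) hG).locallyIntegrable (hk n) (kc n) (D.π y) (orth_loc hGm hφ ho (hρ x) (ψ2 x)
        ((hk n).comp (contDiff_const.sub contDiff_id)) fun z hz => ?_))
    · rw [← op_π]
      refine op_congr _ i ?_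
      filter_upwards [(ev G).eventuallyEq_nhds, ev _] with w h1 h2
      rw [op_congr I i h1, op_π, h2, pl]
      rfl
    · by_contra h
      refine hz (ball_sub yW.2 (hn x hx) ?_)
      rw [mem_closedBall, dist_comm, dist_eq_norm]
      exact ((Moll.ker_bump (r n)).supp _ (ofReal_ne_zero.1 h)).le
  have b5 : ∀ i, ∫ y, η y ^ 2 * Real.exp (φ y) * ‖D.op I i (fun y => (φ y : ℂ)) y * mo n G y -
      mo n (fun y => D.op I i (fun y => (φ y : ℂ)) y * G y) y‖ ^ 2 ∂D.μ ≤ θ ^ 2 := fun i => by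
    refine le_trans (le_of_eq ?_) ((Finset.sum_le_sum (h5 i)).trans δ1)
    refine split c1 c2 L3 c3 c6 ((s5.mul (((hψ.op I i).mul hA).sub (hB i)).normSq).int k5.mul_right)
      z5 fun x hx y h1 hy => ?_
    rw [me n hn _ x hx y (L2 x hy).1 (c6 y h1), me n hn _ x hx y (L2 x hy).1 (c6 y h1), pl,
      pe x i _ (Wc x y (L2 x hy).1), sec_π (L3 x hy)]
  have b4 : ∀ i, ∫ y, ‖2 * D.op (-I) i (fun y => (η y : ℂ)) y‖ ^ 2 * Real.exp (φ y) *
      ‖mo n G y‖ ^ 2 ∂D.μ ≤ θ ^ 2 + θ ^ 2 := fun i => by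
    refine le_trans (le_of_eq ?_) ((Finset.sum_le_sum (h4 i)).trans ?_)
    · exact split c1 c2 L3 c3 c6 (((s4 i).mul hA.normSq).int (k4 i).mul_right) (z4 i)
        fun x hx y h1 hy => by rw [me n hn _ x hx y (L2 x hy).1 (c6 y h1)]
    · rw [Finset.sum_add_distrib]
      refine add_le_add (le_trans (le_of_eq (Eq.symm ?_)) (ηd i)) δ1
      exact split c1 c2 L3 c3 c6 (hG2.integrable_smul_left_of_hasCompactSupport (s4 i).cont (k4 i))
        (z4 i) fun x _ y _ hy => by rw [lc_π G (L3 x hy) (Wc x y (L2 x hy).1)]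
  have b := (Finset.single_le_sum (fun i _ => integral_nonneg fun x => by positivity)
    (Finset.mem_univ j)).trans ((energy hφ hη hc hA hB dv).trans (mul_le_mul_of_nonneg_left
      (Finset.sum_le_sum fun i _ => add_le_add (b5 i) (b4 i)) (by norm_num)))
  refine (test_le hφ hη hc hA ha hac ηK j θ0).trans ?_
  rw [mul_add θ]
  refine add_le_add ((mul_le_mul_of_nonneg_left b (by positivity)).trans_eq ?_) le_rfl
  rw [Finset.sum_const, Finset.card_univ, nsmul_eq_mul]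
  field_simp
  ring

theorem locInt_of_sq {g : S → ℂ} (hm : AEStronglyMeasurable g D.μ)
    (h2 : LocallyIntegrable (fun y => ‖g y‖ ^ 2) D.μ) : LocallyIntegrable g D.μ := by
  refine (h2.add (locallyIntegrable_const (1 : ℝ))).mono hm (.of_forall fun x => ?_)
  refine le_trans ?_ (le_abs_self _)
  rw [Pi.add_apply]
  nlinarith [sq_nonneg (‖g x‖ - 1), norm_nonneg (g x)]

/-- Caccioppoli: orthogonal to all `box φ v` implies weakly holomorphic -/
theorem cacc {φ : S → ℝ} (hφ : D.Sm φ) {g : S → ℂ} (hg : AEStronglyMeasurable g D.μ)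
    (h2 : LocallyIntegrable (fun y => ‖g y‖ ^ 2) D.μ)
    (ho : ∀ v : S → ℂ, D.Sm v → HasCompactSupport v →
      ∫ y, g y * conj (D.box φ v y) * (Real.exp (-φ y) : ℂ) ∂D.μ = 0)
    (hcut : ∀ K, IsCompact K → ∀ θ : ℝ, 0 < θ → ∃ η : S → ℝ, D.Sm η ∧ HasCompactSupport η ∧
      (∀ y ∈ K, η y = 1) ∧ ∀ i, ∫ y, ‖2 * D.op (-I) i (fun y => (η y : ℂ)) y‖ ^ 2 *
        Real.exp (-φ y) * ‖g y‖ ^ 2 ∂D.μ ≤ θ)
    {a : S → ℂ} (ha : D.Sm a) (hac : HasCompactSupport a) (j : ι) :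
    ∫ y, g y * D.op I j a y ∂D.μ = 0 := by
  have := D.wlc
  have hψ := hφ.ofReal
  have n2 : ∀ y, ‖g y * (Real.exp (-φ y) : ℂ)‖ ^ 2 = ‖g y‖ ^ 2 * Real.exp (-φ y) ^ 2 := fun y => by
    rw [norm_mul, norm_real, Real.norm_of_nonneg (Real.exp_pos _).le, mul_pow]
  have e : ∫ y, cexp (φ y) * D.op I j a y * (g y * (Real.exp (-φ y) : ℂ)) ∂D.μ =
      ∫ y, g y * D.op I j a y ∂D.μ := by
    congr 1
    funext x
    simp only [ofReal_exp, ofReal_neg, Complex.exp_neg]
    field_simp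
  have key : ∀ θ : ℝ, 0 < θ → ‖∫ y, g y * D.op I j a y ∂D.μ‖ ≤
      θ * (9 * Fintype.card ι + ∫ y, Real.exp (φ y) * ‖a y‖ ^ 2 ∂D.μ) := fun θ θ0 => by
    obtain ⟨η, hη, hc, ηK, ηd⟩ := hcut _ hac.isCompact (θ ^ 2) (by positivity)
    rw [← e]
    refine cacc0 hφ (G := fun y => g y * (Real.exp (-φ y) : ℂ)) (hg.mul hφ.wt.cont.aestronglyMeasurable)
      ((locInt_of_sq hg h2).mul_continuous hφ.wt.cont) ?_ (fun v hv hc => ?_) ha hac j θ0 hη hc ηK
      fun i => le_trans (le_of_eq ?_) (ηd i)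
    · simp only [n2]
      exact h2.mul_continuous (hφ.neg.rexp.cont.pow 2)
    · rw [← ho _ hv.conj (supp_conj hc)]
      congr 1
      funext x
      rw [mul_right_comm, box, map_sum]
      refine congrArg (fun t => g x * t * _) (Finset.sum_congr rfl fun j _ => ?_)
      have e1 : D.op I j (fun y => conj (v y)) = fun y => conj (D.op (-I) j v y) := by
        funext y; rw [op_conj _ _ hv, conj_I]
      rw [dz_eq, dz_eq, dzb_eq, e1, op_conj _ _ (hv.op _ _), map_sub, map_mul, conj_op hφ]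
      simp
    · congr 1
      funext x
      rw [n2, Real.exp_neg]
      field_simp
  have t : Tendsto (fun θ : ℝ => θ * (9 * Fintype.card ι + ∫ y, Real.exp (φ y) * ‖a y‖ ^ 2 ∂D.μ))
      (𝓝[>] 0) (𝓝 0) :=
    (Continuous.tendsto' (by fun_prop) _ _ (by simp)).mono_left nhdsWithin_le_nhds
  exact norm_le_zero_iff.1 (ge_of_tendsto t (eventually_nhdsWithin_of_forall key))

end RD

end

end Pool.Agent.Lib.MP_5c318e_ag
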