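import Pool.Agent.Lib.MP_5c318e_ag.RD.RWeyl
import Pool.Agent.Lib.MP_9ff3e7_ag.F.Horm0

/-! The Hilbert space steps of the `L²` estimate on a Riemann domain. -/

set_option autoImplicit false
set_option linter.unusedSectionVars false

namespace Pool.Agent.Lib.MP_5c318e_ag

open MeasureTheory Set Filter Topology Complex
open scoped ContDiff ComplexConjugate InnerProductSpace
open Pool.Agent.Lib.MP_9ff3e7_ag Pool.Agent.Lib.MP_9ff3e7_ag.F

noncomputable section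

namespace RD

theorem hahn {V H : Type} [AddCommGroup V] [Module ℂ V] [NormedAddCommGroup H]
    [InnerProductSpace ℂ H] [CompleteSpace H] (T : V →ₗ[ℂ] H) (l : V →ₗ[ℂ] ℂ) {c : ℝ} (c0 : 0 ≤ c)
    (h : ∀ v, ‖l v‖ ≤ c * ‖T v‖) : ∃ w : H, ‖w‖ ≤ c ∧ ∀ v, ⟪w, T v⟫_ℂ = l v := by
  obtain ⟨g, hg⟩ := T.rangeRestrict.exists_rightInverse_of_surjective T.range_rangeRestrict
  have e : ∀ y : LinearMap.range T, T (g y) = y := fun y =>
    congrArg Subtype.val (LinearMap.congr_fun hg y)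
  have b : ∀ y : LinearMap.range T, ‖(l ∘ₗ g) y‖ ≤ c * ‖y‖ := fun y =>
    (h (g y)).trans_eq (by rw [e]; rfl)
  obtain ⟨L, L1, L2⟩ := exists_extension_norm_eq (LinearMap.range T) ((l ∘ₗ g).mkContinuous c b)
  refine ⟨(InnerProductSpace.toDual ℂ H).symm L, ?_, fun v => ?_⟩
  · rw [LinearIsometryEquiv.norm_map, L2]
    exact LinearMap.mkContinuous_norm_le _ c0 b
  · rw [InnerProductSpace.toDual_symm_apply, L1 ⟨T v, v, rfl⟩]
    have := h (g ⟨T v, v, rfl⟩ - v)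
    rw [map_sub T, e, sub_self, norm_zero, mul_zero, norm_le_zero_iff, map_sub, sub_eq_zero] at this
    exact this

section L2

variable {S : Type} [MeasurableSpace S] {μ : Measure S}

theorem norm_sq (y : Lp ℂ 2 μ) : ‖y‖ ^ 2 = ∫ x, ‖y x‖ ^ 2 ∂μ := by
  rw [@norm_sq_eq_re_inner ℂ, L2.inner_def, ← integral_re (L2.integrable_inner y y)]
  simp only [← norm_sq_eq_re_inner]

theorem int_sq (y : Lp ℂ 2 μ) : Integrable (fun x => ‖y x‖ ^ 2) μ :=
  (memLp_two_iff_integrable_sq_norm (Lp.aestronglyMeasurable y)).1 (Lp.memLp y)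

theorem inner_ae (y u : Lp ℂ 2 μ) {a b : S → ℂ} (hy : y =ᵐ[μ] a) (hu : u =ᵐ[μ] b) :
    ⟪y, u⟫_ℂ = ∫ x, b x * conj (a x) ∂μ := by
  rw [L2.inner_def]
  refine integral_congr_ae ?_
  filter_upwards [hy, hu] with x h1 h2
  rw [h1, h2, RCLike.inner_apply]

theorem norm_ae (y : Lp ℂ 2 μ) {a : S → ℂ} (hy : y =ᵐ[μ] a) : ‖y‖ ^ 2 = ∫ x, ‖a x‖ ^ 2 ∂μ := by
  rw [norm_sq]
  refine integral_congr_ae ?_
  filter_upwards [hy] with x h1
  rw [h1]

/-- `exp (r / 2)` as a complex number -/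
def rt (r : ℝ) : ℂ := (Real.exp (r / 2) : ℝ)

theorem rt_mul (r s : ℝ) : rt r * rt s = (Real.exp ((r + s) / 2) : ℝ) := by
  rw [rt, rt, ← ofReal_mul, ← Real.exp_add, add_div]

theorem rt_conj (r : ℝ) : conj (rt r) = rt r := conj_ofReal _

theorem rt_norm (r : ℝ) (a : ℂ) : ‖a * rt r‖ ^ 2 = ‖a‖ ^ 2 * Real.exp r := by
  rw [norm_mul, mul_pow, rt, Complex.norm_real, Real.norm_eq_abs, sq_abs, sq, sq (Real.exp _),
    ← Real.exp_add, add_halves]

theorem rt_cont : Continuous rt := by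
  unfold rt
  fun_prop

end L2

variable {ι : Type} [Fintype ι] [DecidableEq ι] {S : Type} [TopologicalSpace S] [MeasurableSpace S]
  [BorelSpace S] [T2Space S] (D : RD ι S)

/-- weakly holomorphic functions -/
def WH (g : S → ℂ) : Prop := LocallyIntegrable g D.μ ∧
  ∀ a : S → ℂ, D.Sm a → HasCompactSupport a → ∀ j, ∫ y, g y * D.op I j a y ∂D.μ = 0

/-- test functions that annihilate all weakly holomorphic functions -/
def Ann : Submodule ℂ (S → ℂ) where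
  carrier := {b | Continuous b ∧ HasCompactSupport b ∧ ∀ g, D.WH g → ∫ y, g y * b y ∂D.μ = 0}
  add_mem' := by
    rintro a b ⟨a1, a2, a3⟩ ⟨b1, b2, b3⟩
    refine ⟨a1.add b1, a2.add b2, fun g hg => ?_⟩
    simp only [Pi.add_apply, mul_add]
    exact (integral_add (hg.1.integrable_smul_right_of_hasCompactSupport a1 a2)
      (hg.1.integrable_smul_right_of_hasCompactSupport b1 b2)).trans
      ((congrArg₂ (· + ·) (a3 g hg) (b3 g hg)).trans (add_zero _))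
  zero_mem' := ⟨continuous_zero, HasCompactSupport.zero, fun g _ => by simp⟩
  smul_mem' := by
    rintro c a ⟨a1, a2, a3⟩
    refine ⟨a1.const_smul c, a2.smul_left, fun g hg => ?_⟩
    simp only [Pi.smul_apply, smul_eq_mul, mul_left_comm _ c]
    rw [integral_const_mul, a3 g hg, mul_zero]

/-- the range of `box φ` on test functions, weighted by `w` -/
def rng (φ : S → ℝ) (w : S → ℂ) : Submodule ℂ (Lp ℂ 2 D.μ) where
  carrier := {y | ∃ v : S → ℂ, D.Sm v ∧ HasCompactSupport v ∧ y =ᵐ[D.μ] fun x => D.box φ v x * w x}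
  add_mem' := by
    rintro a b ⟨v, hv, hc, e1⟩ ⟨u, hu, hd, e2⟩
    refine ⟨fun y => v y + u y, hv.add hu, hc.add hd, ?_⟩
    filter_upwards [Lp.coeFn_add a b, e1, e2] with x h0 h1 h2
    rw [h0, Pi.add_apply, h1, h2, box_add φ hv hu, add_mul]
  zero_mem' := by
    refine ⟨fun _ => 0 * 0, sm_const _,
      HasCompactSupport.intro isCompact_empty fun _ _ => mul_zero _, ?_⟩
    filter_upwards [Lp.coeFn_zero ℂ 2 D.μ] with x h0
    rw [h0, box_smul φ 0 (sm_const _)]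
    simp
  smul_mem' := by
    rintro c a ⟨v, hv, hc, e1⟩
    refine ⟨fun y => c * v y, (sm_const c).mul hv, hc.mul_left, ?_⟩
    filter_upwards [Lp.coeFn_smul c a, e1] with x h0 h1
    rw [h0, Pi.smul_apply, h1, box_smul φ c hv, smul_eq_mul, mul_assoc]

variable {D}

/-- from the a priori inequality to a holomorphic function -/
theorem riesz [SigmaCompactSpace S] {f : S → ℂ} (hf : Continuous f) {q Q : S → ℝ}
    (hm : Measurable q) (q0 : ∀ y, 0 ≤ q y) (hQ : Continuous Q) (hle : ∀ y, q y ≤ Q y) {C : ℝ}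
    (C0 : 0 ≤ C) (h : ∀ b ∈ D.Ann, ‖∫ y, f y * b y ∂D.μ‖ ^ 2 ≤ C * ∫ y, ‖b y‖ ^ 2 * q y ∂D.μ) :
    ∃ G : S → ℂ, D.Hol G ∧
      ∫⁻ x, ENNReal.ofReal (‖G x - f x‖ ^ 2) * (ENNReal.ofReal (q x))⁻¹ ∂D.μ ≤ ENNReal.ofReal C := by
  have := D.wlc
  have qm : AEStronglyMeasurable (fun y => ((√(q y) : ℝ) : ℂ)) D.μ :=
    (measurable_ofReal.comp hm.sqrt).aestronglyMeasurable
  have qc : Continuous fun y => ((√(Q y) : ℝ) : ℂ) := continuous_ofReal.comp hQ.sqrt
  have ql : ∀ (a : ℂ) y, ‖a * ((√(q y) : ℝ) : ℂ)‖ ≤ ‖a * ((√(Q y) : ℝ) : ℂ)‖ := fun a y => by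
    simp only [norm_mul, norm_real, Real.norm_of_nonneg (Real.sqrt_nonneg _)]
    exact mul_le_mul_of_nonneg_left (Real.sqrt_le_sqrt (hle y)) (norm_nonneg _)
  have qn : ∀ (a : ℂ) y, ‖a * ((√(q y) : ℝ) : ℂ)‖ ^ 2 = ‖a‖ ^ 2 * q y := fun a y => by
    rw [norm_mul, norm_real, Real.norm_of_nonneg (Real.sqrt_nonneg _), mul_pow, Real.sq_sqrt (q0 y)]
  have mem : ∀ b : D.Ann, MemLp (fun y => b.1 y * ((√(q y) : ℝ) : ℂ)) 2 D.μ := fun b =>
    ((b.2.1.mul qc).memLp_of_hasCompactSupport b.2.2.1.mul_right).of_le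
      (b.2.1.aestronglyMeasurable.mul qm) (.of_forall fun y => ql _ y)
  have fi : ∀ b : D.Ann, Integrable (fun y => f y * b.1 y) D.μ := fun b =>
    (hf.mul b.2.1).integrable_of_hasCompactSupport b.2.2.1.mul_left
  let T : D.Ann →ₗ[ℂ] Lp ℂ 2 D.μ :=
    { toFun := fun b => (mem b).toLp _
      map_add' := fun a b => by
        rw [← MemLp.toLp_add]
        exact MemLp.toLp_congr _ _ (.of_forall fun y => add_mul _ _ _)
      map_smul' := fun c a => by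
        rw [RingHom.id_apply, ← MemLp.toLp_const_smul]
        exact MemLp.toLp_congr _ _ (.of_forall fun y => mul_assoc _ _ _) }
  let l : D.Ann →ₗ[ℂ] ℂ :=
    { toFun := fun b => ∫ y, f y * b.1 y ∂D.μ
      map_add' := fun a b => by
        rw [← integral_add (fi a) (fi b)]
        exact integral_congr_ae (.of_forall fun y => mul_add _ _ _)
      map_smul' := fun c a => by
        rw [RingHom.id_apply, smul_eq_mul, ← integral_const_mul]
        exact integral_congr_ae (.of_forall fun y => mul_left_comm _ _ _) }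
  obtain ⟨w, w1, w2⟩ := hahn T l (Real.sqrt_nonneg C) fun b => by
    refine (abs_le_of_sq_le_sq' ?_ (by positivity)).2
    rw [mul_pow, Real.sq_sqrt C0, norm_ae (T b) (mem b).coeFn_toLp]
    simp only [qn]
    exact h b b.2
  have wm : AEStronglyMeasurable (fun y => conj (w y)) D.μ :=
    continuous_conj.comp_aestronglyMeasurable (Lp.aestronglyMeasurable w)
  have ul : LocallyIntegrable (fun y => conj (w y) * ((√(q y) : ℝ) : ℂ)) D.μ :=
    (((Lp.memLp w).locallyIntegrable (by norm_num)).mul_continuous qc).mono (wm.mul qm)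
      (.of_forall fun y => (ql _ y).trans_eq (by simp))
  obtain ⟨G, hG, eG⟩ := weyl (D := D) (g := fun y => f y - conj (w y) * ((√(q y) : ℝ) : ℂ))
    (hf.locallyIntegrable.sub ul) fun a ha hc j => by
      let b : D.Ann := ⟨D.op I j a, (ha.op I j).cont, op_supp I j hc, fun g hg => hg.2 a ha hc j⟩
      have e := w2 b
      rw [inner_ae w (T b) (.of_forall fun _ => rfl) (mem b).coeFn_toLp] at e
      simp only [sub_mul]
      refine (integral_sub (fi b)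
        (ul.integrable_smul_right_of_hasCompactSupport b.2.1 b.2.2.1)).trans (sub_eq_zero.2
        (e.symm.trans (integral_congr_ae (.of_forall fun y => ?_))))
      simp only [b, smul_eq_mul]
      ring
  refine ⟨G, hG, le_trans (lintegral_mono_ae (g := fun x => ENNReal.ofReal (‖w x‖ ^ 2)) ?_) ?_⟩
  · filter_upwards [eG] with x hx
    rw [hx, sub_sub_cancel_left, norm_neg, qn, norm_conj, ENNReal.ofReal_mul (sq_nonneg _), mul_assoc]
    exact mul_le_of_le_one_right' (ENNReal.mul_inv_le_one _)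
  · rw [← ofReal_integral_eq_lintegral_ofReal (int_sq _) (.of_forall fun x => sq_nonneg _),
      ← norm_sq]
    refine ENNReal.ofReal_le_ofReal ?_
    rw [← Real.sq_sqrt C0]
    exact pow_le_pow_left₀ (norm_nonneg _) w1 2

theorem add_sq_le (a b : ℂ) {ε : ℝ} (ε0 : 0 < ε) :
    ‖a + b‖ ^ 2 ≤ (1 + ε) * ‖a‖ ^ 2 + (1 + ε⁻¹) * ‖b‖ ^ 2 := by
  have h := pow_le_pow_left₀ (norm_nonneg _) (norm_add_le a b) 2
  have : 2 * ‖a‖ * ‖b‖ ≤ ε * ‖a‖ ^ 2 + ε⁻¹ * ‖b‖ ^ 2 := by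
    rw [inv_mul_eq_div, add_div' _ _ _ ε0.ne', le_div_iff₀ ε0]
    nlinarith [sq_nonneg (ε * ‖a‖ - ‖b‖)]
  nlinarith

theorem sum_mul_sq_le (u v : ι → ℂ) : ‖∑ j, u j * v j‖ ^ 2 ≤ (∑ j, ‖u j‖ ^ 2) * ∑ j, ‖v j‖ ^ 2 := by
  simpa using norm_sum_mul_conj_sq_le Finset.univ u fun j => conj (v j)

/-- the twisted Bochner inequality -/
theorem twist {Φ ψ : S → ℝ} (hΦ : D.Sm Φ) (hψ : D.Sm ψ) {ε : ℝ} (ε0 : 0 < ε) {v : S → ℂ}
    (hv : D.Sm v) (hc : HasCompactSupport v) :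
    Integrable (fun x => (D.levi Φ x (fun j => D.op I j v x) - (1 + ε⁻¹) *
      ((∑ j, ‖D.op (-I) j (fun y => (ψ y : ℂ)) x‖ ^ 2) * ∑ j, ‖D.op I j v x‖ ^ 2)) *
        Real.exp (-Φ x)) D.μ ∧
    ∫ x, (D.levi Φ x (fun j => D.op I j v x) - (1 + ε⁻¹) *
      ((∑ j, ‖D.op (-I) j (fun y => (ψ y : ℂ)) x‖ ^ 2) * ∑ j, ‖D.op I j v x‖ ^ 2)) *
        Real.exp (-Φ x) ∂D.μ ≤
      (1 + ε) * ∫ x, ‖D.box (fun y => Φ y - ψ y) v x‖ ^ 2 * Real.exp (-Φ x) ∂D.μ := by
  have i1 := levi_int hΦ hv hc hΦ.neg.rexp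
  have i2 : Integrable (fun x => (1 + ε⁻¹) * ((∑ j, ‖D.op (-I) j (fun y => (ψ y : ℂ)) x‖ ^ 2) *
      ∑ j, ‖D.op I j v x‖ ^ 2) * Real.exp (-Φ x)) D.μ :=
    (((sm_const _).mul ((sm_sum _ fun j _ => (hψ.ofReal.op _ j).normSq).mul
      (sm_sum _ fun j _ => (hv.op I j).normSq))).mul hΦ.neg.rexp).int
      (HasCompactSupport.intro hc fun x hx => by simp [op_zero I _ hx])
  have i3 : ∀ {φ : S → ℝ}, D.Sm φ →
      Integrable (fun x => ‖D.box φ v x‖ ^ 2 * Real.exp (-Φ x)) D.μ := fun {φ} hφ =>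
    ((box_sm hφ hv).normSq.mul hΦ.neg.rexp).int
      (HasCompactSupport.intro hc fun x hx => by simp [box_zero _ hx])
  simp only [sub_mul]
  refine ⟨i1.sub i2, ?_⟩
  rw [integral_sub i1 i2, sub_le_iff_le_add, ← integral_const_mul,
    ← integral_add ((i3 (hΦ.sub hψ)).const_mul _) i2]
  refine (bochner hΦ hv hc).trans (integral_mono (i3 hΦ) (((i3 (hΦ.sub hψ)).const_mul _).add i2)
    fun x => ?_)
  have e : D.box Φ v x = D.box (fun y => Φ y - ψ y) v x +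
      ∑ j, D.op (-I) j (fun y => (ψ y : ℂ)) x * D.op I j v x := by
    simp only [box, dz_eq, dzb_eq, ofReal_sub, op_sub _ _ hΦ.ofReal hψ.ofReal,
      ← Finset.sum_add_distrib]
    exact Finset.sum_congr rfl fun j _ => by ring
  simp only [e, ← mul_assoc, ← add_mul]
  refine mul_le_mul_of_nonneg_right ((add_sq_le _ _ ε0).trans (add_le_add le_rfl ?_))
    (Real.exp_pos _).le
  rw [mul_assoc]
  exact mul_le_mul_of_nonneg_left (sum_mul_sq_le _ _) (by positivity)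

/-- the a priori inequality with three weights -/
theorem core {Φ ψ : S → ℝ} (hΦ : D.Sm Φ) (hψ : D.Sm ψ) {ε : ℝ} (ε0 : 0 < ε) {f : S → ℂ}
    (hf : D.Sm f) (fc : HasCompactSupport f) {h : S → ℝ} (h0 : ∀ x, 0 ≤ h x)
    (hi : Integrable (fun x => h x * Real.exp (-Φ x)) D.μ)
    (L0 : ∀ x ξ, 0 ≤ D.levi Φ x ξ - (1 + ε⁻¹) *
      ((∑ j, ‖D.op (-I) j (fun y => (ψ y : ℂ)) x‖ ^ 2) * ∑ j, ‖ξ j‖ ^ 2))
    (hb : ∀ x ξ, (‖D.dbar f x ξ‖ * Real.exp (ψ x)) ^ 2 ≤ h x * (D.levi Φ x ξ - (1 + ε⁻¹) *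
      ((∑ j, ‖D.op (-I) j (fun y => (ψ y : ℂ)) x‖ ^ 2) * ∑ j, ‖ξ j‖ ^ 2)))
    (hcut : ∀ N : S → ℝ, Integrable N D.μ → (∀ y, 0 ≤ N y) → ∀ K, IsCompact K → ∀ θ : ℝ, 0 < θ →
      ∃ η : S → ℝ, D.Sm η ∧ HasCompactSupport η ∧ (∀ y ∈ K, η y = 1) ∧ ∀ i,
        ∫ y, ‖2 * D.op (-I) i (fun y => (η y : ℂ)) y‖ ^ 2 * Real.exp (-ψ y) * N y ∂D.μ ≤ θ)
    {b : S → ℂ} (hA : b ∈ D.Ann) :
    ‖∫ y, f y * b y ∂D.μ‖ ^ 2 ≤ (1 + ε) * (∫ x, h x * Real.exp (-Φ x) ∂D.μ) *
      ∫ y, ‖b y‖ ^ 2 * Real.exp (Φ y - 2 * ψ y) ∂D.μ := by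
  have := D.wlc
  have h2 := hΦ.sub hψ
  have c1 : Continuous fun x => Φ x - 2 * ψ x := hΦ.cont.sub (continuous_const.mul hψ.cont)
  have hw0 : ∀ x, 0 ≤ h x * Real.exp (-Φ x) := fun x => mul_nonneg (h0 x) (Real.exp_pos _).le
  set C := ∫ x, h x * Real.exp (-Φ x) ∂D.μ with hC
  have C0 : 0 ≤ C := integral_nonneg hw0
  have fm : MemLp (fun x => f x * rt (-(Φ x - 2 * ψ x))) 2 D.μ :=
    (hf.cont.mul (rt_cont.comp c1.neg)).memLp_of_hasCompactSupport fc.mul_right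
  have key : ∀ (u : Lp ℂ 2 D.μ) (g : S → ℂ), (u =ᵐ[D.μ] fun x => g x * rt (-(Φ x - 2 * ψ x))) →
      ∀ (y : Lp ℂ 2 D.μ) (v : S → ℂ),
        (y =ᵐ[D.μ] fun x => D.box (fun y => Φ y - ψ y) v x * rt (-Φ x)) →
      ⟪y, u⟫_ℂ = ∫ x, g x * conj (D.box (fun y => Φ y - ψ y) v x) *
        (Real.exp (-(Φ x - ψ x)) : ℂ) ∂D.μ := fun u g e y v e1 => by
    rw [inner_ae y u e1 e]
    congr 1
    funext x
    rw [map_mul, rt_conj, mul_mul_mul_comm, rt_mul]
    congr 3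
    ring
  obtain ⟨g, hg, hn⟩ := Hz.proj (D.rng (fun y => Φ y - ψ y) fun x => rt (-Φ x)) (fm.toLp _)
    (c := √C * √(1 + ε)) (by positivity) (by
    rintro y ⟨v, hv, hvc, e⟩
    rw [key _ f fm.coeFn_toLp y v e, pair_box h2 hv hvc hf, mul_assoc]
    refine (norm_integral_le_integral_norm _).trans (Hz.quad C0 (by positivity) fun t => ?_)
    obtain ⟨li, tw⟩ := twist hΦ hψ ε0 hv hvc
    rw [mul_pow, Real.sq_sqrt (by positivity), norm_ae y e]
    simp only [rt_norm]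
    refine le_trans ?_ (add_le_add_right tw _)
    rw [hC, ← integral_const_mul, ← integral_const_mul, ← integral_add (hi.const_mul _) li]
    by_cases ht : t ≤ 0
    · refine le_trans (integral_nonpos fun x => ?_) (integral_nonneg fun x => ?_)
      · exact mul_nonpos_of_nonpos_of_nonneg (by linarith) (norm_nonneg _)
      · exact add_nonneg (mul_nonneg (sq_nonneg t) (hw0 x))
          (mul_nonneg (L0 _ _) (Real.exp_pos _).le)
    refine integral_mono_of_nonneg (.of_forall fun x => ?_) ((hi.const_mul _).add li)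
      (.of_forall fun x => ?_)
    · exact mul_nonneg (by linarith) (norm_nonneg _)
    · have := mul_le_mul_of_nonneg_right (Hz.ptw (h0 x) (L0 x _) (hb x fun j => D.op I j v x) t)
        (Real.exp_pos (-Φ x)).le
      simp only [norm_mul, Complex.norm_real, Real.norm_eq_abs, Real.abs_exp]
      rw [neg_sub, sub_eq_add_neg (ψ x), Real.exp_add]
      linarith)
  set G : S → ℂ := fun x => g x * rt (Φ x - 2 * ψ x) with hG
  have eG : ∀ x, g x = G x * rt (-(Φ x - 2 * ψ x)) := fun x => by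
    rw [hG, mul_assoc, rt_mul]
    simp
  have ric : Continuous fun x => rt (Φ x - 2 * ψ x) := rt_cont.comp c1
  have Gm : AEStronglyMeasurable G D.μ := (Lp.aestronglyMeasurable g).mul ric.aestronglyMeasurable
  have G2 : LocallyIntegrable (fun y => ‖G y‖ ^ 2) D.μ := by
    simp only [hG, rt_norm]
    exact (int_sq g).locallyIntegrable.mul_continuous c1.rexp
  have Gw : D.WH G := ⟨locInt_of_sq Gm G2, fun a ha hc j => cacc h2 Gm G2 (fun v hv hvc => by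
    have vm : MemLp (fun x => D.box (fun y => Φ y - ψ y) v x * rt (-Φ x)) 2 D.μ :=
      ((box_sm h2 hv).cont.mul (rt_cont.comp hΦ.cont.neg)).memLp_of_hasCompactSupport
        (box_supp _ hvc).mul_right
    rw [← key g G (.of_forall eG) (vm.toLp _) v vm.coeFn_toLp]
    exact hg _ ⟨v, hv, hvc, vm.coeFn_toLp⟩) (fun K hK θ θ0 => by
    obtain ⟨η, η1, η2, η3, η4⟩ := hcut _ (int_sq g) (fun _ => sq_nonneg _) K hK θ θ0
    refine ⟨η, η1, η2, η3, fun i => le_trans (le_of_eq ?_) (η4 i)⟩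
    congr 1
    funext y
    simp only [hG]
    rw [rt_norm, mul_assoc, mul_assoc, mul_left_comm (Real.exp _), ← Real.exp_add,
      mul_comm (Real.exp _)]
    congr 3
    ring) ha hc j⟩
  have bm : MemLp (fun x => conj (b x) * rt (Φ x - 2 * ψ x)) 2 D.μ :=
    ((continuous_conj.comp hA.1).mul ric).memLp_of_hasCompactSupport (supp_conj hA.2.1).mul_right
  have kb : ∀ (u : Lp ℂ 2 D.μ) (k : S → ℂ), (u =ᵐ[D.μ] fun x => k x * rt (-(Φ x - 2 * ψ x))) →
      ⟪bm.toLp _, u⟫_ℂ = ∫ x, k x * b x ∂D.μ := fun u k e => by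
    rw [inner_ae _ u bm.coeFn_toLp e]
    congr 1
    funext x
    rw [map_mul, rt_conj, conj_conj, mul_mul_mul_comm, rt_mul]
    simp
  have := norm_inner_le_norm (𝕜 := ℂ) (bm.toLp _) (g - fm.toLp _)
  rw [inner_sub_right, kb g G (.of_forall eG), hA.2.2 G Gw, kb _ f fm.coeFn_toLp, zero_sub,
    norm_neg] at this
  refine (pow_le_pow_left₀ (norm_nonneg _) (this.trans
    (mul_le_mul_of_nonneg_left hn (norm_nonneg _))) 2).trans_eq ?_
  rw [mul_pow, mul_pow, Real.sq_sqrt C0, Real.sq_sqrt (by positivity), norm_ae _ bm.coeFn_toLp]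
  simp only [rt_norm, norm_conj]
  ring

end RD

end

end Pool.Agent.Lib.MP_5c318e_ag
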