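import Pool.Agent.Lib.MP_9ff3e7_ag.F.HOps

/-! Riemann domains over `ℂ^ι`: local sections, smooth and holomorphic functions, the operators
`∂_j`, `∂̄_j`, the Levi form, exhaustion functions. -/

set_option autoImplicit false

namespace Pool.Agent.Lib.MP_5c318e_ag

open MeasureTheory Set
open scoped ContDiff
open Pool.Agent.Lib.MP_9ff3e7_ag

noncomputable section

/-- a space spread over `ℂ^ι`, with the lifted Lebesgue measure -/
structure RD (ι : Type) [Fintype ι] (S : Type) [TopologicalSpace S] [MeasurableSpace S] where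
  π : S → (ι → ℂ)
  loc : IsLocalHomeomorph π
  μ : Measure S
  vol : ∀ A : Set S, MeasurableSet A → InjOn π A → μ A = volume (π '' A)

namespace RD

variable {ι : Type} [Fintype ι] {S : Type} [TopologicalSpace S] [MeasurableSpace S] (D : RD ι S)

/-- a chart at `x` whose map is `π` -/
def ch (x : S) : OpenPartialHomeomorph S (ι → ℂ) := (D.loc x).choose

/-- the local section of `π` through `x` -/
def sec (x : S) : (ι → ℂ) → S := (D.ch x).symm

/-- smooth functions -/
def Sm {E : Type} [NormedAddCommGroup E] [NormedSpace ℝ E] (f : S → E) : Prop :=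
  ∀ x, ContDiffAt ℝ ∞ (fun z => f (D.sec x z)) (D.π x)

/-- holomorphic functions -/
def Hol {E : Type} [NormedAddCommGroup E] [NormedSpace ℂ E] (f : S → E) : Prop :=
  ∀ x, DifferentiableAt ℂ (fun z => f (D.sec x z)) (D.π x)

/-- the antilinear part of the derivative -/
def dbar (f : S → ℂ) (x : S) (ξ : ι → ℂ) : ℂ := F.dbar (fun z => f (D.sec x z)) (D.π x) ξ

/-- the Levi form -/
def levi (φ : S → ℝ) (x : S) (ξ : ι → ℂ) : ℝ := F.levi (fun z => φ (D.sec x z)) (D.π x) ξ

/-- smooth plurisubharmonic functions -/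
def Psh (φ : S → ℝ) : Prop := D.Sm φ ∧ ∀ x ξ, 0 ≤ D.levi φ x ξ

/-- a smooth plurisubharmonic exhaustion function -/
def Exh (s : S → ℝ) : Prop := D.Psh s ∧ ∀ c : ℝ, IsCompact {x | s x ≤ c}

variable [DecidableEq ι]

/-- `∂f/∂z_j` -/
def dz (j : ι) (f : S → ℂ) (x : S) : ℂ := F.dz j (fun z => f (D.sec x z)) (D.π x)

/-- `∂f/∂z̄_j` -/
def dzb (j : ι) (f : S → ℂ) (x : S) : ℂ := F.dzb j (fun z => f (D.sec x z)) (D.π x)

/-- `- ∑ (∂_j - φ_j) ∂̄_j v` -/
def box (φ : S → ℝ) (v : S → ℂ) (x : S) : ℂ :=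
  ∑ j, (D.dz j (fun y => (φ y : ℂ)) x * D.dzb j v x - D.dz j (D.dzb j v) x)

end RD

end

end Pool.Agent.Lib.MP_5c318e_ag
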