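import Pool.Agent.Lib.MP_5c318e_ag.RD.RCacc

/-! Weyl's lemma for `∂̄` on a Riemann domain. -/

set_option autoImplicit false
set_option linter.unusedSectionVars false

namespace Pool.Agent.Lib.MP_5c318e_ag

open MeasureTheory Set Filter Topology Complex Metric ContinuousLinearMap
open scoped ContDiff ComplexConjugate Convolution
open Pool.Agent.Lib.MP_9ff3e7_ag Pool.Agent.Lib.MP_9ff3e7_ag.F

noncomputable section

namespace RD

variable {ι : Type} [Fintype ι] [DecidableEq ι]

theorem mean_loc {G s : (ι → ℂ) → ℂ} (hG : Continuous G) {x : ι → ℂ} {r : ℝ}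
    (hd : ∀ z ∈ closedBall x r, DifferentiableAt ℂ G z) (hs : Continuous s)
    (h0 : ∀ t, t ∉ closedBall (0 : ι → ℂ) r → s t = 0)
    (hr : ∀ (e : ℂ) t, ‖e‖ = 1 → s (e • t) = s t) : ∫ t, G (x - t) * s t = G x * ∫ t, s t := by
  have c : Continuous fun p : Osg.Tc × (ι → ℂ) => G (x - fourier 1 p.1 • p.2) * s p.2 :=
    (hG.comp (continuous_const.sub
      (((fourier 1).continuous.comp continuous_fst).smul continuous_snd))).mul
      (hs.comp continuous_snd)
  have k : HasCompactSupport fun p : Osg.Tc × (ι → ℂ) => G (x - fourier 1 p.1 • p.2) * s p.2 :=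
    HasCompactSupport.intro (isCompact_univ.prod (isCompact_closedBall 0 r)) fun p hp => by
      rw [h0 _ fun h => hp ⟨trivial, h⟩, mul_zero]
  calc _ = ∫ θ : Osg.Tc, ∫ t, G (x - fourier 1 θ • t) * s t ∂volume ∂AddCircle.haarAddCircle := by
        have : ∀ θ : Osg.Tc, ∫ t, G (x - fourier 1 θ • t) * s t = ∫ t, G (x - t) * s t := fun θ => by
          rw [← Weyl.rot (Osg.nrm θ) fun t => G (x - t) * s t]
          simp only [hr _ _ (Osg.nrm θ)]
        simp only [this, integral_const, probReal_univ, one_smul]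
    _ = ∫ t, ∫ θ : Osg.Tc, G (x - fourier 1 θ • t) * s t ∂AddCircle.haarAddCircle :=
        integral_integral_swap (c.integrable_of_hasCompactSupport k)
    _ = _ := by
        rw [← integral_const_mul]
        congr 1
        funext t
        by_cases ht : t ∈ closedBall (0 : ι → ℂ) r
        swap
        · simp [h0 t ht]
        have d0 : Differentiable ℂ fun e : ℂ => x - e • t :=
          (differentiable_const _).sub (differentiable_id.smul_const t)
        have d : DiffContOnCl ℂ (fun e : ℂ => G (x - e • t)) (ball 0 |1|) := by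
          refine ⟨fun e he => ((hd _ ?_).comp e (d0 e)).differentiableWithinAt,
            (hG.comp d0.continuous).continuousOn⟩
          rw [mem_closedBall, dist_eq_norm, sub_sub_cancel_left, norm_neg, norm_smul]
          rw [mem_ball_zero_iff, abs_one] at he
          exact (mul_le_of_le_one_left (norm_nonneg _) he.le).trans (mem_closedBall_zero_iff.1 ht)
        rw [integral_mul_const, Osg.avg fun e => G (x - e • t), d.circleAverage]
        simp

theorem sg_zero {t : ι → ℂ} (ht : 1 < ‖t‖) : Weyl.sg t = 0 := by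
  refine expNegInvGlue.zero_of_nonpos ?_
  by_contra hlt
  refine ht.not_ge ((pi_norm_le_iff_of_nonneg zero_le_one).2 fun j => ?_)
  have := Finset.single_le_sum (f := fun j => ‖t j‖ ^ 2) (fun _ _ => sq_nonneg _)
    (Finset.mem_univ j)
  nlinarith [norm_nonneg (t j)]

/-- Weyl's lemma on a ball -/
theorem weyl_loc {g : (ι → ℂ) → ℂ} (hg : LocallyIntegrable g volume) {p : ι → ℂ} {r : ℝ}
    (r0 : 0 < r) (h : ∀ a : (ι → ℂ) → ℂ, ContDiff ℝ ∞ a →
      (∀ z, z ∉ closedBall p (2 * r) → a z = 0) → ∀ ξ, ∫ x, g x * F.dbar a x ξ = 0) :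
    ∃ G : (ι → ℂ) → ℂ, (∀ z ∈ ball p r, DifferentiableAt ℂ G z) ∧
      ∀ᵐ z, z ∈ ball p r → G z = g z := by
  have hol : ∀ {a : (ι → ℂ) → ℂ}, ContDiff ℝ ∞ a → HasCompactSupport a → ∀ x,
      (∀ t, t ∉ closedBall p (2 * r) → a (x - t) = 0) →
      DifferentiableAt ℂ (g ⋆[mul ℝ ℂ, volume] a) x := fun {a} ha hc x hx => by
    refine Weyl.diff_of_dbar
      (hc.hasFDerivAt_convolution_right (mul ℝ ℂ) hg (ha.of_le (by simp)) x).differentiableAt
      fun ξ => ?_
    have := h (fun t => a (x - t)) (ha.comp (contDiff_const.sub contDiff_id)) hx ξ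
    rw [Weyl.cv_dbar hg ha hc, ← neg_eq_zero, ← integral_neg, ← this]
    congr 1
    funext t
    rw [F.dbar, F.dbar, Weyl.fderiv_refl ha, Weyl.fderiv_refl ha]
    ring
  let σ : (ι → ℂ) → ℝ := fun t => Weyl.sg (r⁻¹ • t)
  have σ1 : ContDiff ℝ ∞ σ := Weyl.sg_smooth.comp (contDiff_const_smul _)
  have σ0 : ∀ t, t ∉ closedBall (0 : ι → ℂ) r → σ t = 0 := fun t ht => sg_zero (by
    rw [mem_closedBall_zero_iff, not_le] at ht
    rwa [norm_smul, norm_inv, Real.norm_of_nonneg r0.le, inv_mul_eq_div, one_lt_div r0])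
  let s : (ι → ℂ) → ℂ := fun t => (σ t : ℂ)
  have s1 : ContDiff ℝ ∞ s := ofRealCLM.contDiff.comp σ1
  have s0 : ∀ t, t ∉ closedBall (0 : ι → ℂ) r → s t = 0 := fun t ht => by
    simp only [s, σ0 t ht, ofReal_zero]
  have s2 : HasCompactSupport s := HasCompactSupport.intro (isCompact_closedBall 0 r) s0
  have s3 : (∫ t, s t) ≠ 0 := by
    rw [integral_complex_ofReal]
    exact ofReal_ne_zero.2 (σ1.continuous.integral_pos_of_hasCompactSupport_nonneg_nonzero
      (HasCompactSupport.intro (isCompact_closedBall 0 r) σ0) (fun _ => expNegInvGlue.nonneg _)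
      (x := 0) (expNegInvGlue.pos_of_pos (by simp)).ne').ne'
  have cF : Continuous fun x => (∫ t, s t)⁻¹ * (g ⋆[mul ℝ ℂ, volume] s) x :=
    continuous_const.mul (s2.continuous_convolution_right _ hg s1.continuous)
  refine ⟨fun x => (∫ t, s t)⁻¹ * (g ⋆[mul ℝ ℂ, volume] s) x, fun z hz =>
    (hol s1 s2 z fun t ht => s0 _ fun h1 => ht (ball_sub hz le_rfl ?_)).const_mul _, ?_⟩
  · rwa [mem_closedBall, dist_comm, dist_eq_norm, ← mem_closedBall_zero_iff]
  simp only [← sub_eq_zero (b := g _)]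
  refine isOpen_ball.ae_eq_zero_of_integral_contDiff_smul_eq_zero
    ((cF.locallyIntegrable.sub hg).locallyIntegrableOn _) fun ψ p1 p2 p3 => ?_
  simp only [smul_sub]
  rw [integral_sub (cF.locallyIntegrable.integrable_smul_left_of_hasCompactSupport p1.continuous p2)
    (hg.integrable_smul_left_of_hasCompactSupport p1.continuous p2), sub_eq_zero]
  let a : (ι → ℂ) → ℂ := fun t => (ψ (-t) : ℂ)
  have a1 : ContDiff ℝ ∞ a := ofRealCLM.contDiff.comp (p1.comp contDiff_neg)
  have a2 : HasCompactSupport a :=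
    (p2.comp_homeomorph (Homeomorph.neg _)).comp_left (g := fun r : ℝ => (r : ℂ)) ofReal_zero
  have e : ∀ u : (ι → ℂ) → ℂ, (a ⋆[mul ℝ ℂ, volume] u) 0 = ∫ x, ψ x • u x := fun u => by
    rw [convolution_def, ← integral_neg_eq_self]
    simp [a]
  have fl : a ⋆[mul ℝ ℂ, volume] g = g ⋆[mul ℝ ℂ, volume] a := by
    rw [← convolution_flip, flip_mul]
  have gn : LocallyIntegrable (fun x => ‖g x‖) volume := fun x => (hg x).norm
  have as := convolution_assoc (mul ℝ ℂ) (mul ℝ ℂ) (mul ℝ ℂ) (mul ℝ ℂ) (f := a) (g := g) (k := s)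
    (μ := volume) (ν := volume) (fun x y z => mul_assoc x y z) (x₀ := 0)
    a1.continuous.aestronglyMeasurable hg.aestronglyMeasurable s1.continuous.aestronglyMeasurable
    (.of_forall (a2.convolutionExists_left _ a1.continuous hg))
    (.of_forall (s2.norm.convolutionExists_right _ gn s1.continuous.norm))
    (a2.norm.convolutionExists_left _ a1.continuous.norm
      (s2.norm.continuous_convolution_right _ gn s1.continuous.norm).locallyIntegrable 0)
  rw [e, convolution_eq_swap] at as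
  have mv := mean_loc (a2.continuous_convolution_right (mul ℝ ℂ) hg a1.continuous) (x := 0) (r := r)
    (fun z hz => hol a1 a2 z fun t ht => by
      by_contra h0
      have h1 : -(z - t) ∈ ball p r := p3 (subset_tsupport _ fun h2 => h0 (by simp only [a, h2]; rfl))
      refine ht (ball_sub h1 le_rfl ?_)
      rwa [mem_closedBall, dist_eq_norm, neg_sub, sub_sub_cancel, ← mem_closedBall_zero_iff])
    s1.continuous s0 (fun e t he => by simp only [s, σ, smul_comm r⁻¹ e t, Weyl.sg_rot e _ he])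
  rw [← fl, e] at mv
  simp only [mul_apply'] at as
  rw [mv] at as
  simp only [← mul_smul_comm]
  rw [integral_const_mul, ← as]
  field_simp

variable {S : Type} [TopologicalSpace S] [MeasurableSpace S] [BorelSpace S] {D : RD ι S}

theorem ae_up (x : S) {P : (ι → ℂ) → Prop} (h : ∀ᵐ z, P z) :
    ∀ᵐ y ∂D.μ, y ∈ (D.ch x).source → P (D.π y) := by
  obtain ⟨N, h1, hN, h0⟩ := exists_measurable_superset_of_null (ae_iff.1 h)
  refine ae_iff.2 (measure_mono_null (t := (D.ch x).source ∩ D.π ⁻¹' N) (fun y hy => ?_) ?_)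
  · exact ⟨(Classical.not_imp.1 hy).1, h1 (Classical.not_imp.1 hy).2⟩
  · rw [D.vol _ ((D.ch x).open_source.measurableSet.inter (D.cont_π.measurable hN))
      ((D.injOn_src x).mono inter_subset_left)]
    refine measure_mono_null ?_ h0
    rintro _ ⟨y, hy, rfl⟩
    exact hy.2

instance : D.μ.IsOpenPosMeasure := ⟨fun U hU ⟨x, hx⟩ h => by
  have ho := hU.inter (D.ch x).open_source
  have := measure_mono_null (inter_subset_left (t := (D.ch x).source)) h
  rw [D.vol _ ho.measurableSet ((D.injOn_src x).mono inter_subset_right)] at this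
  exact (D.loc.isOpenMap _ ho).measure_ne_zero _ ⟨_, x, ⟨hx, D.mem_src x⟩, rfl⟩ this⟩

variable [T2Space S] [SigmaCompactSpace S]

/-- Weyl's lemma -/
theorem weyl {g : S → ℂ} (hg : LocallyIntegrable g D.μ)
    (h : ∀ a : S → ℂ, D.Sm a → HasCompactSupport a → ∀ j, ∫ y, g y * D.op I j a y ∂D.μ = 0) :
    ∃ G : S → ℂ, D.Hol G ∧ G =ᵐ[D.μ] g := by
  choose R R0 hR using fun x => D.exists_rad x univ_mem
  obtain ⟨ρ, ρ0, hρ⟩ : ∃ ρ : S → ℝ, (∀ x, 0 < ρ x) ∧
      ∀ x, closedBall (D.π x) (2 * ρ x) ⊆ (D.ch x).target :=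
    ⟨fun x => R x / 2, fun x => half_pos (R0 x), fun x z hz =>
      (hR x (by rwa [mul_div_cancel₀ _ two_ne_zero] at hz)).1⟩
  set W : S → Set S := fun x => (D.ch x).source ∩ D.π ⁻¹' ball (D.π x) (ρ x) with hW
  have Wo : ∀ x, IsOpen (W x) := fun x =>
    (D.ch x).open_source.inter (isOpen_ball.preimage D.cont_π)
  have Wn : ∀ x, W x ∈ 𝓝 x := fun x => (Wo x).mem_nhds ⟨D.mem_src x, mem_ball_self (ρ0 x)⟩
  have loc : ∀ x, ∃ G : (ι → ℂ) → ℂ, (∀ z ∈ ball (D.π x) (ρ x), DifferentiableAt ℂ G z) ∧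
      ∀ᵐ z, z ∈ ball (D.π x) (ρ x) → G z = D.lc x (2 * ρ x) g z := fun x => by
    refine weyl_loc (lc_int (hρ x) hg).locallyIntegrable (ρ0 x) fun a ha a0 ξ => ?_
    have hC := isCompact_closedBall (D.π x) (2 * ρ x)
    have s := up_sm ha hC (hρ x) a0
    have kc := sec_cpt hC (hρ x)
    have z0 : ∀ y, y ∉ D.sec x '' closedBall (D.π x) (2 * ρ x) → D.up x a y = 0 :=
      fun y hy => up_zero a0 hy
    have sc := HasCompactSupport.intro kc z0
    have i : ∀ j, Integrable (fun y => g y * D.op I j (D.up x a) y * conj (ξ j)) D.μ := fun j =>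
      (hg.integrable_smul_right_of_hasCompactSupport (s.op I j).cont (op_supp I j sc)).mul_const _
    have z2 : ∀ y, y ∉ D.sec x '' closedBall (D.π x) (2 * ρ x) →
        ∑ j, g y * D.op I j (D.up x a) y * conj (ξ j) = 0 := fun y hy => by
      simp [op_zero' I _ kc z0 hy]
    have e : ∫ y, ∑ j, g y * D.op I j (D.up x a) y * conj (ξ j) ∂D.μ = 0 := by
      rw [integral_finsetSum _ fun j _ => i j]
      simp only [integral_mul_const, h _ s sc, zero_mul, Finset.sum_const_zero]
    rw [← e, int_down (x := x) (integrable_finsetSum _ fun j _ => i j).aestronglyMeasurable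
      fun y hy => z2 y fun h1 => hy (sec_sub (hρ x) h1)]
    congr 1
    funext t
    by_cases ht : t ∈ closedBall (D.π x) (2 * ρ x)
    · rw [lc, indicator_of_mem ht, down_of _ (hρ x ht), F.dbar_coord, Finset.mul_sum]
      refine Finset.sum_congr rfl fun j _ => ?_
      rw [op_sec I j _ (hρ x ht), hop_congr I j (up_sec a (hρ x ht)), mul_assoc]
      rfl
    · rw [lc, indicator_of_notMem ht, zero_mul]
      refine (down_zero z2 ?_).symm
      rintro ⟨_, ⟨w, hw, rfl⟩, rfl⟩
      exact ht (by rwa [π_sec (hρ x hw)])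
  choose G G1 G2 using loc
  have ae : ∀ x, ∀ᵐ y ∂D.μ, y ∈ W x → G x (D.π y) = g y := fun x =>
    (ae_up x (G2 x)).mono fun y h1 hy => by
      rw [h1 hy.1 hy.2, lc_π g hy.1 (ball_sub hy.2 le_rfl (mem_closedBall_self (ρ0 x).le))]
  have ct : ∀ x, ContinuousOn (fun y => G x (D.π y)) (W x) := fun x y hy =>
    ((G1 x _ hy.2).continuousAt.comp D.cont_π.continuousAt).continuousWithinAt
  have ag : ∀ x, ∀ y ∈ W x, G y (D.π y) = G x (D.π y) := fun x y hy => by
    have ho := (Wo y).inter (Wo x)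
    refine Measure.eqOn_open_of_ae_eq (μ := D.μ) ?_ ho ((ct y).mono inter_subset_left)
      ((ct x).mono inter_subset_right) ⟨mem_of_mem_nhds (Wn y), hy⟩
    refine (ae_restrict_iff' ho.measurableSet).2 ?_
    filter_upwards [ae x, ae y] with w h1 h2 hw using (h2 hw.1).trans (h1 hw.2).symm
  refine ⟨fun y => G y (D.π y), fun x => (G1 x _ (mem_ball_self (ρ0 x))).congr_of_eventuallyEq ?_, ?_⟩
  · filter_upwards [D.tendsto_sec x (Wn x), D.π_sec_ev x] with z h1 h2
    rw [ag x _ h1, h2]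
  · obtain ⟨T, hT, hc⟩ := countable_cover_nhds_of_sigmaCompact Wn
    filter_upwards [(ae_ball_iff hT).2 fun x _ => ae x] with y hy
    obtain ⟨x, hx, h1⟩ := mem_iUnion₂.1 (hc ▸ mem_univ y)
    rw [ag x y h1, hy x hx h1]

end RD

end

end Pool.Agent.Lib.MP_5c318e_ag
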